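import Pool.Agent.Lib.QE.KitA

/-! Hoffman bound for projector valued representations. -/

namespace Pool.Agent.Lib.QE

open Finset Matrix Complex Pool.Agent.Lib.MP_5d53d3_co
open scoped BigOperators ComplexConjugate

theorem st_A0 : A0 := by
  intro n d P hn h4 hd hP
  have h := hP.1
  obtain ⟨h1, -⟩ := st_HOF n (Fin d × Fin d) (Ev n) (fun z p => P z p.1 p.2) hn h4 subset_rfl
  have e1 : (ed (Ev n) fun x y =>
      (ip (fun p : Fin d × Fin d => P x p.1 p.2) fun p => P y p.1 p.2).re) = 0 := by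
    rw [← ed_zero (Ev n)]
    exact ed_congr fun x _ y _ hxy => by rw [← trace_eq_ip, h.herm, hP.2 x y hxy]; simp
  have e2 : (ns fun p : Fin d × Fin d => ec (Ev n) fun x => P x p.1 p.2) = fs (mM P) :=
    (fs_eq_ns (mM P)).symm
  have e3 : w2 (Ev n) (fun z (p : Fin d × Fin d) => P z p.1 p.2) = W2 P := by
    simp only [w2, W2, fs, aA, Matrix.of_apply]
    congr 1
    rw [Finset.sum_comm]
    refine sum_congr rfl fun i _ => ?_
    rw [Finset.sum_comm]
    exact sum_congr rfl fun j _ => Fintype.sum_prod_type _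
  have e4 : (es (Ev n) fun x => ns fun p : Fin d × Fin d => P x p.1 p.2) = rk P := by
    rw [h.rk_eq]
    exact es_congr fun x _ => (fs_eq_ns _).symm
  rw [e1, e2, e3, e4, abs_le] at h1
  have hW := h.W2_le (by omega)
  have hW0 := W2_nonneg P
  have hr := h.rk_nonneg
  have hN : (16 : ℝ) ≤ n := by exact_mod_cast hn
  have hD : (d : ℝ) ≤ n := by exact_mod_cast hd
  have e5 : rk P = ((1 : Matrix (Fin d) (Fin d) ℂ)ᴴ * mM P).trace.re := by
    rw [Matrix.conjTranspose_one, ← ec_trace_mM, ec_re]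
    simp only [Matrix.one_mul, rk]
  have e6 : fs (1 : Matrix (Fin d) (Fin d) ℂ) = d := by
    rw [fs_eq_re]; simp
  have h2 := re_trace_sq_le (1 : Matrix (Fin d) (Fin d) ℂ) (mM P)
  rw [← e5, e6] at h2
  have hM := fs_nonneg (mM P)
  have h3 : rk P ^ 2 ≤ n * fs (mM P) := h2.trans (mul_le_mul_of_nonneg_right hD hM)
  set r := rk P
  set W := W2 P
  set M := fs (mM P)
  have hn0 : (0 : ℝ) < n := by linarith
  have hn1 : (0 : ℝ) < n - 1 := by linarith
  obtain ⟨u, hu⟩ : ∃ u : ℝ, u = 1 / n := ⟨_, rfl⟩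
  have hu0 : 0 < u := by rw [hu]; positivity
  have hu1 : u * n = 1 := by rw [hu]; field_simp
  have hu2 : u ≤ 1 / 16 := by nlinarith
  have e7 : 4 / (n : ℝ) ^ 2 * r = 4 * u ^ 2 * r := by rw [hu]; field_simp
  rw [e7] at h1
  obtain ⟨q, hq⟩ : ∃ q : ℝ, q = W / (n - 1) := ⟨_, rfl⟩
  rw [← hq] at h1
  have hq1 : q * (n - 1) = W := by rw [hq]; field_simp
  have hq0 : 0 ≤ q := by rw [hq]; positivity
  have hq2 : q * n ≤ 16 / 15 * W := by nlinarith
  have h5 : n * M ≤ q * n + 4 * u * r := by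
    have : n * M ≤ n * (q + 4 * u ^ 2 * r) := mul_le_mul_of_nonneg_left (by linarith [h1.1]) hn0.le
    have e : n * (q + 4 * u ^ 2 * r) = q * n + 4 * u * r * (u * n) := by ring
    rw [e, hu1] at this
    linarith
  have hur : u * r ≤ 1 / 16 * r := mul_le_mul_of_nonneg_right hu2 hr
  have h6 : r ≤ 12 / 5 := by nlinarith
  refine ⟨by linarith, ?_, by linarith, ?_⟩
  · rw [le_div_iff₀ hn0]
    nlinarith
  · have e : (16 : ℝ) / n = 16 * u := by rw [hu]; ring
    rw [e]
    have h7 : r ^ 2 ≤ W + q + 4 * u * r := by nlinarith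
    have h8 : q ≤ 16 / 15 * W * u := by
      have := mul_le_mul_of_nonneg_right hq2 hu0.le
      have e' : q * n * u = q * (u * n) := by ring
      rw [e', hu1] at this
      linarith
    nlinarith

end Pool.Agent.Lib.QE
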