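import Pool.Agent.Lib.QE.KitA

/-! Lower bound for the triangle sum. -/

namespace Pool.Agent.Lib.QE

open Finset Matrix Complex Pool.Agent.Lib.MP_5d53d3_co
open scoped BigOperators ComplexConjugate

namespace A1h

variable {n d : ℕ} {P : X n → Matrix (Fin d) (Fin d) ℂ} {m : ℝ}

/-- fourth order moments -/
noncomputable def bq (P : X n → Matrix (Fin d) (Fin d) ℂ) (i j k l : Fin n) :
    Matrix (Fin d) (Fin d) ℂ :=
  Matrix.of fun a b => ec (Ev n) fun z => (sg z i : ℂ) * sg z j * (sg z k * sg z l) * P z a b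

theorem sgc (z : X n) (i : Fin n) : (sg z i : ℂ) * sg z i = 1 := by
  rw [← ofReal_mul, sg_sq, ofReal_one]

theorem bq_of (P : X n → Matrix (Fin d) (Fin d) ℂ) {i j k l p q : Fin n}
    (h : ∀ z : X n, (sg z i : ℂ) * sg z j * (sg z k * sg z l) = sg z p * sg z q) :
    bq P i j k l = aA P p q + if p = q then mM P else 0 := by
  ext a b
  rw [Matrix.add_apply, aA_eq]
  simp only [bq, Matrix.of_apply, h]
  split_ifs <;> simp

theorem bq_eq (P : X n → Matrix (Fin d) (Fin d) ℂ) {i j k l : Fin n} (h1 : i ≠ j) (h2 : k ≠ l) :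
    bq P i j k l = (if Dis i j k l then bq P i j k l else 0) + (if j = k then aA P l i else 0) +
      (if i = k then aA P l j else 0) + (if j = l then aA P k i else 0) +
      (if i = l then aA P k j else 0) + (if i = k then if j = l then mM P else 0 else 0) +
      (if j = k then if i = l then mM P else 0 else 0) := by
  by_cases h3 : j = k
  · subst h3
    rw [bq_of P (p := l) (q := i) fun z => by linear_combination (sg z i * sg z l : ℂ) * sgc z j]
    by_cases h4 : i = l
    · subst h4
      simp [Dis, h1, h2, aA_diag]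
    · simp [Dis, h1, h2, h4, Ne.symm h4]
  by_cases h4 : i = k
  · subst h4
    rw [bq_of P (p := l) (q := j) fun z => by linear_combination (sg z j * sg z l : ℂ) * sgc z i]
    by_cases h5 : j = l
    · subst h5
      simp [Dis, h1, h3, aA_diag]
    · simp [Dis, h2, h3, h5, Ne.symm h5]
  by_cases h5 : j = l
  · subst h5
    rw [bq_of P (p := k) (q := i) fun z => by linear_combination (sg z i * sg z k : ℂ) * sgc z j]
    simp [Dis, h1, h3, h4, Ne.symm h4]
  by_cases h6 : i = l
  · subst h6
    rw [bq_of P (p := k) (q := j) fun z => by linear_combination (sg z j * sg z k : ℂ) * sgc z i]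
    simp [Dis, h3, h4, h5, Ne.symm h3]
  · simp [Dis, h1, h2, h3, h4, h5, h6]

theorem term_eq (P : X n → Matrix (Fin d) (Fin d) ℂ) (i j k l : Fin n) :
    (aA P i j * aA P k l * bq P i j k l).trace.re =
      (if Dis i j k l then (aA P i j * aA P k l * bq P i j k l).trace.re else 0) +
      (if j = k then (aA P i j * aA P j l * aA P l i).trace.re else 0) +
      (if i = k then (aA P j i * aA P i l * aA P l j).trace.re else 0) +
      (if j = l then (aA P i j * aA P j k * aA P k i).trace.re else 0) +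
      (if i = l then (aA P j i * aA P i k * aA P k j).trace.re else 0) +
      (if i = k then if j = l then (aA P i j * aA P i j * mM P).trace.re else 0 else 0) +
      (if j = k then if i = l then (aA P i j * aA P i j * mM P).trace.re else 0 else 0) := by
  by_cases h1 : i = j
  · subst h1
    simp [aA_diag]
  by_cases h2 : k = l
  · subst h2
    by_cases h3 : j = k <;> by_cases h4 : i = k <;> simp_all [aA_diag, Dis]
  have := congrArg (fun B => (aA P i j * aA P k l * B).trace.re) (bq_eq P h1 h2)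
  simp only [Matrix.mul_add, Matrix.trace_add, add_re, apply_ite (fun B : Matrix (Fin d) (Fin d) ℂ =>
    (aA P i j * aA P k l * B).trace.re), Matrix.mul_zero, Matrix.trace_zero, zero_re] at this
  refine this.trans ?_
  have a1 : (if j = k then (aA P i j * aA P k l * aA P l i).trace.re else 0) =
      if j = k then (aA P i j * aA P j l * aA P l i).trace.re else 0 := by
    split_ifs with h
    · rw [h]
    · rfl
  have a2 : (if i = k then (aA P i j * aA P k l * aA P l j).trace.re else 0) =
      if i = k then (aA P j i * aA P i l * aA P l j).trace.re else 0 := by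
    split_ifs with h
    · rw [aA_symm P j i, ← h]
    · rfl
  have a3 : (if j = l then (aA P i j * aA P k l * aA P k i).trace.re else 0) =
      if j = l then (aA P i j * aA P j k * aA P k i).trace.re else 0 := by
    split_ifs with h
    · rw [aA_symm P j k, ← h]
    · rfl
  have a4 : (if i = l then (aA P i j * aA P k l * aA P k j).trace.re else 0) =
      if i = l then (aA P j i * aA P i k * aA P k j).trace.re else 0 := by
    split_ifs with h
    · rw [aA_symm P j i, aA_symm P i k, ← h]
    · rfl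
  have a5 : (if i = k then if j = l then (aA P i j * aA P k l * mM P).trace.re else 0 else 0) =
      if i = k then if j = l then (aA P i j * aA P i j * mM P).trace.re else 0 else 0 := by
    split_ifs with h h'
    · rw [← h, ← h']
    · rfl
    · rfl
  have a6 : (if j = k then if i = l then (aA P i j * aA P k l * mM P).trace.re else 0 else 0) =
      if j = k then if i = l then (aA P i j * aA P i j * mM P).trace.re else 0 else 0 := by
    split_ifs with h h'
    · rw [← h, ← h', aA_symm P j i]
    · rfl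
    · rfl
  rw [a1, a2, a3, a4, a5, a6]

theorem sum_term (P : X n → Matrix (Fin d) (Fin d) ℂ) :
    ∑ i, ∑ j, ∑ k, ∑ l, (aA P i j * aA P k l * bq P i j k l).trace.re =
      (∑ i, ∑ j, ∑ k, ∑ l,
        if Dis i j k l then (aA P i j * aA P k l * bq P i j k l).trace.re else 0) +
      4 * T3 P + 2 * ∑ i, ∑ j, (aA P i j * aA P i j * mM P).trace.re := by
  have e : ∑ i, ∑ j, ∑ k, (aA P j i * aA P i k * aA P k j).trace.re = T3 P := Finset.sum_comm
  have e' : ∑ i, ∑ j, ∑ k, (aA P i j * aA P j k * aA P k i).trace.re = T3 P := rfl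
  rw [sum_congr rfl fun i _ => sum_congr rfl fun j _ => sum_congr rfl fun k _ =>
    sum_congr rfl fun l _ => term_eq P i j k l]
  simp only [Finset.sum_add_distrib, Finset.sum_ite_irrel, Finset.sum_const_zero,
    Finset.sum_ite_eq, mem_univ, if_true, e, e']
  ring

theorem trace_form (A M : Matrix (Fin d) (Fin d) ℂ) :
    (Aᴴ * M * A).trace = ∑ c, ip (fun a => A a c) (M *ᵥ fun a => A a c) := by
  rw [Matrix.mul_assoc]
  simp only [Matrix.trace, Matrix.diag, Matrix.mul_apply, ip, Matrix.mulVec, dotProduct,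
    Matrix.conjTranspose_apply, RCLike.star_def]

theorem m_term (h : PV P) (hm : 0 ≤ m) (hM : fs (mM P) ≤ m ^ 2) (i j : Fin n) :
    (aA P i j * aA P i j * mM P).trace.re ≤ m * fs (aA P i j) := by
  have e : (aA P i j * aA P i j * mM P).trace = ((aA P i j)ᴴ * mM P * aA P i j).trace := by
    rw [h.aA_herm, Matrix.mul_assoc, Matrix.trace_mul_comm]
  rw [e, trace_form, fs_eq_cols, Finset.mul_sum, re_sum]
  exact sum_le_sum fun c _ => (le_abs_self _).trans (form_le hm hM _)

theorem dis_term (h : PV P) (hn : 16 ≤ n) (hm : 0 ≤ m) (hM : fs (mM P) ≤ m ^ 2) :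
    (∑ i, ∑ j, ∑ k, ∑ l,
      if Dis i j k l then (aA P i j * aA P k l * bq P i j k l).trace.re else 0) ≤
      48 * √(m * W2 P * rk P) := by
  classical
  set T : Finset (Fin n × Fin n × Fin n × Fin n) :=
    univ.filter fun t => Dis t.1 t.2.1 t.2.2.1 t.2.2.2 with hT
  have e1 : (∑ i, ∑ j, ∑ k, ∑ l,
      if Dis i j k l then (aA P i j * aA P k l * bq P i j k l).trace.re else 0) =
      ∑ t ∈ T, (aA P t.1 t.2.1 * aA P t.2.2.1 t.2.2.2 *
        bq P t.1 t.2.1 t.2.2.1 t.2.2.2).trace.re := by
    rw [hT, Finset.sum_filter]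
    simp only [Fintype.sum_prod_type]
  have h1 : ∑ t ∈ T, fs (aA P t.1 t.2.1 * aA P t.2.2.1 t.2.2.2) ≤ 8 * (m * W2 P) := by
    refine (sum_le_sum_of_subset_of_nonneg (subset_univ T) fun _ _ _ => fs_nonneg _).trans ?_
    simp only [Fintype.sum_prod_type]
    have e : ∑ i, ∑ j, ∑ k, ∑ l, fs (aA P i j * aA P k l) =
        ∑ k, ∑ l, ∑ i, ∑ j, fs (aA P i j * aA P k l) := by
      rw [← Fintype.sum_prod_type' (fun i j => ∑ k, ∑ l, fs (aA P i j * aA P k l)),
        Finset.sum_comm]
      refine sum_congr rfl fun k _ => ?_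
      rw [Finset.sum_comm]
      exact sum_congr rfl fun l _ => Fintype.sum_prod_type' fun i j => fs (aA P i j * aA P k l)
    rw [e]
    refine (sum_le_sum fun k _ => sum_le_sum fun l _ => h.bes_mat (by omega) hm hM _).trans ?_
    simp only [← Finset.mul_sum, sum_fs_aA]
    linarith
  have h2 : ∑ t ∈ T, fs (bq P t.1 t.2.1 t.2.2.1 t.2.2.2) ≤ 256 * rk P := by
    have e : ∑ t ∈ T, fs (bq P t.1 t.2.1 t.2.2.1 t.2.2.2) = ∑ a, ∑ b, ∑ t ∈ T,
        normSq (ec (Ev n) fun x => (ch {t.1, t.2.1, t.2.2.1, t.2.2.2} x : ℂ) * P x a b) := by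
      unfold fs
      rw [Finset.sum_comm]
      refine sum_congr rfl fun a _ => ?_
      rw [Finset.sum_comm]
      refine sum_congr rfl fun b _ => sum_congr rfl fun t ht => ?_
      simp only [bq, Matrix.of_apply, ch_four (mem_filter.1 ht).2, ofReal_mul]
    rw [e, h.rk_eq]
    refine (sum_le_sum fun a _ => sum_le_sum fun b _ => besc (by omega) subset_rfl T _
      (fun _ _ => Finset.card_le_four) (fiber4 T) fun x => P x a b).trans ?_
    simp only [← Finset.mul_sum, ← es_sum, fs]
    norm_num
  rw [e1]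
  have h3 : ∀ t ∈ T, (aA P t.1 t.2.1 * aA P t.2.2.1 t.2.2.2 *
      bq P t.1 t.2.1 t.2.2.1 t.2.2.2).trace.re ≤
      √(fs (aA P t.1 t.2.1 * aA P t.2.2.1 t.2.2.2)) * √(fs (bq P t.1 t.2.1 t.2.2.1 t.2.2.2)) := by
    intro t _
    have := re_trace_sq_le (aA P t.1 t.2.1 * aA P t.2.2.1 t.2.2.2)ᴴ
      (bq P t.1 t.2.1 t.2.2.1 t.2.2.2)
    rw [Matrix.conjTranspose_conjTranspose, fs_conjTranspose] at this
    exact (le_abs_self _).trans (le_sqrt_mul this (fs_nonneg _))
  refine (sum_le_sum h3).trans ?_
  have h4 := Finset.sum_mul_sq_le_sq_mul_sq T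
    (fun t => √(fs (aA P t.1 t.2.1 * aA P t.2.2.1 t.2.2.2)))
    fun t => √(fs (bq P t.1 t.2.1 t.2.2.1 t.2.2.2))
  simp only [Real.sq_sqrt (fs_nonneg _)] at h4
  have h0 : 0 ≤ m * W2 P := mul_nonneg hm (W2_nonneg P)
  have h5 := h4.trans (mul_le_mul h1 h2 (sum_nonneg fun _ _ => fs_nonneg _) (by linarith))
  refine (abs_le_of_sq_le_sq' (h5.trans ?_) (by positivity)).2
  rw [mul_pow, Real.sq_sqrt (mul_nonneg h0 h.rk_nonneg)]
  nlinarith [mul_nonneg h0 h.rk_nonneg]

end A1h

open A1h in
theorem st_A1 : A1 := by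
  intro n d P m hn h hm hM
  set R : X n → Matrix (Fin d) (Fin d) ℂ :=
    fun z => ∑ i, ∑ j, ((sg z i : ℂ) * sg z j) • aA P i j with hR
  have hRh : ∀ z, (R z)ᴴ = R z := fun z => by
    simp only [hR, Matrix.conjTranspose_sum, Matrix.conjTranspose_smul, h.aA_herm, star_mul',
      RCLike.star_def, conj_ofReal]
  have e1 : (es (Ev n) fun z => (R z * P z).trace.re) = 2 * W2 P := by
    rw [← ec_re, ← sum_fs_aA]
    simp only [hR, Finset.sum_mul, Matrix.smul_mul, Matrix.trace_sum, Matrix.trace_smul,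
      smul_eq_mul, ec_sum, ec_trace_aA, re_sum]
    refine sum_congr rfl fun i _ => sum_congr rfl fun j _ => ?_
    rw [fs_eq_re, h.aA_herm]
    split_ifs with hij
    · subst hij
      simp [aA_diag]
    · rw [add_zero]
  have e2 : (es (Ev n) fun z => fs (R z * P z)) =
      ∑ i, ∑ j, ∑ k, ∑ l, (aA P i j * aA P k l * bq P i j k l).trace.re := by
    have : ∀ z, fs (R z * P z) = (R z * R z * P z).trace.re := fun z => by
      rw [fs_eq_re, Matrix.conjTranspose_mul, hRh, h.herm, Matrix.mul_assoc, Matrix.trace_mul_comm,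
        Matrix.mul_assoc, Matrix.mul_assoc, (h z).2, Matrix.mul_assoc]
    simp only [this]
    rw [← ec_re]
    have e : ∀ z, (R z * R z * P z).trace = ∑ i, ∑ j, ∑ k, ∑ l,
        (sg z i : ℂ) * sg z j * (sg z k * sg z l) * (aA P i j * aA P k l * P z).trace := fun z => by
      simp only [hR, Finset.sum_mul]
      simp only [Finset.mul_sum, Finset.sum_mul, Matrix.smul_mul, Matrix.mul_smul, smul_smul,
        Matrix.trace_sum, Matrix.trace_smul, smul_eq_mul]
      refine sum_congr rfl fun i _ => sum_congr rfl fun j _ => sum_congr rfl fun k _ =>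
        sum_congr rfl fun l _ => by ring
    simp only [e, ec_sum, ec_trace, re_sum, bq]
  have h1 : 2 * W2 P ≤ es (Ev n) fun z => √(fs (P z)) * √(fs (R z * P z)) := by
    rw [← e1]
    refine es_mono fun z _ => ?_
    have := re_trace_sq_le (P z) (R z * P z)
    rw [h.herm, Matrix.trace_mul_comm, Matrix.mul_assoc, (h z).2] at this
    exact (le_abs_self _).trans (le_sqrt_mul this (fs_nonneg _))
  have h2 := es_cs (Ev n) (fun z => √(fs (P z))) fun z => √(fs (R z * P z))
  simp only [Real.sq_sqrt (fs_nonneg _)] at h2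
  rw [← h.rk_eq, e2, sum_term] at h2
  have h3 := dis_term h hn hm hM
  have h4 : ∑ i, ∑ j, (aA P i j * aA P i j * mM P).trace.re ≤ m * (2 * W2 P) := by
    rw [← sum_fs_aA]
    simp only [Finset.mul_sum]
    exact sum_le_sum fun i _ => sum_le_sum fun j _ => m_term h hm hM i j
  have h5 := pow_le_pow_left₀ (mul_nonneg zero_le_two (W2_nonneg P)) h1 2
  have h6 := mul_le_mul_of_nonneg_left (add_le_add h3 (mul_le_mul_of_nonneg_left h4 zero_le_two))
    h.rk_nonneg
  nlinarith

end Pool.Agent.Lib.QE
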