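import Pool.Agent.Lib.QE.Blue

/-! Elementary facts on the normalised sums and on squared norms. -/

namespace Pool.Agent.Lib.QE

open Finset Matrix Complex Pool.Agent.Lib.MP_5d53d3_co
open scoped BigOperators ComplexConjugate

variable {n d : ℕ} {ι κ : Type}

theorem mem_Ev {x : X n} : x ∈ Ev n ↔ ch univ x = 1 := by simp [Ev]

theorem card_Ev_pos : (0 : ℝ) < (Ev n).card := by
  have : (1 : X n) ∈ Ev n := by simp [mem_Ev, ch, sg]
  exact_mod_cast Finset.card_pos.2 ⟨_, this⟩

section Es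
variable {S T : Finset (X n)} {f g : X n → ℝ}

theorem es_congr (h : ∀ x ∈ S, f x = g x) : es S f = es S g := by
  unfold es; rw [Finset.sum_congr rfl h]

theorem es_mono (h : ∀ x ∈ S, f x ≤ g x) : es S f ≤ es S g :=
  div_le_div_of_nonneg_right (Finset.sum_le_sum h) card_Ev_pos.le

theorem es_nonneg (h : ∀ x ∈ S, 0 ≤ f x) : 0 ≤ es S f :=
  div_nonneg (Finset.sum_nonneg h) card_Ev_pos.le

theorem es_subset (hST : S ⊆ T) (h : ∀ x ∈ T, 0 ≤ f x) : es S f ≤ es T f :=
  div_le_div_of_nonneg_right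
    (Finset.sum_le_sum_of_subset_of_nonneg hST fun x hx _ => h x hx) card_Ev_pos.le

theorem es_add (S : Finset (X n)) (f g : X n → ℝ) :
    es S (fun x => f x + g x) = es S f + es S g := by
  unfold es; rw [Finset.sum_add_distrib, add_div]

theorem es_sub (S : Finset (X n)) (f g : X n → ℝ) :
    es S (fun x => f x - g x) = es S f - es S g := by
  unfold es; rw [Finset.sum_sub_distrib, sub_div]

theorem es_mul (S : Finset (X n)) (c : ℝ) (f : X n → ℝ) :
    es S (fun x => c * f x) = c * es S f := by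
  unfold es; rw [← Finset.mul_sum, mul_div_assoc]

theorem es_div (S : Finset (X n)) (c : ℝ) (f : X n → ℝ) :
    es S (fun x => f x / c) = es S f / c := by
  unfold es; rw [← Finset.sum_div, div_right_comm]

theorem es_neg (S : Finset (X n)) (f : X n → ℝ) : es S (fun x => -f x) = -es S f := by
  unfold es; rw [Finset.sum_neg_distrib, neg_div]

theorem es_sum {α : Type*} (S : Finset (X n)) (T : Finset α) (f : α → X n → ℝ) :
    es S (fun x => ∑ a ∈ T, f a x) = ∑ a ∈ T, es S (f a) := by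
  unfold es; rw [Finset.sum_comm, Finset.sum_div]

theorem es_const (S : Finset (X n)) (c : ℝ) : es S (fun _ => c) = c * mu S := by
  unfold es mu; rw [Finset.sum_const, nsmul_eq_mul]; ring

theorem es_zero (S : Finset (X n)) : es S (fun _ => 0) = 0 := by simp [es]

theorem es_sdiff (hST : S ⊆ T) (f : X n → ℝ) : es T f = es S f + es (T \ S) f := by
  unfold es; rw [← add_div, add_comm, Finset.sum_sdiff hST]

theorem es_filter (S : Finset (X n)) (p : X n → Prop) [DecidablePred p] (f : X n → ℝ) :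
    es (S.filter p) f = es S fun x => if p x then f x else 0 := by
  unfold es; rw [Finset.sum_filter]

theorem es_ind (hS : S ⊆ T) (f : X n → ℝ) :
    es S f = es T fun x => if x ∈ S then f x else 0 := by
  rw [← es_filter]
  congr 1
  ext x
  simp only [Finset.mem_filter]
  exact ⟨fun h => ⟨hS h, h⟩, fun h => h.2⟩

theorem mu_nonneg (S : Finset (X n)) : 0 ≤ mu S := div_nonneg (Nat.cast_nonneg _) card_Ev_pos.le

theorem mu_mono (h : S ⊆ T) : mu S ≤ mu T :=
  div_le_div_of_nonneg_right (by exact_mod_cast Finset.card_le_card h) card_Ev_pos.le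

theorem mu_Ev : mu (Ev n) = 1 := div_self card_Ev_pos.ne'

theorem mu_le_one (h : S ⊆ Ev n) : mu S ≤ 1 := mu_Ev ▸ mu_mono h

theorem mu_eq_es (S : Finset (X n)) : mu S = es S fun _ => 1 := by rw [es_const, one_mul]

theorem mu_sdiff (hST : S ⊆ T) : mu T = mu S + mu (T \ S) := by
  simp only [mu_eq_es]; exact es_sdiff hST _

theorem mu_union_le (S T : Finset (X n)) : mu (S ∪ T) ≤ mu S + mu T := by
  unfold mu
  rw [← add_div]
  exact div_le_div_of_nonneg_right (by exact_mod_cast Finset.card_union_le S T) card_Ev_pos.le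

theorem mu_empty : mu (∅ : Finset (X n)) = 0 := by simp [mu]

theorem es_le_mul {c : ℝ} (h : ∀ x ∈ S, f x ≤ c) : es S f ≤ c * mu S :=
  (es_mono h).trans (es_const S c).le

theorem es_cs_sum [Fintype ι] (S : Finset (X n)) (f g : X n → ι → ℝ) :
    (es S fun x => ∑ a, f x a * g x a) ^ 2 ≤
      (es S fun x => ∑ a, f x a ^ 2) * es S fun x => ∑ a, g x a ^ 2 := by
  have h := Finset.sum_mul_sq_le_sq_mul_sq (S ×ˢ (univ : Finset ι))
    (fun p => f p.1 p.2) (fun p => g p.1 p.2)
  simp only [Finset.sum_product] at h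
  simp only [es, div_pow, div_mul_div_comm, ← sq]
  exact div_le_div_of_nonneg_right h (by positivity)

theorem es_cs (S : Finset (X n)) (f g : X n → ℝ) :
    (es S fun x => f x * g x) ^ 2 ≤ (es S fun x => f x ^ 2) * es S fun x => g x ^ 2 := by
  simpa using es_cs_sum (ι := Unit) S (fun x _ => f x) fun x _ => g x

theorem es_sq_le (S : Finset (X n)) (f : X n → ℝ) :
    es S f ^ 2 ≤ mu S * es S fun x => f x ^ 2 := by
  simpa [es_const] using es_cs S (fun _ => 1) f

theorem abs_es_le (S : Finset (X n)) (f : X n → ℝ) : |es S f| ≤ es S fun x => |f x| := by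
  unfold es
  rw [abs_div, abs_of_pos card_Ev_pos]
  exact div_le_div_of_nonneg_right (Finset.abs_sum_le_sum_abs _ _) card_Ev_pos.le

theorem es_eq_zero (h : ∀ x ∈ S, 0 ≤ f x) (h0 : es S f = 0) : ∀ x ∈ S, f x = 0 := by
  unfold es at h0
  rw [div_eq_zero_iff, or_iff_left card_Ev_pos.ne'] at h0
  exact (Finset.sum_eq_zero_iff_of_nonneg h).1 h0

theorem markov {c : ℝ} (h : ∀ x ∈ S, 0 ≤ f x) (p : X n → Prop) [DecidablePred p]
    (hp : ∀ x ∈ S, p x → c ≤ f x) : c * mu (S.filter p) ≤ es S f := by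
  rw [← es_const]
  exact (es_mono fun x hx => hp x (Finset.mem_filter.1 hx).1 (Finset.mem_filter.1 hx).2).trans
    (es_subset (Finset.filter_subset _ _) h)

end Es

theorem le_sqrt_mul {a b c : ℝ} (h : a ^ 2 ≤ b * c) (hb : 0 ≤ b) : |a| ≤ √b * √c := by
  rw [← Real.sqrt_mul hb]
  exact Real.abs_le_sqrt h

section Ec
variable {S : Finset (X n)}

theorem ec_re (S : Finset (X n)) (f : X n → ℂ) : (ec S f).re = es S fun x => (f x).re := by
  unfold ec es; rw [Complex.div_natCast_re, Complex.re_sum]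

theorem ec_im (S : Finset (X n)) (f : X n → ℂ) : (ec S f).im = es S fun x => (f x).im := by
  unfold ec es; rw [Complex.div_natCast_im, Complex.im_sum]

theorem ec_congr {f g : X n → ℂ} (h : ∀ x ∈ S, f x = g x) : ec S f = ec S g := by
  unfold ec; rw [Finset.sum_congr rfl h]

theorem ec_add (S : Finset (X n)) (f g : X n → ℂ) :
    ec S (fun x => f x + g x) = ec S f + ec S g := by
  unfold ec; rw [Finset.sum_add_distrib, add_div]

theorem ec_sub (S : Finset (X n)) (f g : X n → ℂ) :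
    ec S (fun x => f x - g x) = ec S f - ec S g := by
  unfold ec; rw [Finset.sum_sub_distrib, sub_div]

theorem ec_mul (S : Finset (X n)) (c : ℂ) (f : X n → ℂ) :
    ec S (fun x => c * f x) = c * ec S f := by
  unfold ec; rw [← Finset.mul_sum, mul_div_assoc]

theorem ec_mul' (S : Finset (X n)) (c : ℂ) (f : X n → ℂ) :
    ec S (fun x => f x * c) = ec S f * c := by
  unfold ec; rw [← Finset.sum_mul, mul_div_right_comm]

theorem ec_sum {α : Type*} (S : Finset (X n)) (T : Finset α) (f : α → X n → ℂ) :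
    ec S (fun x => ∑ a ∈ T, f a x) = ∑ a ∈ T, ec S (f a) := by
  unfold ec; rw [Finset.sum_comm, Finset.sum_div]

theorem ec_conj (S : Finset (X n)) (f : X n → ℂ) :
    conj (ec S f) = ec S fun x => conj (f x) := by
  unfold ec; simp

theorem ec_ofReal (S : Finset (X n)) (f : X n → ℝ) :
    ec S (fun x => (f x : ℂ)) = (es S f : ℝ) := by
  unfold ec es; push_cast; rfl

end Ec

section Tn
variable {S T : Finset (X n)} {f g : X n → ℝ} {x : X n}

theorem tn_congr (h : ∀ y ∈ S, dt x y = 0 → f y = g y) : tn S x f = tn S x g := by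
  unfold tn
  rw [Finset.sum_congr rfl fun y hy => h y (Finset.mem_filter.1 hy).1 (Finset.mem_filter.1 hy).2]

theorem tn_mono (h : ∀ y ∈ S, dt x y = 0 → f y ≤ g y) : tn S x f ≤ tn S x g :=
  div_le_div_of_nonneg_right (Finset.sum_le_sum fun y hy =>
    h y (Finset.mem_filter.1 hy).1 (Finset.mem_filter.1 hy).2) (Nat.cast_nonneg _)

theorem tn_nonneg (h : ∀ y ∈ S, 0 ≤ f y) : 0 ≤ tn S x f :=
  div_nonneg (Finset.sum_nonneg fun y hy => h y (Finset.mem_filter.1 hy).1) (Nat.cast_nonneg _)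

theorem tn_subset (hST : S ⊆ T) (h : ∀ y ∈ T, 0 ≤ f y) : tn S x f ≤ tn T x f :=
  div_le_div_of_nonneg_right (Finset.sum_le_sum_of_subset_of_nonneg
    (Finset.filter_subset_filter _ hST) fun y hy _ => h y (Finset.mem_filter.1 hy).1)
    (Nat.cast_nonneg _)

theorem tn_add (S : Finset (X n)) (x : X n) (f g : X n → ℝ) :
    tn S x (fun y => f y + g y) = tn S x f + tn S x g := by
  unfold tn; rw [Finset.sum_add_distrib, add_div]

theorem tn_sub (S : Finset (X n)) (x : X n) (f g : X n → ℝ) :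
    tn S x (fun y => f y - g y) = tn S x f - tn S x g := by
  unfold tn; rw [Finset.sum_sub_distrib, sub_div]

theorem tn_mul (S : Finset (X n)) (x : X n) (c : ℝ) (f : X n → ℝ) :
    tn S x (fun y => c * f y) = c * tn S x f := by
  unfold tn; rw [← Finset.mul_sum, mul_div_assoc]

theorem tn_sum {α : Type*} (S : Finset (X n)) (x : X n) (T : Finset α) (f : α → X n → ℝ) :
    tn S x (fun y => ∑ a ∈ T, f a y) = ∑ a ∈ T, tn S x (f a) := by
  unfold tn; rw [Finset.sum_comm, Finset.sum_div]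

theorem tn_zero (S : Finset (X n)) (x : X n) : tn S x (fun _ => 0) = 0 := by simp [tn]

theorem tn_sdiff (hST : S ⊆ T) (x : X n) (f : X n → ℝ) :
    tn T x f = tn S x f + tn (T \ S) x f := by
  unfold tn
  rw [← add_div, ← Finset.sum_sdiff (Finset.filter_subset_filter (fun y => dt x y = 0) hST),
    add_comm]
  congr 3
  ext y
  simp only [Finset.mem_sdiff, Finset.mem_filter]
  tauto

theorem tn_ind (hS : S ⊆ T) (x : X n) (f : X n → ℝ) :
    tn S x f = tn T x fun y => if y ∈ S then f y else 0 := by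
  unfold tn
  rw [← Finset.sum_filter]
  congr 2
  ext y
  simp only [Finset.mem_filter]
  exact ⟨fun h => ⟨⟨hS h.1, h.2⟩, h.1⟩, fun h => ⟨h.2, h.1.2⟩⟩

theorem dt_comm (x y : X n) : dt x y = dt y x := Finset.sum_congr rfl fun _ _ => mul_comm _ _

theorem dt_mul (x z : X n) : dt x (x * z) = ∑ i, sg z i :=
  Finset.sum_congr rfl fun i _ => by rw [sg_mul, ← mul_assoc, sg_sq, one_mul]

theorem mul_mul_self (x z : X n) : x * (x * z) = z := by
  funext i
  simp [← mul_assoc]

theorem card_Nb (x : X n) : (Nb x).card = (Nb (1 : X n)).card := by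
  refine Finset.card_bij' (fun y _ => x * y) (fun y _ => x * y) ?_ ?_
    (fun y _ => mul_mul_self x y) (fun y _ => mul_mul_self x y)
  · intro y hy
    simp only [Nb, Finset.mem_filter, Finset.mem_univ, true_and] at hy ⊢
    rw [← one_mul (x * y), dt_mul, ← dt_mul x, mul_mul_self, hy]
  · intro y hy
    simp only [Nb, Finset.mem_filter, Finset.mem_univ, true_and] at hy ⊢
    rw [dt_mul, ← dt_mul 1, one_mul, hy]

theorem ed_symm (S : Finset (X n)) (K : X n → X n → ℝ) : ed S K = ed S fun x y => K y x := by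
  unfold ed es tn
  simp only [card_Nb, ← Finset.sum_div, Finset.sum_filter]
  rw [Finset.sum_comm]
  simp only [dt_comm]

theorem ed_congr {K L : X n → X n → ℝ} (h : ∀ x ∈ S, ∀ y ∈ S, dt x y = 0 → K x y = L x y) :
    ed S K = ed S L := es_congr fun x hx => tn_congr (h x hx)

theorem ed_mono {K L : X n → X n → ℝ} (h : ∀ x ∈ S, ∀ y ∈ S, dt x y = 0 → K x y ≤ L x y) :
    ed S K ≤ ed S L := es_mono fun x hx => tn_mono (h x hx)

theorem ed_add (S : Finset (X n)) (K L : X n → X n → ℝ) :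
    ed S (fun x y => K x y + L x y) = ed S K + ed S L := by
  unfold ed; simp only [tn_add, es_add]

theorem ed_mul (S : Finset (X n)) (c : ℝ) (K : X n → X n → ℝ) :
    ed S (fun x y => c * K x y) = c * ed S K := by
  unfold ed; simp only [tn_mul, es_mul]

theorem ed_zero (S : Finset (X n)) : ed S (fun _ _ => 0) = 0 := by
  unfold ed; simp only [tn_zero, es_zero]

end Tn

section Ns
variable [Fintype ι] [Fintype κ]

theorem ns_nonneg (v : ι → ℂ) : 0 ≤ ns v := Finset.sum_nonneg fun _ _ => normSq_nonneg _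

theorem fs_nonneg (A : Matrix ι κ ℂ) : 0 ≤ fs A :=
  Finset.sum_nonneg fun _ _ => Finset.sum_nonneg fun _ _ => normSq_nonneg _

theorem rs_nonneg (w : Fin n → ℝ) : 0 ≤ rs w := Finset.sum_nonneg fun _ _ => sq_nonneg _

theorem ns_eq_zero {v : ι → ℂ} (h : ns v = 0) : v = 0 := by
  funext a
  exact normSq_eq_zero.1 ((Finset.sum_eq_zero_iff_of_nonneg fun _ _ => normSq_nonneg _).1 h a
    (mem_univ _))

theorem fs_eq_zero {A : Matrix ι κ ℂ} (h : fs A = 0) : A = 0 := by
  ext a b
  exact congrFun (ns_eq_zero (v := A a) ((Finset.sum_eq_zero_iff_of_nonneg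
    fun a _ => ns_nonneg (A a)).1 h a (mem_univ _))) b

theorem rs_eq_zero {w : Fin n → ℝ} (h : rs w = 0) : w = 0 := by
  funext a
  exact pow_eq_zero_iff (two_ne_zero) |>.1
    ((Finset.sum_eq_zero_iff_of_nonneg fun _ _ => sq_nonneg _).1 h a (mem_univ _))

theorem ip_self (v : ι → ℂ) : ip v v = (ns v : ℝ) := by
  simp only [ip, ns, ← normSq_eq_conj_mul_self]; push_cast; rfl

theorem ip_conj (v w : ι → ℂ) : conj (ip v w) = ip w v := by
  simp only [ip, map_sum, map_mul, conj_conj, mul_comm]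

theorem ip_add_left (u v w : ι → ℂ) : ip (u + v) w = ip u w + ip v w := by
  simp only [ip, Pi.add_apply, map_add, add_mul, Finset.sum_add_distrib]

theorem ip_add_right (u v w : ι → ℂ) : ip u (v + w) = ip u v + ip u w := by
  simp only [ip, Pi.add_apply, mul_add, Finset.sum_add_distrib]

theorem ip_sub_left (u v w : ι → ℂ) : ip (u - v) w = ip u w - ip v w := by
  simp only [ip, Pi.sub_apply, map_sub, sub_mul, Finset.sum_sub_distrib]

theorem ip_sub_right (u v w : ι → ℂ) : ip u (v - w) = ip u v - ip u w := by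
  simp only [ip, Pi.sub_apply, mul_sub, Finset.sum_sub_distrib]

theorem ip_smul_left (c : ℂ) (v w : ι → ℂ) : ip (c • v) w = conj c * ip v w := by
  simp only [ip, Pi.smul_apply, smul_eq_mul, map_mul, Finset.mul_sum, mul_assoc]

theorem ip_smul_right (c : ℂ) (v w : ι → ℂ) : ip v (c • w) = c * ip v w := by
  simp only [ip, Pi.smul_apply, smul_eq_mul, Finset.mul_sum, mul_left_comm]

theorem ip_zero_left (w : ι → ℂ) : ip 0 w = 0 := by simp [ip]

theorem ip_zero_right (w : ι → ℂ) : ip w 0 = 0 := by simp [ip]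

theorem ip_mulVec (A : Matrix ι κ ℂ) (v : κ → ℂ) (w : ι → ℂ) :
    ip (A *ᵥ v) w = ip v (Aᴴ *ᵥ w) := by
  simp only [ip, Matrix.mulVec, dotProduct, map_sum, map_mul, Finset.sum_mul, Finset.mul_sum,
    Matrix.conjTranspose_apply, RCLike.star_def]
  rw [Finset.sum_comm]
  exact Finset.sum_congr rfl fun _ _ => Finset.sum_congr rfl fun _ _ => by ring

theorem ip_mulVec' (A : Matrix ι κ ℂ) (v : κ → ℂ) (w : ι → ℂ) :
    ip w (A *ᵥ v) = ip (Aᴴ *ᵥ w) v := by
  rw [ip_mulVec, Matrix.conjTranspose_conjTranspose]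

theorem ns_smul (c : ℂ) (v : ι → ℂ) : ns (c • v) = normSq c * ns v := by
  simp only [ns, Pi.smul_apply, smul_eq_mul, map_mul, Finset.mul_sum]

theorem ns_add (v w : ι → ℂ) : ns (v + w) = ns v + ns w + 2 * (ip v w).re := by
  simp only [ns, ip, Pi.add_apply, normSq_add, Finset.sum_add_distrib, Complex.re_sum,
    Finset.mul_sum]
  congr 1
  exact Finset.sum_congr rfl fun a _ => by simp [mul_comm]

theorem ns_sub (v w : ι → ℂ) : ns (v - w) = ns v + ns w - 2 * (ip v w).re := by
  simp only [ns, ip, Pi.sub_apply, normSq_sub, Finset.sum_add_distrib, Finset.sum_sub_distrib,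
    Complex.re_sum, Finset.mul_sum]
  congr 1
  exact Finset.sum_congr rfl fun a _ => by simp [mul_comm]

theorem ns_add_le (v w : ι → ℂ) : ns (v + w) ≤ 2 * ns v + 2 * ns w := by
  have h := ns_nonneg (v - w)
  rw [ns_sub] at h
  rw [ns_add]
  linarith

theorem normSq_ip_le (v w : ι → ℂ) : normSq (ip v w) ≤ ns v * ns w := by
  have h1 : ‖ip v w‖ ≤ ∑ a, ‖v a‖ * ‖w a‖ :=
    (norm_sum_le _ _).trans (le_of_eq (Finset.sum_congr rfl fun a _ => by simp))
  have h2 := Finset.sum_mul_sq_le_sq_mul_sq univ (fun a => ‖v a‖) fun a => ‖w a‖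
  simp only [ns, normSq_eq_norm_sq]
  exact (pow_le_pow_left₀ (norm_nonneg _) h1 2).trans h2

theorem re_sq_le (z : ℂ) : z.re ^ 2 ≤ normSq z := by
  rw [normSq_apply]; nlinarith [mul_self_nonneg z.im]

theorem re_ip_sq_le (v w : ι → ℂ) : (ip v w).re ^ 2 ≤ ns v * ns w :=
  (re_sq_le _).trans (normSq_ip_le v w)

theorem abs_re_ip_le (v w : ι → ℂ) : |(ip v w).re| ≤ √(ns v) * √(ns w) :=
  le_sqrt_mul (re_ip_sq_le v w) (ns_nonneg v)

theorem ns_mulVec_le (A : Matrix ι κ ℂ) (v : κ → ℂ) : ns (A *ᵥ v) ≤ fs A * ns v := by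
  rw [fs, Finset.sum_mul]
  refine Finset.sum_le_sum fun a _ => ?_
  have h := normSq_ip_le (fun b => conj (A a b)) v
  simp only [ip, ns, conj_conj, normSq_conj] at h
  exact h

theorem fs_conjTranspose (A : Matrix ι κ ℂ) : fs Aᴴ = fs A := by
  simp only [fs, Matrix.conjTranspose_apply, RCLike.star_def, normSq_conj]
  exact Finset.sum_comm

theorem fs_eq_cols (A : Matrix ι κ ℂ) : fs A = ∑ b, ns fun a => A a b := Finset.sum_comm

theorem fs_eq_trace (A : Matrix ι κ ℂ) : ((fs A : ℝ) : ℂ) = (Aᴴ * A).trace := by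
  simp only [fs, Matrix.trace, Matrix.diag, Matrix.mul_apply, Matrix.conjTranspose_apply,
    RCLike.star_def, ← normSq_eq_conj_mul_self]
  push_cast
  exact Finset.sum_comm

theorem fs_eq_re (A : Matrix ι κ ℂ) : fs A = (Aᴴ * A).trace.re := by
  rw [← fs_eq_trace, ofReal_re]

theorem trace_eq_ip (A B : Matrix ι κ ℂ) :
    (Aᴴ * B).trace = ip (fun p : ι × κ => A p.1 p.2) fun p => B p.1 p.2 := by
  simp only [ip, Matrix.trace, Matrix.diag, Matrix.mul_apply, Matrix.conjTranspose_apply,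
    RCLike.star_def, Fintype.sum_prod_type]
  exact Finset.sum_comm

theorem fs_eq_ns (A : Matrix ι κ ℂ) : fs A = ns fun p : ι × κ => A p.1 p.2 := by
  simp only [fs, ns, Fintype.sum_prod_type]

theorem re_trace_sq_le (A B : Matrix ι κ ℂ) : (Aᴴ * B).trace.re ^ 2 ≤ fs A * fs B := by
  rw [trace_eq_ip, fs_eq_ns, fs_eq_ns]; exact re_ip_sq_le _ _

theorem fs_mul_le {μ : Type} [Fintype μ] (A : Matrix ι κ ℂ) (B : Matrix κ μ ℂ) :
    fs (A * B) ≤ fs A * fs B := by
  rw [fs_eq_cols (A * B), fs_eq_cols B, Finset.mul_sum]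
  exact Finset.sum_le_sum fun b _ => ns_mulVec_le A fun a => B a b

theorem fs_smul (c : ℂ) (A : Matrix ι κ ℂ) : fs (c • A) = normSq c * fs A := by
  simp only [fs, Matrix.smul_apply, smul_eq_mul, map_mul, Finset.mul_sum]

theorem ns_re_im (v : ι → ℂ) : ns v = ∑ a, (v a).re ^ 2 + ∑ a, (v a).im ^ 2 := by
  simp only [ns, normSq_apply, sq, Finset.sum_add_distrib]

end Ns

theorem ns_sv (x : X n) : ns (sv x) = n := by
  simp [ns, sv, sg_sq]

theorem rs_sg (x : X n) : rs (sg x) = n := by simp [rs, sq, sg_sq]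

theorem ip_sv (x y : X n) : ip (sv x) (sv y) = (dt x y : ℝ) := by
  simp [ip, sv, dt]

theorem conj_sv (x : X n) (i : Fin n) : conj (sv x i) = sv x i := by simp [sv]

theorem normSq_lin (g : Fin n → ℂ) (x : X n) : normSq (∑ i, g i * sg x i) =
    lf (fun i => (g i).re) x ^ 2 + lf (fun i => (g i).im) x ^ 2 := by
  simp [normSq_apply, lf, sq, Complex.re_sum, Complex.im_sum]

theorem normSq_ip_sv (g : Fin n → ℂ) (x : X n) : normSq (ip g (sv x)) =
    lf (fun i => (g i).re) x ^ 2 + lf (fun i => (g i).im) x ^ 2 := by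
  rw [← normSq_conj, ← normSq_lin]
  simp [ip, sv]

theorem ns_eq_rs (g : Fin n → ℂ) : ns g = rs (fun i => (g i).re) + rs fun i => (g i).im :=
  ns_re_im g

section Proj
variable {π : Matrix (Fin n) (Fin n) ℝ}

theorem cx_mulVec_sv (π : Matrix (Fin n) (Fin n) ℝ) (x : X n) :
    cx π *ᵥ sv x = fun i => (((π *ᵥ sg x) i : ℝ) : ℂ) := by
  funext i
  simp [cx, sv, Matrix.mulVec, dotProduct]

theorem Proj.cx_herm (h : Proj π) : (cx π)ᴴ = cx π := by
  ext i j
  have := congrFun (congrFun h.1 i) j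
  simp only [Matrix.transpose_apply] at this
  simp [cx, this]

theorem cx_mul (A B : Matrix (Fin n) (Fin n) ℝ) : cx (A * B) = cx A * cx B := by
  ext i j
  simp [cx, Matrix.mul_apply]

theorem Proj.cx_idem (h : Proj π) : cx π * cx π = cx π := by rw [← cx_mul, h.2]

theorem cx_trace (π : Matrix (Fin n) (Fin n) ℝ) : (cx π).trace = (π.trace : ℝ) := by
  simp [cx, Matrix.trace]

theorem cx_one : cx (1 : Matrix (Fin n) (Fin n) ℝ) = 1 := by
  ext i j
  by_cases h : i = j <;> simp [cx, Matrix.one_apply, h]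

theorem cx_sub (A B : Matrix (Fin n) (Fin n) ℝ) : cx (A - B) = cx A - cx B := by
  ext i j
  simp [cx]

theorem Proj.compl (h : Proj π) : Proj (1 - π) := by
  refine ⟨by rw [Matrix.transpose_sub, Matrix.transpose_one, h.1], ?_⟩
  rw [Matrix.sub_mul, Matrix.mul_sub, Matrix.mul_sub, h.2]
  simp

theorem Proj.fs_cx (h : Proj π) : fs (cx π) = π.trace := by
  rw [fs_eq_re, h.cx_herm, h.cx_idem, cx_trace, ofReal_re]

theorem Proj.trace_nonneg (h : Proj π) : 0 ≤ π.trace := h.fs_cx ▸ fs_nonneg _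

theorem trace_compl (π : Matrix (Fin n) (Fin n) ℝ) : (1 - π).trace = n - π.trace := by
  simp [Matrix.trace_sub]

theorem Proj.symm (h : Proj π) (i j : Fin n) : π i j = π j i :=
  (congrFun (congrFun h.1 i) j).symm

theorem Proj.dot (h : Proj π) (u w : Fin n → ℝ) :
    ∑ i, (π *ᵥ u) i * w i = ∑ i, u i * (π *ᵥ w) i := by
  simp only [Matrix.mulVec, dotProduct, Finset.sum_mul, Finset.mul_sum]
  rw [Finset.sum_comm]
  exact Finset.sum_congr rfl fun i _ => Finset.sum_congr rfl fun j _ => by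
    rw [h.symm j i]; ring

theorem Proj.mulVec_idem (h : Proj π) (u : Fin n → ℝ) : π *ᵥ (π *ᵥ u) = π *ᵥ u := by
  rw [Matrix.mulVec_mulVec, h.2]

theorem x0_eq (π : Matrix (Fin n) (Fin n) ℝ) (x : X n) : x0 π x = (1 - π) *ᵥ sg x := by
  rw [Matrix.sub_mulVec, Matrix.one_mulVec, x0]

theorem Proj.dot_x0 (h : Proj π) (x y : X n) :
    ∑ a, x0 π x a * x0 π y a = dt x y - ∑ i, (π *ᵥ sg x) i * sg y i := by
  rw [x0_eq, x0_eq, h.compl.dot, h.compl.mulVec_idem, ← h.compl.dot, ← x0_eq, dt,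
    ← Finset.sum_sub_distrib]
  exact Finset.sum_congr rfl fun i _ => by simp only [x0, Pi.sub_apply]; ring

/-- real and imaginary parts of a vector fixed by `cx π` -/
theorem fix_re_im {g : Fin n → ℂ} (h : cx π *ᵥ g = g) :
    (π *ᵥ fun i => (g i).re) = (fun i => (g i).re) ∧
      (π *ᵥ fun i => (g i).im) = fun i => (g i).im := by
  constructor <;> funext i
  · simpa [cx, Matrix.mulVec, dotProduct, Complex.re_sum] using congrArg re (congrFun h i)
  · simpa [cx, Matrix.mulVec, dotProduct, Complex.im_sum] using congrArg im (congrFun h i)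

/-- non-degeneracy for matrices whose rows lie in the range of `π` -/
theorem NDeg.fs_le [Fintype ι] {S : Finset (X n)} {σ : ℝ} (h : NDeg S π σ) (hπ : Proj π)
    {A : Matrix ι (Fin n) ℂ} (hA : A * cx π = A) :
    σ * fs A ≤ es S fun x => ns (A *ᵥ sv x) := by
  simp only [ns]
  rw [es_sum, fs, Finset.mul_sum]
  refine Finset.sum_le_sum fun a _ => ?_
  have h1 : cx π *ᵥ A a = A a := by
    funext i
    have := congrFun (congrFun hA a) i
    simp only [Matrix.mul_apply, cx, Matrix.map_apply] at this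
    simp only [Matrix.mulVec, dotProduct, cx, Matrix.map_apply, hπ.symm i]
    rw [← this]
    exact Finset.sum_congr rfl fun _ _ => mul_comm _ _
  have h2 : ∀ x : X n, normSq ((A *ᵥ sv x) a) = lf (fun i => (A a i).re) x ^ 2 +
      lf (fun i => (A a i).im) x ^ 2 := fun x => normSq_lin (A a) x
  simp only [h2]
  rw [es_add]
  have h3 := ns_eq_rs (A a)
  rw [ns] at h3
  rw [h3, mul_add]
  exact add_le_add (h _ (fix_re_im h1).1) (h _ (fix_re_im h1).2)

end Proj

end Pool.Agent.Lib.QE
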