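import Pool.Agent.Lib.QE.Blue
import Pool.Agent.Lib.QE.Kit

/-! Row A2: the partial transpose inequality. -/

namespace Pool.Agent.Lib.QE

open Finset Matrix Complex Pool.Agent.Lib.MP_5d53d3_co
open scoped BigOperators ComplexConjugate

namespace A2K

variable {n d : ℕ}

theorem symm (P : X n → Matrix (Fin d) (Fin d) ℂ) (i j : Fin n) : aA P i j = aA P j i := by
  ext a b
  simp only [aA, a2, Matrix.of_apply, eq_comm (a := i), mul_comm ((sg _ i : ℝ) : ℂ)]

theorem herm {P : X n → Matrix (Fin d) (Fin d) ℂ} (h : PV P) (i j : Fin n) :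
    (aA P i j)ᴴ = aA P i j := by
  ext a b
  rw [conjTranspose_apply]
  show conj (a2 (Ev n) (fun z => P z b a) i j) = a2 (Ev n) (fun z => P z a b) i j
  unfold a2
  split_ifs
  · exact map_zero _
  · rw [ec_conj]
    refine ec_congr fun z _ => ?_
    rw [map_mul, map_mul, conj_ofReal, conj_ofReal]
    exact congrArg _ ((h z).1.apply a b)

theorem xh {P : X n → Matrix (Fin d) (Fin d) ℂ} (h : PV P) (i k : Fin n) :
    (Xb P i k)ᴴ = Xb P k i := by
  unfold Xb
  rw [conjTranspose_sum]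
  refine Finset.sum_congr rfl fun j _ => ?_
  rw [conjTranspose_mul, herm h, herm h, symm P j k, symm P i j]

theorem fs_add (A B : Matrix (Fin d) (Fin d) ℂ) :
    fs (A + B) = fs A + fs B + 2 * (Aᴴ * B).trace.re := by
  rw [fs_eq_ns, fs_eq_ns, fs_eq_ns, trace_eq_ip]
  exact ns_add (fun p : Fin d × Fin d => A p.1 p.2) fun p => B p.1 p.2

theorem cs (Y A : Fin n → Fin n → Matrix (Fin d) (Fin d) ℂ) :
    (∑ i, ∑ k, ((Y i k)ᴴ * A i k).trace.re) ^ 2 ≤
      (∑ i, ∑ k, fs (Y i k)) * ∑ i, ∑ k, fs (A i k) := by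
  have h := re_ip_sq_le (fun p : Fin n × Fin n × Fin d × Fin d => Y p.1 p.2.1 p.2.2.1 p.2.2.2)
    fun p => A p.1 p.2.1 p.2.2.1 p.2.2.2
  simp only [trace_eq_ip, fs_eq_ns]
  simpa only [ip, ns, Fintype.sum_prod_type (α₁ := Fin n) (α₂ := Fin n × Fin d × Fin d),
    Fintype.sum_prod_type (α₁ := Fin n) (α₂ := Fin d × Fin d), re_sum] using h

end A2K

theorem st_A2 : A2 := by
  intro n d P h
  have h1 : T3 P = ∑ i, ∑ k, (Xb P i k * aA P i k).trace.re := by
    unfold T3 Xb
    refine Finset.sum_congr rfl fun i _ => ?_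
    rw [Finset.sum_comm]
    refine Finset.sum_congr rfl fun k _ => ?_
    rw [Finset.sum_mul, trace_sum, re_sum, A2K.symm P k i]
  have h2 : T3 P = ∑ i, ∑ k, (Xb P k i * aA P i k).trace.re := by
    rw [h1, Finset.sum_comm]
    exact Finset.sum_congr rfl fun i _ => Finset.sum_congr rfl fun k _ => by rw [A2K.symm P k i]
  have h3 : 2 * T3 P = ∑ i, ∑ k, ((Xb P i k + Xb P k i)ᴴ * aA P i k).trace.re := by
    rw [two_mul]
    nth_rewrite 1 [h2]
    rw [h1, ← Finset.sum_add_distrib]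
    refine Finset.sum_congr rfl fun i _ => ?_
    rw [← Finset.sum_add_distrib]
    refine Finset.sum_congr rfl fun k _ => ?_
    rw [conjTranspose_add, A2K.xh h, A2K.xh h, add_mul, trace_add, add_re]
  have h4 : ∑ i, ∑ k, fs (Xb P i k + Xb P k i) = 2 * (T4 P + Cr P) := by
    have h5 : T4 P = ∑ i, ∑ k, fs (Xb P k i) := Finset.sum_comm
    simp only [A2K.fs_add, A2K.xh h, Finset.sum_add_distrib, ← Finset.mul_sum]
    rw [← h5]
    show T4 P + T4 P + 2 * Cr P = _
    ring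
  have h6 : ∑ i, ∑ k, fs (aA P i k) = 2 * W2 P := by unfold W2; ring
  have h7 := A2K.cs (fun i k => Xb P i k + Xb P k i) (aA P)
  rw [← h3, h4, h6] at h7
  nlinarith

end Pool.Agent.Lib.QE
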