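import Pool.Agent.Lib.QE.Kit

/-! Fourier analysis on the even half cube. -/

namespace Pool.Agent.Lib.QE

open Finset Matrix Complex Pool.Agent.Lib.MP_5d53d3_co
open scoped BigOperators ComplexConjugate symmDiff

variable {n d : ℕ} {ι κ : Type}

theorem ch_univ_cases (x : X n) : ch univ x = 1 ∨ ch univ x = -1 :=
  mul_self_eq_one_iff.1 (ch_sq univ x)

theorem ex_ch (U : Finset (Fin n)) : 𝔼 x, ch U x = if U = ∅ then 1 else 0 := by
  simpa [ch_empty] using ex_ch_mul U ∅

theorem card_X : (Fintype.card (X n) : ℝ) = 2 ^ n := by simp [X]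

theorem sum_Ev (f : X n → ℝ) : 2 * ∑ x ∈ Ev n, f x = ∑ x, (1 + ch univ x) * f x := by
  rw [Ev, Finset.sum_filter, Finset.mul_sum]
  refine Finset.sum_congr rfl fun x _ => ?_
  rcases ch_univ_cases x with h | h
  · rw [if_pos h, h]; ring
  · rw [if_neg (by rw [h]; norm_num), h]; ring

theorem card_Ev (hn : 0 < n) : 2 * ((Ev n).card : ℝ) = 2 ^ n := by
  have h := sum_Ev (n := n) fun _ => 1
  have h1 := ex_ch (univ : Finset (Fin n))
  have : Nonempty (Fin n) := ⟨⟨0, hn⟩⟩
  rw [if_neg Finset.univ_nonempty.ne_empty, Fintype.expect_eq_sum_div_card, div_eq_zero_iff,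
    or_iff_left (by rw [card_X]; positivity)] at h1
  simp only [mul_one, Finset.sum_const, nsmul_eq_mul, Finset.sum_add_distrib, h1, add_zero,
    Finset.card_univ, card_X] at h
  exact h

theorem es_Ev (hn : 0 < n) (f : X n → ℝ) : es (Ev n) f = 𝔼 x, (1 + ch univ x) * f x := by
  rw [Fintype.expect_eq_sum_div_card, ← sum_Ev, card_X, ← card_Ev hn, es,
    mul_div_mul_left _ _ two_ne_zero]

theorem es_univ (hn : 0 < n) (f : X n → ℝ) : es univ f = 2 * 𝔼 x, f x := by
  rw [Fintype.expect_eq_sum_div_card, card_X, ← card_Ev hn, es]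
  have := card_Ev_pos (n := n)
  field_simp

theorem es_le_ex (hn : 0 < n) (S : Finset (X n)) {f : X n → ℝ} (h : ∀ x, 0 ≤ f x) :
    es S f ≤ 2 * 𝔼 x, f x := es_univ hn f ▸ es_subset (subset_univ S) fun x _ => h x

theorem mu_eq_den (hn : 0 < n) (S : Finset (X n)) : mu S = 2 * den S := by
  rw [den, ← es_univ hn, mu_eq_es, es_ind (subset_univ S)]
  rfl

theorem es_ch (hn : 0 < n) (U : Finset (Fin n)) :
    es (Ev n) (ch U) = (if U = ∅ then 1 else 0) + if U = univ then 1 else 0 := by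
  rw [es_Ev hn]
  simp only [add_mul, one_mul, Finset.expect_add_distrib, ex_ch, ex_ch_mul, eq_comm]

theorem es_V {D : ℕ} (hD : D < n) {f : X n → ℝ} (hf : f ∈ V univ D) :
    es (Ev n) f = 𝔼 x, f x := by
  have hn : 0 < n := by omega
  induction hf using Submodule.span_induction with
  | mem f h =>
    obtain ⟨U, -, h2, rfl⟩ := h
    rw [es_ch hn, ex_ch, if_neg (c := U = univ), add_zero]
    rintro rfl
    simp at h2
    omega
  | zero => simp [es]
  | add f g _ _ h1 h2 =>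
    have := es_add (Ev n) f g
    simp only [Pi.add_apply, Finset.expect_add_distrib]
    rw [← h1, ← h2, ← this]
    rfl
  | smul c f _ h1 =>
    have := es_mul (Ev n) c f
    simp only [Pi.smul_apply, smul_eq_mul, ← Finset.mul_expect]
    rw [← h1, ← this]
    rfl

theorem even_of_sum (hn : 4 ∣ n) {z : X n} (h : ∑ i, sg z i = 0) : ch univ z = 1 := by
  set A := univ.filter fun i => sg z i = -1
  have h1 : ∀ i, sg z i = 1 - 2 * if i ∈ A then 1 else 0 := fun i => by
    rcases sg_cases z i with h | h <;> simp [A, h] <;> norm_num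
  have h2 : ∀ i, sg z i = if i ∈ A then -1 else 1 := fun i => by
    rcases sg_cases z i with h | h <;> simp [A, h]
  have h3 : (n : ℝ) = 2 * A.card := by
    rw [Finset.sum_congr rfl fun i _ => h1 i, Finset.sum_sub_distrib, ← Finset.mul_sum] at h
    simp at h
    linarith
  have h4 : n = 2 * A.card := by exact_mod_cast h3
  rw [ch, Finset.prod_congr rfl fun i _ => h2 i]
  simp only [Finset.prod_ite_mem, Finset.univ_inter, Finset.prod_const]
  exact Even.neg_one_pow ⟨A.card / 2, by omega⟩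

theorem mem_Ev_of_dt (hn : 4 ∣ n) {x y : X n} (hx : x ∈ Ev n) (h : dt x y = 0) : y ∈ Ev n := by
  rw [← mul_mul_self x y, dt_mul] at h
  rw [mem_Ev, ← mul_mul_self x y, ch_pt, mem_Ev.1 hx, even_of_sum hn h, one_mul]

theorem sum_nb {x : X n} (hx : x ∈ Ev n) (f : X n → ℝ) :
    ∑ y ∈ (Ev n).filter fun y => dt x y = 0, f y = ∑ z, hz z * f (x * z) := by
  rw [← Equiv.sum_comp (Equiv.mulLeft x) fun z => hz z * f (x * z), Ev, Finset.filter_filter,
    Finset.sum_filter]
  refine Finset.sum_congr rfl fun y _ => ?_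
  simp only [Equiv.coe_mulLeft, mul_mul_self, hz, ← dt_mul x, ch_pt, mem_Ev.1 hx, one_mul,
    and_comm]
  split_ifs <;> simp

theorem filter_Ev (hn : 4 ∣ n) {x : X n} (hx : x ∈ Ev n) :
    ((Ev n).filter fun y => dt x y = 0) = Nb x := by
  ext y
  simp only [Nb, Finset.mem_filter, mem_univ, true_and]
  exact ⟨fun h => h.2, fun h => ⟨mem_Ev_of_dt hn hx h, h⟩⟩

theorem card_Nb_eq (hn : 4 ∣ n) {x : X n} (hx : x ∈ Ev n) :
    ((Nb x).card : ℝ) = 2 ^ n * fc (hz (n := n)) ∅ := by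
  have h := sum_nb hx fun _ => 1
  rw [filter_Ev hn hx] at h
  simp only [Finset.sum_const, nsmul_eq_mul, mul_one] at h
  rw [h, fc, Fintype.expect_eq_sum_div_card, card_X]
  simp only [ch_empty, one_mul]
  field_simp

theorem tn_ch (hn : 4 ∣ n) {x : X n} (hx : x ∈ Ev n) (U : Finset (Fin n)) :
    tn (Ev n) x (ch U) = lam n U.card * ch U x := by
  have h := fc_hz_eq U.card U rfl
  have h0 := fc_hz_pos hn
  rw [tn, sum_nb hx, card_Nb_eq hn hx, div_eq_iff (by positivity)]
  have h1 : ∑ z, hz z * ch U (x * z) = ch U x * (2 ^ n * fc hz U) := by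
    rw [fc, Fintype.expect_eq_sum_div_card, card_X, mul_div_cancel₀ _ (by positivity),
      Finset.mul_sum]
    exact Finset.sum_congr rfl fun z _ => by rw [ch_pt]; ring
  rw [h1, h]
  ring

theorem ch_pair {i j : Fin n} (h : i ≠ j) (x : X n) : ch {i, j} x = sg x i * sg x j := by
  simp [ch, Finset.prod_pair h]

theorem ch_single (i : Fin n) (x : X n) : ch {i} x = sg x i := by simp [ch]

theorem tn_one (hn : 4 ∣ n) {x : X n} (hx : x ∈ Ev n) : tn (Ev n) x (fun _ => 1) = 1 := by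
  have h := tn_ch hn hx ∅
  simp only [Finset.card_empty, lam, ch_empty, mul_one] at h
  exact (tn_congr fun y _ _ => (ch_empty y).symm).trans h

theorem tn_pair (hn : 4 ∣ n) {x : X n} (hx : x ∈ Ev n) (a b : Fin n) :
    tn (Ev n) x (fun y => sg y a * sg y b) =
      (if a = b then 1 else 0) - (sg x a * sg x b - if a = b then 1 else 0) / (n - 1) := by
  split_ifs with h
  · subst h
    simp only [sg_sq, tn_one hn hx]
    simp
  · have h1 := tn_ch hn hx {a, b}
    rw [Finset.card_pair h, lam_two, ch_pair h] at h1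
    rw [tn_congr (g := ch {a, b}) fun y _ _ => (ch_pair h y).symm, h1]
    ring

theorem es_pair (hn : 2 < n) (a b : Fin n) :
    es (Ev n) (fun y => sg y a * sg y b) = if a = b then 1 else 0 := by
  split_ifs with h
  · subst h
    simp only [sg_sq, es_const, mu_Ev, mul_one]
  · rw [es_congr (g := ch {a, b}) fun y _ => (ch_pair h y).symm, es_ch (by omega), if_neg (by simp),
      if_neg, add_zero]
    intro h1
    have := congrArg Finset.card h1
    rw [Finset.card_pair h] at this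
    simp at this
    omega

/-- Bessel's inequality with multiplicities -/
theorem bes (hn : 8 < n) {S : Finset (X n)} (hS : S ⊆ Ev n) {α : Type*} (T : Finset α)
    (φ : α → Finset (Fin n)) (hφ : ∀ t ∈ T, (φ t).card ≤ 4) {m : ℕ}
    (hm : ∀ U, (T.filter fun t => φ t = U).card ≤ m) (g : X n → ℝ) :
    ∑ t ∈ T, (es S fun x => ch (φ t) x * g x) ^ 2 ≤ m * es S fun x => g x ^ 2 := by
  set c : α → ℝ := fun t => es S fun x => ch (φ t) x * g x with hc
  have h1 : ∑ t ∈ T, c t ^ 2 = es S fun x => g x * ∑ t ∈ T, c t * ch (φ t) x := by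
    simp only [Finset.mul_sum]
    rw [es_sum]
    refine Finset.sum_congr rfl fun t _ => ?_
    rw [sq, hc, ← es_mul]
    exact es_congr fun x _ => by ring
  have h2 := es_cs S g fun x => ∑ t ∈ T, c t * ch (φ t) x
  have hV := sum_mem T φ c hφ
  have h3 : (es S fun x => (∑ t ∈ T, c t * ch (φ t) x) ^ 2) ≤ m * ∑ t ∈ T, c t ^ 2 := by
    refine (es_subset hS fun x _ => sq_nonneg _).trans ?_
    have := es_V (D := 4 + 4) hn (V_mul hV hV)
    refine le_trans (le_of_eq ?_) (ex_sq_le T φ c hm)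
    simp only [sq]
    exact this
  rw [← h1] at h2
  have h4 : 0 ≤ es S fun x => g x ^ 2 := es_nonneg fun x _ => sq_nonneg _
  refine le_of_sq_le_mul (by positivity) (h2.trans ?_)
  rw [mul_comm (m : ℝ), mul_assoc]
  exact mul_le_mul_of_nonneg_left h3 h4

theorem besc (hn : 8 < n) {S : Finset (X n)} (hS : S ⊆ Ev n) {α : Type*} (T : Finset α)
    (φ : α → Finset (Fin n)) (hφ : ∀ t ∈ T, (φ t).card ≤ 4) {m : ℕ}
    (hm : ∀ U, (T.filter fun t => φ t = U).card ≤ m) (g : X n → ℂ) :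
    ∑ t ∈ T, normSq (ec S fun x => (ch (φ t) x : ℂ) * g x) ≤ m * es S fun x => normSq (g x) := by
  have h1 := bes hn hS T φ hφ hm fun x => (g x).re
  have h2 := bes hn hS T φ hφ hm fun x => (g x).im
  simp only [normSq_apply, ← sq, ec_re, ec_im, re_ofReal_mul, im_ofReal_mul,
    Finset.sum_add_distrib, es_add]
  linarith

theorem a2_re (S : Finset (X n)) (g : X n → ℂ) (i j : Fin n) :
    (a2 S g i j).re = c2 S (fun x => (g x).re) i j := by
  unfold a2 c2
  split_ifs
  · rfl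
  · rw [ec_re]
    exact es_congr fun x _ => by rw [← ofReal_mul, re_ofReal_mul]

theorem a2_im (S : Finset (X n)) (g : X n → ℂ) (i j : Fin n) :
    (a2 S g i j).im = c2 S (fun x => (g x).im) i j := by
  unfold a2 c2
  split_ifs
  · rfl
  · rw [ec_im]
    exact es_congr fun x _ => by rw [← ofReal_mul, im_ofReal_mul]

theorem c2_diag (S : Finset (X n)) (g : X n → ℝ) (i : Fin n) : c2 S g i i = 0 := if_pos rfl

theorem sum_c2_le (hn : 8 < n) {S : Finset (X n)} (hS : S ⊆ Ev n) (g : X n → ℝ) :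
    ∑ i, ∑ j, c2 S g i j ^ 2 ≤ 4 * es S fun x => g x ^ 2 := by
  have h := bes hn hS (univ : Finset (Fin n)).offDiag (fun t => {t.1, t.2})
    (fun _ _ => Finset.card_le_two.trans (by norm_num)) (fiber2 _) g
  refine le_trans (le_of_eq ?_) h
  rw [← Fintype.sum_prod_type', ← Finset.sum_subset (subset_univ univ.offDiag)
    fun t _ ht => by simp_all [c2]]
  refine Finset.sum_congr rfl fun t ht => ?_
  have h : t.1 ≠ t.2 := by simpa using ht
  simp only [c2, if_neg h, ch_pair h]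

theorem sum_a2_le (hn : 8 < n) {S : Finset (X n)} (hS : S ⊆ Ev n) (g : X n → ℂ) :
    ∑ i, ∑ j, normSq (a2 S g i j) ≤ 4 * es S fun x => normSq (g x) := by
  have h1 := sum_c2_le hn hS fun x => (g x).re
  have h2 := sum_c2_le hn hS fun x => (g x).im
  simp only [normSq_apply, ← sq, a2_re, a2_im, Finset.sum_add_distrib, es_add]
  linarith

/-- pairing with the second level part -/
theorem es_mul_q2 (S T : Finset (X n)) (f g : X n → ℝ) :
    (es S fun x => f x * q2 T g x) = 1 / 2 * ∑ i, ∑ j, c2 S f i j * c2 T g i j := by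
  have : ∀ x, f x * q2 T g x =
      1 / 2 * ∑ i, ∑ j, c2 T g i j * (sg x i * sg x j * f x) := fun x => by
    simp only [q2, Finset.mul_sum]
    exact Finset.sum_congr rfl fun i _ => Finset.sum_congr rfl fun j _ => by ring
  simp only [this, es_mul, es_sum]
  congr 1
  refine Finset.sum_congr rfl fun i _ => Finset.sum_congr rfl fun j _ => ?_
  by_cases h : i = j
  · simp [c2, h]
  · rw [mul_comm]
    simp only [c2, if_neg h]

theorem q2_mem (S : Finset (X n)) (g : X n → ℝ) : q2 S g ∈ V univ 2 ∧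
    𝔼 x, q2 S g x ^ 2 ≤ ∑ i, ∑ j, c2 S g i j ^ 2 := by
  have h := quad (c2 S g) (c2_diag S g)
  refine ⟨Submodule.smul_mem _ (1 / 2 : ℝ) h.1, ?_⟩
  simp only [q2, mul_pow, ← Finset.mul_expect]
  linarith [h.2]

/-- Bonami's lemma for vector valued polynomials -/
theorem bonami_vec [Fintype ι] {D : ℕ} (f : ι → X n → ℝ) (hf : ∀ a, f a ∈ V univ D) :
    𝔼 x, (∑ a, f a x ^ 2) ^ 2 ≤ 9 ^ D * (∑ a, 𝔼 x, f a x ^ 2) ^ 2 := by
  have h0 : ∀ a, 0 ≤ 𝔼 x, f a x ^ 2 := fun a => Finset.expect_nonneg fun _ _ => sq_nonneg _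
  simp only [sq (∑ a, _), Finset.sum_mul_sum]
  simp only [Finset.expect_sum_comm, Finset.mul_sum]
  refine Finset.sum_le_sum fun a _ => Finset.sum_le_sum fun b _ => ?_
  have h1 := cs1 (fun x => f a x ^ 2) fun x => f b x ^ 2
  simp only [← pow_mul] at h1
  have h2 := bonami univ D (f a) (hf a)
  have h3 := bonami univ D (f b) (hf b)
  have h4 := h1.trans (mul_le_mul h2 h3 (Finset.expect_nonneg fun _ _ => Even.pow_nonneg (by decide) _)
    (by positivity))
  refine (abs_le_of_sq_le_sq' (h4.trans (le_of_eq (by ring))) ?_).2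
  exact mul_nonneg (by positivity) (mul_nonneg (h0 a) (h0 b))

theorem lf_mem (w : Fin n → ℝ) : lf w ∈ V univ 1 ∧ 𝔼 x, lf w x ^ 2 ≤ rs w := lin w

theorem es_lf_sq (hn : 2 < n) (w : Fin n → ℝ) : (es (Ev n) fun x => lf w x ^ 2) = rs w := by
  have : ∀ x : X n, lf w x ^ 2 = ∑ i, ∑ j, w i * w j * (sg x i * sg x j) := fun x => by
    rw [sq, lf, Finset.sum_mul_sum]
    exact Finset.sum_congr rfl fun i _ => Finset.sum_congr rfl fun j _ => by ring
  simp only [this, es_sum, es_mul, es_pair hn]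
  simp [rs, sq]

theorem ns_mulVec_sv [Fintype ι] (U : Matrix ι (Fin n) ℂ) (x : X n) : ns (U *ᵥ sv x) =
    ∑ p : ι × Bool, lf (fun i => if p.2 then (U p.1 i).re else (U p.1 i).im) x ^ 2 := by
  rw [Fintype.sum_prod_type]
  refine Finset.sum_congr rfl fun a _ => ?_
  rw [Fintype.sum_bool]
  exact normSq_lin (U a) x

theorem fs_eq_rs [Fintype ι] (U : Matrix ι (Fin n) ℂ) : fs U =
    ∑ p : ι × Bool, rs fun i => if p.2 then (U p.1 i).re else (U p.1 i).im := by
  rw [Fintype.sum_prod_type]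
  refine Finset.sum_congr rfl fun a _ => ?_
  rw [Fintype.sum_bool]
  exact ns_eq_rs (U a)

theorem mom2 [Fintype ι] (hn : 2 < n) (U : Matrix ι (Fin n) ℂ) :
    (es (Ev n) fun x => ns (U *ᵥ sv x)) = fs U := by
  simp only [ns_mulVec_sv, es_sum, es_lf_sq hn, fs_eq_rs]

theorem mom4 [Fintype ι] (hn : 0 < n) (S : Finset (X n)) (U : Matrix ι (Fin n) ℂ) :
    (es S fun x => ns (U *ᵥ sv x) ^ 2) ≤ 20 * fs U ^ 2 := by
  refine (es_le_ex hn S fun x => sq_nonneg _).trans ?_
  simp only [ns_mulVec_sv]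
  have h := bonami_vec (fun p : ι × Bool =>
    lf fun i => if p.2 then (U p.1 i).re else (U p.1 i).im) fun p => (lf_mem _).1
  have h1 : ∑ p : ι × Bool, 𝔼 x : X n,
      lf (fun i => if p.2 then (U p.1 i).re else (U p.1 i).im) x ^ 2 ≤ fs U := by
    rw [fs_eq_rs]
    exact Finset.sum_le_sum fun p _ => (lf_mem _).2
  have h2 := pow_le_pow_left₀ (Finset.sum_nonneg fun p _ =>
    Finset.expect_nonneg fun _ _ => sq_nonneg _) h1 2
  nlinarith [sq_nonneg (fs U)]

theorem mom_small [Fintype ι] (hn : 0 < n) (R : Finset (X n)) (U : Matrix ι (Fin n) ℂ) :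
    (es R fun x => ns (U *ᵥ sv x)) ≤ 5 * √(mu R) * fs U := by
  have h := (es_sq_le R fun x => ns (U *ᵥ sv x)).trans
    (mul_le_mul_of_nonneg_left (mom4 hn R U) (mu_nonneg R))
  have h0 := fs_nonneg U
  refine (abs_le_of_sq_le_sq' (h.trans ?_) (by positivity)).2
  rw [mul_pow, mul_pow, Real.sq_sqrt (mu_nonneg R)]
  nlinarith [mul_nonneg (mu_nonneg R) (sq_nonneg (fs U))]

theorem lf_small (hn : 0 < n) (R : Finset (X n)) (w : Fin n → ℝ) :
    (es R fun x => lf w x ^ 2) ≤ 5 * √(mu R) * rs w := by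
  have h := mom_small hn R (Matrix.of fun (_ : Unit) i => (w i : ℂ))
  simp only [ns_mulVec_sv, fs_eq_rs, Fintype.sum_prod_type] at h
  simpa [lf, rs] using h

theorem NDeg.sub (hn : 0 < n) {S T : Finset (X n)} {π : Matrix (Fin n) (Fin n) ℝ} {σ σ' : ℝ}
    (h : NDeg T π σ) (hST : S ⊆ T) (h1 : σ' + 5 * √(mu (T \ S)) ≤ σ) : NDeg S π σ' := by
  intro w hw
  have h2 := h w hw
  rw [es_sdiff hST] at h2
  have h3 := lf_small hn (T \ S) w
  nlinarith [mul_le_mul_of_nonneg_right h1 (rs_nonneg w)]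

theorem quad_var (hn : 0 < n) (S : Finset (X n)) (B : Fin n → Fin n → ℝ) :
    (es S fun x => (∑ i, ∑ j, B i j * (sg x i * sg x j) - ∑ i, B i i) ^ 2) ≤
      8 * ∑ i, ∑ j, B i j ^ 2 := by
  refine (es_le_ex hn S fun x => sq_nonneg _).trans ?_
  have h := (quad (fun i j => if i = j then 0 else B i j) fun _ => if_pos rfl).2
  have h1 : ∀ x : X n, ∑ i, ∑ j, B i j * (sg x i * sg x j) - ∑ i, B i i =
      ∑ i, ∑ j, (if i = j then 0 else B i j) * (sg x i * sg x j) := fun x => by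
    rw [← Finset.sum_sub_distrib]
    refine Finset.sum_congr rfl fun i _ => ?_
    rw [sub_eq_iff_eq_add, ← Finset.add_sum_erase _ _ (mem_univ i),
      ← Finset.add_sum_erase _ _ (mem_univ i), if_pos rfl, sg_sq, zero_mul, zero_add, mul_one,
      add_comm]
    congr 1
    exact Finset.sum_congr rfl fun j hj => by rw [if_neg (Finset.ne_of_mem_erase hj).symm]
  have h2 : ∑ i, ∑ j, (if i = j then 0 else B i j) ^ 2 ≤ ∑ i, ∑ j, B i j ^ 2 :=
    Finset.sum_le_sum fun i _ => Finset.sum_le_sum fun j _ => by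
      split_ifs
      · simpa using sq_nonneg _
      · exact le_rfl
  simp only [h1]
  linarith

theorem re_ip_sv (B : Matrix (Fin n) (Fin n) ℂ) (x : X n) :
    (ip (sv x) (B *ᵥ sv x)).re = ∑ i, ∑ j, (B i j).re * (sg x i * sg x j) := by
  simp only [ip, conj_sv, Matrix.mulVec, dotProduct, Finset.mul_sum, Complex.re_sum]
  refine Finset.sum_congr rfl fun i _ => Finset.sum_congr rfl fun j _ => ?_
  simp only [sv, re_ofReal_mul, mul_comm (B i j)]
  ring

theorem sum_re_sq_le (B : Matrix (Fin n) (Fin n) ℂ) : ∑ i, ∑ j, (B i j).re ^ 2 ≤ fs B :=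
  Finset.sum_le_sum fun _ _ => Finset.sum_le_sum fun _ _ => re_sq_le _

theorem mom_var (hn : 0 < n) (S : Finset (X n)) (B : Matrix (Fin n) (Fin n) ℂ) :
    (es S fun x => ((ip (sv x) (B *ᵥ sv x)).re - B.trace.re) ^ 2) ≤ 8 * fs B := by
  have h := quad_var hn S fun i j => (B i j).re
  simp only [re_ip_sv, Matrix.trace, Matrix.diag, Complex.re_sum]
  linarith [sum_re_sq_le B]

/-- the neighbour mean of a quadratic form -/
theorem tn_quad (S : Finset (X n)) (x : X n) (B : Fin n → Fin n → ℝ) :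
    (tn S x fun y => ∑ a, ∑ b, B a b * (sg y a * sg y b)) =
      (es S fun y => ∑ a, ∑ b, B a b * (sg y a * sg y b)) -
        mu S / (n - 1) * (∑ a, ∑ b, B a b * (sg x a * sg x b) - ∑ a, B a a) +
        ∑ a, ∑ b, B a b * er S x a b := by
  have h : ∑ a, B a a = ∑ a, ∑ b, B a b * if a = b then 1 else 0 := by simp
  simp only [tn_sum, tn_mul, es_sum, es_mul, er, h, ← Finset.sum_sub_distrib, Finset.mul_sum,
    ← Finset.sum_add_distrib]
  exact Finset.sum_congr rfl fun a _ => Finset.sum_congr rfl fun b _ => by ring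

theorem abs_er_le (S : Finset (X n)) (x : X n) (B : Fin n → Fin n → ℝ) :
    |∑ a, ∑ b, B a b * er S x a b| ≤ √(∑ a, ∑ b, B a b ^ 2) * √(fe S x) := by
  refine le_sqrt_mul ?_ (by positivity)
  simpa only [Fintype.sum_prod_type, fe] using Finset.sum_mul_sq_le_sq_mul_sq
    (univ : Finset (Fin n × Fin n)) (fun t => B t.1 t.2) fun t => er S x t.1 t.2

theorem lf_sq (w : Fin n → ℝ) (x : X n) :
    lf w x ^ 2 = ∑ a, ∑ b, w a * w b * (sg x a * sg x b) := by
  rw [sq, lf, Finset.sum_mul_sum]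
  exact Finset.sum_congr rfl fun i _ => Finset.sum_congr rfl fun j _ => by ring

theorem tn_lf_ge (hn : 1 < n) {S : Finset (X n)} (hS : S ⊆ Ev n) (x : X n) (w : Fin n → ℝ) :
    (es S fun y => lf w y ^ 2) - lf w x ^ 2 / (n - 1) - √(fe S x) * rs w ≤
      tn S x fun y => lf w y ^ 2 := by
  have h := tn_quad S x fun a b => w a * w b
  have h1 := abs_er_le S x fun a b => w a * w b
  have h2 : ∑ a, ∑ b, (w a * w b) ^ 2 = rs w ^ 2 := by
    rw [sq, rs, Finset.sum_mul_sum]
    exact Finset.sum_congr rfl fun i _ => Finset.sum_congr rfl fun j _ => by ring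
  rw [h2, Real.sqrt_sq (rs_nonneg w)] at h1
  simp only [← lf_sq] at h
  have h3 : ∑ a, w a * w a = rs w := by simp [rs, sq]
  rw [h, h3]
  have h4 : (0 : ℝ) < n - 1 := by
    have : (1 : ℝ) < n := by exact_mod_cast hn
    linarith
  have h5 : mu S / (n - 1) * (lf w x ^ 2 - rs w) ≤ lf w x ^ 2 / (n - 1) := by
    rw [div_mul_eq_mul_div]
    refine div_le_div_of_nonneg_right ?_ h4.le
    nlinarith [mu_nonneg S, mu_le_one hS, rs_nonneg w, sq_nonneg (lf w x),
      mul_nonneg (mu_nonneg S) (rs_nonneg w)]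
  linarith [(abs_le.1 h1).1]

theorem good_of_fe (hn : 1 < n) {S : Finset (X n)} (hS : S ⊆ Ev n)
    {π : Matrix (Fin n) (Fin n) ℝ} {σ : ℝ} (hσ : 0 ≤ σ) (h : NDeg S π σ) :
    Good S ((Ev n).filter fun x => (σ / 2) ^ 2 ≤ fe S x) π σ := by
  intro x hx hB w hw
  have h1 : fe S x ≤ (σ / 2) ^ 2 := by
    by_contra h2
    exact hB (Finset.mem_filter.2 ⟨hS hx, (not_le.1 h2).le⟩)
  have h2 : √(fe S x) ≤ σ / 2 := Real.sqrt_le_iff.2 ⟨by linarith, h1⟩
  have h3 := tn_lf_ge hn hS x w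
  have h4 := h w hw
  nlinarith [mul_le_mul_of_nonneg_right h2 (rs_nonneg w)]

theorem tn_lf_le (hn : 4 ∣ n) (h2 : 1 < n) (S : Finset (X n)) (hS : S ⊆ Ev n) {x : X n}
    (hx : x ∈ Ev n) (w : Fin n → ℝ) : (tn S x fun y => lf w y ^ 2) ≤ 2 * rs w := by
  refine (tn_subset hS fun y _ => sq_nonneg _).trans ?_
  have h4 : (1 : ℝ) ≤ n - 1 := by
    have : (2 : ℝ) ≤ n := by exact_mod_cast h2
    linarith
  have h1 : (tn (Ev n) x fun y => lf w y ^ 2) = rs w - (lf w x ^ 2 - rs w) / (n - 1) := by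
    have h3 : rs w = ∑ a, ∑ b, w a * w b * if a = b then 1 else 0 := by simp [rs, sq]
    simp only [lf_sq, tn_sum, tn_mul, tn_pair hn hx, h3, ← Finset.sum_sub_distrib,
      Finset.sum_div]
    exact Finset.sum_congr rfl fun a _ => Finset.sum_congr rfl fun b _ => by ring
  rw [h1]
  have h5 : (rs w - lf w x ^ 2) / (n - 1) ≤ rs w := by
    rw [div_le_iff₀ (by linarith)]
    nlinarith [rs_nonneg w, sq_nonneg (lf w x)]
  have h6 : (lf w x ^ 2 - rs w) / (n - 1) = -((rs w - lf w x ^ 2) / (n - 1)) := by ring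
  linarith

theorem central (k : ℕ) : (16 : ℝ) ^ k ≤ (4 * k + 1) * (Nat.centralBinom k : ℝ) ^ 2 := by
  induction k with
  | zero => simp
  | succ k ih =>
    have h : ((k : ℝ) + 1) * Nat.centralBinom (k + 1) = 2 * (2 * k + 1) * Nat.centralBinom k := by
      exact_mod_cast Nat.succ_mul_centralBinom_succ k
    have hk : (0 : ℝ) ≤ k := Nat.cast_nonneg k
    have h1 : (0 : ℝ) < ((k : ℝ) + 1) ^ 2 := by positivity
    refine le_of_mul_le_mul_left ?_ h1
    push_cast
    have h2 : ((k : ℝ) + 1) ^ 2 * ((4 * (k + 1) + 1) * (Nat.centralBinom (k + 1) : ℝ) ^ 2) =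
        (4 * k + 5) * (2 * (2 * k + 1)) ^ 2 * (Nat.centralBinom k : ℝ) ^ 2 := by
      rw [mul_assoc (4 * (k : ℝ) + 5), ← mul_pow, ← h]; ring
    rw [h2, pow_succ (16 : ℝ)]
    have h3 : ((k : ℝ) + 1) ^ 2 * 16 * (4 * k + 1) ≤ (4 * k + 5) * (2 * (2 * k + 1)) ^ 2 := by
      nlinarith
    have h4 := mul_le_mul_of_nonneg_right h3 (sq_nonneg (Nat.centralBinom k : ℝ))
    nlinarith [mul_le_mul_of_nonneg_left ih (by positivity : (0 : ℝ) ≤ ((k : ℝ) + 1) ^ 2 * 16)]

theorem card_Nb_ge (k : ℕ) : Nat.centralBinom k ≤ (Nb (1 : X (2 * k))).card := by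
  rw [Nat.centralBinom_eq_two_mul_choose]
  have h : (powersetCard k (univ : Finset (Fin (2 * k)))).card = (2 * k).choose k := by simp
  rw [← h]
  refine Finset.card_le_card_of_injOn (fun A i => if i ∈ A then -1 else 1) ?_ ?_
  · intro A hA
    have hA' := (Finset.mem_powersetCard.1 (Finset.mem_coe.1 hA)).2
    have h1 : ∀ i, sg (fun i => if i ∈ A then (-1 : ℤˣ) else 1) i =
        1 - 2 * if i ∈ A then 1 else 0 := fun i => by
      by_cases h : i ∈ A <;> simp [sg, h]
      norm_num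
    simp only [Nb, Finset.coe_filter, mem_univ, true_and, Set.mem_ofPred_eq]
    rw [← one_mul (fun i => if i ∈ A then (-1 : ℤˣ) else 1), dt_mul]
    simp only [h1, Finset.sum_sub_distrib, ← Finset.mul_sum]
    simp [hA']
  · intro A _ B _ h
    ext i
    have := congrFun h i
    by_cases h1 : i ∈ A <;> by_cases h2 : i ∈ B <;> simp_all

theorem tn_le_es (hn : 4 ∣ n) (h0 : 0 < n) (R : Finset (X n)) (x : X n) {f : X n → ℝ}
    (hf : ∀ y ∈ R, 0 ≤ f y) : tn R x f ≤ √n * es R f := by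
  obtain ⟨k, rfl⟩ : ∃ k, n = 2 * k := ⟨n / 2, by omega⟩
  have h1 : (Nat.centralBinom k : ℝ) ≤ (Nb x).card := by
    rw [card_Nb]; exact_mod_cast card_Nb_ge k
  have h2 : (0 : ℝ) < Nat.centralBinom k := by exact_mod_cast Nat.centralBinom_pos k
  have h3 := central k
  have h4 := card_Ev h0
  have hk : (1 : ℝ) ≤ k := by exact_mod_cast (by omega : 1 ≤ k)
  have h5 : ((Ev (2 * k)).card : ℝ) ≤ √((2 * k : ℕ) : ℝ) * Nat.centralBinom k := by
    refine (abs_le_of_sq_le_sq' ?_ (by positivity)).2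
    rw [mul_pow, Real.sq_sqrt (Nat.cast_nonneg _)]
    have h6 : (2 * ((Ev (2 * k)).card : ℝ)) ^ 2 = 16 ^ k := by
      rw [h4, ← pow_mul, mul_comm (2 * k), ← mul_assoc, pow_mul]; norm_num
    push_cast
    nlinarith [sq_nonneg (Nat.centralBinom k : ℝ)]
  have h7 : ∑ y ∈ R.filter fun y => dt x y = 0, f y ≤ ∑ y ∈ R, f y :=
    Finset.sum_le_sum_of_subset_of_nonneg (Finset.filter_subset _ _) fun y hy _ => hf y hy
  have h8 : 0 ≤ ∑ y ∈ R, f y := Finset.sum_nonneg hf
  rw [tn, es, ← mul_div_assoc, div_le_div_iff₀ (by linarith) card_Ev_pos]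
  calc _ ≤ (∑ y ∈ R, f y) * (√((2 * k : ℕ) : ℝ) * (Nb x).card) :=
        mul_le_mul h7 (h5.trans (mul_le_mul_of_nonneg_left h1 (Real.sqrt_nonneg _)))
          card_Ev_pos.le h8
    _ = _ := by ring

end Pool.Agent.Lib.QE
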