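import Pool.Agent.Lib.QE.Blue
import Pool.Agent.Lib.QE.Four

/-! The crossed term of the block matrix. -/

namespace Pool.Agent.Lib.QE

open Finset Matrix Complex Pool.Agent.Lib.MP_5d53d3_co
open scoped BigOperators ComplexConjugate

namespace A2Bh

variable {n d : ℕ} {ι : Type} {P : X n → Matrix (Fin d) (Fin d) ℂ}

theorem sum_tr_le [Fintype ι] (B C : ι → Matrix (Fin d) (Fin d) ℂ) :
    |∑ p, (B p * C p).trace.re| ≤ √(∑ p, fs (B p)) * √(∑ p, fs (C p)) := by
  refine le_sqrt_mul (Finset.sum_sq_le_sum_mul_sum_of_sq_le_mul univ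
    (fun p _ => fs_nonneg _) (fun p _ => fs_nonneg _) fun p _ => ?_)
    (Finset.sum_nonneg fun p _ => fs_nonneg _)
  have h := re_trace_sq_le (B p)ᴴ (C p)
  rwa [Matrix.conjTranspose_conjTranspose, fs_conjTranspose] at h

theorem herm (hP : PV P) (i j : Fin n) : (aA P i j)ᴴ = aA P i j := by
  ext a b
  simp only [aA, a2, Matrix.conjTranspose_apply, Matrix.of_apply, RCLike.star_def]
  split_ifs
  · simp
  · rw [ec_conj]
    refine ec_congr fun x _ => ?_
    have h := (hP x).1.apply a b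
    rw [RCLike.star_def] at h
    simp [h]

theorem split (P : X n → Matrix (Fin d) (Fin d) ℂ) (i j : Fin n) (a b : Fin d) :
    aA P i j a b = (ec (Ev n) fun z => (sg z i : ℂ) * sg z j * P z a b) -
      if i = j then mM P a b else 0 := by
  simp only [aA, a2, mM, Matrix.of_apply]
  split_ifs with h
  · subst h
    have : ∀ z : X n, (sg z i : ℂ) * sg z i = 1 := fun z => by exact_mod_cast sg_sq z i
    simp [this]
  · simp

theorem tr_split (P : X n → Matrix (Fin d) (Fin d) ℂ) (i j : Fin n)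
    (C : Matrix (Fin d) (Fin d) ℂ) :
    (aA P i j * C).trace.re = (es (Ev n) fun z => sg z i * sg z j * (P z * C).trace.re) -
      if i = j then (mM P * C).trace.re else 0 := by
  have h1 : (aA P i j * C).trace =
      (ec (Ev n) fun z => ((sg z i * sg z j : ℝ) : ℂ) * (P z * C).trace) -
        if i = j then (mM P * C).trace else 0 := by
    simp only [Matrix.trace, Matrix.diag, Matrix.mul_apply, split P i j, sub_mul,
      Finset.sum_sub_distrib, Finset.mul_sum, ec_sum, ← ec_mul']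
    congr 1
    · refine Finset.sum_congr rfl fun a _ => Finset.sum_congr rfl fun b _ =>
        ec_congr fun z _ => ?_
      push_cast
      ring
    · split_ifs <;> simp
  rw [h1, sub_re, ec_re]
  congr 1
  · exact es_congr fun z _ => re_ofReal_mul _ _
  · split_ifs <;> simp

theorem bes_vec (hn : 16 ≤ n) (hP : PV P) {m : ℝ} (hm : 0 ≤ m) (hM : fs (mM P) ≤ m ^ 2)
    (w : Fin d → ℂ) : ∑ i, ∑ j, ns (aA P i j *ᵥ w) ≤ 4 * m * ns w := by
  have h1 : ∀ i j a, (aA P i j *ᵥ w) a = a2 (Ev n) (fun z => (P z *ᵥ w) a) i j := by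
    intro i j a
    simp only [aA, a2, Matrix.mulVec, dotProduct, Matrix.of_apply]
    split_ifs
    · simp
    · simp only [Finset.mul_sum, ec_sum, ← ec_mul', mul_assoc]
  have h2 : ∑ i, ∑ j, ns (aA P i j *ᵥ w) ≤ 4 * es (Ev n) fun z => ns (P z *ᵥ w) := by
    simp only [ns, h1, es_sum, Finset.mul_sum]
    refine le_trans (le_of_eq ?_) (Finset.sum_le_sum fun a _ =>
      sum_a2_le (by omega) (Finset.Subset.refl _) fun z => (P z *ᵥ w) a)
    rw [Finset.sum_comm (s := univ (α := Fin d))]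
    exact Finset.sum_congr rfl fun i _ => Finset.sum_comm
  have h3 : ∀ z, ns (P z *ᵥ w) = (ip w (P z *ᵥ w)).re := fun z => by
    have h : ip (P z *ᵥ w) (P z *ᵥ w) = ip w (P z *ᵥ w) := by
      rw [ip_mulVec, (hP z).1, Matrix.mulVec_mulVec, (hP z).2]
    rw [← h, ip_self, ofReal_re]
  have h4 : (es (Ev n) fun z => (ip w (P z *ᵥ w)).re) = (ip w (mM P *ᵥ w)).re := by
    rw [← ec_re]
    congr 1
    simp only [ip, mM, Matrix.mulVec, dotProduct, Matrix.of_apply, ec_sum, ec_mul, ec_mul']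
  have h5 : (ip w (mM P *ᵥ w)).re ≤ m * ns w := by
    have h0 := ns_nonneg w
    refine (abs_le_of_sq_le_sq' ((re_ip_sq_le _ _).trans ?_) (by positivity)).2
    have h6 := (ns_mulVec_le (mM P) w).trans (mul_le_mul_of_nonneg_right hM h0)
    nlinarith [mul_le_mul_of_nonneg_left h6 h0]
  simp only [h3] at h2
  rw [h4] at h2
  linarith

theorem bes_mat (hn : 16 ≤ n) (hP : PV P) {m : ℝ} (hm : 0 ≤ m) (hM : fs (mM P) ≤ m ^ 2)
    (B : Matrix (Fin d) (Fin d) ℂ) : ∑ i, ∑ j, fs (aA P i j * B) ≤ 4 * m * fs B := by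
  have h1 : ∀ i j, fs (aA P i j * B) = ∑ b, ns (aA P i j *ᵥ fun a => B a b) := fun i j =>
    fs_eq_cols _
  simp only [h1]
  rw [fs_eq_cols B, Finset.mul_sum]
  refine le_trans (le_of_eq ?_) (Finset.sum_le_sum fun b _ => bes_vec hn hP hm hM fun a => B a b)
  rw [Finset.sum_comm (s := univ (α := Fin d))]
  exact Finset.sum_congr rfl fun i _ => Finset.sum_comm

theorem two_W (P : X n → Matrix (Fin d) (Fin d) ℂ) : ∑ i, ∑ j, fs (aA P i j) = 2 * W2 P := by
  unfold W2; ring

theorem W_nonneg (P : X n → Matrix (Fin d) (Fin d) ℂ) : 0 ≤ W2 P :=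
  mul_nonneg (by norm_num)
    (Finset.sum_nonneg fun _ _ => Finset.sum_nonneg fun _ _ => fs_nonneg _)

theorem T4_le (P : X n → Matrix (Fin d) (Fin d) ℂ) :
    ∑ i, ∑ k, fs (Xb P i k) ≤ (2 * W2 P) ^ 2 := by
  have h : ∀ i k, fs (Xb P i k) ≤ (∑ j, fs (aA P i j)) * ∑ j, fs (aA P j k) := by
    intro i k
    have h1 := fs_mul_le (Matrix.of fun a (p : Fin n × Fin d) => aA P i p.1 a p.2)
      (Matrix.of fun (p : Fin n × Fin d) b => aA P p.1 k p.2 b)
    refine le_trans (le_of_eq ?_) (h1.trans (le_of_eq ?_))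
    · congr 1
      ext a b
      simp only [Xb, Matrix.sum_apply, Matrix.mul_apply, Matrix.of_apply, Fintype.sum_prod_type]
    · simp only [fs, Matrix.of_apply, Fintype.sum_prod_type]
      rw [Finset.sum_comm]
  refine (Finset.sum_le_sum fun i _ => Finset.sum_le_sum fun k _ => h i k).trans (le_of_eq ?_)
  rw [← Finset.sum_mul_sum, two_W, Finset.sum_comm, two_W, sq]

/-- the linear form of a block row -/
noncomputable def Lr (P : X n → Matrix (Fin d) (Fin d) ℂ) (k : Fin n) (z : X n) :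
    Matrix (Fin d) (Fin d) ℂ := ∑ j, (sg z j : ℂ) • aA P k j

theorem mom_L (hn : 16 ≤ n) (P : X n → Matrix (Fin d) (Fin d) ℂ) :
    (es (Ev n) fun z => (∑ k, fs (Lr P k z)) ^ 2) ≤ 20 * (2 * W2 P) ^ 2 := by
  have h := mom4 (by omega) (Ev n)
    (Matrix.of fun (p : Fin n × Fin d × Fin d) j => aA P p.1 j p.2.1 p.2.2)
  refine le_trans (le_of_eq (es_congr fun z _ => ?_)) (h.trans (le_of_eq ?_))
  · simp only [ns, fs, Lr, Fintype.sum_prod_type, Matrix.mulVec, dotProduct, Matrix.of_apply,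
      Matrix.sum_apply, Matrix.smul_apply, smul_eq_mul, sv, mul_comm]
  · rw [← two_W]
    congr 2
    simp only [fs, Fintype.sum_prod_type, Matrix.of_apply]
    refine Finset.sum_congr rfl fun k _ => ?_
    rw [Finset.sum_comm (s := univ (α := Fin n))]
    exact Finset.sum_congr rfl fun a _ => Finset.sum_comm

theorem Cr_eq (P : X n → Matrix (Fin d) (Fin d) ℂ) :
    Cr P = (es (Ev n) fun z =>
      ∑ p : Fin n × Fin n, (P z * aA P p.1 p.2 * (Lr P p.2 z * Lr P p.1 z)).trace.re) -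
      ∑ p : Fin n × Fin n, (aA P p.2 p.1 * mM P * Xb P p.2 p.1).trace.re := by
  have h1 : ∀ i k, (Xb P k i * Xb P k i).trace.re =
      ∑ j, (aA P j i * (Xb P k i * aA P k j)).trace.re := fun i k => by
    conv_lhs => rw [Xb, Finset.sum_mul, Matrix.trace_sum, Complex.re_sum]
    refine Finset.sum_congr rfl fun j _ => ?_
    rw [Matrix.mul_assoc, Matrix.trace_mul_comm, Matrix.mul_assoc]
    rfl
  simp only [Cr, h1, tr_split, Finset.sum_sub_distrib, ← es_sum, Fintype.sum_prod_type]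
  congr 1
  · refine es_congr fun z _ => ?_
    simp only [Lr, Xb, Finset.sum_mul, Finset.mul_sum, Matrix.trace_sum, Complex.re_sum,
      Matrix.smul_mul, Matrix.mul_smul, Matrix.trace_smul, smul_eq_mul, re_ofReal_mul,
      Matrix.mul_assoc]
    rw [Finset.sum_comm]
    refine Finset.sum_congr rfl fun k _ => ?_
    have h2 : ∀ f : Fin n → Fin n → Fin n → ℝ,
        ∑ i, ∑ j, ∑ l, f i j l = ∑ l, ∑ j, ∑ i, f i j l := fun f => by
      rw [Finset.sum_comm]
      simp only [Finset.sum_comm (f := fun i l => f i _ l)]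
      rw [Finset.sum_comm]
    rw [h2]
    refine Finset.sum_congr rfl fun l _ => Finset.sum_congr rfl fun j _ =>
      Finset.sum_congr rfl fun i _ => ?_
    ring
  · refine Finset.sum_congr rfl fun i _ => Finset.sum_congr rfl fun k _ => ?_
    rw [Finset.sum_ite_eq' univ i, if_pos (mem_univ _), ← Matrix.mul_assoc,
      Matrix.trace_mul_comm, Matrix.mul_assoc]

end A2Bh

open A2Bh in
theorem st_A2B : A2B := by
  intro n d P m hn hP hm hM
  have hW := W_nonneg P
  have hfs : ∀ z, fs (P z) = (P z).trace.re := fun z => by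
    rw [fs_eq_re, (hP z).1, (hP z).2]
  have h1 : ∀ z, ∑ p : Fin n × Fin n, (P z * aA P p.1 p.2 * (Lr P p.2 z * Lr P p.1 z)).trace.re ≤
      √(4 * m * fs (P z)) * ∑ k, fs (Lr P k z) := fun z => by
    refine (le_abs_self _).trans ((sum_tr_le _ _).trans ?_)
    refine mul_le_mul (Real.sqrt_le_sqrt ?_) ?_ (Real.sqrt_nonneg _) (Real.sqrt_nonneg _)
    · refine le_trans (le_of_eq ?_) (bes_mat hn hP hm hM (P z))
      rw [Fintype.sum_prod_type]
      refine Finset.sum_congr rfl fun i _ => Finset.sum_congr rfl fun j _ => ?_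
      rw [← fs_conjTranspose, Matrix.conjTranspose_mul, herm hP, (hP z).1]
    · refine Real.sqrt_le_iff.2 ⟨Finset.sum_nonneg fun _ _ => fs_nonneg _, ?_⟩
      refine (Finset.sum_le_sum fun p _ => fs_mul_le _ _).trans (le_of_eq ?_)
      rw [sq, Finset.sum_mul_sum, Fintype.sum_prod_type, Finset.sum_comm]
  have hr : (es (Ev n) fun z => √(4 * m * fs (P z)) ^ 2) = 4 * (m * rk P) := by
    rw [rk, ← mul_assoc, ← es_mul]
    refine es_congr fun z _ => ?_
    rw [Real.sq_sqrt (mul_nonneg (by positivity) (fs_nonneg _)), hfs]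
  have hr0 : 0 ≤ m * rk P :=
    mul_nonneg hm (es_nonneg fun z _ => hfs z ▸ fs_nonneg _)
  have h2 : (es (Ev n) fun z => √(4 * m * fs (P z)) * ∑ k, fs (Lr P k z)) ≤
      18 * √(m * rk P) * W2 P := by
    have h := es_cs (Ev n) (fun z => √(4 * m * fs (P z))) fun z => ∑ k, fs (Lr P k z)
    rw [hr] at h
    have h' := h.trans (mul_le_mul_of_nonneg_left (mom_L hn P) (by positivity))
    refine (abs_le_of_sq_le_sq' (h'.trans ?_) (by positivity)).2
    rw [mul_pow (18 * _), mul_pow 18, Real.sq_sqrt hr0]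
    nlinarith [mul_nonneg hr0 (sq_nonneg (W2 P))]
  have h3 : |∑ p : Fin n × Fin n, (aA P p.2 p.1 * mM P * Xb P p.2 p.1).trace.re| ≤
      3 * m * W2 P * √(W2 P) := by
    refine (sum_tr_le _ _).trans ?_
    have h4 : √(∑ p : Fin n × Fin n, fs (aA P p.2 p.1 * mM P)) ≤ 3 / 2 * m * √(W2 P) := by
      refine Real.sqrt_le_iff.2 ⟨by positivity, ?_⟩
      refine (Finset.sum_le_sum fun p _ => (fs_mul_le _ _).trans
        (mul_le_mul_of_nonneg_left hM (fs_nonneg _))).trans ?_
      rw [← Finset.sum_mul, Fintype.sum_prod_type, Finset.sum_comm, two_W, mul_pow,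
        Real.sq_sqrt hW]
      nlinarith [mul_nonneg hW (sq_nonneg m)]
    have h5 : √(∑ p : Fin n × Fin n, fs (Xb P p.2 p.1)) ≤ 2 * W2 P := by
      refine Real.sqrt_le_iff.2 ⟨by positivity, ?_⟩
      rw [Fintype.sum_prod_type, Finset.sum_comm]
      exact T4_le P
    refine (mul_le_mul h4 h5 (Real.sqrt_nonneg _) (by positivity)).trans (le_of_eq ?_)
    ring
  rw [Cr_eq]
  have h6 := (es_mono (S := Ev n) fun z _ => h1 z).trans h2
  have h7 := neg_abs_le (∑ p : Fin n × Fin n, (aA P p.2 p.1 * mM P * Xb P p.2 p.1).trace.re)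
  linarith

end Pool.Agent.Lib.QE
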