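import Pool.Agent.Lib.QE.B_CT

/-! The top eigenvector of the block matrix. -/

namespace Pool.Agent.Lib.QE

open Finset Matrix Complex Pool.Agent.Lib.MP_5d53d3_co
open scoped BigOperators ComplexConjugate

namespace A3h

variable {n d : ℕ} {ι : Type} [Fintype ι] [DecidableEq ι] {P : X n → Matrix (Fin d) (Fin d) ℂ}

theorem tr_pow {K : Matrix ι ι ℂ} (h : K.IsHermitian) (j : ℕ) :
    (K ^ j).trace.re = ∑ p, h.eigenvalues p ^ j := by
  conv_lhs => rw [h.spectral_theorem, ← map_pow, Unitary.conjStarAlgAut_apply]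
  rw [Matrix.trace_mul_cycle, Unitary.coe_star_mul_self, one_mul, Matrix.diagonal_pow,
    Matrix.trace_diagonal, Complex.re_sum]
  refine Finset.sum_congr rfl fun p _ => ?_
  simp [← Complex.ofReal_pow]

theorem eig {K : Matrix ι ι ℂ} (h : K.IsHermitian) (p : ι) :
    ∃ v : ι → ℂ, ns v = 1 ∧ K *ᵥ v = (h.eigenvalues p : ℂ) • v := by
  refine ⟨h.eigenvectorBasis p, ?_, ?_⟩
  · have := h.eigenvectorBasis.orthonormal.1 p
    rw [EuclideanSpace.norm_eq, Real.sqrt_eq_one] at this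
    simpa only [ns, Complex.normSq_eq_norm_sq] using this
  · rw [h.mulVec_eigenvectorBasis p]
    ext a
    simp

/-- the block matrix -/
noncomputable def bk (P : X n → Matrix (Fin d) (Fin d) ℂ) :
    Matrix (Fin n × Fin d) (Fin n × Fin d) ℂ := Matrix.of fun p q => aA P p.1 q.1 p.2 q.2

theorem herm (hP : PV P) : (bk P).IsHermitian := by
  ext ⟨i, a⟩ ⟨j, b⟩
  simp only [bk, aA, a2, Matrix.conjTranspose_apply, Matrix.of_apply, RCLike.star_def, eq_comm (a := j)]
  split_ifs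
  · exact map_zero _
  · rw [ec_conj]
    refine ec_congr fun z _ => ?_
    rw [← (hP z).1.apply a b]
    simp only [map_mul, conj_ofReal, RCLike.star_def]
    ring

theorem bk_sq (P : X n → Matrix (Fin d) (Fin d) ℂ) (p q : Fin n × Fin d) :
    (bk P * bk P) p q = Xb P p.1 q.1 p.2 q.2 := by
  simp only [bk, Xb, Matrix.mul_apply, Matrix.of_apply, Fintype.sum_prod_type, Matrix.sum_apply]

theorem fs_bk (B : Fin n → Fin n → Matrix (Fin d) (Fin d) ℂ)
    (K : Matrix (Fin n × Fin d) (Fin n × Fin d) ℂ) (h : ∀ p q, K p q = B p.1 q.1 p.2 q.2) :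
    fs K = ∑ i, ∑ j, fs (B i j) := by
  simp only [fs, h, Fintype.sum_prod_type]
  exact Finset.sum_congr rfl fun i _ => Finset.sum_comm

theorem tr2 (hP : PV P) : (bk P ^ 2).trace.re = 2 * W2 P := by
  rw [sq, W2, ← fs_bk (aA P) (bk P) fun _ _ => rfl, fs_eq_re, (herm hP).eq]
  ring

theorem tr4 (hP : PV P) : (bk P ^ 4).trace.re = T4 P := by
  rw [T4, ← fs_bk (Xb P) _ (bk_sq P), fs_eq_re, Matrix.conjTranspose_mul, (herm hP).eq]
  simp only [pow_succ, pow_zero, one_mul, mul_assoc]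

theorem tr3 (P : X n → Matrix (Fin d) (Fin d) ℂ) : (bk P ^ 3).trace.re = T3 P := by
  have e : T3 P = ∑ i, ∑ k, (Xb P i k * aA P k i).trace.re := by
    simp only [T3, Xb, Finset.sum_mul, Matrix.trace_sum, Complex.re_sum]
    exact Finset.sum_congr rfl fun i _ => Finset.sum_comm
  rw [e, pow_succ, sq]
  simp only [← Complex.re_sum, Matrix.trace, Matrix.diag, Matrix.mul_apply (M := bk P * bk P),
    Matrix.mul_apply (M := Xb P _ _), bk_sq, Fintype.sum_prod_type]
  exact congrArg re (Finset.sum_congr rfl fun i _ => Finset.sum_comm)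

theorem aA_eq (P : X n → Matrix (Fin d) (Fin d) ℂ) (i j : Fin n) (a b : Fin d) :
    aA P i j a b = ec (Ev n) (fun z => (sg z i : ℂ) * sg z j * P z a b) -
      if i = j then mM P a b else 0 := by
  simp only [aA, a2, mM, Matrix.of_apply]
  split_ifs with h
  · subst h
    refine (sub_eq_zero.2 (ec_congr fun z _ => ?_)).symm
    rw [← ofReal_mul, sg_sq, ofReal_one, one_mul]
  · rw [sub_zero]

theorem form (P : X n → Matrix (Fin d) (Fin d) ℂ) (v : Fin n × Fin d → ℂ) :
    ip v (bk P *ᵥ v) = ec (Ev n) (fun z => ip (fun a => ∑ i, sg z i * v (i, a))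
      (P z *ᵥ fun a => ∑ i, sg z i * v (i, a))) -
      ∑ i, ip (fun a => v (i, a)) (mM P *ᵥ fun a => v (i, a)) := by
  simp only [ip, bk, Matrix.mulVec, dotProduct, Matrix.of_apply, aA_eq, Fintype.sum_prod_type,
    sub_mul, mul_sub, Finset.sum_sub_distrib, ite_mul, zero_mul, Finset.sum_ite_irrel,
    Finset.sum_const_zero, Finset.sum_ite_eq, mem_univ, if_true, ← ec_mul', ← ec_sum, ← ec_mul]
  refine congrArg₂ _ (ec_congr fun z _ => ?_) rfl
  rw [Finset.sum_comm]
  refine Finset.sum_congr rfl fun a _ => ?_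
  simp only [map_sum, map_mul, conj_ofReal, Finset.sum_mul]
  refine Finset.sum_congr rfl fun i _ => ?_
  rw [Finset.sum_comm]
  simp only [Finset.mul_sum]
  exact Finset.sum_congr rfl fun b _ => Finset.sum_congr rfl fun j _ => by ring

theorem low (hP : PV P) {m : ℝ} (hm : 0 ≤ m) (h : fs (mM P) ≤ m ^ 2) (v : Fin n × Fin d → ℂ) :
    -m * ns v ≤ (ip v (bk P *ᵥ v)).re := by
  have a : ∀ (z : X n) w, 0 ≤ (ip w (P z *ᵥ w)).re := fun z w => by
    rw [← (hP z).2, ← Matrix.mulVec_mulVec, ip_mulVec', (hP z).1.eq, ip_self, ofReal_re]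
    exact ns_nonneg _
  have b : ∀ w, (ip w (mM P *ᵥ w)).re ≤ m * ns w := fun w => by
    refine abs_le_of_sq_le_sq' ((re_ip_sq_le _ _).trans ?_) (mul_nonneg hm (ns_nonneg w)) |>.2
    have := (ns_mulVec_le (mM P) w).trans (mul_le_mul_of_nonneg_right h (ns_nonneg w))
    nlinarith [mul_le_mul_of_nonneg_left this (ns_nonneg w)]
  have c : ns v = ∑ i, ns fun a => v (i, a) := Fintype.sum_prod_type _
  rw [form, sub_re, ec_re, Complex.re_sum, c, neg_mul, Finset.mul_sum]
  have d1 := es_nonneg (S := Ev n) fun z _ => a z fun a => ∑ i, sg z i * v (i, a)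
  have d2 := Finset.sum_le_sum fun i (_ : i ∈ univ) => b fun a => v (i, a)
  linarith

end A3h

open A3h in
theorem st_A3 : A3 := by
  intro n d P m hn hd hP hm h
  have H := herm hP
  obtain ⟨p, -, hp⟩ := Finset.exists_max_image univ H.eigenvalues ⟨(⟨0, hn⟩, ⟨0, hd⟩), mem_univ _⟩
  obtain ⟨v, v1, v2⟩ := eig H p
  refine ⟨H.eigenvalues p, Matrix.of fun a i => v (i, a), ⟨?_, fun a i => ?_⟩, ?_, ?_⟩
  · rw [← v1, fs_eq_cols]
    exact (Fintype.sum_prod_type fun q => normSq (v q)).symm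
  · exact (Fintype.sum_prod_type fun q => bk P (i, a) q * v q).symm.trans (congrFun v2 (i, a))
  · rw [← tr2 hP, tr_pow H]
    exact Finset.single_le_sum (f := fun q => H.eigenvalues q ^ 2) (fun q _ => sq_nonneg _)
      (mem_univ p)
  · rw [mul_comm 2, mul_assoc, mul_assoc, ← mul_assoc 2, mul_comm 2, mul_assoc m, ← tr2 hP, ← tr3,
      ← tr4 hP, tr_pow H, tr_pow H, tr_pow H, ← mul_assoc, Finset.mul_sum, Finset.mul_sum,
      ← Finset.sum_add_distrib]
    refine Finset.sum_le_sum fun q _ => ?_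
    obtain ⟨w, w1, w2⟩ := eig H q
    have l := low hP hm h w
    rw [w2, ip_smul_right, ip_self, w1, ← ofReal_mul, ofReal_re] at l
    have := mul_nonneg (mul_nonneg (sq_nonneg (H.eigenvalues q)) (sub_nonneg.2 (hp q (mem_univ q))))
      (show 0 ≤ H.eigenvalues q + m by linarith)
    nlinarith

end Pool.Agent.Lib.QE
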