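import Pool.Agent.Lib.QE.B_CT

/-! Row A4: the eigenvector of the block matrix is an approximate linear model. -/

namespace Pool.Agent.Lib.QE

open Finset Matrix Complex Pool.Agent.Lib.MP_5d53d3_co
open scoped BigOperators ComplexConjugate

namespace A4h

variable {n d : ℕ} {P : X n → Matrix (Fin d) (Fin d) ℂ}

theorem aA_eq (P : X n → Matrix (Fin d) (Fin d) ℂ) (i j : Fin n) (a b : Fin d) :
    aA P i j a b = ec (Ev n) (fun z => (sg z i : ℂ) * sg z j * P z a b) -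
      if i = j then mM P a b else 0 := by
  simp only [aA, a2, mM, Matrix.of_apply]
  split_ifs with h
  · subst h
    rw [eq_comm, sub_eq_zero]
    refine ec_congr fun z _ => ?_
    rw [← ofReal_mul, sg_sq, ofReal_one, one_mul]
  · rw [sub_zero]

theorem tr_eq {m : ℕ} (V W : Matrix (Fin d) (Fin m) ℂ) :
    (Vᴴ * W).trace = ∑ a, ∑ i, conj (V a i) * W a i := by
  rw [trace_eq_ip, ip, Fintype.sum_prod_type]

theorem key {U : Matrix (Fin d) (Fin n) ℂ} {k : ℝ} (hE : Eig P U k) (V : Matrix (Fin d) (Fin n) ℂ) :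
    (k : ℂ) * (Vᴴ * U).trace =
      ec (Ev n) (fun z => ip (V *ᵥ sv z) (P z *ᵥ (U *ᵥ sv z))) - (Vᴴ * (mM P * U)).trace := by
  have h1 : ∀ z : X n, ip (V *ᵥ sv z) (P z *ᵥ (U *ᵥ sv z)) =
      ∑ a, ∑ i, conj (V a i) * ∑ j, ∑ b, (sg z i : ℂ) * sg z j * P z a b * U b j := fun z => by
    simp only [ip, Matrix.mulVec, dotProduct, map_sum, map_mul, conj_sv, Finset.sum_mul]
    refine Finset.sum_congr rfl fun a _ => Finset.sum_congr rfl fun i _ => ?_
    rw [mul_assoc, Finset.sum_comm]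
    congr 1
    simp only [Finset.mul_sum, sv]
    exact Finset.sum_congr rfl fun b _ => Finset.sum_congr rfl fun j _ => by ring
  simp only [h1, ec_sum, ec_mul, ec_mul', tr_eq, Finset.mul_sum (s := univ) (a := (k : ℂ)),
    ← Finset.sum_sub_distrib]
  refine Finset.sum_congr rfl fun a _ => Finset.sum_congr rfl fun i _ => ?_
  rw [mul_left_comm, ← hE.2 a i, ← mul_sub]
  congr 1
  simp only [aA_eq, sub_mul, Finset.sum_sub_distrib, Matrix.mul_apply]
  congr 1
  rw [Finset.sum_eq_single i (fun j _ hj => by simp [hj.symm]) (by simp)]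
  simp

theorem form_eq {m : ℕ} (hP : PV P) (V : Matrix (Fin d) (Fin m) ℂ) :
    (Vᴴ * (mM P * V)).trace.re = es (Ev n) fun z => fs (P z * V) := by
  have h1 : ∀ z, fs (P z * V) = (Vᴴ * (P z * V)).trace.re := fun z => by
    rw [fs_eq_re, Matrix.conjTranspose_mul, (hP z).1.eq, Matrix.mul_assoc, ← Matrix.mul_assoc (P z),
      (hP z).2]
  simp only [h1]
  rw [← ec_re]
  congr 1
  simp only [tr_eq, ec_sum, ec_mul, ec_mul', Matrix.mul_apply, mM, Matrix.of_apply]

theorem form_nonneg {m : ℕ} (hP : PV P) (V : Matrix (Fin d) (Fin m) ℂ) :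
    0 ≤ (Vᴴ * (mM P * V)).trace.re :=
  form_eq hP V ▸ es_nonneg fun _ _ => fs_nonneg _

theorem form_le {l : ℕ} {m : ℝ} (hm : 0 ≤ m) (hM : fs (mM P) ≤ m ^ 2) (V : Matrix (Fin d) (Fin l) ℂ) :
    (Vᴴ * (mM P * V)).trace.re ≤ m * fs V := by
  have h0 := fs_nonneg V
  refine (abs_le_of_sq_le_sq' ((re_trace_sq_le _ _).trans ?_) (mul_nonneg hm h0)).2
  have h1 := (fs_mul_le (mM P) V).trans (mul_le_mul_of_nonneg_right hM h0)
  calc fs V * fs (mM P * V) ≤ fs V * (m ^ 2 * fs V) := mul_le_mul_of_nonneg_left h1 h0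
    _ = (m * fs V) ^ 2 := by ring

theorem ip_proj (hP : PV P) (z : X n) (q : Fin d → ℂ) : ip q (P z *ᵥ q) = (ns (P z *ᵥ q) : ℝ) := by
  rw [← ip_self, ip_mulVec, (hP z).1.eq, Matrix.mulVec_mulVec, (hP z).2]

theorem ns_proj_le (hP : PV P) (z : X n) (q : Fin d → ℂ) : ns (P z *ᵥ q) ≤ ns q := by
  have h := ns_nonneg (q - P z *ᵥ q)
  rw [ns_sub, ip_proj hP, ofReal_re] at h
  linarith

theorem fs_swap (U : Matrix (Fin d) (Fin n) ℂ) : fs (U * Uᴴ) = fs (Uᴴ * U) := by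
  rw [fs_eq_re, fs_eq_re, Matrix.conjTranspose_mul, Matrix.conjTranspose_mul,
    Matrix.conjTranspose_conjTranspose, Matrix.mul_assoc, Matrix.trace_mul_comm]
  simp only [Matrix.mul_assoc]

theorem part1 {U : Matrix (Fin d) (Fin n) ℂ} {k m : ℝ} (hn : 0 < n) (hP : PV P) (hm : 0 ≤ m)
    (hM : fs (mM P) ≤ m ^ 2) (hE : Eig P U k) (hk : 0 < k) : k ^ 2 * fs (Uᴴ * U) ≤ 20 * m := by
  set H := U * Uᴴ with hH
  have hHh : Hᴴ = H := by rw [hH, Matrix.conjTranspose_mul, Matrix.conjTranspose_conjTranspose]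
  have h1 := congrArg re (key hE (H * U))
  have e1 : ((H * U)ᴴ * U).trace.re = fs H := by
    rw [fs_eq_re, Matrix.conjTranspose_mul, hHh, Matrix.mul_assoc, Matrix.trace_mul_comm,
      Matrix.mul_assoc]
  have e2 : ((H * U)ᴴ * (mM P * U)).trace = (Hᴴ * (mM P * H)).trace := by
    rw [Matrix.conjTranspose_mul, Matrix.mul_assoc, Matrix.trace_mul_comm]
    simp only [Matrix.mul_assoc, hH]
  rw [re_ofReal_mul, e1, sub_re, e2, ec_re] at h1
  have h2 := form_nonneg hP H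
  have h3 : (es (Ev n) fun z => (ip ((H * U) *ᵥ sv z) (P z *ᵥ (U *ᵥ sv z))).re) ≤
      es (Ev n) fun z => √(fs (P z * H)) * ns (U *ᵥ sv z) := by
    refine es_mono fun z _ => ?_
    rw [ip_mulVec', (hP z).1.eq, ← Matrix.mulVec_mulVec, Matrix.mulVec_mulVec _ (P z) H]
    have h0 := ns_nonneg (U *ᵥ sv z)
    refine (abs_le_of_sq_le_sq' ((re_ip_sq_le _ _).trans ?_) (by positivity)).2
    rw [mul_pow, Real.sq_sqrt (fs_nonneg _), sq, ← mul_assoc]
    exact mul_le_mul_of_nonneg_right (ns_mulVec_le _ _) h0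
  have h4 := es_cs (Ev n) (fun z => √(fs (P z * H))) fun z => ns (U *ᵥ sv z)
  simp only [Real.sq_sqrt (fs_nonneg _)] at h4
  have h5 := mom4 hn (Ev n) U
  rw [hE.1] at h5
  have h6 := form_le hm hM H
  rw [form_eq hP] at h6
  have h7 : 0 ≤ es (Ev n) fun z => ns (U *ᵥ sv z) ^ 2 := es_nonneg fun _ _ => sq_nonneg _
  have h0 := fs_nonneg H
  have h8 : (k * fs H) ^ 2 ≤ m * fs H * (20 * 1 ^ 2) :=
    (pow_le_pow_left₀ (mul_nonneg hk.le h0) (by linarith) 2).trans
      (h4.trans (mul_le_mul h6 h5 h7 (mul_nonneg hm h0)))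
  rw [← fs_swap]
  rcases h0.eq_or_lt with h | h
  · rw [← hH, ← h, mul_zero]; positivity
  · refine le_of_mul_le_mul_right ?_ h
    rw [← hH]
    calc k ^ 2 * fs H * fs H = (k * fs H) ^ 2 := by ring
      _ ≤ m * fs H * (20 * 1 ^ 2) := h8
      _ = 20 * m * fs H := by ring

theorem num {a q : ℝ} (ha : 0 ≤ a) (h : a ^ 2 ≤ q) : 1 + q - 2 * a ≤ |q - 1| + 2 * (q - a ^ 2) := by
  have h1 := le_abs_self (q - 1)
  have h2 := neg_abs_le (q - 1)
  rcases le_total a 1 with h3 | h3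
  · nlinarith [mul_nonneg ha (sub_nonneg.2 h3)]
  · nlinarith [mul_nonneg ha (sub_nonneg.2 h3)]

end A4h

open A4h in
theorem st_A4 : A4 := by
  classical
  intro n d P m k U hn hP hm hM hE hk
  have hn0 : 0 < n := by omega
  refine ⟨part1 hn0 hP hm hM hE hk, ?_⟩
  set ρ := √(8 * fs (Uᴴ * U)) with hρ
  set q : X n → ℝ := fun z => ns (U *ᵥ sv z) with hq
  set A : X n → ℝ := fun z => ns (P z *ᵥ (U *ᵥ sv z)) with hA
  set S := (Ev n).filter fun z => P z *ᵥ (U *ᵥ sv z) ≠ 0 with hS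
  have hSE : S ⊆ Ev n := Finset.filter_subset _ _
  have hApos : ∀ z ∈ S, 0 < A z := fun z hz =>
    (ns_nonneg _).lt_of_ne fun h => (Finset.mem_filter.1 hz).2 (ns_eq_zero h.symm)
  have hAq : ∀ z, A z ≤ q z := fun z => ns_proj_le hP z _
  have h1 : k ≤ es S A := by
    have h := congrArg re (key hE U)
    rw [re_ofReal_mul, ← fs_eq_re, hE.1, mul_one, sub_re, ec_re] at h
    simp only [ip_proj hP, ofReal_re] at h
    have h2 := form_nonneg hP U
    have h3 : es S A = es (Ev n) A := by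
      rw [hS, es_filter]
      refine es_congr fun z _ => ?_
      split_ifs with hz
      · rfl
      · rw [not_not] at hz
        simp only [hA, hz, ns, Pi.zero_apply, map_zero, Finset.sum_const_zero]
    rw [h3]
    linarith
  have h2 : (es S fun z => |q z - 1|) ≤ ρ := by
    have h3 := mom_var hn0 S (Uᴴ * U)
    have e : ∀ z : X n, (ip (sv z) ((Uᴴ * U) *ᵥ sv z)).re = q z := fun z => by
      rw [← Matrix.mulVec_mulVec, ← ip_mulVec, ip_self, ofReal_re]
    simp only [e, ← fs_eq_re, hE.1] at h3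
    have h4 := es_sq_le S fun z => |q z - 1|
    simp only [sq_abs] at h4
    have h5 : 0 ≤ es S fun z => (q z - 1) ^ 2 := es_nonneg fun _ _ => sq_nonneg _
    exact Real.le_sqrt_of_sq_le
      (h4.trans ((mul_le_of_le_one_left h5 (mu_le_one hSE)).trans h3))
  have h3 : es S q ≤ mu S + ρ := by
    have h : es S q ≤ es S fun z => 1 + |q z - 1| :=
      es_mono fun z _ => by linarith [le_abs_self (q z - 1)]
    rw [es_add, ← mu_eq_es] at h
    linarith
  have h4 : es S A ≤ es S q := es_mono fun z _ => hAq z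
  have h5 : mu S ≤ rk P := by
    rw [mu_eq_es, rk]
    refine (es_mono fun z hz => one_le_trace (hP z).2 fun h => (hApos z hz).ne' ?_).trans
      (es_subset hSE fun z _ => ?_)
    · simp only [hA, h, Matrix.zero_mulVec, ns, Pi.zero_apply, map_zero, Finset.sum_const_zero]
    · have h := fs_nonneg (P z)
      rwa [fs_eq_re, (hP z).1.eq, (hP z).2] at h
  refine ⟨S, fun z => (((√(A z))⁻¹ : ℝ) : ℂ) • (P z *ᵥ (U *ᵥ sv z)), hSE, fun z hz => ⟨?_, ?_⟩,
    by linarith, ?_⟩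
  · rw [Matrix.mulVec_smul, Matrix.mulVec_mulVec _ (P z) (P z), (hP z).2]
  · rw [ns_smul, normSq_ofReal, ← mul_inv, Real.mul_self_sqrt (hApos z hz).le]
    exact inv_mul_cancel₀ (hApos z hz).ne'
  · have h6 : es S (fun z => ns (eE (fun z => (((√(A z))⁻¹ : ℝ) : ℂ) • (P z *ᵥ (U *ᵥ sv z))) U z)) ≤
        es S fun z => |q z - 1| + 2 * (q z - A z) := by
      refine es_mono fun z hz => ?_
      have p := hApos z hz
      have p1 : 0 < √(A z) := Real.sqrt_pos.2 p
      have e1 : ns ((((√(A z))⁻¹ : ℝ) : ℂ) • (P z *ᵥ (U *ᵥ sv z))) = 1 := by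
        rw [ns_smul, normSq_ofReal, ← mul_inv, Real.mul_self_sqrt p.le]
        exact inv_mul_cancel₀ p.ne'
      have e2 : (ip ((((√(A z))⁻¹ : ℝ) : ℂ) • (P z *ᵥ (U *ᵥ sv z))) (U *ᵥ sv z)).re = √(A z) := by
        rw [ip_smul_left, ← ip_conj, ip_proj hP, conj_ofReal, conj_ofReal, ← ofReal_mul, ofReal_re,
          inv_mul_eq_iff_eq_mul₀ p1.ne', Real.mul_self_sqrt p.le]
      have h7 := num p1.le ((Real.sq_sqrt p.le).le.trans (hAq z))
      rw [Real.sq_sqrt p.le] at h7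
      simp only [eE]
      rw [ns_sub, e1, e2]
      exact h7
    rw [es_add, es_mul, es_sub] at h6
    linarith

end Pool.Agent.Lib.QE
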