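import Pool.Agent.Lib.QE.B_CT

/-! Trace identities and the radial component. -/

namespace Pool.Agent.Lib.QE

open Finset Matrix Complex Pool.Agent.Lib.MP_5d53d3_co
open scoped BigOperators ComplexConjugate

namespace BALGh

variable {n d : ℕ} {ι κ : Type}

theorem fs_sub70 [Fintype ι] [Fintype κ] (A B : Matrix ι κ ℂ) (c : ℝ) :
    fs (A - (c : ℂ) • B) = fs A - 2 * c * (Aᴴ * B).trace.re + c ^ 2 * fs B := by
  have h := ns_sub (fun p : ι × κ => A p.1 p.2) ((c : ℂ) • fun p : ι × κ => B p.1 p.2)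
  rw [ns_smul, ip_smul_right, ← trace_eq_ip, ← fs_eq_ns, ← fs_eq_ns, re_ofReal_mul,
    normSq_ofReal] at h
  have h2 : fs (A - (c : ℂ) • B) =
      ns ((fun p : ι × κ => A p.1 p.2) - (c : ℂ) • fun p : ι × κ => B p.1 p.2) := fs_eq_ns _
  rw [h2, h]
  ring

theorem fs_gram70 [Fintype ι] [Fintype κ] (U : Matrix ι κ ℂ) : fs (U * Uᴴ) = fs (Uᴴ * U) := by
  rw [fs_eq_re, fs_eq_re]
  simp only [Matrix.conjTranspose_mul, Matrix.conjTranspose_conjTranspose]
  rw [Matrix.mul_assoc U, Matrix.trace_mul_comm U, Matrix.mul_assoc, Matrix.mul_assoc,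
    Matrix.mul_assoc]

theorem fs_one70 : fs (1 : Matrix (Fin d) (Fin d) ℂ) = d := by
  rw [fs_eq_re]
  simp

theorem fs_dual70 {π : Matrix (Fin n) (Fin n) ℝ} {U : Matrix (Fin d) (Fin n) ℂ} (hπ : Proj π)
    (hU : U * cx π = U) :
    fs (U * Uᴴ - (la π U : ℂ) • 1) = del π U - la π U ^ 2 * (π.trace - d) := by
  rw [del, dD, fs_sub70, fs_sub70, fs_gram70, fs_one70, hπ.fs_cx]
  simp only [Matrix.conjTranspose_mul, Matrix.conjTranspose_conjTranspose, Matrix.mul_one]
  rw [Matrix.mul_assoc, hU, Matrix.trace_mul_comm U]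
  ring

theorem es_form70 (S : Finset (X n)) (e : X n → Fin d → ℂ) (B : Matrix (Fin d) (Fin d) ℂ) :
    (es S fun x => (ip (e x) (B *ᵥ e x)).re) =
      ((Matrix.of fun a b => ec S fun x => e x a * conj (e x b))ᴴ * B).trace.re := by
  rw [← ec_re, trace_eq_ip]
  congr 1
  simp only [ip, Matrix.mulVec, dotProduct, Finset.mul_sum, ec_sum, Fintype.sum_prod_type,
    Matrix.of_apply, ec_conj, ← ec_mul']
  refine Finset.sum_congr rfl fun a _ => Finset.sum_congr rfl fun b _ => ec_congr fun x _ => ?_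
  simp only [map_mul, conj_conj]
  ring

theorem herm70 {π : Matrix (Fin n) (Fin n) ℝ} (U : Matrix (Fin d) (Fin n) ℂ) (hπ : Proj π) :
    (dD π U)ᴴ = dD π U := by
  simp [dD, Matrix.conjTranspose_sub, Matrix.conjTranspose_mul, Matrix.conjTranspose_smul,
    hπ.cx_herm]

theorem tr70 {π : Matrix (Fin n) (Fin n) ℝ} (U : Matrix (Fin d) (Fin n) ℂ) (h : 0 < π.trace) :
    (dD π U).trace.re = 0 := by
  rw [dD, Matrix.trace_sub, Matrix.trace_smul, cx_trace, ← fs_eq_trace, smul_eq_mul, sub_re,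
    re_ofReal_mul, ofReal_re, ofReal_re, la, div_mul_cancel₀ _ h.ne', sub_self]

theorem ip_pi70 {π : Matrix (Fin n) (Fin n) ℝ} (hπ : Proj π) (x : X n) :
    (ip (sv x) (cx π *ᵥ sv x)).re = n - rs (x0 π x) := by
  have h := hπ.dot_x0 x x
  have h1 : dt x x = n := by
    have := rs_sg x
    simpa [rs, dt, sq] using this
  have h2 : rs (x0 π x) = ∑ a, x0 π x a * x0 π x a := by simp [rs, sq]
  rw [h2, h, h1, cx_mulVec_sv]
  simp [ip, sv, Complex.re_sum, mul_comm]

theorem ls70 {S : Finset (X n)} {v : X n → Fin d → ℂ} {π : Matrix (Fin n) (Fin n) ℝ}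
    {U : Matrix (Fin d) (Fin n) ℂ} {ε : ℝ} (hF : Fit S v π U ε) :
    (es S fun x => (ip (eE v U x) (U *ᵥ sv x)).re) = 0 := by
  have h : ∑ x ∈ S, ip (U *ᵥ sv x) (eE v U x) = 0 := by
    have h1 : ∀ x, ip (U *ᵥ sv x) (eE v U x) =
        ∑ c, ∑ i, conj (U c i) * (eE v U x c * ((π *ᵥ sg x) i : ℝ)) := fun x => by
      have h2 : U *ᵥ sv x = U *ᵥ fun i => (((π *ᵥ sg x) i : ℝ) : ℂ) := by
        rw [← cx_mulVec_sv, Matrix.mulVec_mulVec, hF.fix]
      rw [h2, ip]
      refine Finset.sum_congr rfl fun c _ => ?_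
      rw [Matrix.mulVec, dotProduct, map_sum, Finset.sum_mul]
      refine Finset.sum_congr rfl fun i _ => ?_
      rw [map_mul, conj_ofReal]
      ring
    simp only [h1]
    rw [Finset.sum_comm]
    refine Finset.sum_eq_zero fun c _ => ?_
    rw [Finset.sum_comm]
    refine Finset.sum_eq_zero fun i _ => ?_
    rw [← Finset.mul_sum, hF.ls, mul_zero]
  have h3 : ∀ x, (ip (eE v U x) (U *ᵥ sv x)).re = (ip (U *ᵥ sv x) (eE v U x)).re := fun x => by
    rw [← ip_conj, conj_re]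
  simp only [h3]
  rw [es, ← Complex.re_sum, h, zero_re, zero_div]

theorem pt70 {S : Finset (X n)} {v : X n → Fin d → ℂ} {π : Matrix (Fin n) (Fin n) ℝ}
    {U : Matrix (Fin d) (Fin n) ℂ} {ε : ℝ} (hπ : Proj π) (hV : VRep S v) (hF : Fit S v π U ε)
    {x : X n} (hx : x ∈ S) :
    (n : ℝ) * (1 - la π U) = (ip (sv x) (dD π U *ᵥ sv x)).re + ns (eE v U x) -
      la π U * rs (x0 π x) + 2 * (ip (eE v U x) (U *ᵥ sv x)).re ∧
    normSq (ip (gG v π U x) (sv x)) =
      ((ip (sv x) (dD π U *ᵥ sv x)).re + (ip (eE v U x) (U *ᵥ sv x)).re) ^ 2 := by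
  have hv : v x = eE v U x + U *ᵥ sv x := by simp [eE]
  constructor
  · have h1 := hV.2.1 x hx
    rw [hv, ns_add] at h1
    have h2 : ns (U *ᵥ sv x) =
        (ip (sv x) (dD π U *ᵥ sv x)).re + la π U * (n - rs (x0 π x)) := by
      rw [← ip_pi70 hπ, dD, Matrix.sub_mulVec, ip_sub_right, Matrix.smul_mulVec, ip_smul_right,
        sub_re, re_ofReal_mul, ← Matrix.mulVec_mulVec, ← ip_mulVec, ip_self, ofReal_re]
      ring
    rw [h2] at h1
    linarith
  · have h1 := hF.ph x hx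
    rw [hv, ip_add_left, ip_self, add_im, ofReal_im, add_zero] at h1
    have h2 : ip (dD π U *ᵥ sv x) (sv x) = ip (sv x) (dD π U *ᵥ sv x) := by
      rw [ip_mulVec, herm70 U hπ]
    have h3 : (ip (sv x) (dD π U *ᵥ sv x)).im = 0 := by
      have h4 := congrArg im (ip_conj (sv x) (dD π U *ᵥ sv x))
      rw [h2, conj_im] at h4
      linarith
    rw [gG, ip_add_left, h2, eta, ← ip_mulVec', normSq_apply, add_im, add_re, h1, h3]
    ring

end BALGh

open BALGh

theorem st_BALG : BALG := by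
  intro n d S v π U hπ hU h0 hd
  have h1 := fs_dual70 hπ hU
  have h2 := fs_nonneg (U * Uᴴ - (la π U : ℂ) • 1)
  have h3 : 0 ≤ la π U ^ 2 * (π.trace - d) := mul_nonneg (sq_nonneg _) (sub_nonneg.2 hd)
  refine ⟨?_, by linarith, fun h => sub_eq_zero.1 (fs_eq_zero (by linarith))⟩
  have h4 : HH S v U = (es S fun x => (ip (eE v U x)
      ((U * Uᴴ - (la π U : ℂ) • 1) *ᵥ eE v U x)).re) + la π U * tau S v U := by
    rw [tau, ← es_mul, ← es_add, HH]
    refine es_congr fun x _ => ?_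
    rw [Matrix.sub_mulVec, ip_sub_right, Matrix.smul_mulVec, ip_smul_right, Matrix.one_mulVec,
      ip_self, sub_re, re_ofReal_mul, ofReal_re, ← Matrix.mulVec_mulVec, ip_mulVec', ip_self,
      ofReal_re, eta]
    ring
  rw [es_form70] at h4
  have h5 := le_sqrt_mul (re_trace_sq_le
    (Matrix.of fun a b => ec S fun x => eE v U x a * conj (eE v U x b))
    (U * Uᴴ - (la π U : ℂ) • 1)) (fs_nonneg _)
  have h6 : fs (Matrix.of fun a b => ec S fun x => eE v U x a * conj (eE v U x b)) =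
      g2 S v U := rfl
  rw [h6] at h5
  have h7 : √(g2 S v U) * √(fs (U * Uᴴ - (la π U : ℂ) • 1)) ≤ √(g2 S v U) * √(del π U) :=
    mul_le_mul_of_nonneg_left (Real.sqrt_le_sqrt (by linarith)) (Real.sqrt_nonneg _)
  linarith [neg_abs_le (((Matrix.of fun a b => ec S fun x => eE v U x a * conj (eE v U x b))ᴴ *
    (U * Uᴴ - (la π U : ℂ) • 1)).trace.re)]

theorem st_BJ : BJ := by
  intro n d S v π U ε hn hπ h0 hV hF hε
  have hn0 : (0 : ℝ) < n := by exact_mod_cast (by omega : 0 < n)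
  have hl : 0 ≤ la π U := div_nonneg (fs_nonneg U) h0.le
  have hQ := mom_var (by omega : 0 < n) S (dD π U)
  simp only [tr70 U h0, sub_zero] at hQ
  have hr := ls70 hF
  have hp := fun x (hx : x ∈ S) => pt70 hπ hV hF hx
  have hs1 := mu_le_one hV.1
  have hs0 := mu_nonneg S
  have hd : fs (dD π U) = del π U := rfl
  rw [hd] at hQ
  have hd0 : 0 ≤ del π U := fs_nonneg _
  have ht0 : 0 ≤ tau S v U := es_nonneg fun x _ => ns_nonneg _
  have hZ0 : 0 ≤ ZZ S π := es_nonneg fun x _ => sq_nonneg _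
  obtain ⟨Q, hQd⟩ : ∃ Q : X n → ℝ, ∀ x, (ip (sv x) (dD π U *ᵥ sv x)).re = Q x := ⟨_, fun _ => rfl⟩
  obtain ⟨r, hrd⟩ : ∃ r : X n → ℝ, ∀ x, (ip (eE v U x) (U *ᵥ sv x)).re = r x := ⟨_, fun _ => rfl⟩
  simp only [hQd, hrd] at hQ hr hp
  obtain ⟨c, hc⟩ : ∃ c : ℝ, (n : ℝ) * (1 - la π U) = c := ⟨_, rfl⟩
  have hcs : c * mu S = es S fun x => Q x + ns (eE v U x) - la π U * rs (x0 π x) := by
    rw [← es_const, es_congr fun x hx => hc.symm.trans (hp x hx).1, es_add, es_mul, hr, mul_zero,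
      add_zero]
  have hcs' : c * mu S = es S Q + tau S v U - la π U * es S fun x => rs (x0 π x) := by
    rw [hcs, es_sub, es_add, es_mul, tau]
  have hQ1 : es S Q ^ 2 ≤ 8 * del π U :=
    (es_sq_le S Q).trans (by
      have h1 : 0 ≤ es S fun x => Q x ^ 2 := es_nonneg fun x _ => sq_nonneg _
      nlinarith)
  have hz0 : 0 ≤ es S fun x => rs (x0 π x) := es_nonneg fun x _ => rs_nonneg _
  have hm : mu S * n * (1 - la π U) = c * mu S := by rw [← hc]; ring
  refine ⟨?_, ?_, es_le_mul hF.pt, fun h1 h2 h3 => ?_⟩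
  · have hW : c ^ 2 * mu S ≤
        es S fun x => (Q x + ns (eE v U x) - la π U * rs (x0 π x)) ^ 2 := by
      have h1 := es_sq_le S fun x => Q x + ns (eE v U x) - la π U * rs (x0 π x)
      rw [← hcs] at h1
      rcases hs0.eq_or_lt with h2 | h2
      · rw [← h2, mul_zero]
        exact es_nonneg fun x _ => sq_nonneg _
      · exact le_of_mul_le_mul_left (by nlinarith) h2
    have hpt : (es S fun x => 4 * normSq (ip (gG v π U x) (sv x)) +
        2 * (Q x + ns (eE v U x) - la π U * rs (x0 π x)) ^ 2) ≤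
        es S fun x => 2 * c ^ 2 + (4 * Q x ^ 2 + (4 * la π U ^ 2 * rs (x0 π x) ^ 2 +
          4 * (ε * n) * ns (eE v U x))) := by
      refine es_mono fun x hx => ?_
      obtain ⟨h1, h2⟩ := hp x hx
      rw [hc] at h1
      have h3 := ns_nonneg (eE v U x)
      have h4 := mul_nonneg (mul_nonneg hl (rs_nonneg (x0 π x))) h3
      have h5 := mul_le_mul_of_nonneg_right (hF.pt x hx) h3
      have h6 : 4 * (Q x + r x) ^ 2 = (Q x - ns (eE v U x) + la π U * rs (x0 π x) + c) ^ 2 := by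
        rw [h1]; ring
      rw [h2, h6]
      nlinarith [sq_nonneg (Q x - ns (eE v U x) + la π U * rs (x0 π x) - c)]
    rw [es_add, es_add, es_add, es_add, es_const, es_mul, es_mul, es_mul, es_mul, es_mul] at hpt
    have hZ : (es S fun x => rs (x0 π x) ^ 2) = ZZ S π := rfl
    have hT : (es S fun x => ns (eE v U x)) = tau S v U := rfl
    rw [hZ, hT] at hpt
    have h7 := mul_nonneg (sq_nonneg (la π U)) hZ0
    have h8 := mul_nonneg (mul_nonneg hε hn0.le) ht0
    have h9 : 4 * ε * tau S v U + 32 * del π U / n + 4 * la π U ^ 2 * ZZ S π / n =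
        (4 * (ε * n * tau S v U) + 32 * del π U + 4 * (la π U ^ 2 * ZZ S π)) / n := by
      field_simp
    rw [JJ, h9]
    refine div_le_div_of_nonneg_right ?_ hn0.le
    nlinarith
  · rw [hm, hcs']
    have h1 := Real.le_sqrt_of_sq_le hQ1
    nlinarith [mul_nonneg hl hz0]
  · have h4 : es S Q = 0 := by
      rw [h2, mul_zero] at hQ1
      exact pow_eq_zero_iff two_ne_zero |>.1 (le_antisymm hQ1 (sq_nonneg _))
    have h5 : (es S fun x => rs (x0 π x)) = 0 := by
      have h6 := es_sq_le S fun x => rs (x0 π x)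
      have hZ : (es S fun x => rs (x0 π x) ^ 2) = ZZ S π := rfl
      rw [hZ, h3, mul_zero] at h6
      exact pow_eq_zero_iff two_ne_zero |>.1 (le_antisymm h6 (sq_nonneg _))
    rw [hm, hcs', h4, h1, h5]
    ring

end Pool.Agent.Lib.QE
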