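import Pool.Agent.Lib.QE.B_CT

/-! The edge identity, the upper bound for the main term and the quadratic term. -/

namespace Pool.Agent.Lib.QE

open Finset Matrix Complex Pool.Agent.Lib.MP_5d53d3_co
open scoped BigOperators ComplexConjugate

variable {n d : ℕ}

namespace BCRh

variable {S : Finset (X n)} {v : X n → Fin d → ℂ} {π : Matrix (Fin n) (Fin n) ℝ}
  {U : Matrix (Fin d) (Fin n) ℂ} {ε : ℝ}

theorem dD_herm (hπ : Proj π) (U : Matrix (Fin d) (Fin n) ℂ) : (dD π U)ᴴ = dD π U := by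
  unfold dD
  rw [conjTranspose_sub, conjTranspose_smul, hπ.cx_herm, conjTranspose_mul,
    conjTranspose_conjTranspose]
  simp

theorem pi_UH (hπ : Proj π) (hU : U * cx π = U) : cx π * Uᴴ = Uᴴ := by
  have h := congrArg conjTranspose hU
  rwa [conjTranspose_mul, hπ.cx_herm] at h

theorem pi_gG (hπ : Proj π) (hU : U * cx π = U) (x : X n) :
    cx π *ᵥ gG v π U x = gG v π U x := by
  have h1 : cx π * dD π U = dD π U := by
    unfold dD
    rw [Matrix.mul_sub, ← Matrix.mul_assoc, pi_UH hπ hU, Matrix.mul_smul, hπ.cx_idem]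
  unfold gG eta
  rw [mulVec_add, mulVec_mulVec, mulVec_mulVec, h1, pi_UH hπ hU]

theorem conj_ip_sv (g : Fin n → ℂ) (y : X n) : conj (ip g (sv y)) = ∑ i, g i * sg y i := by
  rw [ip_conj]
  refine Finset.sum_congr rfl fun i _ => ?_
  rw [conj_sv, mul_comm]
  rfl

theorem lin_pi (hπ : Proj π) {g : Fin n → ℂ} (hg : cx π *ᵥ g = g) (y : X n) :
    ∑ i, g i * sg y i = ∑ i, g i * ((π *ᵥ sg y) i : ℝ) := by
  have h1 : ip g (sv y) = ip g (cx π *ᵥ sv y) := by
    rw [ip_mulVec', hπ.cx_herm, hg]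
  rw [← conj_ip_sv, h1, cx_mulVec_sv, ip_conj]
  refine Finset.sum_congr rfl fun i _ => ?_
  rw [conj_ofReal, mul_comm]

theorem hyp_e (hπ : Proj π) (hF : Fit S v π U ε) {g : Fin n → ℂ} (hg : cx π *ᵥ g = g)
    (c : Fin d) : ∑ i, g i * ec S (fun y => (sg y i : ℂ) * eE v U y c) = 0 := by
  have h1 : ∑ i, g i * ec S (fun y => (sg y i : ℂ) * eE v U y c) =
      ec S fun y => ∑ i, g i * (eE v U y c * ((π *ᵥ sg y) i : ℝ)) := by
    simp only [← ec_mul]
    rw [← ec_sum]
    refine ec_congr fun y _ => ?_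
    have h2 := congrArg (· * eE v U y c) (lin_pi hπ hg y)
    simp only [Finset.sum_mul] at h2
    calc ∑ i, g i * ((sg y i : ℂ) * eE v U y c) = ∑ i, g i * sg y i * eE v U y c :=
          Finset.sum_congr rfl fun i _ => by ring
      _ = _ := h2.trans (Finset.sum_congr rfl fun i _ => by ring)
  rw [h1, ec_sum]
  refine Finset.sum_eq_zero fun i _ => ?_
  rw [ec_mul]
  unfold ec
  rw [hF.ls c i]
  simp

theorem hyp_eta (hπ : Proj π) (hF : Fit S v π U ε) {g : Fin n → ℂ} (hg : cx π *ᵥ g = g)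
    (c : Fin n) : ∑ i, g i * ec S (fun y => (sg y i : ℂ) * eta v U y c) = 0 := by
  have h1 : ∀ i, ec S (fun y => (sg y i : ℂ) * eta v U y c) =
      ∑ a, Uᴴ c a * ec S fun y => (sg y i : ℂ) * eE v U y a := by
    intro i
    simp only [← ec_mul]
    rw [← ec_sum]
    refine ec_congr fun y _ => ?_
    unfold eta
    rw [mulVec, dotProduct, Finset.mul_sum]
    exact Finset.sum_congr rfl fun a _ => by ring
  simp only [h1, Finset.mul_sum]
  rw [Finset.sum_comm]
  refine Finset.sum_eq_zero fun a _ => ?_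
  have h2 := congrArg (Uᴴ c a * ·) (hyp_e hπ hF hg a)
  simp only [Finset.mul_sum, mul_zero] at h2
  exact (Finset.sum_congr rfl fun i _ => by ring).trans h2

theorem normSq_three (a b : ℂ) (r : ℝ) :
    normSq (a + b + r) ≤ 3 * (normSq a + normSq b + r ^ 2) := by
  simp only [normSq_apply, add_re, add_im, ofReal_re, ofReal_im]
  nlinarith [sq_nonneg (a.re - b.re), sq_nonneg (a.re - r), sq_nonneg (b.re - r),
    sq_nonneg (a.im - b.im), sq_nonneg a.im, sq_nonneg b.im]

theorem main_pt {K g o : ℂ} {r : ℝ} (h : K + g + o + r = 0) :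
    normSq K ≤ -2 * (conj K * g).re + -2 * (conj K * o).re + r ^ 2 := by
  have h1 := congrArg Complex.re h
  have h2 := congrArg Complex.im h
  simp only [add_re, add_im, ofReal_re, ofReal_im, zero_re, zero_im, add_zero] at h1 h2
  have h3 : g.re = -K.re - o.re - r := by linarith
  have h4 : g.im = -K.im - o.im := by linarith
  simp only [normSq_apply, mul_re, conj_re, conj_im, h3, h4]
  nlinarith [sq_nonneg (K.re + r), sq_nonneg K.im]

theorem ip_outer (p q : Fin d → ℂ) :
    (ip (fun a : Fin d × Fin d => p a.1 * conj (p a.2)) fun a => q a.1 * conj (q a.2)).re =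
      normSq (ip p q) := by
  have h : ip (fun a : Fin d × Fin d => p a.1 * conj (p a.2)) (fun a => q a.1 * conj (q a.2)) =
      ip p q * conj (ip p q) := by
    rw [ip_conj]
    unfold ip
    rw [Finset.sum_mul_sum, Fintype.sum_prod_type]
    refine Finset.sum_congr rfl fun a _ => Finset.sum_congr rfl fun b _ => ?_
    rw [map_mul, conj_conj]
    ring
  rw [h, mul_conj, ofReal_re]

theorem ns_outer (p : Fin d → ℂ) :
    ns (fun a : Fin d × Fin d => p a.1 * conj (p a.2)) = ns p ^ 2 := by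
  have h := ip_outer p p
  rw [ip_self, ip_self, ofReal_re, normSq_ofReal] at h
  rw [h, sq]

theorem w2_nonneg {ι : Type} [Fintype ι] (S : Finset (X n)) (F : X n → ι → ℂ) : 0 ≤ w2 S F :=
  mul_nonneg (by norm_num) (Finset.sum_nonneg fun _ _ => Finset.sum_nonneg fun _ _ =>
    Finset.sum_nonneg fun _ _ => normSq_nonneg _)

theorem gam_le (hn : 16 ≤ n) (h4 : 4 ∣ n) (hS : S ⊆ Ev n) (h : X n → Fin n → ℂ) :
    (ed S fun x y => normSq (ip (sv x) (h y))) ≤ 2 * es S fun x => ns (h x) := by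
  rw [ed_symm, ← es_mul]
  refine es_mono fun x hx => ?_
  have h1 : (tn S x fun y => normSq (ip (sv y) (h x))) = tn S x fun y =>
      lf (fun i => (h x i).re) y ^ 2 + lf (fun i => (h x i).im) y ^ 2 :=
    tn_congr fun y _ _ => by rw [← ip_conj, normSq_conj, normSq_ip_sv]
  have a1 := tn_lf_le h4 (by omega) S hS (hS hx) fun i => (h x i).re
  have a2 := tn_lf_le h4 (by omega) S hS (hS hx) fun i => (h x i).im
  change (tn S x fun y => normSq (ip (sv y) (h x))) ≤ _
  rw [h1, tn_add, ns_eq_rs]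
  linarith

end BCRh

open BCRh

/-- the expansion of the orthogonality relation on an edge -/
theorem edge_id {S : Finset (X n)} {v : X n → Fin d → ℂ} {π : Matrix (Fin n) (Fin n) ℝ}
    (U : Matrix (Fin d) (Fin n) ℂ) (hπ : Proj π) (hv : VRep S v) {x y : X n} (hx : x ∈ S)
    (hy : y ∈ S) (hxy : dt x y = 0) :
    ip (gG v π U x) (sv y) + ip (sv x) (eta v U y) + ip (eE v U x) (eE v U y) +
      ((-(la π U * ∑ a, x0 π x a * x0 π y a) : ℝ) : ℂ) = 0 := by
  have h0 := hv.2.2 x hx y hy hxy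
  have e1 : ∀ z, v z = U *ᵥ sv z + eE v U z := fun z => by unfold eE; abel
  have e2 : Uᴴ * U = dD π U + (la π U : ℂ) • cx π := by unfold dD; abel
  have e3 : ip (cx π *ᵥ sv x) (sv y) = ((-∑ a, x0 π x a * x0 π y a : ℝ) : ℂ) := by
    rw [hπ.dot_x0, hxy, zero_sub, neg_neg, cx_mulVec_sv, ofReal_sum]
    refine Finset.sum_congr rfl fun i _ => ?_
    rw [conj_ofReal, ofReal_mul]
    rfl
  have e4 : ip (U *ᵥ sv x) (U *ᵥ sv y) = ip (dD π U *ᵥ sv x) (sv y) +
      ((-(la π U * ∑ a, x0 π x a * x0 π y a) : ℝ) : ℂ) := by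
    rw [ip_mulVec', mulVec_mulVec, e2, add_mulVec, ip_add_left, smul_mulVec, ip_smul_left, e3,
      conj_ofReal]
    push_cast
    ring
  rw [e1 x, e1 y, ip_add_left, ip_add_right, ip_add_right, e4, ip_mulVec U (sv x),
    ip_mulVec' U (sv y)] at h0
  unfold gG eta
  rw [ip_add_left]
  linear_combination h0

theorem st_BCR : BCR := by
  intro n d S v π U ε hn h4 hπ hv hF hε
  have hN : (16 : ℝ) ≤ n := by exact_mod_cast hn
  have hg := fun x => pi_gG (v := v) hπ hF.fix x
  have c1 := st_CT n (Fin n) S (gG v π U) sv (eta v U) n hn h4 hv.1 (by positivity)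
    (fun x _ => (ns_sv x).le) fun x _ c => hyp_eta hπ hF (hg x) c
  have c2 := st_CT n (Fin d) S (gG v π U) (eE v U) (eE v U) (ε * n) hn h4 hv.1 (by positivity)
    hF.pt fun x _ c => hyp_e hπ hF (hg x) c
  have hJ : (es S fun x => normSq (∑ i, gG v π U x i * sg x i)) = n * JJ S v π U := by
    unfold JJ
    rw [mul_div_cancel₀ _ (by positivity)]
    exact es_congr fun x _ => by rw [← conj_ip_sv, normSq_conj]
  rw [hJ] at c1 c2
  have h1 : k1 S v π U ≤ ed S fun x y =>
      -2 * ((∑ i, gG v π U x i * sg y i) * ip (sv x) (eta v U y)).re +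
      -2 * ((∑ i, gG v π U x i * sg y i) * ip (eE v U x) (eE v U y)).re +
      (la π U * ∑ a, x0 π x a * x0 π y a) ^ 2 := by
    refine ed_mono fun x hx y hy hxy => ?_
    have h := main_pt (edge_id U hπ hv hx hy hxy)
    rwa [conj_ip_sv, neg_sq] at h
  rw [ed_add, ed_add, ed_mul, ed_mul] at h1
  have b1 := (abs_le.1 c1).1
  have b2 := (abs_le.1 c2).1
  have e : 20 / (n : ℝ) * (√n * √(HH S v U) + √(ε * n) * √(tau S v U)) *
      (√(NN S v π U) + √(n * JJ S v π U)) =
      2 * (10 / n * √n * √(HH S v U) * (√(NN S v π U) + √(n * JJ S v π U))) +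
      2 * (10 / n * √(ε * n) * √(tau S v U) * (√(NN S v π U) + √(n * JJ S v π U))) := by ring
  rw [e]
  unfold HH tau NN aa
  linarith

theorem st_BOM : BOM := by
  intro n d S v π U ε hn h4 hπ hv hF hε
  have hN : (16 : ℝ) ≤ n := by exact_mod_cast hn
  constructor
  · obtain ⟨a1, a2⟩ := st_HOF n (Fin d × Fin d) S
      (fun x a => eE v U x a.1 * conj (eE v U x a.2)) hn h4 hv.1
    simp only [ip_outer, ns_outer] at a1 a2
    have e1 : ns (fun a : Fin d × Fin d => ec S fun x => eE v U x a.1 * conj (eE v U x a.2)) =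
        g2 S v U := by
      unfold ns g2
      rw [Fintype.sum_prod_type]
    rw [e1] at a1
    have hτ : 0 ≤ tau S v U := es_nonneg fun _ _ => ns_nonneg _
    have a3 : (es S fun x => ns (eE v U x) ^ 2) ≤ ε * n * tau S v U := by
      unfold tau
      rw [← es_mul]
      refine es_mono fun x hx => ?_
      rw [sq]
      exact mul_le_mul_of_nonneg_right (hF.pt x hx) (ns_nonneg _)
    have a4 : (ed S fun x y => normSq (ip (eE v U x) (eE v U y))) ≤ ed S fun x y =>
        3 * (normSq (ip (gG v π U x) (sv y)) + normSq (ip (sv x) (eta v U y)) +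
          (la π U * ∑ a, x0 π x a * x0 π y a) ^ 2) := by
      refine ed_mono fun x hx y hy hxy => ?_
      have h := edge_id U hπ hv hx hy hxy
      have h' : ip (eE v U x) (eE v U y) = -(ip (gG v π U x) (sv y) + ip (sv x) (eta v U y) +
          ((-(la π U * ∑ a, x0 π x a * x0 π y a) : ℝ) : ℂ)) := by linear_combination h
      rw [h', normSq_neg, ← neg_sq (la π U * ∑ a, x0 π x a * x0 π y a)]
      exact normSq_three _ _ _
    rw [ed_mul, ed_add, ed_add] at a4
    have a5 := gam_le hn h4 hv.1 (eta v U)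
    have b1 := (abs_le.1 a1).1
    have hp : 0 ≤ ε * tau S v U := mul_nonneg hε hτ
    have b2 : w2 S (fun x (a : Fin d × Fin d) => eE v U x a.1 * conj (eE v U x a.2)) / (n - 1) ≤
        5 / 2 * (ε * tau S v U) := by
      rw [div_le_iff₀ (by linarith)]
      nlinarith [mul_le_mul_of_nonneg_right hN hp]
    have b3 : 4 / (n : ℝ) ^ 2 * (es S fun x => ns (eE v U x) ^ 2) ≤
        1 / 2 * (ε * tau S v U) := by
      rw [div_mul_eq_mul_div, div_le_iff₀ (by positivity)]
      have h5 : 16 * (n : ℝ) ≤ (n : ℝ) ^ 2 := by nlinarith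
      nlinarith [mul_le_mul_of_nonneg_right h5 hp, mul_nonneg (Nat.cast_nonneg (α := ℝ) n) hp]
    unfold k1 HH aa
    linarith
  · obtain ⟨a1, -⟩ := st_HOF n (Fin n × Fin n) S
      (fun x a => ((x0 π x a.1 : ℝ) : ℂ) * conj ((x0 π x a.2 : ℝ) : ℂ)) hn h4 hv.1
    have i1 := fun x y : X n =>
      ip_outer (fun a => ((x0 π x a : ℝ) : ℂ)) fun a => ((x0 π y a : ℝ) : ℂ)
    have i2 := fun x : X n => ns_outer fun a => ((x0 π x a : ℝ) : ℂ)
    simp only [i1, i2] at a1
    have e1 : ns (fun a : Fin n × Fin n => ec S fun x =>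
        ((x0 π x a.1 : ℝ) : ℂ) * conj ((x0 π x a.2 : ℝ) : ℂ)) = LL S π := by
      unfold ns LL
      rw [Fintype.sum_prod_type]
      refine Finset.sum_congr rfl fun a _ => Finset.sum_congr rfl fun b _ => ?_
      simp only [conj_ofReal, ← ofReal_mul]
      rw [ec_ofReal, normSq_ofReal, sq]
    have e2 : (es S fun x => ns (fun a => ((x0 π x a : ℝ) : ℂ)) ^ 2) = ZZ S π := by
      refine es_congr fun x _ => ?_
      unfold ns rs
      simp only [normSq_ofReal, sq]
    have e3 : aa S π U = la π U ^ 2 * ed S fun x y =>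
        normSq (ip (fun a => ((x0 π x a : ℝ) : ℂ)) fun a => ((x0 π y a : ℝ) : ℂ)) := by
      unfold aa
      rw [← ed_mul]
      refine ed_congr fun x _ y _ _ => ?_
      unfold ip
      simp only [conj_ofReal, ← ofReal_mul, ← ofReal_sum, normSq_ofReal]
      ring
    rw [e1, e2] at a1
    rw [e3]
    refine mul_le_mul_of_nonneg_left ?_ (sq_nonneg _)
    have b1 := (abs_le.1 a1).2
    have b2 : 0 ≤ w2 S (fun x (a : Fin n × Fin n) =>
        ((x0 π x a.1 : ℝ) : ℂ) * conj ((x0 π x a.2 : ℝ) : ℂ)) / (n - 1) :=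
      div_nonneg (w2_nonneg _ _) (by linarith)
    have e4 : 4 * ZZ S π / (n : ℝ) ^ 2 = 4 / (n : ℝ) ^ 2 * ZZ S π := by ring
    linarith

end Pool.Agent.Lib.QE
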