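import Pool.Agent.Lib.QE.B_CT

/-! Size of the linear part and the lower bound for the main term. -/

namespace Pool.Agent.Lib.QE

open Finset Matrix Complex Pool.Agent.Lib.MP_5d53d3_co
open scoped BigOperators ComplexConjugate

namespace BNh

variable {n d : ℕ} {S : Finset (X n)} {v : X n → Fin d → ℂ} {π : Matrix (Fin n) (Fin n) ℝ}
  {U : Matrix (Fin d) (Fin n) ℂ} {ε : ℝ}

theorem ls0 (hF : Fit S v π U ε) {A : Matrix (Fin d) (Fin n) ℂ} (hA : A * cx π = A) :
    es S (fun x => (ip (A *ᵥ sv x) (eE v U x)).re) = 0 := by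
  have h1 : ∀ x, ip (A *ᵥ sv x) (eE v U x) =
      ∑ c, ∑ i, conj (A c i) * (eE v U x c * ((π *ᵥ sg x) i : ℝ)) := by
    intro x
    have h2 : A *ᵥ sv x = A *ᵥ fun i => (((π *ᵥ sg x) i : ℝ) : ℂ) := by
      rw [← cx_mulVec_sv, Matrix.mulVec_mulVec, hA]
    rw [h2]
    generalize π *ᵥ sg x = r
    simp only [ip, Matrix.mulVec, dotProduct, map_sum, map_mul, Complex.conj_ofReal,
      Finset.sum_mul]
    exact Finset.sum_congr rfl fun c _ => Finset.sum_congr rfl fun i _ => by ring
  have h3 : ∑ x ∈ S, ip (A *ᵥ sv x) (eE v U x) = 0 := by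
    simp only [h1]
    rw [Finset.sum_comm]
    refine Finset.sum_eq_zero fun c _ => ?_
    rw [Finset.sum_comm]
    refine Finset.sum_eq_zero fun i _ => ?_
    rw [← Finset.mul_sum, hF.ls c i, mul_zero]
  unfold es
  rw [← Complex.re_sum, h3]
  simp

theorem dD_fix (hπ : Proj π) (hU : U * cx π = U) : dD π U * cx π = dD π U := by
  unfold dD
  rw [Matrix.sub_mul, Matrix.mul_assoc, hU, Matrix.smul_mul, hπ.cx_idem]

theorem fix_H (hπ : Proj π) (hU : U * cx π = U) : cx π * Uᴴ = Uᴴ := by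
  have h := congrArg Matrix.conjTranspose hU
  rwa [Matrix.conjTranspose_mul, hπ.cx_herm] at h

theorem fix_dD (hπ : Proj π) (hU : U * cx π = U) : cx π * dD π U = dD π U := by
  unfold dD
  rw [Matrix.mul_sub, ← Matrix.mul_assoc, fix_H hπ hU, Matrix.mul_smul, hπ.cx_idem]

theorem fix_eta (hπ : Proj π) (hU : U * cx π = U) (x : X n) :
    cx π *ᵥ eta v U x = eta v U x := by
  unfold eta
  rw [Matrix.mulVec_mulVec, fix_H hπ hU]

theorem fix_gG (hπ : Proj π) (hU : U * cx π = U) (x : X n) :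
    cx π *ᵥ gG v π U x = gG v π U x := by
  unfold gG
  rw [Matrix.mulVec_add, fix_eta hπ hU, Matrix.mulVec_mulVec, fix_dD hπ hU]

theorem ns_U_le {w : Fin n → ℂ} (hw : cx π *ᵥ w = w) :
    ns (U *ᵥ w) ≤ (la π U + √(del π U)) * ns w := by
  have h1 : Uᴴ *ᵥ (U *ᵥ w) = dD π U *ᵥ w + (la π U : ℂ) • w := by
    unfold dD
    rw [Matrix.sub_mulVec, Matrix.smul_mulVec, hw, Matrix.mulVec_mulVec, sub_add_cancel]
  have h2 : ns (U *ᵥ w) = (ip w (dD π U *ᵥ w)).re + la π U * ns w := by
    have h3 := congrArg Complex.re (ip_self (U *ᵥ w))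
    rw [ip_mulVec, h1, ip_add_right, ip_smul_right, ip_self, Complex.add_re, ← Complex.ofReal_mul,
      Complex.ofReal_re, Complex.ofReal_re] at h3
    exact h3.symm
  have h4 : (ip w (dD π U *ᵥ w)).re ^ 2 ≤ del π U * ns w ^ 2 := by
    have h5 := re_ip_sq_le w (dD π U *ᵥ w)
    have h6 := mul_le_mul_of_nonneg_left (ns_mulVec_le (dD π U) w) (ns_nonneg w)
    unfold del
    nlinarith
  have h7 := le_sqrt_mul h4 (fs_nonneg _)
  rw [Real.sqrt_sq (ns_nonneg w)] at h7
  have h8 := le_abs_self (ip w (dD π U *ᵥ w)).re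
  nlinarith

theorem ns_eta_le (hπ : Proj π) (hU : U * cx π = U) (hl : 0 ≤ la π U) (x : X n) :
    ns (eta v U x) ≤ (la π U + √(del π U)) * ns (eE v U x) := by
  have h1 : ns (eta v U x) = (ip (U *ᵥ eta v U x) (eE v U x)).re := by
    rw [ip_mulVec]
    exact (congrArg Complex.re (ip_self (eta v U x))).symm
  have h2 := re_ip_sq_le (U *ᵥ eta v U x) (eE v U x)
  rw [← h1] at h2
  have h3 := mul_le_mul_of_nonneg_right (ns_U_le (U := U) (fix_eta (v := v) hπ hU x))
    (ns_nonneg (eE v U x))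
  have h4 : 0 ≤ (la π U + √(del π U)) * ns (eE v U x) :=
    mul_nonneg (add_nonneg hl (Real.sqrt_nonneg _)) (ns_nonneg _)
  rcases (ns_nonneg (eta v U x)).eq_or_lt with h | h
  · rw [← h]; exact h4
  · refine le_of_mul_le_mul_left ?_ h
    nlinarith

end BNh

theorem st_BN : BN := by
  intro n d S v π U ε σ hπ hV hF hN
  constructor
  · have h1 := hN.fs_le hπ (BNh.dD_fix hπ hF.fix)
    have h2 := BNh.ls0 hF (A := U * dD π U) (by rw [Matrix.mul_assoc, BNh.dD_fix hπ hF.fix])
    have h3 : NN S v π U = es S (fun x => ns (dD π U *ᵥ sv x)) + HH S v U +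
        2 * es S fun x => (ip ((U * dD π U) *ᵥ sv x) (eE v U x)).re := by
      unfold NN HH
      rw [← es_mul, ← es_add, ← es_add]
      refine es_congr fun x _ => ?_
      unfold gG
      rw [ns_add, ← Matrix.mulVec_mulVec, ip_mulVec U]
      rfl
    unfold del
    linarith
  · have h1 := hN.fs_le hπ hF.fix
    have h2 := BNh.ls0 hF hF.fix
    have h3 : es S (fun x => ns (v x)) = es S (fun x => ns (U *ᵥ sv x)) + tau S v U +
        2 * es S fun x => (ip (U *ᵥ sv x) (eE v U x)).re := by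
      unfold tau
      rw [← es_mul, ← es_add, ← es_add]
      refine es_congr fun x _ => ?_
      rw [← ns_add]
      unfold eE
      rw [add_sub_cancel]
    have h4 : es S (fun x => ns (v x)) ≤ n * mu S := es_le_mul fun x hx => (hV.2.1 x hx).le
    have h5 : 0 ≤ tau S v U := es_nonneg fun x _ => ns_nonneg _
    have h6 := mul_le_mul_of_nonneg_left (mu_le_one hV.1) (Nat.cast_nonneg (α := ℝ) n)
    linarith

theorem st_BLOW : BLOW := by
  classical
  intro n d S B v π U ε σ hn hπ hS hB hF hG hσ hε hl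
  have hn' : (16 : ℝ) ≤ n := by exact_mod_cast hn
  have hn0 : 0 < n := by omega
  have key : ∀ x ∈ S, σ / 2 * (ns (gG v π U x) - if x ∈ B then ns (gG v π U x) else 0) -
      normSq (ip (gG v π U x) (sv x)) / (n - 1) ≤
      tn S x fun y => normSq (ip (gG v π U x) (sv y)) := by
    intro x hx
    by_cases hb : x ∈ B
    · rw [if_pos hb, sub_self, mul_zero, zero_sub]
      have h1 : 0 ≤ normSq (ip (gG v π U x) (sv x)) / (n - 1) :=
        div_nonneg (normSq_nonneg _) (by linarith)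
      have h2 : 0 ≤ tn S x fun y => normSq (ip (gG v π U x) (sv y)) :=
        tn_nonneg fun y _ => normSq_nonneg _
      linarith
    · obtain ⟨h1, h2⟩ := fix_re_im (BNh.fix_gG (v := v) hπ hF.fix x)
      have h3 := hG x hx hb _ h1
      have h4 := hG x hx hb _ h2
      rw [if_neg hb, sub_zero]
      simp only [normSq_ip_sv]
      rw [tn_add, ns_eq_rs, add_div]
      linarith
  have h1 := es_mono key
  rw [es_sub, es_mul, es_sub, es_div, ← es_filter] at h1
  set R := S.filter fun x => x ∈ B with hR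
  have hRB : mu R ≤ mu B := mu_mono fun x hx => (Finset.mem_filter.1 hx).2
  have hc : 0 ≤ la π U + √(del π U) := add_nonneg hl (Real.sqrt_nonneg _)
  have h2 : es R (fun x => ns (gG v π U x)) ≤
      2 * es R (fun x => ns (dD π U *ᵥ sv x)) + 2 * es R fun x => ns (eta v U x) := by
    rw [← es_mul, ← es_mul, ← es_add]
    exact es_mono fun x _ => ns_add_le _ _
  have h3 : es R (fun x => ns (dD π U *ᵥ sv x)) ≤ 5 * √(mu B) * del π U :=
    (mom_small hn0 R (dD π U)).trans (mul_le_mul_of_nonneg_right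
      (mul_le_mul_of_nonneg_left (Real.sqrt_le_sqrt hRB) (by norm_num)) (fs_nonneg _))
  have h4 : es R (fun x => ns (eta v U x)) ≤ (la π U + √(del π U)) * (ε * n) * mu B :=
    (es_le_mul fun x hx => (BNh.ns_eta_le hπ hF.fix hl x).trans
      (mul_le_mul_of_nonneg_left (hF.pt x (Finset.mem_filter.1 hx).1) hc)).trans
      (mul_le_mul_of_nonneg_left hRB (mul_nonneg hc (mul_nonneg hε (Nat.cast_nonneg _))))
  have h5 : (es S fun x => normSq (ip (gG v π U x) (sv x))) / (n - 1) ≤ 2 * JJ S v π U := by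
    have h6 : 0 ≤ es S fun x => normSq (ip (gG v π U x) (sv x)) :=
      es_nonneg fun x _ => normSq_nonneg _
    unfold JJ
    rw [← mul_div_assoc, div_le_div_iff₀ (by linarith) (by linarith)]
    nlinarith
  have h7 : es R (fun x => ns (gG v π U x)) ≤ 10 * √(mu B) * del π U +
      2 * (la π U + √(del π U)) * (ε * n * mu B) := by linarith
  have h8 := mul_le_mul_of_nonneg_left h7 (show 0 ≤ σ / 2 by linarith)
  unfold NN k1 ed
  linarith

end Pool.Agent.Lib.QE
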