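import Pool.Agent.Lib.QE.Blue

/-! The numerical part of the rigidity inequality. -/

namespace Pool.Agent.Lib.QE

namespace BNUMh

lemma up {σ κ ε n H N τ J : ℝ} (hσ : 0 < σ) (hκ : 0 ≤ κ) (hε : 0 ≤ ε) (hn : 0 < n) (hH : 0 ≤ H)
    (hτ : 0 ≤ τ) (hJ : 0 ≤ J) (h1 : 1 ≤ n * κ ^ 2) (hN : H ≤ N) :
    σ * (20 / n * (√n * √H + √(ε * n) * √τ) * (√N + √(n * J))) ≤
      σ * (30 * κ * N) + σ ^ 2 * N / 32 + 3200 * J + σ * (10 * J) +
        σ * (10 * κ * (ε * τ)) + σ * (10 * (ε * τ)) := by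
  rw [Real.sqrt_mul hε, Real.sqrt_mul hn.le]
  have a1 := Real.sqrt_le_sqrt hN
  have e1 := Real.sq_sqrt hn.le
  have e2 := Real.sq_sqrt (hH.trans hN)
  have e3 := Real.sq_sqrt hJ
  have e4 : (√ε * √τ) ^ 2 = ε * τ := by rw [mul_pow, Real.sq_sqrt hε, Real.sq_sqrt hτ]
  have p1 := Real.sqrt_pos.2 hn
  have p2 := Real.sqrt_nonneg N
  have p3 := Real.sqrt_nonneg J
  have p4 : 0 ≤ √ε * √τ := by positivity
  have e5 : 20 / n * (√n * √H + √ε * √n * √τ) * (√N + √n * √J) =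
      20 * ((√H + √ε * √τ) * (√N / √n + √J)) := by
    rw [← e1, Real.sqrt_sq p1.le]; field_simp
  rw [e5, ← e4, ← e2, ← e3, Real.sqrt_sq p2, Real.sqrt_sq p3]
  have a2 : 1 ≤ √n * κ := by
    refine (one_le_sq_iff_one_le_abs _).1 (by rwa [mul_pow, e1]) |>.trans_eq (abs_of_nonneg ?_)
    positivity
  generalize √N = u at *
  generalize √J = j at *
  generalize √ε * √τ = e at *
  have a3 : u / √n ≤ κ * u := by
    rw [div_le_iff₀ p1]; linarith [mul_le_mul_of_nonneg_right a2 p2]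
  have a4 : (√H + e) * (u / √n + j) ≤ (u + e) * (κ * u + j) :=
    mul_le_mul (by linarith) (by linarith) (by positivity) (by positivity)
  have a5 := mul_le_mul_of_nonneg_left a4 hσ.le
  have b1 := sq_nonneg (σ * u - 320 * j)
  have b2 := mul_nonneg (mul_nonneg hσ.le hκ) (sq_nonneg (u - e))
  have b3 := mul_nonneg hσ.le (sq_nonneg (e - j))
  linarith

end BNUMh

open BNUMh in
theorem st_BNUM : BNUM := by
  intro σ ε n β l δ H N τ J k a g L Z s hσ hs s1 hε hn hβ hl hδ hH hτ hJ hL hZ hg e1 n1 b1 x1 L1 Z1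
    l2 h1 h2 h3 h4 h5 h6 h7 h8 h9
  have σ1 : σ ≤ 1 := hs.trans s1
  have pw : ∀ {i j : ℕ}, i ≤ j → σ ^ j ≤ σ ^ i := fun h => pow_le_pow_of_le_one hσ.le σ1 h
  have k0 : 0 ≤ σ ^ 3 / 10 ^ 7 := by positivity
  have d0 : 0 ≤ σ * δ := by positivity
  have N0 : 0 ≤ N := by linarith
  have x0 : 0 ≤ ε * n * β := by positivity
  have u := up hσ k0 hε hn hH hτ hJ n1 (show H ≤ N by linarith)
  have u0 := mul_le_mul_of_nonneg_left h3 hσ.le
  have sb : √β ≤ σ ^ 3 / 10 ^ 7 := Real.sqrt_le_iff.2 ⟨k0, b1⟩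
  have sd := Real.sq_sqrt hδ
  have sd0 := Real.sqrt_nonneg δ
  generalize ε * n * β = x at *
  have U0 : 0 ≤ Z / n := by positivity
  have U1 : Z / n ≤ 1 := (div_le_one hn).2 Z1
  have i0 : 0 < n⁻¹ := by positivity
  have i1 : n⁻¹ ≤ σ ^ 6 / 10 ^ 14 := by
    rw [inv_le_iff_one_le_mul₀ hn]; linarith
  rw [show 4 * Z / n ^ 2 = 4 * (Z / n) * n⁻¹ by field_simp] at h5
  rw [show 4 * l ^ 2 * Z / n = 4 * l ^ 2 * (Z / n) by ring, div_eq_mul_inv] at h7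
  generalize Z / n = U at *
  have t0 : 0 ≤ ε * τ := by positivity
  have l4 : σ ^ 2 * l ^ 2 ≤ 4 := by
    linarith [mul_le_mul l2 l2 (mul_nonneg hσ.le hl) two_pos.le]
  have P0 : 0 ≤ σ ^ 3 * l ^ 2 * L := by positivity
  have Q0 : 0 ≤ σ ^ 2 * (ε * τ) := by positivity
  have R0 : 0 ≤ σ ^ 4 * N := by positivity
  have q3 : σ ^ 3 * (ε * τ) ≤ σ ^ 2 * (ε * τ) := mul_le_mul_of_nonneg_right (pw (by omega)) t0
  have q6 : σ ^ 6 * (ε * τ) ≤ σ ^ 2 * (ε * τ) := mul_le_mul_of_nonneg_right (pw (by omega)) t0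
  have r6 : σ ^ 6 * N ≤ σ ^ 4 * N := mul_le_mul_of_nonneg_right (pw (by omega)) N0
  have j0 : 0 ≤ σ ^ 2 * J := by positivity
  have j3 : σ ^ 3 * J ≤ σ ^ 2 * J := mul_le_mul_of_nonneg_right (pw (by omega)) hJ
  have j1 : σ ^ 2 * J ≤ 4 * (σ ^ 2 * (ε * τ)) + σ ^ 4 * N / 10 ^ 12 + 16 * U := by
    have c1 := mul_le_mul_of_nonneg_left h7 (sq_nonneg σ)
    have c2 := mul_le_mul_of_nonneg_right l4 U0
    have c3 := mul_le_mul i1 (show σ * δ ≤ N by linarith) d0 (by positivity)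
    have c4 := mul_le_mul_of_nonneg_right σ1 (mul_nonneg i0.le d0)
    linarith
  have a1 : σ ^ 3 * a ≤ σ ^ 3 * l ^ 2 * L + 16 * U := by
    have c1 := mul_le_mul_of_nonneg_left h5 (pow_nonneg hσ.le 3)
    have c2 := mul_le_mul_of_nonneg_right l4 U0
    have c3 : σ * n⁻¹ ≤ 1 := mul_le_one₀ σ1 i0.le (by linarith [pw (show 0 ≤ 6 by omega)])
    have c4 := mul_le_mul c2 c3 (by positivity) (by positivity)
    linarith
  have k1 : σ ^ 3 * k ≤ σ ^ 4 * N / 16 + 3210 * (σ ^ 2 * J) + 11 * (σ ^ 2 * (ε * τ)) +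
      σ ^ 3 * a := by
    have c1 := mul_le_mul_of_nonneg_left ((u0.trans_eq (mul_add _ _ _)).trans
      (add_le_add u le_rfl)) (sq_nonneg σ)
    linarith
  have k2 : 43 / 100 * (σ ^ 4 * N) - 6 * x - 2 * (σ ^ 2 * J) ≤ σ ^ 3 * k := by
    have c1 : √β * (σ * δ) ≤ σ ^ 3 / 10 ^ 7 * N := mul_le_mul sb (by linarith) d0 k0
    have c2 := mul_le_mul_of_nonneg_right l2 x0
    have c3 : σ * √δ * x ≤ σ * N / 16 + 4 * x := by
      linarith [sq_nonneg (σ * √δ - 8 * x), mul_le_mul_of_nonneg_left h1 hσ.le,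
        mul_nonneg hσ.le hH, mul_le_mul_of_nonneg_left x1 x0,
        mul_le_mul_of_nonneg_left sd.le (sq_nonneg σ)]
    have c4 : σ * N / 2 - 5 * (σ ^ 3 / 10 ^ 7 * N) - 6 * x - σ * N / 16 - 2 * J ≤ k := by
      linarith
    have c5 := mul_le_mul_of_nonneg_left c4 (pow_nonneg hσ.le 3)
    have c6 := mul_le_mul_of_nonneg_right (pw (show 0 ≤ 3 by omega)) x0
    linarith
  obtain ⟨M, hM⟩ : ∃ M, M = 278 / 100 * (σ ^ 3 * l ^ 2 * L) + 35720 * (σ ^ 2 * (ε * τ)) +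
    142800 * (U + x) := ⟨_, rfl⟩
  have M0 : 0 ≤ M := by rw [hM]; positivity
  have m1 : σ ^ 4 * N ≤ M := by linarith
  have m2 : σ ^ 5 * δ ≤ M := by
    linarith [mul_le_mul_of_nonneg_left h1 (pow_nonneg hσ.le 4), mul_nonneg (pow_nonneg hσ.le 4) hH]
  have m3 : σ ^ 4 * H ≤ M := by
    linarith [mul_le_mul_of_nonneg_left h1 (pow_nonneg hσ.le 4), mul_nonneg (pow_nonneg hσ.le 4) d0]
  have m4 : σ ^ 4 * g ≤ 9 * M := by
    have c1 := mul_le_mul_of_nonneg_left h4 (pow_nonneg hσ.le 4)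
    have c2 : σ ^ 3 * (k + a + ε * τ) ≤ M := by linarith
    have c3 := mul_le_mul_of_nonneg_left c2 hσ.le
    have c4 := mul_le_mul_of_nonneg_right σ1 M0
    linarith
  have m5 : σ ^ 5 * (√g * √δ) ≤ 3 * M := by
    refine abs_le_of_sq_le_sq' ?_ (by positivity) |>.2
    have c1 := mul_le_mul m4 m2 (by positivity) (by positivity)
    have c2 := mul_le_mul_of_nonneg_right σ1 (show 0 ≤ σ ^ 4 * g * (σ ^ 5 * δ) by positivity)
    rw [mul_pow, mul_pow, Real.sq_sqrt hg, sd]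
    linarith
  have m6 : σ ^ 5 * (l * τ) ≤ 4 * M := by
    have c1 := mul_le_mul_of_nonneg_left h6 (pow_nonneg hσ.le 5)
    have c2 := mul_le_mul_of_nonneg_right (pw (show 4 ≤ 5 by omega)) hH
    linarith
  have q5 : σ ^ 2 * (ε * τ) ≤ σ ^ 5 * τ / 10 ^ 7 := by
    linarith [mul_le_mul_of_nonneg_right e1 (mul_nonneg (sq_nonneg σ) hτ)]
  have p4 : σ ^ 3 * l ^ 2 * L ≤ 4 * L := by
    have := mul_le_mul l4 σ1 hσ.le (by norm_num)
    linarith [mul_le_mul_of_nonneg_right this hL]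
  have hl2 : 1 / 2 ≤ l := by
    by_contra c
    have e0 : ε ≤ 1 / 10 ^ 7 := by linarith [pw (show 0 ≤ 3 by omega)]
    have sn : 0 ≤ s * n := mul_nonneg (hσ.le.trans hs) hn.le
    have c1 : 49 / 100 * (σ * n) ≤ √(8 * δ) := by
      linarith [mul_le_mul_of_nonneg_right e0 sn, mul_le_mul_of_nonneg_right hs hn.le,
        mul_le_mul_of_nonneg_left (not_le.1 c).le sn]
    have c2 := (Real.le_sqrt (by positivity) (by positivity)).1 c1
    have c3 : 10 ^ 14 ≤ σ ^ 6 * n := by linarith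
    have c4 : σ ^ 6 * n ≤ σ * n := mul_le_mul_of_nonneg_right
      ((pw (show 1 ≤ 6 by omega)).trans_eq (pow_one σ)) hn.le
    have c5 := mul_le_mul_of_nonneg_left c2 (pow_nonneg hσ.le 5)
    have c6 := mul_le_mul_of_nonneg_right c3 (mul_nonneg hσ.le hn.le)
    have c7 : τ ≤ n := by
      linarith [mul_le_mul_of_nonneg_right e0 sn, mul_le_mul_of_nonneg_right s1 hn.le]
    have c8 : σ ^ 5 * τ ≤ σ * n := mul_le_mul ((pw (show 1 ≤ 5 by omega)).trans_eq (pow_one σ)) c7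
      hτ hσ.le
    linarith
  have m7 : σ ^ 5 * τ ≤ 8 * M := by
    linarith [mul_le_mul_of_nonneg_right hl2 (mul_nonneg (pow_nonneg hσ.le 5) hτ)]
  exact ⟨hl2, by linarith, by linarith⟩

end Pool.Agent.Lib.QE
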