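import Pool.Agent.Lib.QE.B_CT

/-! The pointwise rank bound. -/

namespace Pool.Agent.Lib.QE

open Finset Matrix Complex Pool.Agent.Lib.MP_5d53d3_co
open scoped BigOperators ComplexConjugate

namespace C1h

variable {n : ℕ}

theorem mext {A B : Matrix (Fin n) (Fin n) ℂ} (h : ∀ v, A *ᵥ v = B *ᵥ v) : A = B :=
  Matrix.toLin'.injective (LinearMap.ext h)

/-- The projector onto a line. -/
noncomputable def pj (z : Fin n → ℂ) : Matrix (Fin n) (Fin n) ℂ :=
  Matrix.of fun a b => z a * conj (z b) / (ns z : ℝ)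

theorem pj_mulVec (z v : Fin n → ℂ) : pj z *ᵥ v = (ip z v / (ns z : ℝ)) • z := by
  funext a
  simp only [pj, Matrix.mulVec, dotProduct, Matrix.of_apply, Pi.smul_apply, smul_eq_mul, ip,
    Finset.sum_div, Finset.sum_mul]
  exact Finset.sum_congr rfl fun b _ => by ring

theorem pj_herm (z : Fin n → ℂ) : (pj z)ᴴ = pj z := by
  ext a b
  simp [pj, Matrix.conjTranspose_apply, mul_comm]

theorem unit_smul (z : Fin n → ℂ) : (((ns z : ℝ) : ℂ) / (ns z : ℝ)) • z = z := by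
  by_cases h : ns z = 0
  · rw [ns_eq_zero h, smul_zero]
  · rw [div_self (by exact_mod_cast h), one_smul]

theorem pj_self (z : Fin n → ℂ) : pj z *ᵥ z = z := by
  rw [pj_mulVec, ip_self, unit_smul]

theorem pj_idem (z : Fin n → ℂ) : pj z * pj z = pj z := mext fun v => by
  rw [← Matrix.mulVec_mulVec, pj_mulVec z v, Matrix.mulVec_smul, pj_self]

theorem pj_trace (z : Fin n → ℂ) : (pj z).trace.re = ns z / ns z := by
  have h : (pj z).trace = ((ns z / ns z : ℝ) : ℂ) := by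
    simp only [Matrix.trace, Matrix.diag, pj, Matrix.of_apply, ← Finset.sum_div, Complex.mul_conj]
    rw [Complex.ofReal_div, ← Complex.ofReal_sum]
    rfl
  rw [h, Complex.ofReal_re]

theorem mul_pj {R : Matrix (Fin n) (Fin n) ℂ} {z : Fin n → ℂ} (h : R *ᵥ z = z) :
    R * pj z = pj z := mext fun v => by
  rw [← Matrix.mulVec_mulVec, pj_mulVec z v, Matrix.mulVec_smul, h]

theorem pj_mul {R : Matrix (Fin n) (Fin n) ℂ} {z : Fin n → ℂ} (hR : Rᴴ = R) (h : R *ᵥ z = z) :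
    pj z * R = pj z := by
  have h1 := congrArg Matrix.conjTranspose (mul_pj h)
  rwa [Matrix.conjTranspose_mul, pj_herm, hR] at h1

/-- A projector killing `x` and its neighbours has small trace. -/
theorem key {A : Finset (X n)} {π : Matrix (Fin n) (Fin n) ℝ} {σ : ℝ} {x : X n} (hn : 16 ≤ n)
    (hπ : Proj π) (hA : NDeg A π σ) (hσ : 0 < σ) {R : Matrix (Fin n) (Fin n) ℂ} (hR : Rᴴ = R)
    (hRR : R * R = R) (hRπ : R * cx π = R) (hx : R *ᵥ sv x = 0)
    (hy : ∀ y ∈ A, dt x y = 0 → R *ᵥ sv y = 0) : σ ^ 2 * R.trace.re ≤ fe A x := by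
  have hf : fs R = R.trace.re := by rw [fs_eq_re, hR, hRR]
  have hq : ∀ y : X n, ∑ a, ∑ b, (R a b).re * (sg y a * sg y b) = ns (R *ᵥ sv y) := fun y => by
    have h1 : ip (sv y) (R *ᵥ sv y) = (ns (R *ᵥ sv y) : ℝ) := by
      rw [← ip_self, ip_mulVec, hR, Matrix.mulVec_mulVec, hRR]
    rw [← re_ip_sv, h1, Complex.ofReal_re]
  have h1 := tn_quad A x fun a b => (R a b).re
  have h2 := abs_er_le A x fun a b => (R a b).re
  have h3 := hA.fs_le hπ hRπ
  have h4 := sum_re_sq_le R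
  have h5 : ∑ a, (R a a).re = R.trace.re := by
    simp only [Matrix.trace, Matrix.diag, Complex.re_sum]
  have h0 : ns (0 : Fin n → ℂ) = 0 := by simp [ns]
  simp only [hq] at h1
  rw [tn_congr (g := fun _ => 0) fun y hyA hd => by rw [hy y hyA hd, h0], tn_zero, hx, h0, h5] at h1
  rw [hf] at h3 h4
  have ht : 0 ≤ R.trace.re := hf ▸ fs_nonneg R
  have hfe : 0 ≤ fe A x :=
    Finset.sum_nonneg fun _ _ => Finset.sum_nonneg fun _ _ => sq_nonneg _
  have hn' : (16 : ℝ) ≤ n := by exact_mod_cast hn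
  have h6 : 0 ≤ mu A / (n - 1) * R.trace.re :=
    mul_nonneg (div_nonneg (mu_nonneg A) (by linarith)) ht
  have h7 : √(∑ a, ∑ b, (R a b).re ^ 2) * √(fe A x) ≤ √R.trace.re * √(fe A x) :=
    mul_le_mul_of_nonneg_right (Real.sqrt_le_sqrt h4) (Real.sqrt_nonneg _)
  have h8 : σ * R.trace.re ≤ √R.trace.re * √(fe A x) := by
    have := neg_abs_le (∑ a, ∑ b, (R a b).re * er A x a b)
    linarith
  have h9 := mul_self_le_mul_self (mul_nonneg hσ.le ht) h8
  rw [mul_mul_mul_comm √_, Real.mul_self_sqrt ht, Real.mul_self_sqrt hfe] at h9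
  rcases ht.eq_or_lt with h | h
  · rw [← h, mul_zero]
    exact hfe
  · exact le_of_mul_le_mul_left (a := R.trace.re) (by nlinarith) h

end C1h

open C1h in
theorem st_C1 : C1 := by
  intro n d A U π σ x Q hn hπ hUU hUU' hA hσ hQ hQQ hAy hQy
  have hc : ∀ M : Matrix (Fin d) (Fin n) ℂ, U * (Uᴴ * M) = M := fun M => by
    rw [← Matrix.mul_assoc, hUU', Matrix.one_mul]
  obtain ⟨R, hRd⟩ : ∃ R, R = Uᴴ * (Q * U) := ⟨_, rfl⟩
  have hR : Rᴴ = R := by
    rw [hRd, Matrix.conjTranspose_mul, Matrix.conjTranspose_mul, hQ.eq,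
      Matrix.conjTranspose_conjTranspose, Matrix.mul_assoc]
  have hUR : U * R = Q * U := by rw [hRd, hc]
  have hRR : R * R = R := by
    nth_rewrite 1 [hRd]
    rw [Matrix.mul_assoc, Matrix.mul_assoc, hUR, ← Matrix.mul_assoc Q, hQQ, hRd]
  have hπR : cx π * R = R := by rw [← hUU, Matrix.mul_assoc, hUR, hRd]
  have hRπ : R * cx π = R := by
    have h1 := congrArg Matrix.conjTranspose hπR
    rwa [Matrix.conjTranspose_mul, hπ.cx_herm, hR] at h1
  have htr : R.trace = Q.trace := by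
    rw [hRd, Matrix.trace_mul_comm, Matrix.mul_assoc, hUU', Matrix.mul_one]
  have hRy : ∀ y ∈ A, dt x y = 0 → R *ᵥ sv y = 0 := fun y hy hd => by
    rw [hRd, ← Matrix.mulVec_mulVec, ← Matrix.mulVec_mulVec, hQy y hy hd, Matrix.mulVec_zero]
  obtain ⟨q, hq⟩ : ∃ q, q = R *ᵥ sv x := ⟨_, rfl⟩
  have hRq : R *ᵥ q = q := by rw [hq, Matrix.mulVec_mulVec, hRR]
  have hπq : cx π *ᵥ q = q := by rw [hq, Matrix.mulVec_mulVec, hπR]
  have hqx : ip q (sv x) = (ns q : ℝ) := by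
    rw [← ip_self]
    nth_rewrite 3 [hq]
    rw [ip_mulVec', hR, hRq]
  have hqy : ∀ y ∈ A, dt x y = 0 → ip q (sv y) = 0 := fun y hy hd => by
    rw [hq, ip_mulVec, hR, hRy y hy hd, ip_zero_right]
  have h1 : (R - pj q)ᴴ = R - pj q := by rw [Matrix.conjTranspose_sub, hR, pj_herm]
  have h2 : (R - pj q) * (R - pj q) = R - pj q := by
    rw [Matrix.sub_mul, Matrix.mul_sub, Matrix.mul_sub, hRR, mul_pj hRq, pj_mul hR hRq, pj_idem,
      sub_self, sub_zero]
  have h3 := key hn hπ hA hσ h1 h2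
    (by rw [Matrix.sub_mul, hRπ, pj_mul hπ.cx_herm hπq])
    (by rw [Matrix.sub_mulVec, pj_mulVec, hqx, unit_smul, ← hq, sub_self])
    (fun y hy hd => by
      rw [Matrix.sub_mulVec, pj_mulVec, hqy y hy hd, hRy y hy hd, zero_div, zero_smul, sub_self])
  have h4 : (R - pj q).trace.re = Q.trace.re - ns q / ns q := by
    rw [Matrix.trace_sub, Complex.sub_re, htr, pj_trace]
  have h5 : ns q / ns q ≤ 1 := div_self_le_one _
  have hs : 0 < σ ^ 2 := by positivity
  refine ⟨?_, fun hfe => ?_⟩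
  · have h6 : (R - pj q).trace.re ≤ fe A x / σ ^ 2 := by
      rw [le_div_iff₀ hs]
      linarith
    linarith
  have h6 : R - pj q = 0 := by
    by_contra h
    have h7 := one_le_trace h2 h
    nlinarith
  refine ⟨?_, fun hQ0 => ?_⟩
  · rw [h6, Matrix.trace_zero, Complex.zero_re] at h4
    linarith
  have hq0 : q ≠ 0 := fun h => hQ0 (by
    have h7 : R = 0 := by
      rw [sub_eq_zero.1 h6]
      exact mext fun v => by rw [pj_mulVec, h, smul_zero, Matrix.zero_mulVec]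
    have h8 := congrArg (· * Uᴴ) hUR
    simp only [h7, Matrix.mul_zero, Matrix.zero_mul, Matrix.mul_assoc, hUU', Matrix.mul_one] at h8
    exact h8.symm)
  obtain ⟨p, hp⟩ : ∃ p, p = cx π *ᵥ sv x := ⟨_, rfl⟩
  have hπp : cx π *ᵥ p = p := by rw [hp, Matrix.mulVec_mulVec, hπ.cx_idem]
  have hRp : R *ᵥ p = q := by rw [hp, Matrix.mulVec_mulVec, hRπ, hq]
  obtain ⟨z, hz⟩ : ∃ z, z = q - pj p *ᵥ q := ⟨_, rfl⟩
  have hπz : cx π *ᵥ z = z := by
    rw [hz, Matrix.mulVec_sub, hπq, Matrix.mulVec_mulVec, mul_pj hπp]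
  have hzx : ip z (sv x) = 0 := by
    rw [← hπz, ip_mulVec, hπ.cx_herm, ← hp, hz, ip_sub_left, ip_mulVec, pj_herm, pj_self, sub_self]
  have hzy : ∀ y ∈ A, dt x y = 0 → ip z (sv y) = 0 := fun y hy hd => by
    have h7 : cx π *ᵥ sv y = sv y := by
      rw [cx_mulVec_sv, hAy y hy]
      rfl
    have h8 : ip p (sv y) = 0 := by
      rw [hp, ip_mulVec, hπ.cx_herm, h7, ip_sv, hd, Complex.ofReal_zero]
    rw [hz, ip_sub_left, hqy y hy hd, pj_mulVec, ip_smul_left, h8, mul_zero, sub_zero]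
  have h7 := key hn hπ hA hσ (pj_herm z) (pj_idem z) (pj_mul hπ.cx_herm hπz)
    (by rw [pj_mulVec, hzx, zero_div, zero_smul])
    (fun y hy hd => by rw [pj_mulVec, hzy y hy hd, zero_div, zero_smul])
  have hz0 : z = 0 := by
    by_contra h
    rw [pj_trace, div_self fun h' => h (ns_eq_zero h')] at h7
    linarith
  rw [hz0, pj_mulVec, eq_comm, sub_eq_zero] at hz
  obtain ⟨c, hc'⟩ : ∃ c : ℂ, q = c • p := ⟨_, hz⟩
  have hc0 : c ≠ 0 := fun h => hq0 (by rw [hc', h, zero_smul])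
  have h8 : q = p := by
    have h9 := hRq
    nth_rewrite 1 [hc'] at h9
    rw [Matrix.mulVec_smul, hRp] at h9
    exact smul_right_injective _ hc0 (h9.trans hc')
  rw [Matrix.mulVec_mulVec, ← hUR, ← Matrix.mulVec_mulVec, ← hq, h8, hp, Matrix.mulVec_mulVec,
    ← hUU, hc]

end Pool.Agent.Lib.QE
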