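import Pool.Agent.Lib.QE.B_CT

/-! Rows C2 and SC. -/

namespace Pool.Agent.Lib.QE

open Finset Matrix Complex Pool.Agent.Lib.MP_5d53d3_co
open scoped BigOperators ComplexConjugate

namespace C2k

variable {n : ℕ}

/-- the normalised component off the range of the projector -/
noncomputable def uu90 (π : Matrix (Fin n) (Fin n) ℝ) (x : X n) : Fin n → ℝ :=
  (√(rs (x0 π x)))⁻¹ • x0 π x

theorem rs_uu90 (π : Matrix (Fin n) (Fin n) ℝ) {x : X n} (h : x0 π x ≠ 0) :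
    ∑ a, uu90 π x a * uu90 π x a = 1 := by
  have h0 : rs (x0 π x) ≠ 0 := fun e => h (rs_eq_zero e)
  have h1 := Real.mul_self_sqrt (rs_nonneg (x0 π x))
  have h2 : √(rs (x0 π x)) ≠ 0 := fun e => h0 (by rw [← h1, e, mul_zero])
  have h3 : ∑ a, uu90 π x a * uu90 π x a =
      (√(rs (x0 π x)))⁻¹ * (√(rs (x0 π x)))⁻¹ * rs (x0 π x) := by
    conv_rhs => rw [mul_comm, rs, Finset.sum_mul]
    refine Finset.sum_congr rfl fun a _ => ?_
    simp only [uu90, Pi.smul_apply, smul_eq_mul, rs]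
    ring
  rw [h3, ← mul_inv, h1, inv_mul_cancel₀ h0]

theorem fix_uu90 {π : Matrix (Fin n) (Fin n) ℝ} (h : Proj π) (x : X n) :
    (1 - π) *ᵥ uu90 π x = uu90 π x := by
  rw [uu90, Matrix.mulVec_smul, x0_eq, h.compl.mulVec_idem]

theorem dot_uu90 (π : Matrix (Fin n) (Fin n) ℝ) {x y : X n}
    (h : ∑ a, x0 π x a * x0 π y a = 0) : ∑ a, uu90 π x a * uu90 π y a = 0 := by
  have h3 : ∑ a, uu90 π x a * uu90 π y a =
      (√(rs (x0 π x)))⁻¹ * (√(rs (x0 π y)))⁻¹ * ∑ a, x0 π x a * x0 π y a := by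
    rw [Finset.mul_sum]
    refine Finset.sum_congr rfl fun a _ => ?_
    simp only [uu90, Pi.smul_apply, smul_eq_mul]
    ring
  rw [h3, h, mul_zero]

theorem ip_sq90 (u w : Fin n → ℝ) :
    ip (fun p : Fin n × Fin n => ((u p.1 * u p.2 : ℝ) : ℂ)) (fun p => ((w p.1 * w p.2 : ℝ) : ℂ)) =
      (((∑ a, u a * w a) * ∑ a, u a * w a : ℝ) : ℂ) := by
  simp only [ip, Fintype.sum_prod_type, conj_ofReal, Finset.sum_mul_sum]
  push_cast
  exact Finset.sum_congr rfl fun a _ => Finset.sum_congr rfl fun b _ => by ring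

theorem num90 {m s t n : ℝ} (hn : 16 ≤ n) (ht : 1 ≤ t) (hs : 0 ≤ s) (hm : s * s = m)
    (h : m ^ 2 ≤ (30 * (m * s) / (n - 1) + 4 / n ^ 2 * m) * t) : m ≤ 1200 * t ^ 2 / n ^ 2 := by
  have hn0 : 0 < n := by linarith
  rcases hs.eq_or_lt with h0 | h0
  · rw [← hm, ← h0, mul_zero]
    positivity
  have hm0 : 0 < m := hm ▸ mul_pos h0 h0
  have h1 : m ≤ (30 * s / (n - 1) + 4 / n ^ 2) * t := by
    refine le_of_mul_le_mul_left ?_ hm0
    calc m * m = m ^ 2 := by ring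
      _ ≤ _ := h
      _ = _ := by ring
  have h2 : 30 * s / (n - 1) ≤ 32 * s / n := by
    rw [div_le_div_iff₀ (by linarith) hn0]
    nlinarith
  set z := t / n with hz
  have h3 : 4 / n ^ 2 * t ≤ 4 * z ^ 2 := by
    have e : 4 * z ^ 2 = 4 / n ^ 2 * (t * t) := by rw [hz]; ring
    rw [e]
    exact mul_le_mul_of_nonneg_left (by nlinarith) (by positivity)
  have h4 : 30 * s / (n - 1) * t ≤ 32 * s * z := by
    have e : 32 * s * z = 32 * s / n * t := by rw [hz]; ring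
    rw [e]
    exact mul_le_mul_of_nonneg_right h2 (by linarith)
  have e : 1200 * t ^ 2 / n ^ 2 = 1200 * z ^ 2 := by rw [hz]; ring
  rw [e]
  nlinarith [sq_nonneg (s - 32 * z), sq_nonneg z]

end C2k

open C2k in
theorem st_C2 : C2 := by
  intro n Y π t hn h4 hY hπ ht htr h0 hd
  set F : X n → Fin n × Fin n → ℂ := fun x p => ((uu90 π x p.1 * uu90 π x p.2 : ℝ) : ℂ) with hF
  have hns : ∀ x ∈ Y, ns (F x) = 1 := fun x hx => by
    have e := ip_sq90 (uu90 π x) (uu90 π x)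
    rw [rs_uu90 π (h0 x hx), mul_one] at e
    have e2 := ip_self (F x)
    exact_mod_cast e2.symm.trans e
  have hed : (ed Y fun x y => (ip (F x) (F y)).re) = 0 := by
    rw [← ed_zero Y]
    refine ed_congr fun x hx y hy hxy => ?_
    have e := ip_sq90 (uu90 π x) (uu90 π y)
    rw [dot_uu90 π (hd x hx y hy hxy), mul_zero] at e
    rw [show ip (F x) (F y) = _ from e, ofReal_re]
  have hH := (st_HOF n (Fin n × Fin n) Y F hn h4 hY).1
  have hS := st_SM2 n (Fin n × Fin n) Y F hn hY fun x hx => (hns x hx).le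
  rw [hed, es_congr hns, ← mu_eq_es] at hH
  have hn' : (16 : ℝ) ≤ n := by exact_mod_cast hn
  have hG : ns (fun a => ec Y fun x => F x a) =
      ∑ p : Fin n × Fin n, (es Y fun x => uu90 π x p.1 * uu90 π x p.2) ^ 2 := by
    refine Finset.sum_congr rfl fun p _ => ?_
    simp only [hF]
    rw [ec_ofReal, normSq_ofReal, sq]
  have hP : ∑ p : Fin n × Fin n, (1 - π) p.1 p.2 ^ 2 = n - π.trace := by
    rw [← trace_compl, ← hπ.compl.fs_cx, fs, Fintype.sum_prod_type]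
    refine Finset.sum_congr rfl fun a _ => Finset.sum_congr rfl fun b _ => ?_
    rw [cx, Matrix.map_apply, normSq_ofReal, sq]
  have hmu : mu Y = ∑ p : Fin n × Fin n,
      (es Y fun x => uu90 π x p.1 * uu90 π x p.2) * (1 - π) p.1 p.2 := by
    have e : ∀ p : Fin n × Fin n, (es Y fun x => uu90 π x p.1 * uu90 π x p.2) * (1 - π) p.1 p.2 =
        es Y fun x => (1 - π) p.1 p.2 * (uu90 π x p.1 * uu90 π x p.2) := fun p => by
      rw [es_mul, mul_comm]
    simp only [e]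
    rw [← es_sum, mu_eq_es]
    refine es_congr fun x hx => ?_
    rw [← rs_uu90 π (h0 x hx), Fintype.sum_prod_type]
    refine Finset.sum_congr rfl fun a _ => ?_
    have e2 : ∑ b, (1 - π) a b * uu90 π x b = uu90 π x a := congrFun (fix_uu90 hπ x) a
    calc uu90 π x a * uu90 π x a = (∑ b, (1 - π) a b * uu90 π x b) * uu90 π x a := by rw [e2]
      _ = _ := by
        rw [Finset.sum_mul]
        exact Finset.sum_congr rfl fun b _ => by ring
  have hcs := Finset.sum_mul_sq_le_sq_mul_sq univ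
    (fun p : Fin n × Fin n => es Y fun x => uu90 π x p.1 * uu90 π x p.2) fun p => (1 - π) p.1 p.2
  rw [← hmu, ← hG, hP] at hcs
  refine num90 hn' ht (Real.sqrt_nonneg _) (Real.mul_self_sqrt (mu_nonneg Y)) (hcs.trans ?_)
  have h5 : w2 Y F / ((n : ℝ) - 1) ≤ 30 * (mu Y * √(mu Y)) / ((n : ℝ) - 1) :=
    div_le_div_of_nonneg_right hS (by linarith)
  have h6 := (abs_le.1 hH).1
  have h7 := ns_nonneg (fun a => ec Y fun x => F x a)
  refine (mul_le_mul_of_nonneg_left htr h7).trans (mul_le_mul_of_nonneg_right ?_ (by linarith))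
  linarith

theorem st_SC (hC1 : C1) (hC2 : C2) : SC := by
  classical
  intro n d P A U π σ t hn h4 hP hA hπ hU hU' hN h0 h1 ht htr hfix hPA
  have key := fun x : X n => hC1 n d A U π σ x (P x) hn hπ hU hU' hN h0 (hP.1 x).1 (hP.1 x).2 hfix
    fun y hy hxy => by
      rw [← hPA y hy, Matrix.mulVec_mulVec, hP.2 x y hxy, Matrix.zero_mulVec]
  have hσ : 0 < σ ^ 2 := by positivity
  set Y := (Ev n).filter fun x => fe A x < σ ^ 2 ∧ P x ≠ 0 ∧ π *ᵥ sg x ≠ sg x with hY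
  have hYm : mu Y ≤ 1200 * t ^ 2 / (n : ℝ) ^ 2 := by
    refine hC2 n Y π t hn h4 (Finset.filter_subset _ _) hπ ht htr (fun x hx e => ?_)
      fun x hx y hy hxy => ?_
    · exact (Finset.mem_filter.1 hx).2.2.2 (sub_eq_zero.1 e).symm
    · obtain ⟨a1, a2, -⟩ := (Finset.mem_filter.1 hx).2
      obtain ⟨b1, b2, -⟩ := (Finset.mem_filter.1 hy).2
      have e1 := ((key x).2 a1).2 a2
      have e2 := ((key y).2 b1).2 b2
      have e3 : ip (U *ᵥ sv x) (U *ᵥ sv y) = 0 := by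
        rw [← e1, ← e2, ip_mulVec, (hP.1 x).1.eq, Matrix.mulVec_mulVec, hP.2 x y hxy,
          Matrix.zero_mulVec, ip_zero_right]
      rw [ip_mulVec', Matrix.mulVec_mulVec, hU, cx_mulVec_sv] at e3
      have e4 : ∑ i, (π *ᵥ sg x) i * sg y i = 0 := by
        simp only [ip, sv, conj_ofReal] at e3
        exact_mod_cast e3
      rw [hπ.dot_x0, hxy, e4, sub_zero]
  have hE := st_ERR n A σ hn h4 hA h0 h1
  have hpt : ∀ x ∈ Ev n, (P x).trace.re ≤
      2 / σ ^ 2 * (if σ ^ 2 ≤ fe A x then fe A x else 0) +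
        ((if π *ᵥ sg x = sg x then 1 else 0) +
          if fe A x < σ ^ 2 ∧ P x ≠ 0 ∧ π *ᵥ sg x ≠ sg x then 1 else 0) := fun x _ => by
    have p1 : (0 : ℝ) ≤ if π *ᵥ sg x = sg x then 1 else 0 := by split_ifs <;> norm_num
    have p2 : (0 : ℝ) ≤ if fe A x < σ ^ 2 ∧ P x ≠ 0 ∧ π *ᵥ sg x ≠ sg x then 1 else 0 := by
      split_ifs <;> norm_num
    by_cases hb : σ ^ 2 ≤ fe A x
    · rw [if_pos hb]
      have q1 : 1 ≤ fe A x / σ ^ 2 := (one_le_div hσ).2 hb
      have q2 : 2 / σ ^ 2 * fe A x = 2 * (fe A x / σ ^ 2) := by ring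
      have q3 := (key x).1
      linarith
    · rw [if_neg hb, mul_zero, zero_add]
      have q1 := ((key x).2 (not_le.1 hb)).1
      by_cases hz : P x = 0
      · rw [hz, Matrix.trace_zero, zero_re]
        rw [hz] at p2
        linarith
      by_cases hf : π *ᵥ sg x = sg x
      · rw [if_pos hf]
        linarith
      · rw [if_neg hf, if_pos ⟨not_le.1 hb, hz, hf⟩]
        linarith
  have hm := es_mono hpt
  rw [es_add, es_add, es_mul, ← es_filter, ← es_filter, ← es_filter, ← mu_eq_es, ← mu_eq_es] at hm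
  have h7 : 2 / σ ^ 2 * es ((Ev n).filter fun x => σ ^ 2 ≤ fe A x) (fe A) ≤
      2 / σ ^ 2 * (10 ^ 7 / (σ ^ 2 * (n : ℝ) ^ 2)) := mul_le_mul_of_nonneg_left hE (by positivity)
  have e : (1200 * t ^ 2 + 2 * 10 ^ 7 / σ ^ 4) / (n : ℝ) ^ 2 =
      1200 * t ^ 2 / (n : ℝ) ^ 2 + 2 / σ ^ 2 * (10 ^ 7 / (σ ^ 2 * (n : ℝ) ^ 2)) := by ring
  rw [e]
  unfold rk
  linarith

end Pool.Agent.Lib.QE
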