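import Pool.Agent.Lib.QE.B_CT

/-! The merged subcube on the even half cube. -/

namespace Pool.Agent.Lib.QE

open Finset Matrix Complex Pool.Agent.Lib.MP_5d53d3_co
open scoped BigOperators

namespace CEVh

variable {n : ℕ}

theorem odd {x : X n} (hx : x ∈ Ev n) (i : Fin n) : x * fl i ∉ Ev n := by
  rw [mem_Ev, ch_pt, mem_Ev.1 hx, ch_fl, if_pos (mem_univ i)]
  norm_num

theorem flip {p : Matrix (Fin n) (Fin n) ℝ} (hp : Proj p) (x : X n) (i : Fin n) :
    rs (p *ᵥ sg (x * fl i)) ≤ 2 * rs (p *ᵥ sg x) + 8 * p i i := by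
  have e (k) : (p *ᵥ sg (x * fl i)) k = (p *ᵥ sg x) k - 2 * (p k i * sg x i) := by
    have : ∀ j, p k j * sg (x * fl i) j =
        p k j * sg x j - if j = i then 2 * (p k j * sg x j) else 0 := fun j => by
      rw [sg_mul, sg_fl]; split_ifs <;> ring
    simp only [Matrix.mulVec, dotProduct, this, sum_sub_distrib, sum_ite_eq', mem_univ, if_true]
  have d : p i i = ∑ k, p k i ^ 2 := by
    rw [← congrFun (congrFun hp.2 i) i, Matrix.mul_apply]
    exact sum_congr rfl fun k _ => by rw [hp.symm i k, sq]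
  rw [d, rs, rs, mul_sum, mul_sum, ← sum_add_distrib]
  refine sum_le_sum fun k _ => ?_
  have s : (p k i * sg x i) ^ 2 = p k i ^ 2 := by rw [mul_pow, sq (sg x i), sg_sq, mul_one]
  rw [e, ← s]
  nlinarith [sq_nonneg ((p *ᵥ sg x) k + 2 * (p k i * sg x i))]

theorem dbl {A : Finset (X n)} (hA : A ⊆ Ev n) (i : Fin n) :
    mu (A ∪ A.image (· * fl i)) = 2 * mu A := by
  rw [mu, card_union_of_disjoint (disjoint_left.2 fun x hx h => by
    obtain ⟨y, hy, rfl⟩ := mem_image.1 h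
    exact odd (hA hy) i (hA hx)), card_image_of_injective _ (mul_left_injective _), mu]
  push_cast
  ring

end CEVh

theorem st_CEV (hC : CUBE) (h0 : MG0) (h1 : MG1) : CEV := by
  intro n t S π0 b hb hn hS hπ htr hm he
  have T0 : (0 : ℝ) < 2 ^ t := by positivity
  have b0 : 0 < b := by rw [hb]; positivity
  have bT : 2 ^ (t + 1) * b = 1 := by rw [hb]; field_simp
  have b2 : (1 : ℝ) / 2 ^ t = 2 * b := by rw [hb, pow_succ]; field_simp
  have dv (u : ℝ) : u / 2 ^ t = u * (2 * b) := by rw [← b2]; ring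
  have T1 : (t : ℝ) + 1 ≤ 2 ^ t := by exact_mod_cast Nat.lt_two_pow_self
  have t0 : (0 : ℝ) ≤ t := t.cast_nonneg
  have tb : (t + 1) * b ≤ 1 / 2 := by rw [pow_succ] at bT; nlinarith
  have bh : b ≤ 1 / 2 := by nlinarith
  have pw (a k : ℕ) : b ^ (a + k) ≤ b ^ a * (1 / 2) ^ k := by
    rw [pow_add]; gcongr
  have tw (a : ℕ) : t * b ^ (a + 1) ≤ b ^ a / 2 := by
    have := pow_pos b0 a
    rw [pow_succ]; nlinarith
  have p60 := pow_pos b0 60
  have hn2 : 2 * t + 2 < n := by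
    have a1 := pw 0 59
    have a2 : (t + 1) * b ^ (59 + 1) ≤ b ^ 59 / 2 := by
      have := pow_pos b0 59
      rw [pow_succ]; nlinarith
    have : (2 * t + 2 : ℝ) < n := lt_of_mul_lt_mul_right (by norm_num at a1 a2 ⊢; linarith) p60.le
    exact_mod_cast this
  have n0 : 0 < n := by omega
  have n1 : (0 : ℝ) < n := Nat.cast_pos.2 n0
  have hp := hπ.compl
  have ht : (1 - π0).trace = t := by rw [trace_compl, htr]; ring
  obtain ⟨i, -, hi⟩ := exists_le_of_sum_le (s := univ) (f := fun i => (1 - π0) i i)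
    (g := fun _ => t * b ^ 60) ⟨⟨0, n0⟩, mem_univ _⟩ (by
      rw [sum_const, card_univ, Fintype.card_fin, nsmul_eq_mul]
      exact ht.le.trans (by nlinarith))
  obtain ⟨A, hA⟩ : ∃ A, A = S.filter fun x => rs (x0 π0 x) ≤ b ^ 42 := ⟨_, rfl⟩
  have AS : A ⊆ S := hA ▸ filter_subset _ _
  have m1 : mu (S \ A) ≤ b ^ 18 := by
    rw [hA, ← filter_not]
    refine le_of_mul_le_mul_left (((markov (fun x _ => rs_nonneg _) _ fun x _ h =>
      (not_le.1 h).le).trans he).trans_eq (by ring)) (pow_pos b0 42)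
  have m2 := mu_sdiff AS
  have q1 := pw 1 10
  have q2 := pw 1 18
  have q3 := tw 19
  have hd : b ^ 11 + t * (400 * (b ^ 10) ^ 2) ≤ b / 100 := by norm_num at q1 q2 q3 ⊢; nlinarith
  obtain ⟨r, e, hM, -, hW⟩ := hC n b (b ^ 11) (b ^ 10) t (1 - π0) (A ∪ A.image (· * fl i)) b0 bT.le
    (by positivity) (by positivity) (by have := pw 0 10; norm_num at this ⊢; linarith)
    (by have := pw 0 11; have := pw 0 19; norm_num at *; nlinarith) hp ht (fun x hx => by
      have a (y) (hy : y ∈ A) : rs ((1 - π0) *ᵥ sg y) ≤ b ^ 42 := by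
        rw [hA] at hy
        exact x0_eq π0 y ▸ (mem_filter.1 hy).2
      have a1 := pw 24 18
      have a2 := pw 24 35
      have a3 := tw 59
      have a4 := pow_pos b0 24
      rw [show (b ^ 2 / 100 * b ^ 10) ^ 2 = b ^ 24 / 10000 by ring]
      norm_num at a1 a2 a3
      rcases mem_union.1 hx with h | h
      · linarith [a x h]
      · obtain ⟨y, hy, rfl⟩ := mem_image.1 h
        linarith [a y hy, CEVh.flip hp y i]) (by
      have a1 := CEVh.dbl (AS.trans hS) i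
      have a2 := pw 12 48
      have a3 := pw 12 6
      have a4 := pow_pos b0 12
      rw [mu_eq_den n0] at a1
      rw [dv, show (1 - b ^ 11) * (2 * b) = 2 * b - 2 * b ^ 12 by ring]
      norm_num at a2 a3
      linarith)
  obtain ⟨π, c1, c2, c3, c4, c5⟩ := h1 n t r e hM hn2
  have w1 : mu (Wc r e) = 4 * b := by
    have := h0 n t r e (fun _ => 1) hM
    simp only [mul_one, Fintype.expect_const] at this
    rw [mu_eq_den n0, den, ← mul_left_inj' T0.ne']
    rw [pow_succ] at bT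
    linarith
  have w2 := mu_sdiff (inter_subset_left (s₁ := Wc r e) (s₂ := Ev n))
  have w3 := (mu_mono (S := (A ∪ A.image (· * fl i)) ∩ Wc r e) fun x hx => by
    obtain ⟨h, h'⟩ := mem_inter.1 hx
    refine mem_union.2 ((mem_union.1 h).imp (fun k => mem_inter.2 ⟨k, h'⟩) fun k => ?_)
    obtain ⟨y, hy, rfl⟩ := mem_image.1 k
    exact mem_sdiff.2 ⟨h', fun l => CEVh.odd (hS (AS hy)) i (mem_inter.1 l).2⟩).trans
    (mu_union_le (A ∩ Wc r e) (Wc r e \ (Wc r e ∩ Ev n)))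
  have sb : A ∩ Wc r e ⊆ Wc r e ∩ Ev n := fun x hx =>
    mem_inter.2 ⟨(mem_inter.1 hx).2, hS (AS (mem_inter.1 hx).1)⟩
  have w4 := mu_sdiff sb
  rw [mu_eq_den n0] at w3
  rw [dv] at hW
  have w5 : mu ((Wc r e ∩ Ev n) \ (A ∩ Wc r e)) ≤ (b / 5) ^ 2 := by nlinarith
  refine ⟨π, A ∩ Wc r e, c1, c2, inter_subset_left.trans AS, fun x hx =>
    (c3 x).2 (mem_inter.1 hx).2, c5.sub n0 sb ?_, by nlinarith, c4 ▸ mu_mono fun x hx =>
      mem_inter.2 ⟨(c3 x).1 (mem_filter.1 hx).2, (mem_filter.1 hx).1⟩⟩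
  linarith [Real.sqrt_le_iff.2 ⟨by positivity, w5⟩]

end Pool.Agent.Lib.QE
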