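import Pool.Agent.Lib.QE.B_SPEC

/-! Cross terms and the error of the neighbour covariance. -/

namespace Pool.Agent.Lib.QE

open Finset Matrix Complex Pool.Agent.Lib.MP_5d53d3_co
open scoped BigOperators ComplexConjugate symmDiff

variable {n d : ℕ} {ι κ : Type}

theorem fiber3 (T : Finset (Fin n × Fin n × Fin n)) (U : Finset (Fin n)) :
    (T.filter fun t => ({t.1, t.2.1, t.2.2} : Finset (Fin n)) = U).card ≤ 27 := by
  rcases (T.filter fun t => ({t.1, t.2.1, t.2.2} : Finset (Fin n)) = U).eq_empty_or_nonempty with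
    h | ⟨t, ht⟩
  · simp [h]
  have h1 : U.card ≤ 3 := (Finset.mem_filter.1 ht).2 ▸ Finset.card_le_three
  refine (Finset.card_le_card (t := U ×ˢ U ×ˢ U) fun u hu => ?_).trans ?_
  · rw [← (Finset.mem_filter.1 hu).2]
    simp
  · simp only [Finset.card_product]
    exact Nat.mul_le_mul h1 (Nat.mul_le_mul h1 h1)

theorem fiber4 (T : Finset (Fin n × Fin n × Fin n × Fin n)) (U : Finset (Fin n)) :
    (T.filter fun t => ({t.1, t.2.1, t.2.2.1, t.2.2.2} : Finset (Fin n)) = U).card ≤ 256 := by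
  rcases (T.filter fun t =>
    ({t.1, t.2.1, t.2.2.1, t.2.2.2} : Finset (Fin n)) = U).eq_empty_or_nonempty with h | ⟨t, ht⟩
  · simp [h]
  have h1 : U.card ≤ 4 := (Finset.mem_filter.1 ht).2 ▸ Finset.card_le_four
  refine (Finset.card_le_card (t := U ×ˢ U ×ˢ U ×ˢ U) fun u hu => ?_).trans ?_
  · rw [← (Finset.mem_filter.1 hu).2]
    simp
  · simp only [Finset.card_product]
    exact Nat.mul_le_mul h1 (Nat.mul_le_mul h1 (Nat.mul_le_mul h1 h1))

theorem ch_four {i k j l : Fin n} (h : Dis i k j l) (x : X n) :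
    ch {i, k, j, l} x = sg x i * sg x k * (sg x j * sg x l) := by
  obtain ⟨h1, h2, h3, h4, h5, h6⟩ := h
  rw [ch, Finset.prod_insert (by simp [h1, h3, h4]), Finset.prod_insert (by simp [h5, h6]),
    Finset.prod_pair h2, mul_assoc]

theorem es_q2_sq (hn : 4 < n) (S : Finset (X n)) (g : X n → ℝ) :
    (es (Ev n) fun x => q2 S g x ^ 2) ≤ ∑ i, ∑ j, c2 S g i j ^ 2 := by
  have h := q2_mem S g
  have := es_V (D := 2 + 2) hn (V_mul h.1 h.1)
  refine le_trans (le_of_eq ?_) h.2
  simp only [sq]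
  exact this

/-- functions without first level -/
theorem ct_zero (hn : 16 ≤ n) (h4 : 4 ∣ n) (h : X n → ℝ)
    (h1 : ∀ i, (es (Ev n) fun y => sg y i * h y) = 0) :
    (es (Ev n) fun x => ∑ i, (tn (Ev n) x fun y => sg y i * h y) ^ 2) ≤
      64 / (n : ℝ) ^ 2 * es (Ev n) fun y => h y ^ 2 := by
  have hN : (16 : ℝ) ≤ n := by exact_mod_cast hn
  have h0 : 0 ≤ es (Ev n) fun y => h y ^ 2 := es_nonneg fun _ _ => sq_nonneg _
  have a1 : ∑ i, ∑ j, ∑ k, c2 (Ev n) (fun y => sg y i * h y) j k ^ 2 ≤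
      27 * es (Ev n) fun y => h y ^ 2 := by
    have hb := bes (by omega) (subset_refl (Ev n))
      (univ.filter fun t : Fin n × Fin n × Fin n => t.1 ≠ t.2.1 ∧ t.1 ≠ t.2.2 ∧ t.2.1 ≠ t.2.2)
      (fun t => {t.1, t.2.1, t.2.2}) (fun _ _ => Finset.card_le_three.trans (by norm_num))
      (fiber3 _) h
    refine le_trans (le_of_eq ?_) hb
    rw [Finset.sum_filter]
    simp only [Fintype.sum_prod_type]
    refine Finset.sum_congr rfl fun i _ => Finset.sum_congr rfl fun j _ =>
      Finset.sum_congr rfl fun k _ => ?_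
    unfold c2
    by_cases e1 : j = k
    · simp [e1]
    rw [if_neg e1]
    by_cases e2 : i = j
    · subst e2
      rw [if_neg (by simp), es_congr (g := fun y => sg y k * h y) fun y _ => by
        linear_combination sg y k * h y * sg_sq y i, h1]
      simp
    by_cases e3 : i = k
    · subst e3
      rw [if_neg (by simp), es_congr (g := fun y => sg y j * h y) fun y _ => by
        linear_combination sg y j * h y * sg_sq y i, h1]
      simp
    rw [if_pos ⟨e2, e3, e1⟩]
    congr 1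
    refine es_congr fun y _ => ?_
    rw [ch, Finset.prod_insert (by simp [e2, e3]), Finset.prod_pair e1]
    ring
  have a2 : ∀ i, (es (Ev n) fun x => (tn (Ev n) x fun y => sg y i * h y) ^ 2) ≤
      2 * (16 / (n : ℝ) ^ 4 * es (Ev n) fun y => h y ^ 2) +
      2 / (n - 1) ^ 2 * ∑ j, ∑ k, c2 (Ev n) (fun y => sg y i * h y) j k ^ 2 := fun i => by
    have b1 := st_SPEC n (Ev n) (fun y => sg y i * h y) hn h4 (subset_refl _)
    have b2 := es_q2_sq (by omega) (Ev n) fun y => sg y i * h y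
    have b3 : (es (Ev n) fun y => (sg y i * h y) ^ 2) = es (Ev n) fun y => h y ^ 2 :=
      es_congr fun y _ => by linear_combination h y ^ 2 * sg_sq y i
    rw [h1, b3] at b1
    refine le_trans ?_ (add_le_add (mul_le_mul_of_nonneg_left b1 zero_le_two)
      (mul_le_mul_of_nonneg_left b2 (by positivity)))
    rw [← es_mul, ← es_mul, ← es_add]
    refine es_mono fun x _ => ?_
    set a := tn (Ev n) x fun y => sg y i * h y
    set b := q2 (Ev n) (fun y => sg y i * h y) x
    have : 2 / ((n : ℝ) - 1) ^ 2 * b ^ 2 = 2 * (b / (n - 1)) ^ 2 := by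
      rw [div_pow, div_mul_eq_mul_div, mul_div_assoc]
    rw [this]
    nlinarith [sq_nonneg (a + 2 * (b / (n - 1)))]
  rw [es_sum]
  refine (Finset.sum_le_sum fun i _ => a2 i).trans ?_
  rw [Finset.sum_add_distrib, ← Finset.mul_sum _ _ (2 / _), Finset.sum_const, card_univ,
    Fintype.card_fin, nsmul_eq_mul]
  have a3 : (n : ℝ) * (2 * (16 / (n : ℝ) ^ 4)) + 2 / (n - 1) ^ 2 * 27 ≤ 64 / (n : ℝ) ^ 2 := by
    have c1 : (n : ℝ) * (2 * (16 / (n : ℝ) ^ 4)) ≤ 2 / (n : ℝ) ^ 2 := by
      rw [show (n : ℝ) * (2 * (16 / (n : ℝ) ^ 4)) = 32 / n / (n : ℝ) ^ 2 by field_simp; norm_num]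
      exact div_le_div_of_nonneg_right (by rw [div_le_iff₀ (by linarith)]; linarith)
        (by positivity)
    have c2 : 2 / ((n : ℝ) - 1) ^ 2 * 27 ≤ 62 / (n : ℝ) ^ 2 := by
      rw [div_mul_eq_mul_div, div_le_div_iff₀ (pow_pos (by linarith) 2) (by positivity)]
      nlinarith
    have c3 : (64 : ℝ) / (n : ℝ) ^ 2 = 2 / (n : ℝ) ^ 2 + 62 / (n : ℝ) ^ 2 := by ring
    linarith
  have a4 := mul_le_mul_of_nonneg_left a1 (by positivity : 0 ≤ 2 / ((n : ℝ) - 1) ^ 2)
  nlinarith [mul_le_mul_of_nonneg_right a3 h0]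

/-- first level coefficients -/
noncomputable def y1 (S : Finset (X n)) (h : X n → ℝ) (i : Fin n) : ℝ := es S fun y => sg y i * h y

/-- the function with its first level removed -/
noncomputable def h0 (S : Finset (X n)) (h : X n → ℝ) (y : X n) : ℝ :=
  (if y ∈ S then h y else 0) - lf (y1 S h) y

theorem es_sg_lf (hn : 2 < n) (w : Fin n → ℝ) (i : Fin n) :
    (es (Ev n) fun y => sg y i * lf w y) = w i := by
  have : ∀ y : X n, sg y i * lf w y = ∑ j, w j * (sg y i * sg y j) := fun y => by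
    rw [lf, Finset.mul_sum]
    exact Finset.sum_congr rfl fun j _ => by ring
  simp only [this, es_sum, es_mul, es_pair hn]
  simp

theorem h0_one (hn : 2 < n) {S : Finset (X n)} (hS : S ⊆ Ev n) (h : X n → ℝ) (i : Fin n) :
    (es (Ev n) fun y => sg y i * h0 S h y) = 0 := by
  simp only [h0, mul_sub, es_sub, es_sg_lf hn, y1, es_ind hS, mul_ite, mul_zero, sub_self]

theorem h0_sq (hn : 2 < n) {S : Finset (X n)} (hS : S ⊆ Ev n) (h : X n → ℝ) :
    (es (Ev n) fun y => h0 S h y ^ 2) + rs (y1 S h) = es S fun y => h y ^ 2 := by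
  have e1 : ∀ y, (if y ∈ S then h y ^ 2 else 0) = h0 S h y ^ 2 + lf (y1 S h) y ^ 2 +
      2 * ∑ i, y1 S h i * (sg y i * h0 S h y) := fun y => by
    have : ∑ i, y1 S h i * (sg y i * h0 S h y) = lf (y1 S h) y * h0 S h y := by
      rw [lf, Finset.sum_mul]
      exact Finset.sum_congr rfl fun j _ => by ring
    rw [this, h0]
    split_ifs <;> ring
  rw [es_ind hS (fun y => h y ^ 2)]
  simp only [e1, es_add, es_mul, es_sum, h0_one hn hS, es_lf_sq hn]
  simp

theorem tn_sg_mul (h4 : 4 ∣ n) {S : Finset (X n)} (hS : S ⊆ Ev n) (h : X n → ℝ) {x : X n}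
    (hx : x ∈ Ev n) (i : Fin n) : (tn S x fun y => sg y i * h y) =
      (tn (Ev n) x fun y => sg y i * h0 S h y) + (1 + 1 / (n - 1)) * y1 S h i -
        sg x i * lf (y1 S h) x / (n - 1) := by
  have e1 : ∀ y, (if y ∈ S then sg y i * h y else 0) =
      sg y i * h0 S h y + ∑ j, y1 S h j * (sg y i * sg y j) := fun y => by
    have : ∑ j, y1 S h j * (sg y i * sg y j) = sg y i * lf (y1 S h) y := by
      rw [lf, Finset.mul_sum]
      exact Finset.sum_congr rfl fun j _ => by ring
    rw [this, h0]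
    split_ifs <;> ring
  rw [tn_ind hS]
  simp only [e1, tn_add, tn_sum, tn_mul, tn_pair h4 hx]
  have e2 : ∀ j, y1 S h j * ((if i = j then (1 : ℝ) else 0) -
      (sg x i * sg x j - if i = j then 1 else 0) / (n - 1)) =
      (if i = j then (1 + 1 / (n - 1)) * y1 S h j else 0) -
        sg x i * (y1 S h j * sg x j) / (n - 1) := fun j => by split_ifs <;> ring
  simp only [e2, Finset.sum_sub_distrib, Finset.sum_ite_eq, mem_univ, if_true, lf,
    Finset.mul_sum, Finset.sum_div]
  ring

theorem ct_fam [Fintype ι] (hn : 16 ≤ n) (h4 : 4 ∣ n) {S : Finset (X n)} (hS : S ⊆ Ev n)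
    (G : X n → Fin n → ι → ℝ) (h : ι → X n → ℝ)
    (hG : ∀ x ∈ S, ∑ a, ∑ i, G x i a * y1 S (h a) i = 0) :
    |ed S fun x y => ∑ a, ∑ i, G x i a * (sg y i * h a y)| ≤
      10 / n * √(es S fun y => ∑ a, h a y ^ 2) * (√(es S fun x => ∑ a, ∑ i, G x i a ^ 2) +
        √(es S fun x => ∑ a, (∑ i, G x i a * sg x i) ^ 2)) := by
  have hN : (16 : ℝ) ≤ n := by exact_mod_cast hn
  have e1 : (ed S fun x y => ∑ a, ∑ i, G x i a * (sg y i * h a y)) =
      (es S fun x => ∑ p : ι × Fin n, G x p.2 p.1 *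
        tn (Ev n) x fun y => sg y p.2 * h0 S (h p.1) y) -
      (es S fun x => ∑ a, (∑ i, G x i a * sg x i) * lf (y1 S (h a)) x) / (n - 1) := by
    rw [← es_div, ← es_sub]
    refine es_congr fun x hx => ?_
    have := hG x hx
    simp only [tn_sum, tn_mul, tn_sg_mul h4 hS _ (hS hx), Fintype.sum_prod_type, mul_sub, mul_add,
      Finset.sum_sub_distrib, Finset.sum_add_distrib, Finset.sum_mul, Finset.sum_div]
    have e2 : ∑ a, ∑ i, G x i a * ((1 + 1 / ((n : ℝ) - 1)) * y1 S (h a) i) = 0 := by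
      simp only [mul_left_comm (G x _ _), ← Finset.mul_sum, this, mul_zero]
    rw [e2, add_zero]
    congr 1
    exact Finset.sum_congr rfl fun a _ => Finset.sum_congr rfl fun i _ => by ring
  set H := es S fun y => ∑ a, h a y ^ 2 with hH
  have hH0 : 0 ≤ H := es_nonneg fun _ _ => by positivity
  have b1 : (es S fun x => ∑ p : ι × Fin n,
      (tn (Ev n) x fun y => sg y p.2 * h0 S (h p.1) y) ^ 2) ≤ (8 / n) ^ 2 * H := by
    refine (es_subset hS fun x _ => by positivity).trans ?_
    simp only [Fintype.sum_prod_type]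
    rw [es_sum, hH, es_sum, Finset.mul_sum]
    refine Finset.sum_le_sum fun a _ => (ct_zero hn h4 _ (h0_one (by omega) hS _)).trans ?_
    rw [div_pow, show (8 : ℝ) ^ 2 = 64 by norm_num]
    refine mul_le_mul_of_nonneg_left ?_ (by positivity)
    linarith [h0_sq (by omega) hS (h a), rs_nonneg (y1 S (h a))]
  have b2 : (es S fun x => ∑ a, lf (y1 S (h a)) x ^ 2) ≤ H := by
    refine (es_subset hS fun x _ => by positivity).trans ?_
    rw [es_sum, hH, es_sum]
    refine Finset.sum_le_sum fun a _ => ?_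
    rw [es_lf_sq (by omega)]
    have : 0 ≤ es (Ev n) fun y => h0 S (h a) y ^ 2 := es_nonneg fun _ _ => sq_nonneg _
    linarith [h0_sq (by omega) hS (h a)]
  have c1 := le_sqrt_mul ((es_cs_sum S (fun x (p : ι × Fin n) => G x p.2 p.1) fun x p =>
    tn (Ev n) x fun y => sg y p.2 * h0 S (h p.1) y).trans (mul_le_mul_of_nonneg_left b1
      (es_nonneg fun _ _ => by positivity))) (es_nonneg fun _ _ => by positivity)
  have c2 := le_sqrt_mul ((es_cs_sum S (fun x a => ∑ i, G x i a * sg x i) fun x a =>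
    lf (y1 S (h a)) x).trans (mul_le_mul_of_nonneg_left b2
      (es_nonneg fun _ _ => by positivity))) (es_nonneg fun _ _ => by positivity)
  rw [Real.sqrt_mul (by positivity), Real.sqrt_sq (by positivity)] at c1
  simp only [Fintype.sum_prod_type] at c1 e1
  rw [e1]
  refine (abs_sub _ _).trans ?_
  rw [abs_div, abs_of_pos (by linarith : (0 : ℝ) < n - 1)]
  have c3 : (1 : ℝ) / (n - 1) ≤ 10 / n := by
    rw [div_le_div_iff₀ (by linarith) (by linarith)]
    linarith
  have c4 : (8 : ℝ) / n ≤ 10 / n := div_le_div_of_nonneg_right (by norm_num) (by linarith)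
  set A := √(es S fun x => ∑ a, ∑ i, G x i a ^ 2)
  set B := √(es S fun x => ∑ a, (∑ i, G x i a * sg x i) ^ 2)
  have hA : 0 ≤ A * √H := by positivity
  have hB : 0 ≤ B * √H := by positivity
  have c5 := mul_le_mul c2 c3 (div_nonneg zero_le_one (by linarith)) hB
  rw [mul_one_div] at c5
  nlinarith [mul_le_mul_of_nonneg_left c4 hA]

theorem st_CT : CT := by
  intro n κ _ S g k h b hn h4 hS hb hk hY
  have H := ct_fam hn h4 hS
    (fun x i (p : κ × Bool) => if p.2 then (g x i * conj (k x p.1)).re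
      else -(g x i * conj (k x p.1)).im)
    (fun p y => if p.2 then (h y p.1).re else (h y p.1).im) fun x hx => by
      simp only [Fintype.sum_prod_type, Fintype.sum_bool, if_true, Bool.false_eq_true, if_false]
      refine Finset.sum_eq_zero fun c _ => ?_
      have h1 := congrArg (fun z => (conj (k x c) * z).re) (hY x hx c)
      simp only [Finset.mul_sum, mul_zero, Complex.re_sum, zero_re] at h1
      rw [← Finset.sum_add_distrib, ← h1]
      refine Finset.sum_congr rfl fun i _ => ?_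
      rw [← mul_assoc, mul_comm (conj (k x c)), mul_re (g x i * conj (k x c)), ec_re, ec_im]
      simp only [y1, re_ofReal_mul, im_ofReal_mul]
      ring
  simp only [Fintype.sum_prod_type, Fintype.sum_bool, if_true, Bool.false_eq_true, if_false] at H
  have e1 : ∀ x y, ((∑ i, g x i * sg y i) * ip (k x) (h y)).re =
      ∑ c, (∑ i, (g x i * conj (k x c)).re * (sg y i * (h y c).re) +
        ∑ i, -(g x i * conj (k x c)).im * (sg y i * (h y c).im)) := fun x y => by
    rw [ip, Finset.mul_sum, Complex.re_sum]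
    refine Finset.sum_congr rfl fun c _ => ?_
    rw [Finset.sum_mul, Complex.re_sum, ← Finset.sum_add_distrib]
    refine Finset.sum_congr rfl fun i _ => ?_
    rw [show g x i * sg y i * (conj (k x c) * h y c) = sg y i * (g x i * conj (k x c) * h y c) by
      ring, re_ofReal_mul, mul_re (g x i * conj (k x c))]
    ring
  have e2 : ∀ y, ∑ c, ((h y c).re ^ 2 + (h y c).im ^ 2) = ns (h y) := fun y => by
    simp only [ns, normSq_apply, sq]
  have e3 : (es S fun x => ∑ c, (∑ i, (g x i * conj (k x c)).re ^ 2 +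
      ∑ i, (-(g x i * conj (k x c)).im) ^ 2)) ≤ b * es S fun x => ns (g x) := by
    rw [← es_mul]
    refine es_mono fun x hx => ?_
    refine le_trans (le_of_eq ?_) (mul_le_mul_of_nonneg_right (hk x hx) (ns_nonneg _))
    rw [ns, ns, Finset.sum_mul_sum]
    refine Finset.sum_congr rfl fun c _ => ?_
    rw [← Finset.sum_add_distrib]
    refine Finset.sum_congr rfl fun i _ => ?_
    rw [← normSq_conj (k x c), ← map_mul, mul_comm (conj (k x c)), normSq_apply]
    ring
  have e4 : (es S fun x => ∑ c, ((∑ i, (g x i * conj (k x c)).re * sg x i) ^ 2 +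
      (∑ i, -(g x i * conj (k x c)).im * sg x i) ^ 2)) ≤
      b * es S fun x => normSq (∑ i, g x i * sg x i) := by
    rw [← es_mul]
    refine es_mono fun x hx => ?_
    refine le_trans (le_of_eq ?_) (mul_le_mul_of_nonneg_right (hk x hx) (normSq_nonneg _))
    rw [ns, Finset.sum_mul]
    refine Finset.sum_congr rfl fun c _ => ?_
    rw [← normSq_conj (k x c), ← map_mul, Finset.mul_sum]
    have : ∀ i, conj (k x c) * (g x i * sg x i) = g x i * conj (k x c) * sg x i := fun i => by ring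
    simp only [this, normSq_lin, lf, neg_mul, Finset.sum_neg_distrib, neg_sq]
  simp only [e1]
  simp only [e2] at H
  refine H.trans ?_
  have f3 := Real.sqrt_le_sqrt e3
  have f4 := Real.sqrt_le_sqrt e4
  rw [Real.sqrt_mul hb] at f3 f4
  exact (mul_le_mul_of_nonneg_left (add_le_add f3 f4) (by positivity)).trans (le_of_eq (by ring))

/-- corrected second level coefficients of the neighbour covariance -/
noncomputable def cp (S : Finset (X n)) (a b i j : Fin n) : ℝ :=
  c2 S (fun y => sg y a * sg y b) i j -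
    mu S * if i = j then 0 else if ({i, j} : Finset (Fin n)) = {a, b} then 1 else 0

theorem cp_sq_le (S : Finset (X n)) (a b i j : Fin n) : cp S a b i j ^ 2 ≤
    (if a = b then c2 S (fun _ => 1) i j ^ 2 else 0) +
    (if a = i then c2 S (fun _ => 1) b j ^ 2 else 0) +
    (if a = j then c2 S (fun _ => 1) b i ^ 2 else 0) +
    (if b = i then c2 S (fun _ => 1) a j ^ 2 else 0) +
    (if b = j then c2 S (fun _ => 1) a i ^ 2 else 0) +
    if Dis a b i j then (es S fun y => ch {a, b, i, j} y * 1) ^ 2 else 0 := by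
  have p : ∀ (c : Prop) [Decidable c] (r : ℝ), 0 ≤ if c then r ^ 2 else 0 := fun c _ r => by
    split_ifs
    · exact sq_nonneg _
    · exact le_rfl
  have p1 := p (a = b) (c2 S (fun _ => 1) i j)
  have p2 := p (a = i) (c2 S (fun _ => 1) b j)
  have p3 := p (a = j) (c2 S (fun _ => 1) b i)
  have p4 := p (b = i) (c2 S (fun _ => 1) a j)
  have p5 := p (b = j) (c2 S (fun _ => 1) a i)
  have p6 := p (Dis a b i j) (es S fun y => ch {a, b, i, j} y * 1)
  by_cases h : i = j
  · have : cp S a b i j = 0 := by simp [cp, c2, h]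
    rw [this]
    linarith
  by_cases h' : ({i, j} : Finset (Fin n)) = {a, b}
  · have hab : a ≠ b := by
      rintro rfl
      have := congrArg Finset.card h'
      rw [Finset.card_pair h] at this
      simp at this
    have : cp S a b i j = 0 := by
      rw [cp, c2, if_neg h, if_neg h, if_pos h', mul_one, mu_eq_es, sub_eq_zero]
      exact es_congr fun y _ => by rw [← ch_pair h, ← ch_pair hab, h', ch_sq]
    rw [this]
    linarith
  have e : cp S a b i j = es S fun y => sg y i * sg y j * (sg y a * sg y b) := by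
    rw [cp, c2, if_neg h, if_neg h, if_neg h', mul_zero, sub_zero]
  by_cases q1 : a = b
  · have : cp S a b i j = c2 S (fun _ => 1) i j := by
      rw [e, c2, if_neg h, q1]
      exact es_congr fun y _ => by rw [sg_sq]
    rw [this, if_pos q1]
    linarith
  by_cases q2 : a = i
  · have hb : b ≠ j := by
      rintro rfl
      exact h' (by rw [q2])
    have : cp S a b i j = c2 S (fun _ => 1) b j := by
      rw [e, c2, if_neg hb, q2]
      exact es_congr fun y _ => by linear_combination sg y b * sg y j * sg_sq y i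
    rw [this, if_pos q2]
    linarith
  by_cases q3 : a = j
  · have hb : b ≠ i := by
      rintro rfl
      exact h' (by rw [q3, Finset.pair_comm])
    have : cp S a b i j = c2 S (fun _ => 1) b i := by
      rw [e, c2, if_neg hb, q3]
      exact es_congr fun y _ => by linear_combination sg y b * sg y i * sg_sq y j
    rw [this, if_pos q3]
    linarith
  by_cases q4 : b = i
  · have : cp S a b i j = c2 S (fun _ => 1) a j := by
      rw [e, c2, if_neg q3, q4]
      exact es_congr fun y _ => by linear_combination sg y a * sg y j * sg_sq y i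
    rw [this, if_pos q4]
    linarith
  by_cases q5 : b = j
  · have : cp S a b i j = c2 S (fun _ => 1) a i := by
      rw [e, c2, if_neg q2, q5]
      exact es_congr fun y _ => by linear_combination sg y a * sg y i * sg_sq y j
    rw [this, if_pos q5]
    linarith
  have hD : Dis a b i j := ⟨q1, h, q2, q3, q4, q5⟩
  have : cp S a b i j = es S fun y => ch {a, b, i, j} y * 1 := by
    rw [e]
    exact es_congr fun y _ => by rw [ch_four hD]; ring
  rw [this, if_pos hD]
  linarith

theorem sum_cp (hn : 16 ≤ n) {S : Finset (X n)} (hS : S ⊆ Ev n) :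
    ∑ a, ∑ b, ∑ i, ∑ j, cp S a b i j ^ 2 ≤ 36 * n := by
  have hN : (16 : ℝ) ≤ n := by exact_mod_cast hn
  have hm : (es S fun _ => (1 : ℝ) ^ 2) ≤ 1 := by simpa [es_const] using mu_le_one hS
  have h1 := sum_c2_le (by omega) hS fun _ => 1
  have h2 := bes (by omega) hS (univ.filter fun t : Fin n × Fin n × Fin n × Fin n =>
      Dis t.1 t.2.1 t.2.2.1 t.2.2.2) (fun t => {t.1, t.2.1, t.2.2.1, t.2.2.2})
      (fun _ _ => Finset.card_le_four) (fiber4 _) fun _ => 1
  rw [Finset.sum_filter] at h2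
  simp only [Fintype.sum_prod_type] at h2
  refine (Finset.sum_le_sum fun a _ => Finset.sum_le_sum fun b _ => Finset.sum_le_sum fun i _ =>
    Finset.sum_le_sum fun j _ => cp_sq_le S a b i j).trans ?_
  set e : Fin n → Fin n → ℝ := fun i j => c2 S (fun _ => 1) i j ^ 2 with he
  have s1 : ∑ a : Fin n, ∑ b : Fin n, ∑ i, ∑ j, (if a = b then e i j else 0) =
      n * ∑ i, ∑ j, e i j := by simp
  have s2 : ∑ a : Fin n, ∑ b, ∑ i : Fin n, ∑ j, (if a = i then e b j else 0) =
      n * ∑ i, ∑ j, e i j := by simp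
  have s3 : ∑ a : Fin n, ∑ b, ∑ i, ∑ j : Fin n, (if a = j then e b i else 0) =
      n * ∑ i, ∑ j, e i j := by simp
  have s4 : ∑ a, ∑ b : Fin n, ∑ i : Fin n, ∑ j, (if b = i then e a j else 0) =
      n * ∑ i, ∑ j, e i j := by simp [Finset.mul_sum]
  have s5 : ∑ a, ∑ b : Fin n, ∑ i, ∑ j : Fin n, (if b = j then e a i else 0) =
      n * ∑ i, ∑ j, e i j := by simp [Finset.mul_sum]
  simp only [he] at s1 s2 s3 s4 s5
  simp only [Finset.sum_add_distrib, s1, s2, s3, s4, s5]
  push_cast at h2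
  nlinarith

theorem st_ERR : ERR := by
  intro n S σ hn h4 hS h0 h1
  have hN : (16 : ℝ) ≤ n := by exact_mod_cast hn
  set Gp : Fin n × Fin n → X n → ℝ := fun p x =>
    1 / 2 * ∑ i, ∑ j, cp S p.1 p.2 i j * (sg x i * sg x j) with hGp
  set R : Fin n × Fin n → X n → ℝ := fun p x => tn S x (fun y => sg y p.1 * sg y p.2) -
    es S (fun y => sg y p.1 * sg y p.2) + q2 S (fun y => sg y p.1 * sg y p.2) x / (n - 1) with hR
  have e1 : ∀ x a b, er S x a b = R (a, b) x - Gp (a, b) x / (n - 1) := fun x a b => by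
    have h := pair_sum {a, b} x
    have h' : (if ({a, b} : Finset (Fin n)).card = 2 then ch {a, b} x else 0) =
        sg x a * sg x b - if a = b then 1 else 0 := by
      by_cases hab : a = b
      · simp [hab, sg_sq]
      · rw [if_pos (Finset.card_pair hab), if_neg hab, ch_pair hab, sub_zero]
    simp only [er, hR, hGp, cp, q2, sub_mul, Finset.sum_sub_distrib, mul_assoc (mu S),
      ← Finset.mul_sum, mul_sub (1 / 2 : ℝ), mul_left_comm (1 / 2 : ℝ) (mu S), h, h']
    ring
  have hq : ∀ p : Fin n × Fin n, Gp p ∈ V univ 2 ∧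
      𝔼 x, Gp p x ^ 2 ≤ ∑ i, ∑ j, cp S p.1 p.2 i j ^ 2 := fun p => by
    have h := quad (cp S p.1 p.2) fun j => by simp [cp, c2]
    refine ⟨Submodule.smul_mem _ (1 / 2 : ℝ) h.1, ?_⟩
    simp only [hGp, mul_pow, ← Finset.mul_expect]
    linarith [h.2]
  have b1 : ∑ p, 𝔼 x, Gp p x ^ 2 ≤ 36 * n := (Finset.sum_le_sum fun p _ => (hq p).2).trans (by
    rw [Fintype.sum_prod_type]; exact sum_cp hn hS)
  have b2 := (es_le_ex (by omega) (Ev n) fun x => sq_nonneg (∑ p, Gp p x ^ 2)).trans
    (mul_le_mul_of_nonneg_left ((bonami_vec Gp fun p => (hq p).1).trans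
      (mul_le_mul_of_nonneg_left (pow_le_pow_left₀ (Finset.sum_nonneg fun p _ =>
        Finset.expect_nonneg fun _ _ => sq_nonneg _) b1 2) (by positivity))) zero_le_two)
  have b3 : (es (Ev n) fun x => ∑ p, R p x ^ 2) ≤ 16 / (n : ℝ) ^ 2 := by
    rw [es_sum]
    refine (Finset.sum_le_sum (g := fun _ => 16 / (n : ℝ) ^ 4) fun p _ =>
      (st_SPEC n S _ hn h4 hS).trans ?_).trans (le_of_eq ?_)
    · refine mul_le_of_le_one_right (by positivity) ((es_le_mul (c := 1) fun y _ => ?_).trans ?_)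
      · rw [mul_pow, sq, sq, sg_sq, sg_sq, mul_one]
      · simpa using mu_le_one hS
    · simp only [Finset.sum_const, card_univ, Fintype.card_prod, Fintype.card_fin, nsmul_eq_mul]
      push_cast
      field_simp
  have hn1 : (0 : ℝ) < n - 1 := by linarith
  have b4 : ∀ x, (if σ ^ 2 ≤ fe S x then fe S x else 0) ≤
      16 / (σ ^ 2 * (n - 1) ^ 4) * (∑ p, Gp p x ^ 2) ^ 2 + 4 * ∑ p, R p x ^ 2 := fun x => by
    have c0 : 0 ≤ ∑ p, R p x ^ 2 := by positivity
    set A := (∑ p, Gp p x ^ 2) / ((n : ℝ) - 1) ^ 2 with hA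
    have c1 : fe S x ≤ 2 * A + 2 * ∑ p, R p x ^ 2 := by
      rw [fe, ← Fintype.sum_prod_type', hA, Finset.sum_div, Finset.mul_sum, Finset.mul_sum,
        ← Finset.sum_add_distrib]
      refine Finset.sum_le_sum fun p _ => ?_
      rw [e1, ← div_pow]
      nlinarith [sq_nonneg (R p x + Gp p x / (n - 1))]
    have c2 : 16 / (σ ^ 2 * ((n : ℝ) - 1) ^ 4) * (∑ p, Gp p x ^ 2) ^ 2 = 16 * A ^ 2 / σ ^ 2 := by
      rw [hA]; field_simp
    have c3 : 0 ≤ A := by positivity
    rw [c2]
    split_ifs with h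
    · by_cases h5 : A ≤ ∑ p, R p x ^ 2
      · have : 0 ≤ 16 * A ^ 2 / σ ^ 2 := by positivity
        linarith
      · have : 4 * A ≤ 16 * A ^ 2 / σ ^ 2 := by
          rw [le_div_iff₀ (by positivity)]
          nlinarith
        linarith
    · positivity
  rw [es_filter]
  refine (es_mono fun x _ => b4 x).trans ?_
  rw [es_add, es_mul, es_mul]
  have d1 : 16 / (σ ^ 2 * ((n : ℝ) - 1) ^ 4) * (2 * (9 ^ 2 * (36 * n) ^ 2)) ≤
      9 * 10 ^ 6 / (σ ^ 2 * (n : ℝ) ^ 2) := by
    rw [div_mul_eq_mul_div, div_le_div_iff₀ (by positivity) (by positivity)]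
    have d2 : (n : ℝ) ^ 4 ≤ (16 / 15 * (n - 1)) ^ 4 :=
      pow_le_pow_left₀ (by linarith) (by linarith) 4
    nlinarith [mul_le_mul_of_nonneg_left d2 (sq_nonneg σ), mul_pos (pow_pos h0 2) (pow_pos hn1 4)]
  have d3 : 4 * (16 / (n : ℝ) ^ 2) ≤ 10 ^ 6 / (σ ^ 2 * (n : ℝ) ^ 2) := by
    rw [mul_div_assoc', div_le_div_iff₀ (by positivity) (by positivity)]
    have : σ ^ 2 ≤ 1 := pow_le_one₀ h0.le h1
    nlinarith [mul_le_mul_of_nonneg_right this (sq_nonneg (n : ℝ)), sq_nonneg (n : ℝ)]
  have d4 := mul_le_mul_of_nonneg_left b2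
    (by positivity : 0 ≤ 16 / (σ ^ 2 * ((n : ℝ) - 1) ^ 4))
  have d5 : (10 : ℝ) ^ 7 / (σ ^ 2 * (n : ℝ) ^ 2) =
      9 * 10 ^ 6 / (σ ^ 2 * (n : ℝ) ^ 2) + 10 ^ 6 / (σ ^ 2 * (n : ℝ) ^ 2) := by ring
  linarith

end Pool.Agent.Lib.QE
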