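import Pool.Agent.Lib.QE.B_CT

/-! Almost degenerate and almost extremal sets are almost merged subcubes. -/

namespace Pool.Agent.Lib.QE

open Finset Matrix Complex Pool.Agent.Lib.MP_5d53d3_co
open scoped BigOperators ComplexConjugate

variable {n : ℕ}

namespace CUBEh

theorem den_le {A B C : Finset (X n)} (h : ∀ x ∈ A, x ∈ B ∨ x ∈ C) : den A ≤ den B + den C := by
  unfold den
  rw [← Finset.expect_add_distrib]
  refine Finset.expect_le_expect fun x _ => ?_
  have h1 := ind_nonneg B x
  have h2 := ind_nonneg C x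
  by_cases hx : x ∈ A
  · rcases h x hx with h | h <;> simp only [ind, hx, h, if_true] at h1 h2 ⊢ <;> linarith
  · simp only [ind, hx, if_false] at h1 h2 ⊢; linarith

theorem den_mono {A B : Finset (X n)} (h : ∀ x ∈ A, x ∈ B) : den A ≤ den B := by
  have h1 := den_le (C := ∅) fun x hx => Or.inl (h x hx)
  have h2 : den (∅ : Finset (X n)) = 0 := by simp [den, ind]
  linarith

theorem fl_fl (i : Fin n) (x : X n) : x * fl i * fl i = x := by
  funext j
  by_cases h : j = i
  · subst h; simp [fl]
  · simp [fl, h]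

theorem fl_ne {i j : Fin n} (h : j ≠ i) (x : X n) : (x * fl i) j = x j := by simp [fl, h]

/-- the union of a set and its flip -/
def db (i : Fin n) (B : Finset (X n)) : Finset (X n) := univ.filter fun x => x ∈ B ∨ x * fl i ∈ B

theorem dbl {B W : Finset (X n)} {i : Fin n} (hd : ∀ x ∈ B, x * fl i ∉ B)
    (hW : ∀ x ∈ W, x * fl i ∈ W) : den (db i B ∩ W) = 2 * den (B ∩ W) := by
  have h1 : 𝔼 x, ind (B ∩ W) (x * fl i) = 𝔼 x, ind (B ∩ W) x :=
    Fintype.expect_equiv (Equiv.mulRight (fl i)) _ _ fun _ => rfl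
  have h2 : ∀ x, x * fl i ∈ W ↔ x ∈ W := fun x => ⟨fun h => fl_fl i x ▸ hW _ h, hW x⟩
  unfold den
  rw [two_mul]
  nth_rewrite 2 [← h1]
  rw [← Finset.expect_add_distrib]
  refine Finset.expect_congr rfl fun x _ => ?_
  by_cases a : x ∈ B
  · have := hd x a
    by_cases b : x ∈ W <;> simp [ind, db, a, b, this]
  · by_cases b : x ∈ W <;> simp [ind, db, a, b, h2]

theorem push (hM : MG0) {t : ℕ} {r : Fin n → Fin n} {e : X n} (h : Mg t r e)
    {A C : Finset (X n)} (hA : ∀ x, x ∈ C ↔ ph r e x ∈ A) : den C = 2 ^ t * den (A ∩ Wc r e) := by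
  have h1 := hM n t r e (ind A) h
  have h2 : ∀ x, ind A (ph r e x) = ind C x := fun x => by simp [ind, hA]
  have h3 : ∀ x, ind (Wc r e) x * ind A x = ind (A ∩ Wc r e) x := fun x => by
    by_cases a : x ∈ A <;> by_cases b : x ∈ Wc r e <;> simp [ind, a, b]
  simp only [h2, h3] at h1
  exact h1

theorem lf_ph (r : Fin n → Fin n) (e : X n) (c : Fin n → ℝ) (x : X n) :
    lf c (ph r e x) = lf (pull r e c) x := by
  simp only [lf, pull, Finset.sum_mul]
  rw [← Finset.sum_fiberwise univ r]
  refine Finset.sum_congr rfl fun i _ => Finset.sum_congr rfl fun j hj => ?_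
  rw [← (Finset.mem_filter.1 hj).2]
  simp [sg, ph, mul_assoc]

theorem mem_Wc {r : Fin n → Fin n} {e x : X n} : x ∈ Wc r e ↔ ∀ j, e j * x (r j) = x j := by
  simp [Wc, ph, funext_iff]

theorem diag {p : Matrix (Fin n) (Fin n) ℝ} (h : Proj p) (k : Fin n) :
    ∑ j, p k j ^ 2 = p k k := by
  nth_rewrite 2 [← h.2]
  rw [Matrix.mul_apply]
  exact Finset.sum_congr rfl fun j _ => by rw [sq, h.symm j k]

/-- removing the direction of the heaviest column -/
theorem peel {p : Matrix (Fin n) (Fin n) ℝ} (h : Proj p) (h0 : 0 < p.trace) :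
    ∃ (i : Fin n) (w : Fin n → ℝ) (q : Matrix (Fin n) (Fin n) ℝ), 0 < w i ∧ rs w = 1 ∧
      (∀ k, |w k| ≤ w i) ∧ (∀ k, p k k = 0 → w k = 0 ∧ q k k = 0) ∧ Proj q ∧
      q.trace = p.trace - 1 ∧ (∀ k, q k i = 0) ∧
      ∀ x, rs (q *ᵥ sg x) + lf w x ^ 2 = rs (p *ᵥ sg x) := by
  have hn : (univ : Finset (Fin n)).Nonempty := by
    by_contra c
    rw [Finset.not_nonempty_iff_eq_empty] at c
    simp [Matrix.trace, c] at h0
  obtain ⟨i, -, hi⟩ := Finset.exists_max_image univ (fun k => p k k) hn
  have hp : 0 < p i i := by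
    by_contra c
    exact absurd (Finset.sum_nonpos fun k hk => (hi k hk).trans (not_lt.1 c)) (not_le.2 h0)
  obtain ⟨θ, hθ, e⟩ : ∃ θ : ℝ, 0 < θ ∧ θ ^ 2 = p i i :=
    ⟨√(p i i), Real.sqrt_pos.2 hp, Real.sq_sqrt hp.le⟩
  set w : Fin n → ℝ := fun k => p k i / θ with hw
  have wi : w i = θ := by simp only [hw]; rw [← e]; field_simp
  have w1 : rs w = 1 := by
    simp only [rs, hw, div_pow]
    rw [← Finset.sum_div, e, div_eq_one_iff_eq hp.ne', ← diag h i]
    exact Finset.sum_congr rfl fun k _ => by rw [h.symm k i]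
  have pw : p *ᵥ w = w := by
    funext k
    have := congrFun (congrFun h.2 k) i
    rw [Matrix.mul_apply] at this
    simp only [Matrix.mulVec, dotProduct, hw, ← mul_div_assoc]
    rw [← Finset.sum_div, this]
  have wk : ∀ k, w k ^ 2 ≤ p k k := fun k => by
    have h1 := Finset.sum_mul_sq_le_sq_mul_sq univ (fun j => p k j) w
    have h2 : ∑ j, p k j * w j = w k := congrFun pw k
    have h3 : ∑ j, w j ^ 2 = 1 := w1
    rwa [h2, h3, diag h, mul_one] at h1
  have ww : ∑ j, w j * w j = 1 := by simpa only [rs, sq] using w1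
  have wp : ∀ k, ∑ j, w j * p j k = w k := fun k => by
    rw [← congrFun pw k]
    exact Finset.sum_congr rfl fun j _ => by rw [h.symm j k, mul_comm]
  refine ⟨i, w, p - vecMulVec w w, wi ▸ hθ, w1, fun k => ?_, fun k hk => ?_, ⟨?_, ?_⟩, ?_,
    fun k => ?_, fun x => ?_⟩
  · rw [wi]
    exact abs_le_of_sq_le_sq ((wk k).trans (e ▸ hi k (mem_univ k))) hθ.le
  · have : w k = 0 := pow_eq_zero_iff two_ne_zero |>.1 (le_antisymm (hk ▸ wk k) (sq_nonneg _))
    simp [this, hk, vecMulVec_apply]
  · ext a b
    simp [vecMulVec_apply, h.symm a b, mul_comm]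
  · ext a b
    have h1 := congrFun (congrFun h.2 a) b
    have h2 : ∑ j, p a j * w j = w a := congrFun pw a
    rw [Matrix.mul_apply] at h1 ⊢
    simp only [Matrix.sub_apply, vecMulVec_apply]
    have : ∀ j, (p a j - w a * w j) * (p j b - w j * w b) =
        p a j * p j b - p a j * w j * w b - w a * (w j * p j b) + w a * w b * (w j * w j) :=
      fun j => by ring
    simp only [this, Finset.sum_add_distrib, Finset.sum_sub_distrib, ← Finset.sum_mul,
      ← Finset.mul_sum, h1, h2, wp, ww]
    ring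
  · rw [Matrix.trace_sub, Matrix.trace_vecMulVec, dotProduct, ww]
  · simp only [Matrix.sub_apply, vecMulVec_apply, wi]
    simp only [hw]
    field_simp
    ring
  · have h1 : ∀ k, ((p - vecMulVec w w) *ᵥ sg x) k = (p *ᵥ sg x) k - w k * lf w x := fun k => by
      simp only [Matrix.mulVec, dotProduct, Matrix.sub_apply, vecMulVec_apply, lf, sub_mul,
        Finset.sum_sub_distrib, Finset.mul_sum, mul_assoc]
    have h2 : ∑ k, (p *ᵥ sg x) k * w k = lf w x := by
      rw [h.dot, pw]
      exact Finset.sum_congr rfl fun k _ => mul_comm _ _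
    have h3 : ∀ k, ((p *ᵥ sg x) k - w k * lf w x) ^ 2 = (p *ᵥ sg x) k ^ 2 -
        2 * lf w x * ((p *ᵥ sg x) k * w k) + lf w x ^ 2 * (w k * w k) := fun k => by ring
    simp only [rs, h1, h3, Finset.sum_add_distrib, Finset.sum_sub_distrib, ← Finset.mul_sum, h2, ww]
    ring

theorem sgn (d : ℝ) (hd : 9 / 10 ≤ |d|) : ∃ s : ℤˣ, ∀ a b : ℤˣ,
    |((a : ℤ) : ℝ) - d * ((b : ℤ) : ℝ)| < 1 / 2 → s * b = a := by
  rcases le_abs.1 hd with h | h
  · refine ⟨1, fun a b c => ?_⟩
    rw [abs_lt] at c
    rcases Int.units_eq_one_or a with rfl | rfl <;> rcases Int.units_eq_one_or b with rfl | rfl <;>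
      simp at c ⊢ <;> linarith [c.1, c.2]
  · refine ⟨-1, fun a b c => ?_⟩
    rw [abs_lt] at c
    rcases Int.units_eq_one_or a with rfl | rfl <;> rcases Int.units_eq_one_or b with rfl | rfl <;>
      simp at c ⊢ <;> linarith [c.1, c.2]

theorem upd {t : ℕ} {r : Fin n → Fin n} {e : X n} (h : Mg t r e) {i i' : Fin n}
    (hi : ∀ j, r j = i ↔ j = i) (h1 : r i' = i') (h2 : i' ≠ i) (s : ℤˣ) :
    Mg (t + 1) (Function.update r i i') (Function.update e i s) := by
  refine ⟨?_, fun j => ?_, fun j hj => ?_⟩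
  · rw [← h.card, ← Finset.card_insert_of_notMem (a := i) (by simp [hi])]
    congr 1
    ext j
    by_cases c : j = i
    · subst c; simp [h2]
    · simp [c]
  · by_cases c : j = i
    · subst c; simp [h2, h1]
    · have := mt (hi j).1 c
      simp [c, this, h.idem]
  · by_cases c : j = i
    · subst c; simp [h2] at hj
    · simp only [Function.update_of_ne c] at hj ⊢
      exact h.one j hj

end CUBEh

open CUBEh in
theorem st_CUBE (h1 : FEJ) (h2 : FKN) (h3 : MG0) : CUBE := by
  intro n η δ γ t
  induction t with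
  | zero =>
    intro p B _ _ _ _ _ _ _ _ _ hB
    refine ⟨id, 1, ⟨by simp, fun _ => rfl, fun _ _ => rfl⟩, fun _ _ _ => Iff.rfl, ?_⟩
    have := den_mono (A := B) (B := B ∩ Wc id 1) fun x hx => by simp [hx, mem_Wc]
    simpa using hB.trans this
  | succ t ih =>
    intro p B hη hη1 hδ hγ hγ1 hs hp htr hB hd
    have t2 : (0 : ℝ) < 2 ^ t := by positivity
    have t1 : (1 : ℝ) ≤ 2 ^ t := one_le_pow₀ one_le_two
    have g0 : 0 ≤ (t : ℝ) * (400 * γ ^ 2) := by positivity
    have g1 : 0 ≤ 400 * γ ^ 2 := by positivity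
    push_cast at hs htr ⊢
    rw [pow_succ, pow_succ] at hη1
    rw [pow_succ, div_le_iff₀ (by positivity)] at hd
    obtain ⟨i, w, q, wi, w1, wk, w0, hq, qt, qi, hx⟩ := peel hp (by rw [htr]; positivity)
    have a0 : 0 < η ^ 2 / 100 := by positivity
    have hl : ∀ x ∈ B, |lf w x| ≤ η ^ 2 / 100 * γ := fun x h =>
      abs_le_of_sq_le_sq (by linarith [hx x, hB x h, rs_nonneg (q *ᵥ sg x)]) (by positivity)
    have hθ : η ^ 2 / 100 < w i := by
      by_contra c
      have h4 := h1 n w η hη (by nlinarith) w1 fun k => (wk k).trans (not_lt.1 c)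
      have h5 := (den_mono (A := B) fun x h => by
        simp only [Finset.mem_filter, mem_univ, true_and]
        exact (hl x h).trans (by nlinarith)).trans h4
      nlinarith
    set c : Fin n → ℝ := fun k => if k = i then 0 else -(w k / w i) with hc
    have cl : ∀ x, lf c x = sg x i - lf w x / w i := fun x => by
      have : ∀ k, c k * sg x k = (if k = i then sg x k else 0) - w k * sg x k / w i := fun k => by
        by_cases h : k = i
        · subst h; simp only [hc, if_true]; field_simp; ring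
        · simp only [hc, h, if_false]; ring
      simp only [lf, this, Finset.sum_sub_distrib, Finset.sum_ite_eq', mem_univ, if_true,
        Finset.sum_div]
    have cf : ∀ x, lf c (x * fl i) = lf c x := fun x => Finset.sum_congr rfl fun k _ => by
      by_cases h : k = i
      · simp [hc, h]
      · simp only [sg, fl_ne h]
    have cB : ∀ x ∈ B, |sg x i - lf c x| ≤ γ := fun x h => by
      rw [cl, sub_sub_cancel, abs_div, abs_of_pos wi, div_le_iff₀ wi]
      exact (hl x h).trans (by nlinarith)
    have dj : ∀ x ∈ B, x * fl i ∉ B := fun x h h' => by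
      have h4 := abs_le.1 (cB x h)
      have h5 := abs_le.1 (cB _ h')
      rw [cf, sg_mul, sg_fl, if_pos rfl] at h5
      rcases sg_cases x i with e | e <;> rw [e] at h4 h5 <;> linarith [h4.1, h4.2, h5.1, h5.2]
    have qf : ∀ x, q *ᵥ sg (x * fl i) = q *ᵥ sg x := fun x => by
      funext k
      simp only [Matrix.mulVec, dotProduct]
      refine Finset.sum_congr rfl fun j _ => ?_
      by_cases h : j = i
      · simp [h, qi]
      · simp only [sg, fl_ne h]
    have qB : ∀ x ∈ B, rs (q *ᵥ sg x) ≤ (η ^ 2 / 100 * γ) ^ 2 := fun x h => by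
      linarith [hx x, hB x h, sq_nonneg (lf w x)]
    have c1 : ∀ x ∈ B, |lf c x ^ 2 - 1| ≤ 3 * γ := fun x h => by
      have h4 := abs_le.1 (cB x h)
      rcases sg_cases x i with e | e <;> rw [e] at h4 <;> rw [abs_le] <;> constructor <;>
        nlinarith [h4.1, h4.2]
    obtain ⟨r, e, hM, hr, hW⟩ := ih q (db i B) hη (by rw [pow_succ]; nlinarith) hδ hγ hγ1
      (by linarith) hq (by rw [qt, htr]; ring)
      (fun x h => by
        rcases (Finset.mem_filter.1 h).2 with h | h
        · exact qB x h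
        · exact qf x ▸ qB _ h)
      (by
        have := dbl (W := univ) dj fun _ _ => mem_univ _
        rw [Finset.inter_univ, Finset.inter_univ] at this
        rw [this, div_le_iff₀ t2]
        linarith)
    have ri := hr i (qi i)
    have Wf : ∀ x ∈ Wc r e, x * fl i ∈ Wc r e := fun x h => mem_Wc.2 fun j => by
      by_cases hj : j = i
      · subst hj
        rw [(ri j).2 rfl, hM.one j ((ri j).2 rfl), one_mul]
      · rw [fl_ne hj, fl_ne (mt (ri j).1 hj)]
        exact mem_Wc.1 h j
    have p1 := push h3 hM (A := db i B) (C := univ.filter fun x => ph r e x ∈ db i B)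
      fun x => by simp
    rw [div_le_iff₀ t2] at hW
    obtain ⟨i', d1, d2⟩ := h2 n (pull r e c) γ hγ.le hγ1 (by
      refine le_trans (by rw [p1]; linarith) (den_mono
        (A := univ.filter fun x => ph r e x ∈ db i B) fun x h => ?_)
      simp only [Finset.mem_filter, mem_univ, true_and, db] at h ⊢
      rw [← lf_ph]
      rcases h with h | h
      · exact c1 _ h
      · exact cf _ ▸ c1 _ h)
    obtain ⟨j, hj, cj⟩ : ∃ j, r j = i' ∧ c j ≠ 0 := by
      by_contra h
      have : pull r e c i' = 0 := Finset.sum_eq_zero fun j hj => by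
        have : c j = 0 := by
          by_contra h'
          exact h ⟨j, (Finset.mem_filter.1 hj).2, h'⟩
        rw [this, zero_mul]
      rw [this, abs_zero] at d1
      linarith
    have f1 : r i' = i' := by rw [← hj, hM.idem]
    have f2 : i' ≠ i := fun h => cj (by simp [hc, (ri j).1 (hj.trans h)])
    obtain ⟨s, hs'⟩ := sgn _ d1
    have p2 := push h3 hM
      (A := univ.filter fun y => 1 / 4 ≤ |lf c y - pull r e c i' * sg y i'|)
      (C := univ.filter fun x => 1 / 4 ≤ |lf (pull r e c) x - pull r e c i' * sg x i'|) fun x => by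
        have : sg (ph r e x) i' = sg x i' := by simp [sg, ph, f1, hM.one i' f1]
        simp only [Finset.mem_filter, mem_univ, true_and, lf_ph, this]
    refine ⟨_, _, upd hM ri f1 f2 s, fun k hk l => ?_, ?_⟩
    · obtain ⟨k1, k2⟩ := w0 k hk
      have k3 : k ≠ i := fun h => wi.ne' (h ▸ k1)
      have k4 : i' ≠ k := fun h => cj (by
        rw [(hr k k2 j).1 (hj.trans h)]
        simp [hc, k1])
      by_cases h : l = i
      · subst h; simp [k4, k3.symm]
      · rw [Function.update_of_ne h]
        exact hr k k2 l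
    · have h4 := den_le (A := B ∩ Wc r e)
        (B := B ∩ Wc (Function.update r i i') (Function.update e i s))
        (C := (univ.filter fun y => 1 / 4 ≤ |lf c y - pull r e c i' * sg y i'|) ∩ Wc r e)
        fun y hy => by
          obtain ⟨y1, y2⟩ := Finset.mem_inter.1 hy
          by_cases h : 1 / 4 ≤ |lf c y - pull r e c i' * sg y i'|
          · exact Or.inr (Finset.mem_inter.2 ⟨by simpa using h, y2⟩)
          refine Or.inl (Finset.mem_inter.2 ⟨y1, mem_Wc.2 fun l => ?_⟩)
          by_cases hl : l = i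
          · subst hl
            rw [Function.update_self, Function.update_self]
            refine hs' _ _ ?_
            have h5 := abs_sub_le (sg y l) (lf c y) (pull r e c i' * sg y i')
            have h6 := cB y y1
            exact h5.trans_lt (by linarith [not_le.1 h])
          · rw [Function.update_of_ne hl, Function.update_of_ne hl]
            exact mem_Wc.1 y2 l
      rw [dbl dj Wf] at hW
      rw [p2] at d2
      rw [pow_succ 2 t, div_le_iff₀ (by positivity)]
      nlinarith [mul_le_mul_of_nonneg_left h4 t2.le]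

end Pool.Agent.Lib.QE
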