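import Pool.Agent.Lib.QE.Blue

/-! The small ball bound for regular linear forms. -/

namespace Pool.Agent.Lib.QE

open Finset Matrix Complex Pool.Agent.Lib.MP_5d53d3_co
open scoped BigOperators ComplexConjugate

theorem FEJ.sum_cos {n : ℕ} (w : Fin n → ℝ) (t : ℝ) :
    ∑ x : X n, Real.cos (t * lf w x) = ∏ i, (2 * Real.cos (t * w i)) := by
  have h1 : ∑ x : X n, Complex.exp ((t * lf w x : ℝ) * I) =
      ∏ i, ∑ u : ℤˣ, Complex.exp ((t * (w i * ((u : ℤ) : ℝ)) : ℝ) * I) := by
    rw [Finset.prod_univ_sum, Fintype.piFinset_univ]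
    refine Finset.sum_congr rfl fun x _ => ?_
    rw [← Complex.exp_sum]
    refine congrArg Complex.exp ?_
    simp only [lf, sg, Finset.mul_sum, Complex.ofReal_sum, Finset.sum_mul]
  have h2 : ∀ i, ∑ u : ℤˣ, Complex.exp ((t * (w i * ((u : ℤ) : ℝ)) : ℝ) * I) =
      ((2 * Real.cos (t * w i) : ℝ) : ℂ) := fun i => by
    rw [UnitsInt.univ, Finset.sum_pair (by decide)]
    push_cast
    rw [Complex.two_cos]
    simp only [mul_one, mul_neg, neg_mul]
  simp only [h2] at h1
  have h3 := congrArg Complex.re h1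
  rw [← Complex.ofReal_prod, Complex.ofReal_re, Complex.re_sum] at h3
  simpa only [Complex.exp_ofReal_mul_I_re] using h3

theorem FEJ.ex_cos {n : ℕ} (w : Fin n → ℝ) (t : ℝ) :
    𝔼 x : X n, Real.cos (t * lf w x) = ∏ i, Real.cos (t * w i) := by
  rw [Fintype.expect_eq_sum_div_card, FEJ.sum_cos, Finset.prod_mul_distrib]
  have hc : (Fintype.card (X n) : ℝ) = 2 ^ n := by simp [X]
  rw [hc, Finset.prod_const, Finset.card_univ, Fintype.card_fin]
  field_simp

theorem FEJ.cos_le {v : ℝ} (h : |v| ≤ 1) : 0 ≤ Real.cos v ∧ Real.cos v ≤ Real.exp (-(v ^ 2 / 5)) := by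
  have h1 := Real.cos_bound h
  have h2 : v ^ 2 ≤ 1 := by
    rw [← sq_abs]
    nlinarith [abs_nonneg v]
  have h3 : |v| ^ 4 = v ^ 2 * v ^ 2 := by
    rw [show |v| ^ 4 = |v| ^ 2 * |v| ^ 2 by ring, sq_abs]
  rw [h3, abs_le] at h1
  have h4 := Real.add_one_le_exp (-(v ^ 2 / 5))
  have h5 := Real.one_sub_sq_div_two_le_cos (x := v)
  constructor
  · linarith
  · nlinarith [sq_nonneg v]

theorem FEJ.ker (N : ℕ) (u : ℝ) :
    0 ≤ ∑ k ∈ range N, ∑ l ∈ range N, Real.cos (((k : ℝ) - l) * u) := by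
  have e : ∑ k ∈ range N, ∑ l ∈ range N, Real.cos (((k : ℝ) - l) * u) =
      (∑ k ∈ range N, Real.cos (k * u)) ^ 2 + (∑ k ∈ range N, Real.sin (k * u)) ^ 2 := by
    rw [sq, sq, Finset.sum_mul_sum, Finset.sum_mul_sum, ← Finset.sum_add_distrib]
    refine Finset.sum_congr rfl fun k _ => ?_
    rw [← Finset.sum_add_distrib]
    refine Finset.sum_congr rfl fun l _ => ?_
    rw [sub_mul, Real.cos_sub]
  rw [e]
  positivity

theorem st_FEJ : FEJ := by
  intro n w η h0 h1 hw hreg
  set N : ℕ := ⌈4 / η⌉₊ with hN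
  have hN1 : 4 / η ≤ N := Nat.le_ceil _
  have hN2 : (N : ℝ) ≤ 5 / η := by
    have a1 : (N : ℝ) < 4 / η + 1 := Nat.ceil_lt_add_one (by positivity)
    have a2 : 1 ≤ 1 / η := by rw [le_div_iff₀ h0]; linarith
    have a3 : 5 / η = 4 / η + 1 / η := by ring
    linarith
  have hNp : (0 : ℝ) < N := lt_of_lt_of_le (by positivity) hN1
  have small : ∀ k ∈ range N, ∀ l ∈ range N, ∀ u : ℝ, |u| ≤ η ^ 2 / 100 →
      |((k : ℝ) - l) * (5 / η) * u| ≤ 1 := fun k hk l hl u hu => by
    have hk' : (k : ℝ) < N := by exact_mod_cast Finset.mem_range.1 hk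
    have hl' : (l : ℝ) < N := by exact_mod_cast Finset.mem_range.1 hl
    have hk0 : (0 : ℝ) ≤ k := Nat.cast_nonneg k
    have hl0 : (0 : ℝ) ≤ l := Nat.cast_nonneg l
    have a1 : |(k : ℝ) - l| ≤ 5 / η := by
      rw [abs_le]
      constructor <;> linarith
    rw [abs_mul, abs_mul, abs_of_pos (by positivity : (0 : ℝ) < 5 / η)]
    calc |(k : ℝ) - l| * (5 / η) * |u| ≤ 5 / η * (5 / η) * (η ^ 2 / 100) := by gcongr
      _ = 1 / 4 := by field_simp; ring
      _ ≤ 1 := by norm_num
  have pt : ∀ x : X n, (N : ℝ) ^ 2 / 2 *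
      ind (univ.filter fun x : X n => |lf w x| ≤ η ^ 2 / 100) x ≤
      ∑ k ∈ range N, ∑ l ∈ range N, Real.cos (((k : ℝ) - l) * (5 / η) * lf w x) := fun x => by
    unfold ind
    split_ifs with hx
    · have hx' := (Finset.mem_filter.1 hx).2
      have a1 : ∑ _k ∈ range N, ∑ _l ∈ range N, (1 / 2 : ℝ) = (N : ℝ) ^ 2 / 2 * 1 := by
        simp only [Finset.sum_const, Finset.card_range, nsmul_eq_mul]
        ring
      rw [← a1]
      refine Finset.sum_le_sum fun k hk => Finset.sum_le_sum fun l hl => ?_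
      have a2 := small k hk l hl _ hx'
      have a3 := Real.one_sub_sq_div_two_le_cos (x := ((k : ℝ) - l) * (5 / η) * lf w x)
      have a4 : (((k : ℝ) - l) * (5 / η) * lf w x) ^ 2 ≤ 1 := by
        rw [← sq_abs]
        nlinarith [abs_nonneg (((k : ℝ) - l) * (5 / η) * lf w x)]
      linarith
    · rw [mul_zero]
      simpa only [mul_assoc] using FEJ.ker N (5 / η * lf w x)
  have term : ∀ k ∈ range N, ∀ l ∈ range N,
      ∏ i, Real.cos (((k : ℝ) - l) * (5 / η) * w i) ≤ (if k = l then 1 else 0) + η / 4 :=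
    fun k hk l hl => by
    split_ifs with hkl
    · subst hkl
      simp only [sub_self, zero_mul, Real.cos_zero, Finset.prod_const_one]
      linarith
    · have a1 : ∏ i, Real.cos (((k : ℝ) - l) * (5 / η) * w i) ≤
          ∏ i, Real.exp (-((((k : ℝ) - l) * (5 / η) * w i) ^ 2 / 5)) :=
        Finset.prod_le_prod (fun i _ => (FEJ.cos_le (small k hk l hl _ (hreg i))).1)
          fun i _ => (FEJ.cos_le (small k hk l hl _ (hreg i))).2
      rw [← Real.exp_sum] at a1
      have a2 : ∑ i, -((((k : ℝ) - l) * (5 / η) * w i) ^ 2 / 5) =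
          -((((k : ℝ) - l) * (5 / η)) ^ 2 / 5 * rs w) := by
        rw [rs, Finset.mul_sum, ← Finset.sum_neg_distrib]
        exact Finset.sum_congr rfl fun i _ => by ring
      rw [a2, hw, mul_one] at a1
      have a3 : (1 : ℝ) ≤ ((k : ℝ) - l) ^ 2 := by
        have b1 : (k : ℤ) - l ≠ 0 := sub_ne_zero.2 (by exact_mod_cast hkl)
        have b2 : (1 : ℤ) ≤ ((k : ℤ) - l) ^ 2 := by
          have := pow_pos (abs_pos.2 b1) 2
          rw [sq_abs] at this
          omega
        exact_mod_cast b2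
      have a4 : 4 / η ≤ (((k : ℝ) - l) * (5 / η)) ^ 2 / 5 := by
        have b1 : (((k : ℝ) - l) * (5 / η)) ^ 2 / 5 = ((k : ℝ) - l) ^ 2 * (5 / η ^ 2) := by
          field_simp
        have b2 : 4 / η ≤ 5 / η ^ 2 := by
          rw [div_le_div_iff₀ h0 (by positivity)]
          nlinarith
        have b3 : (0 : ℝ) < 5 / η ^ 2 := by positivity
        rw [b1]
        nlinarith
      have a5 : Real.exp (-((((k : ℝ) - l) * (5 / η)) ^ 2 / 5)) ≤ η / 4 := by
        have b1 := Real.add_one_le_exp (4 / η)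
        have b2 : Real.exp (-(4 / η)) ≤ η / 4 := by
          rw [Real.exp_neg, inv_le_comm₀ (Real.exp_pos _) (by positivity), inv_div]
          linarith
        exact (Real.exp_le_exp.2 (by linarith)).trans b2
      linarith
  have main : (N : ℝ) ^ 2 / 2 * den (univ.filter fun x : X n => |lf w x| ≤ η ^ 2 / 100) ≤
      N + (N : ℝ) ^ 2 * (η / 4) := by
    unfold den
    rw [Finset.mul_expect]
    refine (Finset.expect_le_expect fun x _ => pt x).trans ?_
    rw [Finset.expect_sum_comm]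
    simp only [Finset.expect_sum_comm, FEJ.ex_cos]
    refine (Finset.sum_le_sum fun k hk => Finset.sum_le_sum fun l hl => term k hk l hl).trans ?_
    have a1 : ∀ k ∈ range N, ∑ l ∈ range N, ((if k = l then (1 : ℝ) else 0) + η / 4) =
        1 + N * (η / 4) := fun k hk => by
      rw [Finset.sum_add_distrib, Finset.sum_ite_eq, if_pos hk]
      simp only [Finset.sum_const, Finset.card_range, nsmul_eq_mul]
    rw [Finset.sum_congr rfl a1]
    simp only [Finset.sum_const, Finset.card_range, nsmul_eq_mul]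
    exact le_of_eq (by ring)
  have a1 : 4 ≤ η * N := by
    rw [div_le_iff₀ h0] at hN1
    linarith
  by_contra hc
  have a2 := mul_lt_mul_of_pos_left (not_le.1 hc) (by positivity : (0 : ℝ) < (N : ℝ) ^ 2 / 2)
  nlinarith

end Pool.Agent.Lib.QE
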