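import Pool.Agent.Lib.QE.B_CT

/-! An almost Boolean linear form is almost a dictator. -/

namespace Pool.Agent.Lib.QE

open Finset Matrix Complex Pool.Agent.Lib.MP_5d53d3_co
open scoped BigOperators ComplexConjugate

namespace FKNh

variable {n : ℕ}

/-- partial linear form -/
def pf (c : Fin n → ℝ) (I : Finset (Fin n)) (x : X n) : ℝ := ∑ i ∈ I, c i * sg x i

theorem pf_fl (c : Fin n → ℝ) {I : Finset (Fin n)} {i : Fin n} (hi : i ∉ I) (x : X n) :
    pf c I (x * fl i) = pf c I x := by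
  refine Finset.sum_congr rfl fun j hj => ?_
  have : j ≠ i := fun h => hi (h ▸ hj)
  rw [sg_mul, sg_fl, if_neg this, mul_one]

theorem odd (c : Fin n → ℝ) {I : Finset (Fin n)} {i : Fin n} (hi : i ∉ I) (k : ℕ) :
    𝔼 x, sg x i * pf c I x ^ k = 0 :=
  ex_odd i fun x => by rw [pf_fl c hi, sg_mul, sg_fl, if_pos rfl]; ring

/-- second and fourth moments -/
theorem mom (c : Fin n → ℝ) (I : Finset (Fin n)) :
    𝔼 x, pf c I x ^ 2 = ∑ i ∈ I, c i ^ 2 ∧
      𝔼 x, pf c I x ^ 4 = 3 * (∑ i ∈ I, c i ^ 2) ^ 2 - 2 * ∑ i ∈ I, c i ^ 4 := by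
  induction I using Finset.induction_on with
  | empty => simp [pf]
  | insert i I hi ih =>
    have h0 : ∀ x, pf c (insert i I) x = c i * sg x i + pf c I x := fun x => Finset.sum_insert hi
    have h2 : ∀ x, pf c (insert i I) x ^ 2 =
        c i ^ 2 + (pf c I x ^ 2 + 2 * c i * (sg x i * pf c I x ^ 1)) := fun x => by
      rw [h0]; rcases sg_cases x i with h | h <;> rw [h] <;> ring
    have h4 : ∀ x, pf c (insert i I) x ^ 4 =
        c i ^ 4 + (pf c I x ^ 4 + (6 * c i ^ 2 * pf c I x ^ 2 +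
          (4 * c i ^ 3 * (sg x i * pf c I x ^ 1) + 4 * c i * (sg x i * pf c I x ^ 3)))) :=
      fun x => by rw [h0]; rcases sg_cases x i with h | h <;> rw [h] <;> ring
    simp only [h2, h4, Finset.expect_add_distrib, ← Finset.mul_expect, odd c hi, ex_const,
      ih.1, ih.2, Finset.sum_insert hi]
    constructor <;> ring

theorem q_mem (c : Fin n → ℝ) : (fun x => lf c x ^ 2 - 1) ∈ V (univ : Finset (Fin n)) 2 := by
  have h1 : lf c ∈ V (univ : Finset (Fin n)) 1 := (lf_mem c).1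
  have h2 := V_mul h1 h1
  have h3 : ch ∅ ∈ V (univ : Finset (Fin n)) 2 := ch_mem (Finset.empty_subset _) (by simp)
  have h4 : (fun x => lf c x ^ 2 - 1) = lf c * lf c - ch ∅ := by
    funext x
    simp [ch_empty, sq]
  rw [h4]
  exact Submodule.sub_mem _ h2 h3

/-- a polynomial of degree two that is small on most of the cube is small in mean square -/
theorem small {q : X n → ℝ} (hq : q ∈ V (univ : Finset (Fin n)) 2) {a : ℝ}
    (h : 399 / 400 ≤ den (univ.filter fun x : X n => |q x| ≤ a)) :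
    𝔼 x, q x ^ 2 ≤ 2 * a ^ 2 := by
  set S := univ.filter fun x : X n => |q x| ≤ a with hS
  have h1 : ∀ x, q x ^ 2 ≤ a ^ 2 + (1 - ind S x) * q x ^ 2 := fun x => by
    unfold ind
    split_ifs with hx
    · have := (Finset.mem_filter.1 hx).2
      have h2 := pow_le_pow_left₀ (abs_nonneg _) this 2
      rw [sq_abs] at h2
      linarith
    · linarith [sq_nonneg a]
  have h2 : 𝔼 x, q x ^ 2 ≤ a ^ 2 + 𝔼 x, (1 - ind S x) * q x ^ 2 := by
    have := Finset.expect_le_expect (s := univ) fun x _ => h1 x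
    rwa [Finset.expect_add_distrib, ex_const] at this
  have h3 := cs1 (fun x => 1 - ind S x) fun x => q x ^ 2
  have h4 : 𝔼 x, (1 - ind S x) ^ 2 = 1 - den S := by
    have : ∀ x, (1 - ind S x) ^ 2 = 1 - ind S x := fun x => by
      unfold ind; split_ifs <;> norm_num
    simp only [this, Finset.expect_sub_distrib, ex_const]
    rfl
  have h5 := bonami univ 2 q hq
  have h6 : 𝔼 x, (q x ^ 2) ^ 2 = 𝔼 x, q x ^ 4 := by simp only [← pow_mul]
  rw [h4, h6] at h3
  have h7 : 0 ≤ 𝔼 x, q x ^ 2 := Finset.expect_nonneg fun x _ => sq_nonneg _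
  have h8 : 0 ≤ 𝔼 x, q x ^ 4 := Finset.expect_nonneg fun x _ => by positivity
  have h9 : (𝔼 x, (1 - ind S x) * q x ^ 2) ^ 2 ≤ (9 / 20 * 𝔼 x, q x ^ 2) ^ 2 := by
    nlinarith [mul_le_mul_of_nonneg_right (show 1 - den S ≤ 1 / 400 by linarith) h8]
  have h10 := (abs_le_of_sq_le_sq' h9 (by positivity)).2
  linarith

end FKNh

open FKNh in
theorem st_FKN : FKN := by
  intro n c δ h0 h1 h
  have hs := small (q_mem c) h
  have hm := mom c univ
  have hq : 𝔼 x : X n, (lf c x ^ 2 - 1) ^ 2 =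
      (∑ i, c i ^ 2 - 1) ^ 2 + 2 * ((∑ i, c i ^ 2) ^ 2 - ∑ i, c i ^ 4) := by
    have : ∀ x : X n, (lf c x ^ 2 - 1) ^ 2 = pf c univ x ^ 4 + (-2 * pf c univ x ^ 2 + 1) :=
      fun x => by unfold pf lf; ring
    simp only [this, Finset.expect_add_distrib, ← Finset.mul_expect, ex_const, hm.1, hm.2]
    ring
  rw [hq] at hs
  have hd : δ ^ 2 ≤ 1 / 1600 := by nlinarith
  have hne : (univ : Finset (Fin n)).Nonempty := by
    by_contra hn
    rw [Finset.not_nonempty_iff_eq_empty.1 hn] at hs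
    simp only [Finset.sum_empty] at hs
    nlinarith
  obtain ⟨i, -, hi⟩ := Finset.exists_max_image univ (fun i => c i ^ 2) hne
  have h4 : ∑ j, c j ^ 4 ≤ c i ^ 2 * ∑ j, c j ^ 2 := by
    rw [Finset.mul_sum]
    exact Finset.sum_le_sum fun j hj => by nlinarith [hi j hj, sq_nonneg (c j)]
  have h5 : c i ^ 2 + ∑ j ∈ univ.erase i, c j ^ 2 = ∑ j, c j ^ 2 :=
    Finset.add_sum_erase univ (fun j => c j ^ 2) (mem_univ i)
  have h6 : 0 ≤ ∑ j ∈ univ.erase i, c j ^ 2 := Finset.sum_nonneg fun _ _ => sq_nonneg _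
  set R := ∑ j, c j ^ 2
  set E := ∑ j ∈ univ.erase i, c j ^ 2 with hE
  have hR0 : 0 ≤ R := by nlinarith [sq_nonneg (c i)]
  have h7 : (R - 1) ^ 2 + 2 * (R * E) ≤ 18 * δ ^ 2 := by
    have : R * E = R ^ 2 - c i ^ 2 * R := by rw [show E = R - c i ^ 2 by linarith]; ring
    nlinarith
  have hRE := mul_nonneg hR0 h6
  have hR : 89 / 100 ≤ R := by nlinarith
  have h8 : E ≤ 11 * δ ^ 2 := by nlinarith [sq_nonneg (R - 1), sq_nonneg δ]
  refine ⟨i, ?_, ?_⟩
  · refine abs_le_of_sq_le_sq' (a := 9 / 10) ?_ (abs_nonneg _) |>.2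
    rw [sq_abs]
    linarith
  · have h9 : ∀ x : X n, lf c x - c i * sg x i = pf c (univ.erase i) x := fun x => by
      have := Finset.add_sum_erase univ (fun j => c j * sg x j) (mem_univ i)
      unfold lf pf
      linarith
    have h10 : ∀ x, ind (univ.filter fun x : X n => 1 / 4 ≤ |lf c x - c i * sg x i|) x ≤
        16 * pf c (univ.erase i) x ^ 2 := fun x => by
      unfold ind
      split_ifs with hx
      · have h11 := (Finset.mem_filter.1 hx).2
        rw [h9] at h11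
        have h12 := pow_le_pow_left₀ (by norm_num) h11 2
        rw [sq_abs] at h12
        linarith
      · positivity
    have h13 := Finset.expect_le_expect (s := univ) fun x _ => h10 x
    rw [← Finset.mul_expect, (mom c (univ.erase i)).1] at h13
    refine le_trans h13 ?_
    nlinarith [sq_nonneg δ]

end Pool.Agent.Lib.QE
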