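import Pool.Agent.Lib.QE.Blue
import Pool.Agent.Lib.QE.Kit

/-! Iterating the one-direction step. -/

namespace Pool.Agent.Lib.QE

open Finset Matrix Pool.Agent.Lib.MP_5d53d3_co

namespace GAPb

variable {n : ℕ}

theorem proj_sub {π : Matrix (Fin n) (Fin n) ℝ} (h : Proj π) {w : Fin n → ℝ} (hw : π *ᵥ w = w)
    (h1 : w ⬝ᵥ w = 1) : Proj (π - vecMulVec w w) := by
  have hv : w ᵥ* π = w := by rw [← h.1, vecMul_transpose, hw]
  refine ⟨by rw [transpose_sub, h.1, transpose_vecMulVec], ?_⟩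
  rw [Matrix.sub_mul, Matrix.mul_sub, Matrix.mul_sub, h.2, mul_vecMulVec, vecMulVec_mul, hw, hv,
    vecMulVec_mul_vecMulVec, h1, one_smul]
  abel

theorem rs_step {π : Matrix (Fin n) (Fin n) ℝ} (h : Proj π) {w : Fin n → ℝ} (hw : π *ᵥ w = w)
    (h1 : w ⬝ᵥ w = 1) (x : X n) :
    rs (x0 (π - vecMulVec w w) x) = rs (x0 π x) + lf w x ^ 2 := by
  have hv : w ᵥ* π = w := by rw [← h.1, vecMul_transpose, hw]
  have e : x0 (π - vecMulVec w w) x = x0 π x + lf w x • w := by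
    funext i
    simp only [x0, lf, sub_mulVec, Pi.sub_apply, Pi.add_apply, Pi.smul_apply, smul_eq_mul, mulVec,
      dotProduct, vecMulVec_apply, sum_mul]
    have : ∑ j, w i * w j * sg x j = ∑ j, w j * sg x j * w i :=
      sum_congr rfl fun _ _ => by ring
    rw [this]; ring
  have o : w ⬝ᵥ x0 π x = 0 := by
    rw [x0, dotProduct_sub, dotProduct_mulVec, hv, sub_self]
  have r : ∀ u : Fin n → ℝ, rs u = u ⬝ᵥ u := fun u => sum_congr rfl fun _ _ => sq _
  rw [e, r, r, add_dotProduct, dotProduct_add, dotProduct_add, dotProduct_smul, smul_dotProduct,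
    smul_dotProduct, dotProduct_smul, dotProduct_comm (x0 π x) w, o, h1]
  simp only [smul_eq_mul]
  ring

theorem unit {S : Finset (X n)} {π : Matrix (Fin n) (Fin n) ℝ} {σ : ℝ} (h : ¬ NDeg S π σ) :
    ∃ w : Fin n → ℝ, π *ᵥ w = w ∧ w ⬝ᵥ w = 1 ∧ es S (fun x => lf w x ^ 2) ≤ σ := by
  simp only [NDeg, not_forall, not_le] at h
  obtain ⟨w, hw, hl⟩ := h
  have h0 : 0 < rs w := by
    refine lt_of_le_of_ne (rs_nonneg w) fun e => ?_
    have : 0 ≤ es S fun x => lf w x ^ 2 := es_nonneg fun _ _ => sq_nonneg _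
    rw [← e] at hl
    linarith
  have hs : (√(rs w))⁻¹ ^ 2 * rs w = 1 := by
    rw [inv_pow, Real.sq_sqrt h0.le, inv_mul_cancel₀ h0.ne']
  refine ⟨(√(rs w))⁻¹ • w, by rw [mulVec_smul, hw], ?_, ?_⟩
  · rw [smul_dotProduct, dotProduct_smul, smul_eq_mul, smul_eq_mul, ← mul_assoc, ← sq, ← hs]
    congr 1
    exact sum_congr rfl fun _ _ => (sq _).symm
  · have e : ∀ x : X n, lf ((√(rs w))⁻¹ • w) x ^ 2 = (√(rs w))⁻¹ ^ 2 * lf w x ^ 2 := by
      intro x
      rw [← mul_pow]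
      congr 1
      simp only [lf, Pi.smul_apply, smul_eq_mul, mul_sum, mul_assoc]
    rw [es_congr fun x _ => e x, es_mul]
    calc (√(rs w))⁻¹ ^ 2 * es S (fun x => lf w x ^ 2) ≤ (√(rs w))⁻¹ ^ 2 * (σ * rs w) :=
          mul_le_mul_of_nonneg_left hl.le (sq_nonneg _)
      _ = σ * ((√(rs w))⁻¹ ^ 2 * rs w) := by ring
      _ = σ := by rw [hs, mul_one]

theorem num {θ : ℝ} {t m : ℕ} (h0 : 0 < θ) (h1 : θ ≤ 1 / 2) (ht : 2 ^ t * θ ≤ 1) (hm : m ≤ t) :
    12 ^ m * θ ^ 10 ≤ θ / 32 ∧ θ ^ 10 ≤ θ / 32 := by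
  have a : (12 : ℝ) ^ m ≤ (2 ^ t) ^ 4 := by
    rw [← pow_mul, mul_comm, pow_mul]
    exact (pow_le_pow_left₀ (by norm_num) (by norm_num) m).trans
      (pow_le_pow_right₀ (by norm_num) hm)
  have b : ((2 : ℝ) ^ t * θ) ^ 4 ≤ 1 := pow_le_one₀ (by positivity) ht
  have c : θ ^ 5 ≤ (1 / 2) ^ 5 := pow_le_pow_left₀ h0.le h1 5
  have d : 12 ^ m * θ ^ 4 ≤ 1 := by
    rw [mul_pow] at b
    exact (mul_le_mul_of_nonneg_right a (by positivity)).trans b
  have e : 12 ^ m * θ ^ 10 ≤ θ / 32 := by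
    calc 12 ^ m * θ ^ 10 = (12 ^ m * θ ^ 4) * θ ^ 5 * θ := by ring
      _ ≤ 1 * (1 / 2) ^ 5 * θ := by gcongr
      _ = θ / 32 := by ring
  refine ⟨e, le_trans ?_ e⟩
  exact le_mul_of_one_le_left (by positivity) (one_le_pow₀ (by norm_num))

end GAPb

theorem st_GAP (hG : GSTEP) : GAP := by
  intro θ n d t S v U h0 h1 h4 hn hd ht hV hS hτ hU
  have key : ∀ m, m ≤ t → ∃ π : Matrix (Fin n) (Fin n) ℝ, Proj π ∧ π.trace = n - m ∧
      es S (fun x => rs (x0 π x)) ≤ 12 ^ m * θ ^ 10 := by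
    intro m
    induction m with
    | zero =>
      intro _
      refine ⟨1, ⟨transpose_one, one_mul _⟩, by simp, ?_⟩
      have : ∀ x : X n, rs (x0 1 x) = 0 := fun x => by simp [x0, rs]
      rw [es_congr fun x _ => this x, es_zero]
      positivity
    | succ m ih =>
      intro hm
      obtain ⟨π, hπ, htr, hB⟩ := ih (by omega)
      obtain ⟨n1, n2⟩ := GAPb.num h0 h1 ht (show m ≤ t by omega)
      have hB0 : 0 ≤ es S (fun x => rs (x0 π x)) := es_nonneg fun _ _ => rs_nonneg _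
      have hmt : (m : ℝ) + 1 ≤ t := by exact_mod_cast hm
      have hdn : (d : ℝ) + t = n := by exact_mod_cast hd
      have h2t : (t : ℝ) ≤ 2 ^ t := by exact_mod_cast (Nat.lt_two_pow_self (n := t)).le
      have hθ : 0 < θ ^ 10 := by positivity
      obtain ⟨w, hw, hw1, hl⟩ := GAPb.unit (hG θ n d S v U π
        (θ ^ 10 + 10 * es S (fun x => rs (x0 π x))) h0 h1 h4 hn hV hS hτ hU hπ
        (by rw [htr]; linarith) (by rw [htr]; nlinarith) (by linarith) (by linarith) (by linarith))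
      refine ⟨π - vecMulVec w w, GAPb.proj_sub hπ hw hw1, ?_, ?_⟩
      · rw [trace_sub, trace_vecMulVec, hw1, htr]
        push_cast
        ring
      · rw [es_congr fun x _ => GAPb.rs_step hπ hw hw1 x, es_add, pow_succ]
        have : θ ^ 10 ≤ 12 ^ m * θ ^ 10 :=
          le_mul_of_one_le_left hθ.le (one_le_pow₀ (by norm_num))
        linarith
  obtain ⟨π, hπ, htr, hB⟩ := key t le_rfl
  have hdn : (d : ℝ) + t = n := by exact_mod_cast hd
  exact ⟨π, hπ, by rw [htr]; linarith, by linarith [(GAPb.num h0 h1 ht le_rfl).1]⟩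

end Pool.Agent.Lib.QE
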