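import Pool.Agent.Lib.QE.B_CT

/-! One more almost degenerate direction. -/

namespace Pool.Agent.Lib.QE

open Finset Matrix Complex Pool.Agent.Lib.MP_5d53d3_co
open scoped BigOperators ComplexConjugate

namespace GSTEPh

variable {n d : ℕ} {S S' : Finset (X n)} {v v' : X n → Fin d → ℂ} {π : Matrix (Fin n) (Fin n) ℝ}

theorem vrep94 (h : VRep S v) (hS : S' ⊆ S) (hp : Ph S' v v') : VRep S' v' := by
  refine ⟨hS.trans h.1, fun x hx => ?_, fun x hx y hy hxy => ?_⟩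
  · obtain ⟨φ, h1, h2⟩ := hp x hx
    rw [h2, ns_smul, h1, one_mul, h.2.1 x (hS hx)]
  · obtain ⟨φ, -, h2⟩ := hp x hx
    obtain ⟨ψ, -, h4⟩ := hp y hy
    rw [h2, h4, ip_smul_left, ip_smul_right, h.2.2 x (hS hx) y (hS hy) hxy, mul_zero, mul_zero]

theorem fsc94 (hπ : Proj π) : fs (cx (1 - π)) = n - π.trace := by
  rw [hπ.compl.fs_cx, trace_compl]

theorem tau94 (hn : 2 < n) (hS : S ⊆ Ev n) (U : Matrix (Fin d) (Fin n) ℂ) :
    tau S v (U * cx π) ≤ 2 * tau S v U + 2 * fs (U * cx (1 - π)) := by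
  have h1 := es_subset hS (f := fun x => ns ((U * cx (1 - π)) *ᵥ sv x)) fun _ _ => ns_nonneg _
  rw [mom2 hn] at h1
  have h2 : tau S v (U * cx π) ≤
      es S fun x => 2 * ns (eE v U x) + 2 * ns ((U * cx (1 - π)) *ᵥ sv x) := es_mono fun x _ => by
    refine le_of_eq_of_le (congrArg ns ?_) (ns_add_le _ _)
    rw [cx_sub, cx_one, Matrix.mul_sub, Matrix.mul_one, Matrix.sub_mulVec, eE, eE]
    abel
  rw [es_add, es_mul, es_mul] at h2
  unfold tau at *
  linarith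

theorem fsU94 (hπ : Proj π) (U : Matrix (Fin d) (Fin n) ℂ) :
    fs (U * cx (1 - π)) ^ 2 ≤ fs (Uᴴ * U) * (n - π.trace) := by
  have h := re_trace_sq_le (Uᴴ * U) (cx (1 - π))
  rw [fsc94 hπ, Matrix.conjTranspose_mul, Matrix.conjTranspose_conjTranspose] at h
  rwa [fs_eq_re, Matrix.conjTranspose_mul, hπ.compl.cx_herm, Matrix.mul_assoc,
    Matrix.trace_mul_comm, ← Matrix.mul_assoc, Matrix.mul_assoc (Uᴴ * U), hπ.compl.cx_idem]

theorem LL94 (S : Finset (X n)) (π : Matrix (Fin n) (Fin n) ℝ) :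
    LL S π ≤ (es S fun x => rs (x0 π x)) ^ 2 := by
  unfold rs
  rw [es_sum, sq, sum_mul_sum]
  exact sum_le_sum fun a _ => sum_le_sum fun b _ => es_cs S _ _

theorem ZZ94 (hn : 0 < n) (hπ : Proj π) (S : Finset (X n)) :
    ZZ S π ≤ 20 * (n - π.trace) ^ 2 := by
  rw [← fsc94 hπ]
  refine le_of_eq_of_le (es_congr fun x _ => ?_) (mom4 hn S (cx (1 - π)))
  rw [cx_mulVec_sv, x0_eq]
  simp only [ns, rs, normSq_ofReal, sq]

theorem pw94 {a : ℝ} (h0 : 0 < a) (h1 : a ≤ 1 / 1024) (k m : ℕ) :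
    a ^ (k + m) ≤ a ^ k * (1 / 1024) ^ m := by
  rw [pow_add]
  exact mul_le_mul_of_nonneg_left (pow_le_pow_left₀ h0.le h1 m) (by positivity)

end GSTEPh

open GSTEPh in
theorem st_GSTEP (hJ : JM) (hB : SB) : GSTEP := by
  intro θ n d S v U π σ h0 h1 h4 hn hV hS ht hU hπ hd hm hσ hσ' hx hN
  have a0 : 0 < θ ^ 10 := by positivity
  have a1 : θ ^ 10 ≤ 1 / 1024 := (pow_le_pow_left₀ h0.le h1 10).trans (by norm_num)
  have a2 : θ ^ 10 ≤ θ := pow_le_of_le_one h0.le (by linarith) (by norm_num)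
  rw [show θ ^ 200 = (θ ^ 10) ^ 20 by rw [← pow_mul]] at hn ht hU
  generalize θ ^ 10 = a at *
  have N0 : (0 : ℝ) ≤ n := n.cast_nonneg
  have dn : ∀ k m : ℕ, a ^ (k + m) ≤ a ^ k := fun k m =>
    pow_le_pow_of_le_one a0.le (by linarith) (Nat.le_add_right k m)
  have N1 : ∀ k m : ℕ, k + m = 20 → 1 ≤ n * a ^ k := fun k m e =>
    hn.trans (mul_le_mul_of_nonneg_left (e ▸ dn k m) N0)
  have N2 : (1024 : ℝ) ≤ n := by nlinarith [N1 1 19 rfl]
  have n16 : 16 ≤ n := by exact_mod_cast (show ((16 : ℕ) : ℝ) ≤ n by push_cast; linarith)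
  have m0 : 0 ≤ n - π.trace := fsc94 hπ ▸ fs_nonneg _
  have m1 : (n - π.trace) * a ≤ 1 := (mul_le_mul_of_nonneg_left a2 m0).trans hm
  have m2 : ((n - π.trace) * a) ^ 2 ≤ 1 := pow_le_one₀ (by positivity) m1
  obtain ⟨S', v', U', s1, s2, s3, s4⟩ := hJ n d S v π U (a ^ 6) hπ
  have f1 : fs (U * cx (1 - π)) ≤ a ^ 19 * n := by
    have e1 := (fsU94 hπ U).trans (mul_le_mul_of_nonneg_right hU m0)
    have e2 : (fs (U * cx (1 - π)) * a) ^ 2 ≤ (a ^ 19 * n * a) ^ 2 := by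
      have e3 := mul_le_mul_of_nonneg_right e1 (sq_nonneg a)
      have e4 := mul_le_of_le_one_right (sq_nonneg (a ^ 20 * n))
        (mul_le_one₀ m1 a0.le (show a ≤ 1 by linarith))
      calc _ = fs (U * cx (1 - π)) ^ 2 * a ^ 2 := by ring
        _ ≤ (a ^ 20 * n) ^ 2 * ((n - π.trace) * a * a) := e3.trans_eq (by ring)
        _ ≤ _ := e4.trans_eq (by ring)
    exact le_of_mul_le_mul_right (abs_le_of_sq_le_sq' e2 (by positivity)).2 a0
  have f2 : mu (S \ S') ≤ (a ^ 6) ^ 2 := by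
    have e1 := tau94 (v := v) (π := π) (by omega) hV.1 U
    have e2 : 0 ≤ tau S' v' U' := es_nonneg fun _ _ => ns_nonneg _
    have e3 : a ^ 19 * n ≤ _ := mul_le_mul_of_nonneg_right (pw94 a0 a1 18 1) N0
    have e4 : a ^ 20 * n ≤ _ := mul_le_mul_of_nonneg_right (dn 19 1) N0
    have e5 : 0 < a ^ 18 * n := by positivity
    refine le_of_mul_le_mul_left (?_ : a ^ 6 * n * _ ≤ _) (by positivity)
    calc _ ≤ a ^ 18 * n := by linarith
      _ = _ := by ring
  have f3 : √(mu (S \ S')) ≤ a ^ 6 := Real.sqrt_le_iff.2 ⟨by positivity, f2⟩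
  have p1 := pw94 a0 a1 1 5
  have p2 := pw94 a0 a1 1 11
  have σ0 : 0 < σ := a0.trans_le hσ
  have hN' : NDeg S' π (σ / 2) := hN.sub (by omega) s1 (by norm_num at p1; linarith)
  have hV' := vrep94 hV s1 s2
  have k1 : a ^ 6 ≤ (σ / 2) ^ 3 / 10 ^ 7 := by
    have e1 := pow_le_pow_left₀ a0.le hσ 3
    have e2 := pw94 a0 a1 3 3
    have e3 : 0 < a ^ 3 := by positivity
    rw [div_pow]
    norm_num at e2 ⊢
    linarith
  have k2 := pow_le_pow_left₀ (by positivity) k1 2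
  have hE := st_ERR n S' (σ / 2 / 2) n16 h4 hV'.1 (by positivity) (by linarith)
  have hG := good_of_fe (by omega) hV'.1 (by positivity) hN'
  have hBs := filter_subset (fun x => (σ / 2 / 2) ^ 2 ≤ fe S' x) (Ev n)
  have hM := es_mono (S := (Ev n).filter fun x => (σ / 2 / 2) ^ 2 ≤ fe S' x)
    (f := fun _ => (σ / 2 / 2) ^ 2) (g := fe S') fun x hx => (mem_filter.1 hx).2
  rw [es_const] at hM
  generalize (Ev n).filter (fun x => (σ / 2 / 2) ^ 2 ≤ fe S' x) = B at hE hG hBs hM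
  have b0 := mu_nonneg B
  have b1 : n * mu B ≤ a ^ 12 := by
    have e1 := (le_div_iff₀ (by positivity)).1 (hM.trans hE)
    have e2 := mul_le_mul_of_nonneg_left (pow_le_pow_left₀ a0.le hσ 4)
      (show 0 ≤ n * mu B * n by positivity)
    have e3 : n * mu B * n * a ^ 4 ≤ 256 * 10 ^ 7 := by linarith
    have e4 := mul_le_mul_of_nonneg_right e3 (show 0 ≤ a ^ 16 by positivity)
    have e5 := le_mul_of_one_le_right (show 0 ≤ n * mu B by positivity) hn
    have e6 := pw94 a0 a1 12 4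
    have e7 : 0 < a ^ 12 := by positivity
    norm_num at e6
    linarith
  have b2 : a ^ 6 * n * mu B ≤ a ^ 18 := by
    linarith [mul_le_mul_of_nonneg_left b1 (show 0 ≤ a ^ 6 by positivity)]
  have l1 : LL S' π ≤ (σ / 10) ^ 2 := (LL94 S' π).trans (pow_le_pow_left₀
    (es_nonneg fun _ _ => rs_nonneg _)
    ((es_subset s1 fun _ _ => rs_nonneg _).trans (by linarith)) 2)
  have z1 : ZZ S' π ≤ 20 * (a ^ 18 * n) := by
    have e1 := le_mul_of_one_le_right (sq_nonneg (n - π.trace)) hn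
    have e2 := mul_le_of_le_one_left (show 0 ≤ a ^ 18 * n by positivity) m2
    linarith [ZZ94 (by omega) hπ S']
  have p3 := pw94 a0 a1 0 18
  have p4 := pw94 a0 a1 5 13
  have p5 := mul_le_mul_of_nonneg_right (pw94 a0 a1 0 1) N0
  have m3 : n - π.trace ≤ a * n := by
    have e1 := le_mul_of_one_le_right m0 (N1 2 18 rfl)
    have e2 := mul_le_of_le_one_left (show 0 ≤ a * n by positivity) m1
    linarith
  have σ1 : σ ^ 2 ≤ 1 := pow_le_one₀ σ0.le (by linarith)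
  norm_num at p2 p3 p4 p5
  rcases (hB n d S' B v' π U' (a ^ 6) (σ / 2) h4 hπ hV' hBs s3 hN' hG (by positivity)
    (by linarith [mu_sdiff s1]) (by positivity) k1
    ((N1 12 8 rfl).trans (mul_le_mul_of_nonneg_left (by linarith) N0))
    (by linarith [le_mul_of_one_le_left b0 (show (1 : ℝ) ≤ n by linarith)]) (by linarith)
    (by linarith) (by linarith [mul_le_mul_of_nonneg_right p3 N0]) (by linarith)
    (by linarith)).1 hd with h | h
  · linarith [pow_pos σ0 2]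
  · have e1 : ZZ S' π / n ≤ 20 * a ^ 18 := (div_le_iff₀ (by linarith)).2 (by linarith)
    linarith [pow_le_pow_left₀ a0.le hσ 5, pow_pos a0 5]

end Pool.Agent.Lib.QE
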