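import Pool.Agent.Lib.QE.Kit

/-! The joint minimiser over subsets, phases and linear fits. -/

namespace Pool.Agent.Lib.QE

open Finset Matrix Complex Pool.Agent.Lib.MP_5d53d3_co
open scoped BigOperators ComplexConjugate

namespace JM

variable {n d : ℕ}

/-- the squared residual on `S` -/
noncomputable def G (S : Finset (X n)) (v0 : X n → Fin d → ℂ) (φ : X n → ℂ)
    (w : X n → Fin d → ℂ) : ℝ := ∑ x ∈ S, ns (φ x • v0 x - w x)

/-- the linear fit, cut off outside `S` -/
noncomputable def L (S : Finset (X n)) (π : Matrix (Fin n) (Fin n) ℝ) :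
    Matrix (Fin d) (Fin n) ℂ →ₗ[ℂ] (X n → Fin d → ℂ) where
  toFun U := fun x => if x ∈ S then (U * cx π) *ᵥ sv x else 0
  map_add' U V := by
    funext x
    by_cases h : x ∈ S <;> simp [h, Matrix.add_mul, Matrix.add_mulVec]
  map_smul' c U := by
    funext x
    by_cases h : x ∈ S <;> simp [h, Matrix.smul_mulVec]

theorem G_L (S : Finset (X n)) (v0 : X n → Fin d → ℂ) (φ : X n → ℂ)
    (π : Matrix (Fin n) (Fin n) ℝ) (U : Matrix (Fin d) (Fin n) ℂ) :
    G S v0 φ (L S π U) = G S v0 φ fun x => (U * cx π) *ᵥ sv x :=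
  Finset.sum_congr rfl fun x hx => by simp [L, hx]

theorem cont_G (S : Finset (X n)) (v0 : X n → Fin d → ℂ) :
    Continuous fun p : (X n → ℂ) × (X n → Fin d → ℂ) => G S v0 p.1 p.2 := by
  unfold G ns
  refine continuous_finsetSum _ fun x _ => continuous_finsetSum _ fun a _ => ?_
  refine Complex.continuous_normSq.comp ?_
  simp only [Pi.sub_apply, Pi.smul_apply, smul_eq_mul]
  fun_prop

theorem normSq_le_ns (v : Fin d → ℂ) (a : Fin d) : normSq (v a) ≤ ns v :=
  Finset.single_le_sum (f := fun a => normSq (v a)) (fun _ _ => normSq_nonneg _) (mem_univ a)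

theorem norm_le_of {z : ℂ} {C : ℝ} (h : normSq z ≤ C) : ‖z‖ ≤ C + 1 := by
  rw [normSq_eq_norm_sq] at h
  nlinarith [norm_nonneg z, sq_nonneg (‖z‖ - 1)]

theorem exists_min (S : Finset (X n)) (v0 : X n → Fin d → ℂ) (π : Matrix (Fin n) (Fin n) ℝ) :
    ∃ (φ : X n → ℂ) (U : Matrix (Fin d) (Fin n) ℂ), (∀ x, normSq (φ x) = 1) ∧
      ∀ (φ' : X n → ℂ) (U' : Matrix (Fin d) (Fin n) ℂ), (∀ x, normSq (φ' x) = 1) →
        G S v0 φ (fun x => (U * cx π) *ᵥ sv x) ≤ G S v0 φ' fun x => (U' * cx π) *ᵥ sv x := by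
  set C : ℝ := G S v0 (fun _ => 1) 0 with hC
  have hC0 : 0 ≤ C := Finset.sum_nonneg fun _ _ => ns_nonneg _
  set A : Set ((X n → ℂ) × (X n → Fin d → ℂ)) :=
    {p | (∀ x, normSq (p.1 x) = 1) ∧ p.2 ∈ LinearMap.range (L (d := d) S π) ∧
      G S v0 p.1 p.2 ≤ C} with hA
  have hcl : IsClosed A := by
    have h1 : IsClosed {p : (X n → ℂ) × (X n → Fin d → ℂ) | ∀ x, normSq (p.1 x) = 1} := by
      rw [Set.ofPred_forall]
      exact isClosed_iInter fun x => isClosed_eq
        (Complex.continuous_normSq.comp ((continuous_apply x).comp continuous_fst))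
        continuous_const
    have h2 : IsClosed {p : (X n → ℂ) × (X n → Fin d → ℂ) |
        p.2 ∈ LinearMap.range (L (d := d) S π)} :=
      (LinearMap.range (L (d := d) S π)).closed_of_finiteDimensional.preimage continuous_snd
    exact h1.inter (h2.inter (isClosed_le (cont_G S v0) continuous_const))
  have hbd : Bornology.IsBounded A := by
    refine (Metric.isBounded_closedBall (x := (0 : (X n → ℂ) × (X n → Fin d → ℂ)))
      (r := 4 * C + 2)).subset ?_
    rintro ⟨φ, w⟩ ⟨h1, ⟨U, rfl⟩, h3⟩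
    rw [mem_closedBall_zero_iff, Prod.norm_def, max_le_iff]
    refine ⟨(pi_norm_le_iff_of_nonneg (by linarith)).2 fun x => ?_,
      (pi_norm_le_iff_of_nonneg (by linarith)).2 fun x =>
        (pi_norm_le_iff_of_nonneg (by linarith)).2 fun a => ?_⟩
    · exact (norm_le_of (h1 x).le).trans (by linarith)
    · by_cases hx : x ∈ S
      · have e1 : ns (φ x • v0 x - L S π U x) ≤ C :=
          (Finset.single_le_sum (f := fun x => ns (φ x • v0 x - L S π U x))
            (fun _ _ => ns_nonneg _) hx).trans h3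
        have e2 : ns ((1 : ℂ) • v0 x - (0 : X n → Fin d → ℂ) x) ≤ C :=
          Finset.single_le_sum (f := fun x => ns ((1 : ℂ) • v0 x - (0 : X n → Fin d → ℂ) x))
            (fun _ _ => ns_nonneg _) hx
        rw [one_smul, Pi.zero_apply, sub_zero] at e2
        have e3 := ns_add_le ((-1 : ℂ) • (φ x • v0 x - L S π U x)) (φ x • v0 x)
        have e4 : (-1 : ℂ) • (φ x • v0 x - L S π U x) + φ x • v0 x = L S π U x := by
          rw [neg_one_smul]; abel
        have h1x : normSq (φ x) = 1 := h1 x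
        rw [e4, ns_smul, ns_smul, h1x, normSq_neg, normSq_one] at e3
        have e5 : ns (L S π U x) ≤ 4 * C := by linarith
        exact (norm_le_of ((normSq_le_ns _ a).trans e5)).trans (by linarith)
      · have : L S π U x = 0 := by simp [L, hx]
        show ‖L S π U x a‖ ≤ _
        rw [this]
        simp only [Pi.zero_apply, norm_zero]
        linarith
  have hne : ((fun _ => 1, 0) : (X n → ℂ) × (X n → Fin d → ℂ)) ∈ A :=
    ⟨fun _ => normSq_one, Submodule.zero_mem _, le_rfl⟩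
  obtain ⟨⟨φ, w⟩, ⟨h1, ⟨U, rfl⟩, h3⟩, hmin⟩ :=
    (Metric.isCompact_of_isClosed_isBounded hcl hbd).exists_isMinOn ⟨_, hne⟩
      (cont_G S v0).continuousOn
  refine ⟨φ, U, h1, fun φ' U' h' => ?_⟩
  rw [← G_L, ← G_L]
  by_cases hle : G S v0 φ' (L S π U') ≤ C
  · exact hmin (a := (φ', L S π U')) ⟨h', ⟨U', rfl⟩, hle⟩
  · exact h3.trans (not_le.1 hle).le

theorem eq_zero_of_quad {A : ℂ} {B : ℝ} (h : ∀ t : ℂ, 2 * (t * A).re ≤ normSq t * B) : A = 0 := by
  have hs : 0 < 1 / (|B| + 1) := by positivity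
  set s : ℝ := 1 / (|B| + 1) with hsd
  have h1 := h ((s : ℂ) * conj A)
  have e1 : ((s : ℂ) * conj A * A).re = s * normSq A := by
    rw [mul_assoc, ← normSq_eq_conj_mul_self, ← ofReal_mul, ofReal_re]
  rw [e1, map_mul, normSq_ofReal, normSq_conj] at h1
  have e2 : s * B ≤ 1 := by
    rw [hsd, one_div, inv_mul_le_iff₀ (by positivity)]
    linarith [le_abs_self B]
  have e3 : 0 ≤ s * normSq A := mul_nonneg hs.le (normSq_nonneg A)
  have e4 : s * normSq A ≤ 0 := by nlinarith [mul_le_mul_of_nonneg_left e2 e3]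
  have e5 : normSq A ≤ 0 := by
    by_contra hc
    exact absurd (mul_pos hs (not_le.1 hc)) (not_lt.2 e4)
  exact normSq_eq_zero.1 (le_antisymm e5 (normSq_nonneg A))

theorem im_eq_zero_of {z : ℂ} (h : ∀ ψ : ℂ, normSq ψ = 1 → (conj ψ * z).re ≤ z.re) :
    z.im = 0 := by
  by_cases hz : z = 0
  · simp [hz]
  have hn : 0 < ‖z‖ := norm_pos_iff.2 hz
  have h1 := h (((‖z‖⁻¹ : ℝ) : ℂ) * z) (by
    rw [map_mul, normSq_ofReal, normSq_eq_norm_sq]; field_simp)
  have e1 : (conj (((‖z‖⁻¹ : ℝ) : ℂ) * z) * z).re = ‖z‖ := by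
    rw [map_mul, conj_ofReal, mul_assoc, ← normSq_eq_conj_mul_self, ← ofReal_mul, ofReal_re,
      normSq_eq_norm_sq]
    field_simp
  rw [e1] at h1
  have e2 := normSq_apply z
  rw [normSq_eq_norm_sq] at e2
  have e3 : z.re ≤ ‖z‖ := Complex.re_le_norm z
  have e4 : z.re = ‖z‖ := le_antisymm e3 h1
  rw [e4] at e2
  exact mul_self_eq_zero.1 (by linarith)

theorem single_vec (π : Matrix (Fin n) (Fin n) ℝ) (c : Fin d) (i : Fin n) (x : X n) :
    ((Matrix.single c i (1 : ℂ) : Matrix (Fin d) (Fin n) ℂ) * cx π) *ᵥ sv x =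
      Pi.single c (((π *ᵥ sg x) i : ℝ) : ℂ) := by
  rw [← Matrix.mulVec_mulVec, cx_mulVec_sv, Matrix.single_mulVec, one_mul]
  rfl

end JM

theorem st_JM : JM := by
  intro n d S0 v0 π U0 ε hπ
  choose φ U h1 hmin using fun S : Finset (X n) => JM.exists_min S v0 π
  obtain ⟨S, hS, hm⟩ := S0.powerset.exists_min_image
    (fun S => JM.G S v0 (φ S) (fun x => (U S * cx π) *ᵥ sv x) + ε * n * (S0 \ S).card)
    ⟨S0, Finset.mem_powerset_self _⟩
  rw [Finset.mem_powerset] at hS
  have key : ∀ S' ⊆ S0, ∀ (φ' : X n → ℂ) (U' : Matrix (Fin d) (Fin n) ℂ),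
      (∀ x, normSq (φ' x) = 1) →
      JM.G S v0 (φ S) (fun x => (U S * cx π) *ᵥ sv x) + ε * n * (S0 \ S).card ≤
        JM.G S' v0 φ' (fun x => (U' * cx π) *ᵥ sv x) + ε * n * (S0 \ S').card :=
    fun S' hS' φ' U' h' => (hm S' (Finset.mem_powerset.2 hS')).trans
      (by linarith [hmin S' φ' U' h'])
  refine ⟨S, fun x => φ S x • v0 x, U S * cx π, hS, fun x _ => ⟨_, h1 S x, rfl⟩,
    ⟨?_, ?_, ?_, ?_⟩, ?_⟩
  · rw [Matrix.mul_assoc, hπ.cx_idem]
  · intro x hx
    have h := key (S.erase x) ((Finset.erase_subset _ _).trans hS) (φ S) (U S) (h1 S)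
    have e1 : S0 \ S.erase x = insert x (S0 \ S) := by
      rw [Finset.sdiff_erase (hS hx)]
    have e2 : x ∉ S0 \ S := fun h => (Finset.mem_sdiff.1 h).2 hx
    rw [e1, Finset.card_insert_of_notMem e2] at h
    unfold JM.G at h
    rw [← Finset.add_sum_erase S _ hx] at h
    push_cast at h
    unfold eE
    linarith
  · intro c i
    have hA : ∑ x ∈ S, ip (eE (fun x => φ S x • v0 x) (U S * cx π) x)
        (Pi.single c (((π *ᵥ sg x) i : ℝ) : ℂ)) = 0 := by
      refine JM.eq_zero_of_quad (B := ∑ x ∈ S,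
        ns (Pi.single c (((π *ᵥ sg x) i : ℝ) : ℂ) : Fin d → ℂ)) fun t => ?_
      have h := hmin S (φ S) (U S + t • Matrix.single c i (1 : ℂ)) (h1 S)
      have e1 : ∀ x, φ S x • v0 x - ((U S + t • Matrix.single c i (1 : ℂ)) * cx π) *ᵥ sv x =
          eE (fun x => φ S x • v0 x) (U S * cx π) x -
            t • (Pi.single c (((π *ᵥ sg x) i : ℝ) : ℂ) : Fin d → ℂ) := fun x => by
        rw [Matrix.add_mul, Matrix.add_mulVec, Matrix.smul_mul, Matrix.smul_mulVec,
          JM.single_vec, eE, sub_sub]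
      unfold JM.G at h
      simp only [e1] at h
      simp only [ns_sub (eE _ _ _), ns_smul, ip_smul_right, Finset.sum_sub_distrib,
        Finset.sum_add_distrib, ← Finset.mul_sum] at h
      have e2 : ∑ x ∈ S, ns (φ S x • v0 x - (U S * cx π) *ᵥ sv x) =
          ∑ x ∈ S, ns (eE (fun x => φ S x • v0 x) (U S * cx π) x) := rfl
      rw [Finset.mul_sum, Complex.re_sum]
      linarith
    have h2 := congrArg conj hA
    rw [map_sum, map_zero] at h2
    rw [← h2]
    refine Finset.sum_congr rfl fun x _ => ?_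
    rw [ip_conj, ip, Finset.sum_eq_single c (fun b _ hb => by simp [hb]) (by simp)]
    simp [mul_comm]
  · intro x hx
    refine JM.im_eq_zero_of fun ψ hψ => ?_
    have h := hmin S (Function.update (φ S) x (ψ * φ S x)) (U S) (fun y => by
      by_cases hy : y = x
      · rw [hy, Function.update_self, map_mul, hψ, h1, one_mul]
      · rw [Function.update_of_ne hy, h1])
    unfold JM.G at h
    rw [← Finset.add_sum_erase S _ hx, ← Finset.add_sum_erase S _ hx] at h
    have e1 : ∑ y ∈ S.erase x, ns (Function.update (φ S) x (ψ * φ S x) y • v0 y -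
        (U S * cx π) *ᵥ sv y) = ∑ y ∈ S.erase x, ns (φ S y • v0 y - (U S * cx π) *ᵥ sv y) :=
      Finset.sum_congr rfl fun y hy => by
        rw [Function.update_of_ne (Finset.ne_of_mem_erase hy)]
    rw [e1, Function.update_self, mul_smul, ns_sub, ns_sub, ns_smul ψ, hψ, ip_smul_left ψ] at h
    linarith
  · have h := key S0 (Finset.Subset.refl _) (fun _ => 1) U0 fun _ => normSq_one
    rw [Finset.sdiff_self, Finset.card_empty, Nat.cast_zero, mul_zero, add_zero] at h
    unfold JM.G at h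
    simp only [one_smul] at h
    unfold tau es mu eE
    rw [← mul_div_assoc, ← add_div]
    exact div_le_div_of_nonneg_right h card_Ev_pos.le

end Pool.Agent.Lib.QE
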