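import Pool.Agent.Lib.QE.Blue
import Pool.Agent.Lib.QE.Kit

/-! The sharp bound for one colour and the lower bound for the number of colours. -/

namespace Pool.Agent.Lib.QE

open Finset Matrix Complex Pool.Agent.Lib.MP_5d53d3_co
open scoped BigOperators ComplexConjugate

theorem main_num {b n s e : ℝ} (hb : 0 < b) (hb2 : b ≤ 1 / 2) (hs : 0 ≤ s) (hsb : s * b ≤ 1)
    (hn : 1 ≤ n * b ^ 38) (he : 4 * b ^ 2 * e = 1) :
    (1200 * s ^ 2 + 2 * 10 ^ 7 / (b / 4) ^ 4) / n ^ 2 ≤ 1 / (2 * n * e) := by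
  have hn0 : 0 < n := (mul_pos_iff_of_pos_right (by positivity)).1 (one_pos.trans_le hn)
  have he0 : 0 < e := (mul_pos_iff_of_pos_left (by positivity)).1 (one_pos.trans_eq he.symm)
  have h1 : b ^ 32 ≤ (1 / 2) ^ 32 := pow_le_pow_left₀ hb.le hb2 32
  have h2 : n * b ^ 38 ≤ n * b ^ 6 * (1 / 2) ^ 32 := by
    have := mul_le_mul_of_nonneg_left h1 (by positivity : 0 ≤ n * b ^ 6)
    linarith [show n * b ^ 38 = n * b ^ 6 * b ^ 32 by ring]
  have h3 : (s * b) ^ 2 ≤ 1 := pow_le_one₀ (by positivity) hsb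
  have h4 : b ^ 2 ≤ 1 := pow_le_one₀ hb.le (by linarith)
  have h5 : (s * b) ^ 2 * b ^ 2 ≤ 1 := mul_le_one₀ h3 (by positivity) h4
  have e1 : 1 / (2 * n * e) = 2 * (n * b ^ 6) / b ^ 4 / n ^ 2 := by
    rw [← he]
    field_simp
    norm_num
  have e2 : 1200 * s ^ 2 + 2 * 10 ^ 7 / (b / 4) ^ 4 =
      (1200 * ((s * b) ^ 2 * b ^ 2) + 2 * 10 ^ 7 * 256) / b ^ 4 := by
    field_simp
    norm_num
  rw [e1, e2]
  refine div_le_div_of_nonneg_right (div_le_div_of_nonneg_right ?_ (by positivity)) (by positivity)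
  norm_num at h2 ⊢
  linarith

theorem main_aux (hSA : SA) (hG : GAP) (hC : CEV) (hP : PASS) (hSC : SC) (n d t : ℕ)
    (P : X n → Matrix (Fin d) (Fin d) ℂ) (h4 : 4 ∣ n) (hd : d + t = n) (b : ℝ)
    (hb : b = 1 / 2 ^ (t + 1)) (hn : ∀ k ≤ 1320000, 1 ≤ n * b ^ k) (hR : PRep P)
    (hr : 1 / 2 ^ t < rk P) : rk P ≤ 1 / 2 ^ t + 1 / (2 * n * 4 ^ t) := by
  have hb0 : 0 < b := by rw [hb]; positivity
  have h2b : 1 / (2 : ℝ) ^ t = 2 * b := by rw [hb, pow_succ]; field_simp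
  have hb2 : b ≤ 1 / 2 := by
    have : 1 / (2 : ℝ) ^ t ≤ 1 := by
      rw [div_le_one (by positivity)]; exact one_le_pow₀ one_le_two
    linarith
  have hb1 : b ≤ 1 := by linarith
  have hm : ∀ {j k : ℕ}, j ≤ k → b ^ k ≤ b ^ j := fun h => pow_le_pow_of_le_one hb0.le hb1 h
  have hm1 : ∀ {k : ℕ}, 1 ≤ k → b ^ k ≤ b := fun h => by simpa using hm h
  have htb : ((t : ℝ) + 1) * b ≤ 1 := by
    rw [hb, mul_one_div, div_le_one (by positivity)]
    exact_mod_cast (Nat.lt_two_pow_self (n := t + 1)).le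
  have hdt : (d : ℝ) = n - t := by rw [← hd]; push_cast; ring
  have hA : (b ^ 60) ^ 200 = b ^ 12000 := by rw [← pow_mul]
  have hA1 : b ^ 12000 ≤ b := hm1 (by norm_num)
  have hG1 : b ^ 60 ≤ b := hm1 (by norm_num)
  have hn0 : (0 : ℝ) ≤ n := Nat.cast_nonneg n
  obtain ⟨S, v, U, hV, hv, hmu, hτ, hf⟩ := hSA (b ^ 12000) n d P (by positivity) (by linarith) h4
    (by rw [← pow_mul]; exact hn _ le_rfl) (by omega) hR (by linarith)
  obtain ⟨π0, hπ0, htr0, he0⟩ := hG (b ^ 60) n d t S v U (by positivity) (by linarith) h4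
    (by rw [hA]; exact hn _ (by norm_num)) hd (by
      have : (2 : ℝ) ^ t * (2 * b) = 1 := by rw [← h2b]; field_simp
      have h3 : (0 : ℝ) < 2 ^ t := by positivity
      nlinarith) hV (by linarith) (by rwa [hA]) (by rwa [hA])
  obtain ⟨π, S1, hπ, htr, hS1, hfix, hnd, hm1', hle⟩ := hC n t S π0 b hb (hn _ (by norm_num)) hV.1 hπ0
    (by rw [htr0, hdt]) (by linarith [hm (show 60 ≤ 12000 by norm_num)]) he0
  have hnd2 : (n : ℝ) / 2 ≤ d := by
    have h1 := hn 2 (by norm_num)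
    have h2 : 2 * ((t : ℝ) + 1) * b ^ 2 ≤ n * b ^ 2 := by nlinarith
    have h3 := le_of_mul_le_mul_right h2 (by positivity)
    linarith
  obtain ⟨A, W, hA1, hph, hW1, hW2, hnd'⟩ := hP b n d S1 v U π hb0 hb2 h4 (hn _ (by norm_num))
    ⟨hS1.trans hV.1, fun x hx => hV.2.1 x (hS1 hx), fun x hx y hy => hV.2.2 x (hS1 hx) y (hS1 hy)⟩
    hπ (by rw [htr, hdt]) hnd2 hfix hnd hm1'
    ((es_subset hS1 fun x _ => ns_nonneg _).trans (hτ.trans
      (mul_le_mul_of_nonneg_right (hm (by norm_num)) hn0)))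
  have h16 : 16 ≤ n := by
    have h1 := hn 4 (by norm_num)
    have h2 : b ^ 4 ≤ (1 / 2) ^ 4 := pow_le_pow_left₀ hb0.le hb2 4
    have h3 : (16 : ℝ) ≤ n := by nlinarith
    exact_mod_cast h3
  have := hSC n d P A W π (b / 4) (t + 1) h16 h4 hR (hA1.trans (hS1.trans hV.1)) hπ hW1 hW2 hnd'
    (by positivity) (by linarith) (by linarith [Nat.cast_nonneg (α := ℝ) t]) (by rw [htr]; linarith)
    (fun y hy => hfix y (hA1 hy)) fun y hy => by
      obtain ⟨φ, -, hφ⟩ := hph y hy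
      rw [show W *ᵥ sv y = φ • v y from hφ, mulVec_smul, hv y (hS1 (hA1 hy))]
  refine this.trans (add_le_add hle (main_num hb0 hb2 (by positivity) htb (hn _ (by norm_num)) ?_))
  rw [show (4 : ℝ) ^ t = 2 ^ t * 2 ^ t by rw [← mul_pow]; norm_num, hb, pow_succ 2 t]
  field_simp
  norm_num

theorem st_MAIN (hSA : SA) (hG : GAP) (hC : CEV) (hP : PASS) (hSC : SC) : MAIN := by
  refine ⟨1320000, fun n d t P h4 hd hn hR => ?_⟩
  rcases le_or_gt (rk P) (1 / 2 ^ t) with hr | hr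
  · exact hr.trans (le_add_of_nonneg_right (by positivity))
  refine main_aux hSA hG hC hP hSC n d t P h4 hd _ rfl (fun k hk => ?_) hR hr
  have h1 : 2 ^ ((t + 1) * k) ≤ n :=
    (Nat.pow_le_pow_right two_pos (by rw [mul_comm]; exact Nat.mul_le_mul_right _ hk)).trans hn
  rw [_root_.one_div_pow, ← pow_mul, mul_one_div, one_le_div (by positivity)]
  exact_mod_cast h1

theorem st_FIN (hM : MAIN) : FIN := by
  obtain ⟨K, hK⟩ := hM
  refine ⟨K, fun n d t h4 hd hn => ?_⟩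
  obtain ⟨Q, h1, h2, h3⟩ := exists_coloring (Omega n) d
  generalize chiD (Omega n) d = c at Q h1 h2 h3 ⊢
  have hn0 : 0 < n := (Nat.two_pow_pos _).trans_le hn
  have hs : ∑ k, rk (fun x => Q x k) = d := by
    unfold rk
    rw [← es_sum, es_congr (g := fun _ => (d : ℝ)) fun x _ => by
      rw [← re_sum, ← trace_sum, h2 x]; simp, es_const, mu_Ev, mul_one]
  have hle : (d : ℝ) ≤ c * (1 / 2 ^ t + 1 / (2 * n * 4 ^ t)) := by
    rw [← hs]
    refine (Finset.sum_le_sum fun k _ => hK n d t (fun x => Q x k) h4 hd hn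
      ⟨fun x => h1 x k, fun x y h => h3 x y (adj_of_orth hn0 h) k⟩).trans ?_
    rw [sum_const, card_univ, Fintype.card_fin, nsmul_eq_mul]
  by_contra hc
  have hc1 : (c : ℝ) + 1 ≤ d * 2 ^ t := by exact_mod_cast not_le.1 hc
  have hdn : (d : ℝ) ≤ n := by exact_mod_cast hd ▸ Nat.le_add_right d t
  have hn1 : (0 : ℝ) < n := by exact_mod_cast hn0
  have hu : (0 : ℝ) < 2 ^ t := by positivity
  rw [show (4 : ℝ) ^ t = 2 ^ t * 2 ^ t by rw [← mul_pow]; norm_num] at hle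
  generalize (2 : ℝ) ^ t = u at hle hc1 hu
  rw [show (c : ℝ) * (1 / u + 1 / (2 * n * (u * u))) = c * (2 * n * u + 1) / (2 * n * (u * u)) by
    field_simp, le_div_iff₀ (by positivity)] at hle
  have h5 := mul_le_mul_of_nonneg_right hc1 (by positivity : 0 ≤ 2 * n * u + 1)
  nlinarith [mul_le_mul_of_nonneg_right hdn hu.le, mul_pos hn1 hu]

end Pool.Agent.Lib.QE
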