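import Pool.Agent.Lib.QE.Four

/-! Merged subcubes: the retraction and the projector. -/

namespace Pool.Agent.Lib.QE

open Finset Matrix Complex Pool.Agent.Lib.MP_5d53d3_co
open scoped BigOperators ComplexConjugate

namespace MG

variable {n t : ℕ} {r : Fin n → Fin n} {e : X n}

theorem mem_Wc {x : X n} : x ∈ Wc r e ↔ ph r e x = x := by simp [Wc]

theorem ph_mem (h : Mg t r e) (x : X n) : ph r e x ∈ Wc r e :=
  mem_Wc.2 (funext fun j => by simp [ph, h.idem, h.one _ (h.idem j)])

theorem sg_ph (x : X n) (j : Fin n) : sg (ph r e x) j = sg e j * sg x (r j) := by simp [sg, ph]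

theorem sg_one (h : Mg t r e) (j : Fin n) : sg e (r j) = 1 := by simp [sg, h.one _ (h.idem j)]

theorem card_fib (h : Mg t r e) {w : X n} (hw : w ∈ Wc r e) :
    (univ.filter fun x => ph r e x = w).card = 2 ^ t := by
  have e1 : (univ.filter fun x => ph r e x = w) =
      Fintype.piFinset fun j => if r j ≠ j then univ else {w j} := by
    ext x
    simp only [mem_filter, mem_univ, true_and, Fintype.mem_piFinset]
    constructor
    · rintro rfl j
      split_ifs with hj
      · exact mem_univ _
      · rw [not_not] at hj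
        simp [ph, hj, h.one j hj]
    · intro hx
      rw [← mem_Wc.1 hw]
      funext j
      have := hx (r j)
      rw [if_neg (not_not.2 (h.idem j)), mem_singleton] at this
      simp only [ph, this]
  rw [e1, Fintype.card_piFinset, ← h.card]
  simp only [apply_ite Finset.card, card_singleton, card_univ, Fintype.card_units_int]
  rw [Finset.prod_ite, prod_const_one, mul_one, prod_const]

/-- size of a class -/
def kk (r : Fin n → Fin n) (i : Fin n) : ℕ := (univ.filter fun j => r j = i).card

theorem kk_pos (a : Fin n) : (0 : ℝ) < kk r (r a) := by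
  exact_mod_cast card_pos.2 ⟨a, by simp⟩

theorem sum_cls (r : Fin n → Fin n) (f : Fin n → ℝ) : ∑ a, f (r a) = ∑ i, kk r i * f i := by
  rw [← sum_fiberwise univ r]
  refine sum_congr rfl fun i _ => ?_
  rw [sum_congr rfl fun a ha => by rw [(mem_filter.1 ha).2], sum_const, nsmul_eq_mul, kk]

/-- the projector -/
noncomputable def pj (r : Fin n → Fin n) (e : X n) : Matrix (Fin n) (Fin n) ℝ :=
  Matrix.of fun a b => if r b = r a then sg e a * sg e b / kk r (r a) else 0

theorem pj_mulVec (u : Fin n → ℝ) (a : Fin n) :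
    (pj r e *ᵥ u) a = sg e a * pull r e u (r a) / kk r (r a) := by
  simp only [Matrix.mulVec, dotProduct, pj, Matrix.of_apply, pull, sum_filter, mul_sum, sum_div]
  exact sum_congr rfl fun b _ => by split_ifs <;> ring

theorem pull_eq {w : Fin n → ℝ} (hw : ∀ a, w a = sg e a * w (r a)) (i : Fin n) :
    pull r e w i = kk r i * w i := by
  rw [pull, sum_congr rfl fun a ha => (show w a * sg e a = w i by
    rw [hw a, (mem_filter.1 ha).2, mul_right_comm, sg_sq, one_mul]), sum_const, nsmul_eq_mul, kk]

theorem pj_fix (h : Mg t r e) (w : Fin n → ℝ) :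
    pj r e *ᵥ w = w ↔ ∀ a, w a = sg e a * w (r a) := by
  constructor
  · intro hw a
    rw [← congrFun hw a, ← congrFun hw (r a), pj_mulVec, pj_mulVec, h.idem, sg_one h]
    ring
  · intro hw
    funext a
    rw [pj_mulVec, pull_eq hw, hw a]
    have := kk_pos (r := r) a
    field_simp

theorem pj_proj (h : Mg t r e) : Proj (pj r e) := by
  constructor
  · ext a b
    simp only [pj, Matrix.transpose_apply, Matrix.of_apply]
    by_cases hab : r a = r b
    · simp [hab, mul_comm]
    · rw [if_neg hab, if_neg (Ne.symm hab)]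
  · ext a c
    refine congrFun ((pj_fix h fun b => pj r e b c).2 fun b => ?_) a
    simp only [pj, Matrix.of_apply, h.idem, sg_one h]
    split_ifs <;> ring

theorem pj_trace (h : Mg t r e) : (pj r e).trace = n - t := by
  have e1 : (pj r e).trace = ∑ a, 1 / (kk r (r a) : ℝ) :=
    sum_congr rfl fun a _ => by simp [pj, sg_sq]
  have e2 : ∀ i, (kk r i : ℝ) * (1 / kk r i) = 1 - if r i ≠ i then 1 else 0 := fun i => by
    split_ifs with hi
    · have : kk r i = 0 := card_eq_zero.2 (filter_eq_empty_iff.2 fun j _ hj =>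
        hi (by rw [← hj, h.idem]))
      simp [this]
    · have := kk_pos (r := r) i
      rw [not_not.1 hi] at this
      field_simp
      simp
  rw [e1, sum_cls r fun i => 1 / (kk r i : ℝ), sum_congr rfl fun i _ => e2 i, sum_sub_distrib,
    sum_boole, h.card]
  simp

theorem lf_ph (w : Fin n → ℝ) (x : X n) : lf w (ph r e x) = lf (pull r e w) x := by
  rw [lf, lf, ← sum_fiberwise univ r]
  refine sum_congr rfl fun i _ => ?_
  rw [pull, sum_mul]
  exact sum_congr rfl fun j hj => by rw [sg_ph, (mem_filter.1 hj).2, mul_assoc]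

theorem exists_single (h : Mg t r e) (hn : 2 * t + 2 < n) (a b : Fin n) :
    ∃ i, a ≠ i ∧ b ≠ i ∧ ∀ j, r j = i ↔ j = i := by
  obtain ⟨T, hT⟩ : ∃ T, T = univ.filter fun j => r j ≠ j := ⟨_, rfl⟩
  have c1 : T.card = t := hT ▸ h.card
  have c2 : (T ∪ T.image r ∪ {a, b}).card < (univ : Finset (Fin n)).card := by
    have := card_union_le (T ∪ T.image r) {a, b}
    have := card_union_le T (T.image r)
    have := card_image_le (s := T) (f := r)
    have := card_le_two (a := a) (b := b)
    rw [card_univ, Fintype.card_fin]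
    omega
  obtain ⟨i, -, hi⟩ := exists_mem_notMem_of_card_lt_card c2
  simp only [hT, mem_union, mem_image, mem_filter, mem_univ, true_and, mem_insert, mem_singleton,
    not_or, not_not, not_exists, not_and] at hi
  refine ⟨i, Ne.symm hi.2.1, Ne.symm hi.2.2, fun j => ⟨fun hj => ?_, fun hj => hj ▸ hj ▸ hi.1.1⟩⟩
  by_contra hji
  exact hi.1.2 j (by rw [hj]; exact Ne.symm hji) hj

theorem ex_pair (h : Mg t r e) (hn : 2 * t + 2 < n) (a b : Fin n) :
    𝔼 x, (1 + ch univ (ph r e x)) * (sg x a * sg x b) = if a = b then 1 else 0 := by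
  obtain ⟨i, ha, hb, hi⟩ := exists_single h hn a b
  have e1 : 𝔼 x, ch univ (ph r e x) * (sg x a * sg x b) = 0 := ex_odd i fun x => by
    have : ch univ (ph r e (x * fl i)) = ch univ (ph r e x) * ch univ (fl i) := by
      simp only [ch, sg_ph, sg_mul, sg_fl, hi, ← prod_mul_distrib, mul_assoc]
    rw [this, ch_fl, sg_mul, sg_mul, sg_fl, sg_fl, if_neg ha, if_neg hb, if_pos (mem_univ _)]
    ring
  simp only [add_mul, one_mul, expect_add_distrib, e1, add_zero]
  split_ifs with hab
  · simp [hab, sg_sq]
  · refine ex_odd a fun x => ?_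
    rw [sg_mul, sg_mul, sg_fl, sg_fl, if_pos rfl, if_neg (Ne.symm hab)]
    ring

end MG

open MG

theorem st_MG0 : MG0 := by
  intro n t r e F h
  rw [Fintype.expect_eq_sum_div_card, Fintype.expect_eq_sum_div_card, ← mul_div_assoc,
    ← sum_fiberwise_of_maps_to (s := univ) (t := Wc r e) fun x _ => ph_mem h x]
  refine congrArg (· / _) ?_
  simp only [ind, ite_mul, one_mul, zero_mul, sum_ite_mem, univ_inter, mul_sum]
  refine sum_congr rfl fun w hw => ?_
  rw [sum_congr rfl fun x hx => by rw [(mem_filter.1 hx).2], sum_const, card_fib h hw, nsmul_eq_mul]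
  simp

theorem st_MG1 : MG1 := by
  intro n t r e h hn
  have key : ∀ F : X n → ℝ, es (Wc r e ∩ Ev n) F =
      1 / 2 ^ t * 𝔼 x, (1 + ch univ (ph r e x)) * F (ph r e x) := fun F => by
    rw [st_MG0 n t r e (fun x => (1 + ch univ x) * F x) h, es_ind inter_subset_right,
      es_congr (g := fun x => ind (Wc r e) x * F x) fun x hx => by simp [ind, hx],
      es_Ev (by omega), ← mul_assoc, one_div_mul_cancel (by positivity), one_mul]
    exact expect_congr rfl fun x _ => by ring
  refine ⟨pj r e, pj_proj h, pj_trace h, fun x => ?_, ?_, fun w hw => ?_⟩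
  · rw [pj_fix h, mem_Wc]
    refine ⟨fun hx => funext fun j => ?_, fun hx j => by rw [← sg_ph, hx]⟩
    have := (sg_ph x j).trans (hx j).symm
    exact Units.ext (by simpa [sg, -Int.cast_mul] using this)
  · have := ex_pair h hn ⟨0, by omega⟩ ⟨0, by omega⟩
    simp only [sg_sq, if_true] at this
    rw [mu_eq_es, key, this, mul_one]
  · rw [key]
    refine mul_le_mul_of_nonneg_left ?_ (by positivity)
    have h1 := (pj_fix h w).1 hw
    have e1 : 𝔼 x, (1 + ch univ (ph r e x)) * lf w (ph r e x) ^ 2 = rs (pull r e w) := by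
      have : ∀ (c : ℝ) x a b, (1 + ch univ (ph r e x)) * (c * (sg x a * sg x b)) =
          c * ((1 + ch univ (ph r e x)) * (sg x a * sg x b)) := fun c x a b => by ring
      simp only [lf_ph, lf_sq, mul_sum, expect_sum_comm, this, ← mul_expect, ex_pair h hn]
      simp [rs, sq]
    have e2 : rs w = ∑ i, kk r i * w i ^ 2 := by
      rw [← sum_cls r fun i => w i ^ 2]
      exact sum_congr rfl fun a _ => by rw [h1 a, mul_pow, sq (sg e a), sg_sq, one_mul]
    rw [e1, e2]
    refine sum_le_sum fun i _ => ?_
    rw [pull_eq h1, mul_pow]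
    exact mul_le_mul_of_nonneg_right (by exact_mod_cast Nat.le_self_pow two_ne_zero _) (sq_nonneg _)

end Pool.Agent.Lib.QE
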