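import Pool.Agent.Lib.QE.B_CT

/-! Exact linear structure: two passes of the joint minimiser. -/

namespace Pool.Agent.Lib.QE

open Finset Matrix Complex Pool.Agent.Lib.MP_5d53d3_co
open scoped BigOperators ComplexConjugate

namespace PASSh

variable {n d : ℕ}

theorem vrep {S T : Finset (X n)} {v v' : X n → Fin d → ℂ} (h : VRep S v) (hT : T ⊆ S)
    (hp : Ph T v v') : VRep T v' := by
  refine ⟨hT.trans h.1, fun x hx => ?_, fun x hx y hy hxy => ?_⟩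
  · obtain ⟨φ, h1, h2⟩ := hp x hx
    rw [h2, ns_smul, h1, one_mul, h.2.1 x (hT hx)]
  · obtain ⟨φ, -, h2⟩ := hp x hx
    obtain ⟨ψ, -, h3⟩ := hp y hy
    rw [h2, h3, ip_smul_left, ip_smul_right, h.2.2 x (hT hx) y (hT hy) hxy]
    simp

theorem x0_zero {S : Finset (X n)} {π : Matrix (Fin n) (Fin n) ℝ}
    (h : ∀ x ∈ S, π *ᵥ sg x = sg x) : ∀ x ∈ S, x0 π x = 0 := fun x hx => by
  rw [x0, h x hx, sub_self]

theorem ll_zero {S : Finset (X n)} {π : Matrix (Fin n) (Fin n) ℝ}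
    (h : ∀ x ∈ S, π *ᵥ sg x = sg x) : LL S π = 0 := by
  refine Finset.sum_eq_zero fun a _ => Finset.sum_eq_zero fun b _ => ?_
  rw [es_congr (g := fun _ => 0) fun x hx => by simp [x0_zero h x hx], es_zero]
  simp

theorem zz_zero {S : Finset (X n)} {π : Matrix (Fin n) (Fin n) ℝ}
    (h : ∀ x ∈ S, π *ᵥ sg x = sg x) : ZZ S π = 0 := by
  unfold ZZ
  rw [es_congr (g := fun _ => 0) fun x hx => by simp [x0_zero h x hx, rs], es_zero]

theorem tau_pi {S : Finset (X n)} {π : Matrix (Fin n) (Fin n) ℝ}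
    (h : ∀ x ∈ S, π *ᵥ sg x = sg x) (v : X n → Fin d → ℂ) (U : Matrix (Fin d) (Fin n) ℂ) :
    tau S v (U * cx π) = tau S v U := by
  refine es_congr fun x hx => ?_
  have : cx π *ᵥ sv x = sv x := by rw [cx_mulVec_sv, h x hx]; rfl
  rw [eE, eE, ← Matrix.mulVec_mulVec, this]

theorem tau_nonneg (S : Finset (X n)) (v : X n → Fin d → ℂ) (U : Matrix (Fin d) (Fin n) ℂ) :
    0 ≤ tau S v U := es_nonneg fun _ _ => ns_nonneg _

theorem pw {θ : ℝ} (h0 : 0 < θ) (h1 : θ ≤ 1 / 2) (k : ℕ) : θ ^ k ≤ 1 / 2 ^ k := by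
  rw [← one_pow k, ← div_pow]
  exact pow_le_pow_left₀ h0.le h1 k

end PASSh

open PASSh in
theorem st_PASS (hJ : JM) (hS : SB) : PASS := by
  intro θ n d S v U0 π h0 h1 h4 hn hV hπ htr hd hfix hN hμ hτ
  have hθ1 : θ ≤ 1 := by linarith
  have dn : ∀ {a b : ℕ}, a ≤ b → θ ^ b ≤ θ ^ a := fun h => pow_le_pow_of_le_one h0.le hθ1 h
  have hn0 : (0 : ℝ) ≤ n := Nat.cast_nonneg n
  have h16r : (16 : ℝ) ≤ n := by
    have a1 := pw h0 h1 4
    have a2 : θ ^ 200 ≤ θ ^ 4 := dn (by norm_num)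
    have a3 := mul_le_mul_of_nonneg_left (a2.trans a1) hn0
    linarith
  have h16 : 16 ≤ n := by exact_mod_cast h16r
  have hnp : (0 : ℝ) < n := by linarith
  -- `u = 1 / n`
  obtain ⟨u, hu⟩ : ∃ u : ℝ, u = 1 / n := ⟨_, rfl⟩
  have hu0 : 0 < u := by rw [hu]; positivity
  have hun : u * n = 1 := by rw [hu]; field_simp
  have huθ : u ≤ θ ^ 200 := by
    rw [hu, div_le_iff₀ hnp]; linarith
  have hu1 : u ≤ 1 := huθ.trans (pow_le_one₀ h0.le hθ1)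
  obtain ⟨ε, hε⟩ : ∃ ε : ℝ, ε = θ ^ 33 := ⟨_, rfl⟩
  have hε0 : 0 < ε := by rw [hε]; positivity
  have hεn : 0 < ε * n := by positivity
  have hκ : ε ≤ (θ / 4) ^ 3 / 10 ^ 7 := by
    have a1 := pw h0 h1 30
    have a2 : θ ^ 33 = θ ^ 3 * θ ^ 30 := by ring
    have a3 := mul_le_mul_of_nonneg_left a1 (by positivity : 0 ≤ θ ^ 3)
    have a4 : 0 ≤ θ ^ 3 := by positivity
    rw [hε, a2, div_pow]
    norm_num at a3 ⊢
    linarith
  have hκ' : (θ / 4) ^ 3 / 10 ^ 7 ≤ (θ / 2) ^ 3 / 10 ^ 7 := by gcongr; norm_num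
  have hκ2 : θ ^ 66 ≤ ((θ / 4) ^ 3 / 10 ^ 7) ^ 2 := by
    rw [show θ ^ 66 = ε ^ 2 by rw [hε]; ring]
    exact pow_le_pow_left₀ hε0.le hκ 2
  have hκ2' : ((θ / 4) ^ 3 / 10 ^ 7) ^ 2 ≤ ((θ / 2) ^ 3 / 10 ^ 7) ^ 2 :=
    pow_le_pow_left₀ (by positivity) hκ' 2
  have hn66 : 1 ≤ n * ((θ / 4) ^ 3 / 10 ^ 7) ^ 2 :=
    hn.trans (mul_le_mul_of_nonneg_left ((dn (by norm_num)).trans hκ2) hn0)
  -- first pass
  obtain ⟨S1, v1, U1, hS1, hP1, hF1, hm1⟩ := hJ n d S v π U0 ε hπ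
  rw [tau_pi hfix] at hm1
  have hV1 := vrep hV hS1 hP1
  have hfix1 : ∀ x ∈ S1, π *ᵥ sg x = sg x := fun x hx => hfix x (hS1 hx)
  have hd1 : mu (S \ S1) ≤ (θ / 10) ^ 2 := by
    have a1 : ε * n * mu (S \ S1) ≤ ε * n * θ ^ 167 := by
      have : ε * n * θ ^ 167 = θ ^ 200 * n := by rw [hε]; ring
      linarith [tau_nonneg S1 v1 U1]
    have a2 := le_of_mul_le_mul_left a1 hεn
    have a3 : θ ^ 167 ≤ θ ^ 9 := dn (by norm_num)
    have a4 := mul_le_mul_of_nonneg_left (pw h0 h1 7) (by positivity : 0 ≤ θ ^ 2)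
    have a5 : θ ^ 9 = θ ^ 2 * θ ^ 7 := by ring
    have a6 : 0 ≤ θ ^ 2 := by positivity
    rw [div_pow]
    norm_num at a4 ⊢
    linarith
  have hN1 : NDeg S1 π (θ / 2) := by
    refine NDeg.sub (by omega) hN hS1 ?_
    have := Real.sqrt_le_iff.2 ⟨(by positivity : 0 ≤ θ / 10), hd1⟩
    linarith
  have hμ1 : θ / 2 ≤ mu S1 := by
    have := mu_sdiff hS1
    nlinarith
  obtain ⟨B, hB⟩ : ∃ B, B = (Ev n).filter fun x => (θ / 2 / 2) ^ 2 ≤ fe S1 x := ⟨_, rfl⟩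
  have hG1 : Good S1 B π (θ / 2) := hB ▸ good_of_fe (by omega) hV1.1 (by linarith) hN1
  have hBE : B ⊆ Ev n := hB ▸ Finset.filter_subset _ _
  have hμB : θ ^ 4 * mu B ≤ 256 * 10 ^ 7 * u ^ 2 := by
    have a1 := st_ERR n S1 (θ / 2 / 2) h16 h4 hV1.1 (by positivity) (by linarith)
    rw [← hB] at a1
    have a2 : es B (fun _ => (θ / 2 / 2) ^ 2) ≤ es B (fe S1) :=
      es_mono fun x hx => by rw [hB] at hx; exact (Finset.mem_filter.1 hx).2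
    rw [es_const] at a2
    have a3 := a2.trans a1
    rw [le_div_iff₀ (by positivity)] at a3
    have a4 := mul_le_mul_of_nonneg_right a3 (by positivity : 0 ≤ 256 * u ^ 2)
    have a5 : (θ / 2 / 2) ^ 2 * mu B * ((θ / 2 / 2) ^ 2 * (n : ℝ) ^ 2) * (256 * u ^ 2) =
        θ ^ 4 * mu B * (u * n) ^ 2 := by ring
    rw [a5, hun] at a4
    linarith
  have hB0 := mu_nonneg B
  have hμB' : mu B ≤ θ ^ 150 * u := by
    have a1 : 256 * 10 ^ 7 * θ ^ 46 ≤ 1 := by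
      have := pw h0 h1 46
      norm_num at this ⊢
      linarith
    have a2 : u ^ 2 ≤ θ ^ 200 * u := by rw [sq]; exact mul_le_mul_of_nonneg_right huθ hu0.le
    have a3 := mul_le_mul_of_nonneg_right a1 (by positivity : 0 ≤ θ ^ 4 * (θ ^ 150 * u))
    have a4 : 256 * 10 ^ 7 * θ ^ 46 * (θ ^ 4 * (θ ^ 150 * u)) = 256 * 10 ^ 7 * (θ ^ 200 * u) := by
      ring
    refine le_of_mul_le_mul_left ?_ (by positivity : 0 < θ ^ 4)
    linarith
  have hx1 : ε * n * mu B ≤ 1 := by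
    have a1 := mul_le_mul_of_nonneg_left hμB' hεn.le
    have a2 : ε * n * (θ ^ 150 * u) = θ ^ 183 * (u * n) := by rw [hε]; ring
    rw [a2, hun] at a1
    linarith [pow_le_one₀ (n := 183) h0.le hθ1]
  have hBκ : mu B ≤ ((θ / 2) ^ 3 / 10 ^ 7) ^ 2 := by
    have a1 : θ ^ 150 * u ≤ θ ^ 150 := mul_le_of_le_one_right (by positivity) hu1
    exact hμB'.trans (a1.trans ((dn (by norm_num)).trans (hκ2.trans hκ2')))
  have hs1 := (hS n d S1 B v1 π U1 ε (θ / 2) h4 hπ hV1 hBE hF1 hN1 hG1 (by positivity) hμ1 hε0.le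
    (hκ.trans hκ') (hn66.trans (mul_le_mul_of_nonneg_left hκ2' hn0)) hBκ hx1
    (by rw [ll_zero hfix1]; norm_num) (by rw [zz_zero hfix1]; exact hn0) (htr ▸ hd) htr.ge).2.1
  rw [ll_zero hfix1, zz_zero hfix1] at hs1
  -- second pass
  obtain ⟨A, v2, U, hA, hP2, hF2, hm2⟩ := hJ n d (S1 \ B) v1 π U1 ε hπ
  have hAS : A ⊆ S1 := hA.trans Finset.sdiff_subset
  rw [hF1.fix] at hm2
  have ht : tau (S1 \ B) v1 U1 ≤ tau S1 v1 U1 :=
    es_subset Finset.sdiff_subset fun _ _ => ns_nonneg _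
  have hρ1 : θ ^ 5 * mu ((S1 \ B) \ A) ≤ 96 * 10 ^ 6 * mu B := by
    have a1 : ε * n * mu ((S1 \ B) \ A) ≤ tau S1 v1 U1 := by linarith [tau_nonneg A v2 U]
    have a2 := mul_le_mul_of_nonneg_left a1 (by positivity : 0 ≤ (θ / 2) ^ 5)
    refine le_of_mul_le_mul_left ?_ hεn
    have a3 : (θ / 2) ^ 5 * (ε * n * mu ((S1 \ B) \ A)) =
        ε * n * (θ ^ 5 * mu ((S1 \ B) \ A)) / 32 := by ring
    have a4 : ε * n * (96 * 10 ^ 6 * mu B) = 32 * (3 * 10 ^ 6 * (ε * n * mu B)) := by ring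
    rw [zero_div] at hs1
    linarith
  have hρ : n * mu (S1 \ A) ≤ (θ / 40) ^ 2 := by
    have a0 : S1 \ A ⊆ (S1 \ B) \ A ∪ B := fun x hx => by
      rw [Finset.mem_sdiff] at hx
      by_cases h : x ∈ B
      · exact Finset.mem_union_right _ h
      · exact Finset.mem_union_left _ (Finset.mem_sdiff.2 ⟨Finset.mem_sdiff.2 ⟨hx.1, h⟩, hx.2⟩)
    have a1 := (mu_mono a0).trans (mu_union_le _ _)
    have a2 : θ ^ 5 * mu B ≤ mu B := mul_le_of_le_one_left hB0 (pow_le_one₀ h0.le hθ1)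
    have a3 := mul_le_mul_of_nonneg_left a1 (by positivity : 0 ≤ θ ^ 5)
    have a4 : θ ^ 5 * mu (S1 \ A) ≤ 10 ^ 8 * (θ ^ 150 * u) := by linarith
    have a5 := mul_le_mul_of_nonneg_left a4 hn0
    have a6 : n * (10 ^ 8 * (θ ^ 150 * u)) = 10 ^ 8 * θ ^ 150 * (u * n) := by ring
    rw [a6, hun] at a5
    have a7 : 16 * 10 ^ 10 * θ ^ 143 ≤ 1 := by
      have b1 := pw h0 h1 40
      have b2 : θ ^ 143 ≤ θ ^ 40 := dn (by norm_num)
      norm_num at b1 ⊢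
      linarith
    have a8 := mul_le_mul_of_nonneg_right a7 (by positivity : 0 ≤ θ ^ 7)
    have a9 : 16 * 10 ^ 10 * θ ^ 143 * θ ^ 7 = 1600 * (10 ^ 8 * θ ^ 150) := by ring
    refine le_of_mul_le_mul_left ?_ (by positivity : 0 < θ ^ 5)
    have a10 : θ ^ 5 * (θ / 40) ^ 2 = θ ^ 7 / 1600 := by ring
    have a11 : θ ^ 5 * (n * mu (S1 \ A)) = n * (θ ^ 5 * mu (S1 \ A)) := by ring
    linarith
  have hρ0 := mu_nonneg (S1 \ A)
  have hρ2 : mu (S1 \ A) ≤ (θ / 40) ^ 2 :=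
    (le_mul_of_one_le_left hρ0 (by linarith)).trans hρ
  have hρ3 : √n * √(mu (S1 \ A)) ≤ θ / 40 := by
    rw [← Real.sqrt_mul hn0]
    exact Real.sqrt_le_iff.2 ⟨by positivity, hρ⟩
  have hN2 : NDeg A π (θ / 4) := by
    refine NDeg.sub (by omega) hN1 hAS ?_
    have := Real.sqrt_le_iff.2 ⟨(by positivity : 0 ≤ θ / 40), hρ2⟩
    linarith
  have hμ2 : θ / 4 ≤ mu A := by
    have := mu_sdiff hAS
    nlinarith
  have hG2 : Good A ∅ π (θ / 4) := fun x hx _ w hw => by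
    have a1 := hG1 x (hAS hx) (Finset.mem_sdiff.1 (hA hx)).2 w hw
    rw [tn_sdiff hAS] at a1
    have a2 := tn_le_es h4 (by omega) (S1 \ A) x (f := fun y => lf w y ^ 2)
      fun _ _ => sq_nonneg _
    have a3 := mul_le_mul_of_nonneg_left (lf_small (by omega) (S1 \ A) w) (Real.sqrt_nonneg n)
    have a4 := mul_le_mul_of_nonneg_right hρ3 (rs_nonneg w)
    have a5 : √n * (5 * √(mu (S1 \ A)) * rs w) = 5 * (√n * √(mu (S1 \ A)) * rs w) := by ring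
    linarith
  have hV2 := vrep hV1 hAS hP2
  have hfix2 : ∀ x ∈ A, π *ᵥ sg x = sg x := fun x hx => hfix1 x (hAS hx)
  obtain ⟨e1, e2, e3⟩ := (hS n d A ∅ v2 π U ε (θ / 4) h4 hπ hV2 (Finset.empty_subset _) hF2 hN2
    hG2 (by positivity) hμ2 hε0.le hκ hn66 (by rw [mu_empty]; positivity)
    (by rw [mu_empty]; norm_num) (by rw [ll_zero hfix2]; norm_num)
    (by rw [zz_zero hfix2]; exact hn0) (htr ▸ hd) htr.ge).2.2 hfix2 rfl
  refine ⟨A, U, hAS.trans hS1, fun x hx => ?_, e2, e3, hN2⟩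
  obtain ⟨φ, p1, p2⟩ := hP1 x (hAS hx)
  obtain ⟨ψ, p3, p4⟩ := hP2 x hx
  refine ⟨ψ * φ, by rw [map_mul, p1, p3, one_mul], ?_⟩
  show U *ᵥ sv x = _
  rw [← e1 x hx, p4, p2, smul_smul]

end Pool.Agent.Lib.QE
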