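import Pool.Agent.Lib.QE.Kit

/-! Approximate linear structure of a projector valued representation. -/

namespace Pool.Agent.Lib.QE

open Finset Matrix Complex Pool.Agent.Lib.MP_5d53d3_co
open scoped BigOperators ComplexConjugate

theorem SA_num {θ e m r W T T4 C k : ℝ} (h0 : 0 < θ) (h1 : θ ≤ 1) (he : 0 ≤ e)
    (e1 : e ≤ θ ^ 2 / 10000) (m0 : 0 ≤ m) (m1 : m ≤ 3 * θ * e ^ 2) (r0 : θ ≤ r) (r1 : r ≤ 3)
    (W1 : W ≤ 6) (W0 : r ^ 2 - 2 * m ^ 2 ≤ W)
    (a1 : W ^ 2 ≤ r * (T + m * W + 12 * √(m * W * r))) (a2 : T ^ 2 ≤ W * (T4 + C))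
    (a3 : C ≤ 18 * √(m * r) * W + 3 * m * W * √W) (a4 : k ^ 2 ≤ 2 * W)
    (a5 : T4 ≤ (k - m) * T + 2 * k * m * W) : r - θ / 8 ≤ k := by
  have t2 : θ ^ 2 ≤ θ := by linarith [mul_le_mul_of_nonneg_left h1 h0.le]
  have e2 : e ≤ θ / 10000 := by linarith
  have e3 : e ≤ 1 / 10000 := by linarith
  have ee : e ^ 2 ≤ e / 10000 := by linarith [mul_le_mul_of_nonneg_left e3 he]
  have m2 : m ≤ θ * e / 2 := by
    linarith [mul_le_mul_of_nonneg_left ee h0.le, mul_nonneg h0.le he]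
  have te : θ * e ≤ e := mul_le_of_le_one_left he h1
  have m3 : m ≤ e := by linarith [mul_nonneg h0.le he]
  have mm : 2 * m ^ 2 ≤ r * e := by
    linarith [mul_le_mul_of_nonneg_right r0 he, mul_le_mul_of_nonneg_left m2 m0,
      mul_le_mul_of_nonneg_right (m3.trans e3) (mul_nonneg h0.le he), mul_nonneg h0.le he]
  have rp : 0 < r := h0.trans_le r0
  have tr : θ * r ≤ r ^ 2 := by linarith [mul_le_mul_of_nonneg_left r0 rp.le]
  have W2 : 3 * (θ * r) ≤ 4 * W := by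
    linarith [mul_le_mul_of_nonneg_left e2 rp.le, mul_pos h0 rp]
  have Wp : 0 < W := by linarith [mul_pos h0 rp]
  have s1 : √(m * W * r) ≤ 2 * e * W := by
    refine Real.sqrt_le_iff.2 ⟨by positivity, ?_⟩
    have b1 : m * r ≤ 4 * e ^ 2 * W := by
      linarith [mul_le_mul_of_nonneg_right m1 rp.le, mul_le_mul_of_nonneg_left W2 (sq_nonneg e)]
    linarith [mul_le_mul_of_nonneg_right b1 Wp.le]
  have s2 : √(m * r) ≤ 3 * e := by
    refine Real.sqrt_le_iff.2 ⟨by positivity, ?_⟩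
    linarith [mul_le_mul_of_nonneg_left r1 m0, mul_le_mul_of_nonneg_right h1 (sq_nonneg e)]
  have s3 : √W ≤ 3 := Real.sqrt_le_iff.2 ⟨by norm_num, by linarith⟩
  obtain ⟨t, rfl⟩ : ∃ t, T = t * W := ⟨T / W, by field_simp⟩
  have c1 : r ≤ t + 26 * e := by
    have b1 : W * W ≤ r * (t + m + 24 * e) * W := by
      linarith [mul_le_mul_of_nonneg_left s1 rp.le]
    have b2 := le_of_mul_le_mul_right b1 Wp
    refine le_of_mul_le_mul_left ?_ rp
    linarith [mul_le_mul_of_nonneg_left m3 rp.le]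
  have t0 : θ / 2 ≤ t := by linarith
  have tp : 0 < t := by linarith
  have k4 : k ≤ 4 := le_of_sq_le_sq (by linarith) (by norm_num)
  have c2 : t ^ 2 ≤ k * t + 71 * e := by
    have b1 : C ≤ 63 * e * W := by
      have x1 := mul_le_mul_of_nonneg_right s2 Wp.le
      have x2 := mul_le_mul m3 s3 (Real.sqrt_nonneg _) he
      linarith [mul_le_mul_of_nonneg_right x2 Wp.le]
    have b2 : k * m ≤ 4 * e := by linarith [mul_le_mul_of_nonneg_right k4 m0]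
    have b3 : T4 ≤ (k * t + 8 * e) * W := by
      linarith [mul_le_mul_of_nonneg_right b2 Wp.le, mul_nonneg (mul_nonneg m0 tp.le) Wp.le]
    refine le_of_mul_le_mul_right ?_ (mul_pos Wp Wp)
    linarith [mul_le_mul_of_nonneg_left (add_le_add b3 b1) Wp.le]
  by_contra hc
  have c3 : k ≤ t - θ / 16 := by linarith
  linarith [mul_le_mul_of_nonneg_right c3 tp.le, mul_le_mul_of_nonneg_left t0 h0.le, sq_pos_of_pos h0]

theorem st_SA (h0 : A0) (h1 : A1) (h2 : A2) (h2B : A2B) (h3 : A3) (h4 : A4) : SA := by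
  intro θ n d P θ0 θ1 n4 hn hd hP hr
  have pw : ∀ j : ℕ, θ ^ j ≤ (1 / 2) ^ j := fun j => pow_le_pow_left₀ θ0.le θ1 j
  have n16 : 16 ≤ n := by
    have a : θ ^ 110 ≤ 1 / 16 := (pw 110).trans (by norm_num)
    have b : (16 : ℝ) ≤ n := by linarith [mul_le_mul_of_nonneg_left a (Nat.cast_nonneg (α := ℝ) n)]
    exact_mod_cast b
  have np : (0 : ℝ) < n := Nat.cast_pos.2 (by omega)
  have dp : 0 < d := by
    rcases Nat.eq_zero_or_pos d with rfl | h
    · have : rk P = 0 := by simp [rk, es, Matrix.trace]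
      linarith
    · exact h
  obtain ⟨r3, a0, W6, W0⟩ := h0 n d P n16 n4 hd hP
  have m0 : 0 ≤ √(8 / n : ℝ) := Real.sqrt_nonneg _
  have mq : √(8 / n : ℝ) ^ 2 = 8 / n := Real.sq_sqrt (by positivity)
  have m1 : √(8 / n : ℝ) ≤ 3 * θ * (θ ^ 27) ^ 2 := by
    refine Real.sqrt_le_iff.2 ⟨by positivity, ?_⟩
    rw [div_le_iff₀ np, show (3 * θ * (θ ^ 27) ^ 2) ^ 2 * n = 9 * (n * θ ^ 110) by ring]
    linarith
  have e1 : θ ^ 27 ≤ θ ^ 2 / 10000 := by
    have a : θ ^ 25 ≤ 1 / 10000 := (pw 25).trans (by norm_num)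
    rw [show θ ^ 27 = θ ^ 2 * θ ^ 25 by ring]
    linarith [mul_le_mul_of_nonneg_left a (sq_nonneg θ)]
  have e0 : 0 ≤ θ ^ 27 := by positivity
  generalize θ ^ 27 = e at m1 e1 e0
  rw [← mq] at a0
  rw [show (16 : ℝ) / n = 2 * (8 / n) by ring, ← mq] at W0
  generalize √(8 / n : ℝ) = m at m0 m1 a0 W0
  obtain ⟨k, U, hE, k1, k2⟩ := h3 n d P m (by omega) dp hP.1 m0 a0
  have hk := SA_num θ0 (by linarith) e0 e1 m0 m1 hr r3 W6 W0 (h1 n d P m n16 hP.1 m0 a0)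
    (h2 n d P hP.1) (h2B n d P m n16 hP.1 m0 a0) k1 k2
  obtain ⟨f1, S, u, hS, hu, f2, f3⟩ := h4 n d P m k U n16 hP.1 m0 a0 hE (by linarith)
  have F0 := fs_nonneg (Uᴴ * U)
  have F1 : fs (Uᴴ * U) ≤ θ ^ 2 / 512 := by
    have a : (θ / 2) ^ 2 ≤ k ^ 2 := pow_le_pow_left₀ (by linarith) (by linarith) 2
    have b : e ^ 2 ≤ (θ ^ 2 / 10000) ^ 2 := pow_le_pow_left₀ e0 e1 2
    have c : θ * e ^ 2 ≤ e ^ 2 := mul_le_of_le_one_left (sq_nonneg e) (by linarith)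
    refine le_of_mul_le_mul_left ?_ (sq_pos_of_pos θ0)
    linarith [mul_le_mul_of_nonneg_right a F0, sq_nonneg (θ ^ 2)]
  have F2 : √(8 * fs (Uᴴ * U)) ≤ θ / 8 := Real.sqrt_le_iff.2 ⟨by positivity, by linarith⟩
  have q : normSq ((√(n : ℝ) : ℝ) : ℂ) = n := by
    rw [normSq_ofReal, Real.mul_self_sqrt np.le]
  refine ⟨S, fun x => ((√(n : ℝ) : ℝ) : ℂ) • u x, ((√(n : ℝ) : ℝ) : ℂ) • U,
    ⟨hS, fun x hx => by rw [ns_smul, q, (hu x hx).2, mul_one], fun x hx y hy hxy => ?_⟩,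
    fun x hx => by rw [mulVec_smul, (hu x hx).1], by linarith, ?_, ?_⟩
  · rw [ip_smul_left, ip_smul_right, ← (hu x hx).1, ← (hu y hy).1, ip_mulVec, mulVec_mulVec,
      (hP.1 x).1.eq, hP.2 x y hxy, zero_mulVec, ip_zero_right, mul_zero, mul_zero]
  · have : tau S (fun x => ((√(n : ℝ) : ℝ) : ℂ) • u x) (((√(n : ℝ) : ℝ) : ℂ) • U) =
        n * es S fun x => ns (eE u U x) := by
      rw [tau, ← es_mul]
      refine es_congr fun x _ => ?_
      rw [eE, eE, smul_mulVec, ← smul_sub, ns_smul, q]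
    rw [this, mul_comm θ]
    exact mul_le_mul_of_nonneg_left (by linarith) np.le
  · have : fs ((((√(n : ℝ) : ℝ) : ℂ) • U)ᴴ * ((√(n : ℝ) : ℝ) : ℂ) • U) = n * (n * fs (Uᴴ * U)) := by
      rw [conjTranspose_smul, Matrix.smul_mul, Matrix.mul_smul]
      simp only [fs, Matrix.smul_apply, smul_eq_mul, map_mul, Finset.mul_sum, q, star_def,
        normSq_conj]
    rw [this]
    linarith [mul_le_mul_of_nonneg_left F1 (mul_pos np np).le, sq_nonneg (θ * n)]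

end Pool.Agent.Lib.QE
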