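import Pool.Agent.Lib.QE.Blue
import Pool.Agent.Lib.QE.Kit

/-! The rigidity inequality. -/

namespace Pool.Agent.Lib.QE

open Finset Matrix Complex Pool.Agent.Lib.MP_5d53d3_co
open scoped BigOperators ComplexConjugate

theorem st_SB (hN : BN) (hLO : BLOW) (hCR : BCR) (hOM : BOM) (hAL : BALG) (hJ : BJ) (hNU : BNUM) :
    SB := by
  intro n d S B v π U ε σ h4 hP hV hB hF hD hG s0 sS e0 e1 n1 b1 b2 l1 z1 t1 t2
  have nn : ∀ {m : ℕ} (w : Fin m → ℂ), 0 ≤ ns w := fun w => sum_nonneg fun _ _ => normSq_nonneg _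
  have fn : ∀ {m k : ℕ} (A : Matrix (Fin m) (Fin k) ℂ), 0 ≤ fs A := fun A =>
    sum_nonneg fun _ _ => sum_nonneg fun _ _ => normSq_nonneg _
  have m1 := mu_le_one hV.1
  have n16 : (16 : ℝ) ≤ n := by
    have a : σ ^ 3 ≤ 1 := pow_le_one₀ s0.le (sS.trans m1)
    have b : (σ ^ 3 / 10 ^ 7) ^ 2 ≤ (1 / 4) ^ 2 :=
      pow_le_pow_left₀ (by positivity) (by linarith) 2
    nlinarith [mul_le_mul_of_nonneg_left b (Nat.cast_nonneg (α := ℝ) n)]
  have n16' : 16 ≤ n := by exact_mod_cast n16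
  have tp : 0 < π.trace := by linarith
  have l0 : 0 ≤ la π U := div_nonneg (fn U) tp.le
  have d0 : 0 ≤ del π U := fn _
  have τ0 : 0 ≤ tau S v U := es_nonneg fun _ _ => nn _
  have L0 : 0 ≤ LL S π := sum_nonneg fun _ _ => sum_nonneg fun _ _ => sq_nonneg _
  have Z0 : 0 ≤ ZZ S π := es_nonneg fun _ _ => sq_nonneg _
  obtain ⟨N1, N2⟩ := hN n d S v π U ε σ hP hV hF hD
  obtain ⟨O1, O2⟩ := hOM n d S v π U ε n16' h4 hP hV hF e0
  obtain ⟨A1, A2, A3⟩ := hAL n d S v π U hP hF.fix tp t2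
  obtain ⟨J1, J2, J3, J4⟩ := hJ n d S v π U ε n16' hP tp hV hF e0
  obtain ⟨R1, R2, R3⟩ := hNU σ ε n (mu B) (la π U) (del π U) (HH S v U) (NN S v π U) (tau S v U)
    (JJ S v π U) (k1 S v π U) (aa S π U) (g2 S v U) (LL S π) (ZZ S π) (mu S) s0 sS m1 e0
    (by linarith) (mu_nonneg B) l0 d0 (es_nonneg fun _ _ => nn _) τ0
    (div_nonneg (es_nonneg fun _ _ => normSq_nonneg _) (Nat.cast_nonneg _)) L0 Z0
    (sum_nonneg fun _ _ => sum_nonneg fun _ _ => normSq_nonneg _) e1 n1 b1 b2 l1 z1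
    (by rw [la, ← mul_div_assoc, div_le_iff₀ tp]; linarith) N1
    (hLO n d S B v π U ε σ n16' hP hV.1 hB hF hG s0.le e0 l0)
    (hCR n d S v π U ε n16' h4 hP hV hF e0) O1 O2 A1 J1 J2 J3
  refine ⟨fun h => ?_, R2, fun hx hb => ?_⟩
  · refine or_iff_not_imp_left.2 fun k => ?_
    have a : la π U ^ 2 ≤ del π U :=
      le_trans (le_mul_of_one_le_right (sq_nonneg _) (by linarith)) A2
    have b : (1 / 2 : ℝ) ^ 2 ≤ la π U ^ 2 := pow_le_pow_left₀ (by norm_num) R1 2
    have s5 : 0 < σ ^ 5 := by positivity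
    have c := mul_le_mul_of_nonneg_left a s5.le
    have e := mul_le_mul_of_nonneg_left b s5.le
    have f := mul_le_mul_of_nonneg_left (not_le.1 k).le
      (show 0 ≤ σ ^ 3 * la π U ^ 2 by positivity)
    have g : 0 ≤ ZZ S π / n + ε * n * mu B := by have := mu_nonneg B; positivity
    nlinarith
  · have x00 : ∀ x ∈ S, x0 π x = 0 := fun x h => by rw [x0, hx x h, sub_self]
    have L1 : LL S π = 0 := sum_eq_zero fun a _ => sum_eq_zero fun b _ => by
      rw [es_congr (g := fun _ => 0) fun x h => by simp [x00 x h], es_zero]; simp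
    have Z1 : ZZ S π = 0 := by
      rw [ZZ, es_congr (g := fun _ => 0) fun x h => by simp [x00 x h, rs], es_zero]
    have s5 : 0 < σ ^ 5 := by positivity
    rw [L1, Z1, hb, mu_empty] at R2 R3
    have τ1 : tau S v U = 0 := le_antisymm (nonpos_of_mul_nonpos_right (by simpa using R2) s5) τ0
    have d1 : del π U = 0 := le_antisymm (nonpos_of_mul_nonpos_right (by simpa using R3) s5) d0
    have l1 : la π U = 1 := by
      have := J4 τ1 d1 Z1
      rw [mul_eq_zero, or_iff_right (mul_pos (s0.trans_le sS) (by linarith)).ne'] at this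
      linarith
    refine ⟨fun x h => ?_, ?_, by simpa [l1] using A3 d1⟩
    · have a := es_eq_zero (fun _ _ => nn _) τ1 x h
      rw [ns, sum_eq_zero_iff_of_nonneg fun _ _ => normSq_nonneg _] at a
      exact sub_eq_zero.1 (funext fun c => normSq_eq_zero.1 (a c (mem_univ c)))
    · rw [del, fs, sum_eq_zero_iff_of_nonneg fun _ _ => sum_nonneg fun _ _ => normSq_nonneg _] at d1
      have : dD π U = 0 := Matrix.ext fun a b => normSq_eq_zero.1
        ((sum_eq_zero_iff_of_nonneg fun _ _ => normSq_nonneg _).1 (d1 a (mem_univ a)) b (mem_univ b))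
      rw [dD, l1, sub_eq_zero] at this
      simpa using this

end Pool.Agent.Lib.QE
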