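import Pool.Agent.Lib.QE.Four

/-! The spectral gap and the Hoffman identity. -/

namespace Pool.Agent.Lib.QE

open Finset Matrix Complex Pool.Agent.Lib.MP_5d53d3_co
open scoped BigOperators ComplexConjugate symmDiff

variable {n d : ℕ} {ι κ : Type}

theorem lam_small (hn : 16 ≤ n) : ∀ m : ℕ, 4 * (m + 2) ≤ n →
    |lam n (2 * (m + 2))| ≤ 4 / (n : ℝ) ^ 2
  | 0, _ => by
    have h : (16 : ℝ) ≤ n := by exact_mod_cast hn
    have h1 : lam n (2 * (0 + 2)) = 3 / ((n - 3) * (n - 1)) := by
      rw [show 2 * (0 + 2) = 2 + 2 from rfl, lam, lam_two]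
      have : (n : ℝ) - 1 ≠ 0 := by linarith
      have : (n : ℝ) - 3 ≠ 0 := by linarith
      have e : (n : ℝ) - (2 : ℕ) - 1 = n - 3 := by push_cast; ring
      rw [e]
      field_simp
      norm_num
    have h2 : (0 : ℝ) < (n - 3) * (n - 1) := mul_pos (by linarith) (by linarith)
    rw [h1, abs_of_pos (by positivity), div_le_div_iff₀ h2 (by positivity)]
    nlinarith
  | m + 1, h => by
    have ih := lam_small hn m (by omega)
    have h1 : (4 : ℝ) * (m + 3) ≤ n := by exact_mod_cast h
    have h0 : (0 : ℝ) ≤ m := Nat.cast_nonneg m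
    rw [show 2 * (m + 1 + 2) = 2 * (m + 2) + 2 by ring, lam, abs_mul, abs_neg]
    refine (mul_le_of_le_one_left (abs_nonneg _) ?_).trans ih
    push_cast
    rw [abs_of_nonneg (div_nonneg (by linarith) (by linarith)), div_le_one (by linarith)]
    linarith

theorem lam_half (hn : 16 ≤ n) {j : ℕ} (h : 2 * j ≤ n) (h0 : j ≠ 0) (h2 : j ≠ 2) :
    |lam n j| ≤ 4 / (n : ℝ) ^ 2 := by
  rcases Nat.even_or_odd' j with ⟨m, rfl | rfl⟩
  · obtain ⟨k, rfl⟩ : ∃ k, m = k + 2 := ⟨m - 2, by omega⟩
    exact lam_small hn k (by omega)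
  · rw [lam_odd, abs_zero]
    positivity

/-- eigenvalues above the second level -/
noncomputable def lp (U : Finset (Fin n)) : ℝ :=
  if U.card = 0 ∨ U.card = 2 ∨ U.card = n - 2 ∨ U.card = n then 0 else lam n U.card

theorem lp_le (hn : 16 ≤ n) (h4 : 4 ∣ n) (U : Finset (Fin n)) : |lp U| ≤ 4 / (n : ℝ) ^ 2 := by
  have hU : U.card ≤ n := by simpa using Finset.card_le_univ U
  unfold lp
  split_ifs with h
  · rw [abs_zero]
    positivity
  · by_cases h1 : 2 * U.card ≤ n
    · exact lam_half hn h1 (by omega) (by omega)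
    · rw [← lam_symm h4 hU]
      exact lam_half hn (by omega) (by omega) (by omega)

theorem pair_sum (U : Finset (Fin n)) (x : X n) :
    1 / 2 * ∑ i, ∑ j, (if i = j then 0 else if ({i, j} : Finset (Fin n)) = U then (1 : ℝ) else 0) *
      (sg x i * sg x j) = if U.card = 2 then ch U x else 0 := by
  split_ifs with h
  · obtain ⟨a, b, hab, rfl⟩ := Finset.card_eq_two.1 h
    rw [← Fintype.sum_prod_type', ← Finset.sum_subset (subset_univ {(a, b), (b, a)}),
      Finset.sum_pair (by simp [hab]), ch_pair hab]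
    · simp only [if_neg hab, if_neg hab.symm, Finset.pair_comm b a, if_true]
      ring
    · rintro ⟨i, j⟩ - ht
      by_cases h1 : i = j
      · simp [h1]
      · rw [if_neg h1, if_neg, zero_mul]
        intro h2
        have hi : i ∈ ({a, b} : Finset (Fin n)) := h2 ▸ by simp
        have hj : j ∈ ({a, b} : Finset (Fin n)) := h2 ▸ by simp
        simp only [Finset.mem_insert, Finset.mem_singleton, Prod.mk.injEq] at hi hj ht
        rcases hi with rfl | rfl <;> rcases hj with rfl | rfl <;> simp_all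
  · rw [Finset.sum_eq_zero, mul_zero]
    refine fun i _ => Finset.sum_eq_zero fun j _ => ?_
    by_cases h1 : i = j
    · simp [h1]
    · rw [if_neg h1, if_neg, zero_mul]
      rintro rfl
      exact h (Finset.card_pair h1)

theorem q2_ch (hn : 0 < n) (U : Finset (Fin n)) (x : X n) : q2 (Ev n) (ch U) x =
    (if U.card = 2 then ch U x else 0) + if Uᶜ.card = 2 then ch Uᶜ x else 0 := by
  rw [← pair_sum, ← pair_sum, ← mul_add, ← Finset.sum_add_distrib, q2]
  congr 1
  refine Finset.sum_congr rfl fun i _ => ?_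
  rw [← Finset.sum_add_distrib]
  refine Finset.sum_congr rfl fun j _ => ?_
  rw [← add_mul, c2]
  congr 1
  by_cases h : i = j
  · simp [h]
  · simp only [if_neg h]
    rw [es_congr (g := ch ({i, j} ∆ U)) fun z _ => by rw [← ch_mul, ch_pair h], es_ch hn]
    congr 1
    · exact if_congr symmDiff_eq_bot rfl rfl
    · refine if_congr ?_ rfl rfl
      simp only [Finset.ext_iff, Finset.mem_symmDiff, mem_univ, iff_true, Finset.mem_compl]
      exact forall_congr' fun a => by tauto

theorem res_ch (hn : 16 ≤ n) (h4 : 4 ∣ n) {x : X n} (hx : x ∈ Ev n) (U : Finset (Fin n)) :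
    tn (Ev n) x (ch U) - es (Ev n) (ch U) + q2 (Ev n) (ch U) x / (n - 1) = lp U * ch U x := by
  have hU : U.card ≤ n := by simpa using Finset.card_le_univ U
  have hc : Uᶜ.card = n - U.card := by simp [Finset.card_compl]
  have e0 : U = ∅ ↔ U.card = 0 := Finset.card_eq_zero.symm
  have e1 : U = univ ↔ U.card = n := by
    rw [← Finset.card_eq_iff_eq_univ, Fintype.card_fin]
  rw [tn_ch h4 hx, es_ch (by omega), q2_ch (by omega), ch_compl, mem_Ev.1 hx, mul_one, hc, lp]
  simp only [e0, e1]
  by_cases a0 : U.card = 0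
  · rw [if_pos a0, if_neg (by omega), if_neg (by omega), if_neg (by omega), if_pos (Or.inl a0),
      a0, e0.2 a0, ch_empty]
    simp [lam]
  by_cases a2 : U.card = 2
  · rw [if_neg a0, if_neg (by omega), if_pos a2, if_neg (by omega), if_pos (by omega), a2,
      lam_two]
    ring
  by_cases a3 : U.card = n - 2
  · rw [if_neg a0, if_neg (by omega), if_neg a2, if_pos (by omega), if_pos (by omega), a3,
      lam_symm h4 (by omega), lam_two]
    ring
  by_cases a4 : U.card = n
  · have := lam_symm h4 (Nat.zero_le n)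
    rw [if_neg a0, if_pos a4, if_neg a2, if_neg (by omega), if_pos (by omega), a4, e1.2 a4,
      mem_Ev.1 hx]
    simp only [Nat.sub_zero, lam] at this
    simp [this]
  · rw [if_neg a0, if_neg a4, if_neg a2, if_neg (by omega), if_neg (by omega)]
    ring

theorem q2_sum {α : Type*} (S : Finset (X n)) (T : Finset α) (c : α → ℝ) (f : α → X n → ℝ)
    (x : X n) : q2 S (fun z => ∑ t ∈ T, c t * f t z) x = ∑ t ∈ T, c t * q2 S (f t) x := by
  have h : ∀ i j, c2 S (fun z => ∑ t ∈ T, c t * f t z) i j = ∑ t ∈ T, c t * c2 S (f t) i j := by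
    intro i j
    unfold c2
    split_ifs
    · simp
    · simp only [Finset.mul_sum, es_sum, ← es_mul]
      exact Finset.sum_congr rfl fun t _ => es_congr fun z _ => by ring
  simp only [q2, h, Finset.sum_mul, Finset.mul_sum]
  rw [Finset.sum_comm (s := T)]
  refine Finset.sum_congr rfl fun i _ => ?_
  rw [Finset.sum_comm (s := T)]
  exact Finset.sum_congr rfl fun j _ => Finset.sum_congr rfl fun t _ => by ring

theorem q2_ind {S T : Finset (X n)} (h : S ⊆ T) (g : X n → ℝ) :
    q2 S g = q2 T fun z => if z ∈ S then g z else 0 := by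
  funext x
  simp only [q2, c2, es_ind h, mul_ite, mul_zero]

theorem parseval (G : X n → ℝ) : ∑ U, fc G U ^ 2 = 𝔼 x, G x ^ 2 := by
  have : ∀ x, G x ^ 2 = ∑ U, fc G U * (ch U x * G x) := fun x => by
    rw [sq]
    nth_rewrite 1 [inversion G x]
    rw [Finset.sum_mul]
    exact Finset.sum_congr rfl fun U _ => by ring
  simp only [this, Finset.expect_sum_comm, ← Finset.mul_expect, sq]
  rfl

theorem st_SPEC : SPEC := by
  intro n S g hn h4 hS
  have hn0 : 0 < n := by omega
  set G : X n → ℝ := fun z => if z ∈ S then g z else 0 with hG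
  have hG' : G = fun z => ∑ U, fc G U * ch U z := funext (inversion G)
  have h1 : ∀ x ∈ Ev n, tn S x g - es S g + q2 S g x / (n - 1) =
      ∑ U, fc G U * lp U * ch U x := fun x hx => by
    rw [tn_ind hS, es_ind hS, q2_ind hS, ← hG]
    nth_rewrite 1 [hG']
    nth_rewrite 2 [hG']
    nth_rewrite 3 [hG']
    simp only [tn_sum, tn_mul, es_sum, es_mul, q2_sum, Finset.sum_div, mul_assoc,
      ← res_ch hn h4 hx, ← Finset.sum_sub_distrib, ← Finset.sum_add_distrib]
    exact Finset.sum_congr rfl fun U _ => by ring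
  rw [es_congr fun x hx => by rw [h1 x hx]]
  refine (es_le_ex hn0 _ fun x => sq_nonneg _).trans ?_
  have h2 := ex_sq_le univ (fun U : Finset (Fin n) => U) (fun U => fc G U * lp U) (m := 1)
    fun U => Finset.card_le_one.2 fun a ha b hb =>
      (Finset.mem_filter.1 ha).2.trans (Finset.mem_filter.1 hb).2.symm
  have h3 : ∑ U, (fc G U * lp U) ^ 2 ≤ 16 / (n : ℝ) ^ 4 * ∑ U, fc G U ^ 2 := by
    rw [Finset.mul_sum]
    refine Finset.sum_le_sum fun U _ => ?_
    rw [mul_pow, mul_comm]
    refine mul_le_mul_of_nonneg_right ?_ (sq_nonneg _)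
    rw [← sq_abs]
    exact (pow_le_pow_left₀ (abs_nonneg _) (lp_le hn h4 U) 2).trans (le_of_eq (by ring))
  have h5 : (es S fun x => g x ^ 2) = 2 * 𝔼 x, G x ^ 2 := by
    rw [← es_univ hn0, es_ind (subset_univ S)]
    exact es_congr fun x _ => by simp only [hG]; split_ifs <;> simp
  rw [h5, ← parseval G]
  push_cast at h2
  linarith

/-- real families: bilinear form of the spectral gap -/
theorem spec_bil [Fintype ι] (hn : 16 ≤ n) (h4 : 4 ∣ n) {S : Finset (X n)} (hS : S ⊆ Ev n)
    (f : ι → X n → ℝ) :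
    |(ed S fun x y => ∑ a, f a x * f a y) - (∑ a, es S (f a) ^ 2 -
      1 / 2 * (∑ a, ∑ i, ∑ j, c2 S (f a) i j ^ 2) / (n - 1))| ≤
      4 / (n : ℝ) ^ 2 * es S fun x => ∑ a, f a x ^ 2 := by
  have h1 : (ed S fun x y => ∑ a, f a x * f a y) - (∑ a, es S (f a) ^ 2 -
      1 / 2 * (∑ a, ∑ i, ∑ j, c2 S (f a) i j ^ 2) / (n - 1)) =
      es S fun x => ∑ a, f a x * (tn S x (f a) - es S (f a) + q2 S (f a) x / (n - 1)) := by
    rw [ed, es_sum]
    simp only [tn_sum, tn_mul, es_sum, Finset.mul_sum, Finset.sum_div, ← Finset.sum_sub_distrib]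
    refine Finset.sum_congr rfl fun a _ => ?_
    have e : ∀ x, f a x * (tn S x (f a) - es S (f a) + q2 S (f a) x / (n - 1)) =
        f a x * tn S x (f a) - es S (f a) * f a x + f a x * q2 S (f a) x / (n - 1) :=
      fun x => by ring
    simp only [e, es_add, es_sub, es_mul, es_div, es_mul_q2, Finset.mul_sum, Finset.sum_div, sq]
    ring
  rw [h1]
  have h0 : 0 ≤ es S fun x => ∑ a, f a x ^ 2 := es_nonneg fun x _ => by positivity
  refine abs_le_of_sq_le_sq ((es_cs_sum S _ _).trans ?_) (by positivity)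
  have h2 : (es S fun x => ∑ a, (tn S x (f a) - es S (f a) + q2 S (f a) x / (n - 1)) ^ 2) ≤
      16 / (n : ℝ) ^ 4 * es S fun x => ∑ a, f a x ^ 2 := by
    refine (es_subset hS fun x _ => by positivity).trans ?_
    rw [es_sum, es_sum, Finset.mul_sum]
    exact Finset.sum_le_sum fun a _ => st_SPEC n S (f a) hn h4 hS
  exact (mul_le_mul_of_nonneg_left h2 h0).trans (le_of_eq (by ring))

theorem st_HOF : HOF := by
  intro n ι _ S F hn h4 hS
  have h := spec_bil hn h4 hS fun (p : ι × Bool) x => if p.2 then (F x p.1).re else (F x p.1).im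
  refine ⟨?_, ?_⟩
  · simp only [Fintype.sum_prod_type, Fintype.sum_bool, if_true, Bool.false_eq_true,
      if_false] at h
    simp only [ip, ns, w2, normSq_apply, ← sq, ec_re, ec_im, a2_re, a2_im, Complex.re_sum, mul_re,
      conj_re, conj_im, neg_mul, sub_neg_eq_add]
    simp only [Finset.sum_add_distrib] at h ⊢
    exact h
  · simp only [w2, ns]
    rw [es_sum]
    have := Finset.sum_le_sum fun a (_ : a ∈ univ) => sum_a2_le (by omega) hS fun z => F z a
    rw [← Finset.mul_sum] at this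
    linarith

theorem st_SM2 : SM2 := by
  intro n ι _ S F hn hS hF
  set f : ι × Bool → X n → ℝ := fun p x => if p.2 then (F x p.1).re else (F x p.1).im with hf
  have e1 : w2 S F = 1 / 2 * ∑ p, ∑ i, ∑ j, c2 S (f p) i j ^ 2 := by
    simp only [Fintype.sum_prod_type, Fintype.sum_bool, hf, if_true, Bool.false_eq_true, if_false,
      w2, normSq_apply, ← sq, a2_re, a2_im, Finset.sum_add_distrib]
  have e2 : ∀ x, ∑ p, f p x ^ 2 = ns (F x) := fun x => by
    simp only [Fintype.sum_prod_type, Fintype.sum_bool, hf, if_true, Bool.false_eq_true, if_false,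
      ns, normSq_apply, sq]
  have e3 : w2 S F = es S fun x => ∑ p, f p x * q2 S (f p) x := by
    simp only [e1, es_sum, es_mul_q2, Finset.mul_sum, sq]
  have hw : 0 ≤ w2 S F := by rw [e1]; positivity
  have h1 := es_cs_sum S (fun x p => f p x) fun x p => q2 S (f p) x
  rw [← e3] at h1
  have h2 : (es S fun x => ∑ p, f p x ^ 2) ≤ mu S := by
    simpa [e2] using es_le_mul hF
  have h3 := es_sq_le S fun x => ∑ p, q2 S (f p) x ^ 2
  have h4 := es_le_ex (by omega) S (f := fun x => (∑ p, q2 S (f p) x ^ 2) ^ 2) fun x => sq_nonneg _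
  have h5 := bonami_vec (fun p => q2 S (f p)) fun p => (q2_mem S (f p)).1
  have h6 : ∑ p, 𝔼 x, q2 S (f p) x ^ 2 ≤ 2 * w2 S F := by
    rw [e1, ← mul_assoc]
    simpa using Finset.sum_le_sum fun p (_ : p ∈ univ) => (q2_mem S (f p)).2
  have h7 := pow_le_pow_left₀ (Finset.sum_nonneg fun p _ =>
    Finset.expect_nonneg fun _ _ => sq_nonneg _) h6 2
  have hm := mu_nonneg S
  have h8 : (es S fun x => ∑ p, q2 S (f p) x ^ 2) ≤ 30 * √(mu S) * w2 S F := by
    refine (abs_le_of_sq_le_sq' (h3.trans ?_) (by positivity)).2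
    rw [mul_pow, mul_pow, Real.sq_sqrt hm]
    have : (es S fun x => (∑ p, q2 S (f p) x ^ 2) ^ 2) ≤ 900 * w2 S F ^ 2 := by
      nlinarith [sq_nonneg (w2 S F)]
    nlinarith [mul_le_mul_of_nonneg_left this hm]
  refine le_of_sq_le_mul (by positivity) (h1.trans ?_)
  exact (mul_le_mul h2 h8 (es_nonneg fun x _ => by positivity) hm).trans (le_of_eq (by ring))

end Pool.Agent.Lib.QE
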