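import Pool.Agent.Lib.QE.Blue
import Pool.Agent.Lib.MP_5d53d3_co.Upper

/-! QE row UP2: flat unitary matrices in dimension twice a square. -/

open Finset Complex
open scoped BigOperators Matrix ComplexConjugate Kronecker

namespace Pool.Agent.Lib.QE

open Pool.Agent.Lib.MP_5d53d3_co

namespace UP2h

theorem flat_kron {α β : Type} [Fintype α] [DecidableEq α] [Fintype β] [DecidableEq β]
    (A : Matrix α α ℂ) (B : Matrix β β ℂ) (a1 : Aᴴ = A) (a2 : A * A = (Fintype.card α : ℂ) • 1)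
    (a3 : ∀ j k, normSq (A j k) = 1) (b1 : Bᴴ = B) (b2 : B * B = (Fintype.card β : ℂ) • 1)
    (b3 : ∀ j k, normSq (B j k) = 1) : Flat (α × β) := by
  refine flat_of_herm (A ⊗ₖ B) ?_ ?_ fun j k ↦ ?_
  · rw [Matrix.conjTranspose_kronecker, a1, b1]
  · rw [← Matrix.mul_kronecker_mul, a2, b2, Matrix.smul_kronecker, Matrix.kronecker_smul,
      Matrix.one_kronecker_one, smul_smul, Fintype.card_prod, Nat.cast_mul]
  · rw [Matrix.kroneckerMap_apply, map_mul, a3, b3, one_mul]

theorem flat_two_sq (D : ℕ) [NeZero D] : Flat (ZMod 2 × (ZMod D × ZMod D)) := by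
  refine flat_kron (fun x y : ZMod 2 ↦ ZMod.stdAddChar (x * y))
    (fun x y : ZMod D × ZMod D ↦ ZMod.stdAddChar (x.1 * y.2 - x.2 * y.1)) ?_ ?_
    (fun _ _ ↦ normSq_psi _ _) ?_ ?_ fun _ _ ↦ normSq_psi _ _
  · ext x y
    simp only [Matrix.conjTranspose_apply, RCLike.star_def, ← AddChar.map_neg_eq_conj,
      CharTwo.neg_eq, mul_comm]
  · ext x y
    have : ∀ z : ZMod 2, x * z + z * y = z * (x - y) := fun z ↦ by
      rw [CharTwo.sub_eq_add]
      ring
    simp only [Matrix.mul_apply, ← AddChar.map_add_eq_mul, this,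
      sum_psi (ZMod.isPrimitive_stdAddChar 2), sub_eq_zero, Matrix.smul_apply, Matrix.one_apply]
    split_ifs <;> simp
  · ext x y
    simp only [Matrix.conjTranspose_apply, RCLike.star_def, ← AddChar.map_neg_eq_conj]
    congr 1
    ring
  · ext x y
    have : ∀ a b : ZMod D, ZMod.stdAddChar (x.1 * b - x.2 * a) *
        ZMod.stdAddChar (a * y.2 - b * y.1) =
        ZMod.stdAddChar (a * (y.2 - x.2)) * ZMod.stdAddChar (b * (x.1 - y.1)) := fun a b ↦ by
      rw [← AddChar.map_add_eq_mul, ← AddChar.map_add_eq_mul]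
      congr 1
      ring
    simp only [Matrix.mul_apply, Fintype.sum_prod_type, this, ← Finset.sum_mul_sum,
      sum_psi (ZMod.isPrimitive_stdAddChar D), sub_eq_zero, Matrix.smul_apply, Matrix.one_apply,
      Prod.ext_iff, eq_comm (a := y.2)]
    by_cases h1 : x.1 = y.1 <;> by_cases h2 : x.2 = y.2 <;> simp [h1, h2]

end UP2h

theorem st_UP2 : UP2 := by
  intro n m hm h
  have : NeZero m := ⟨hm.ne'⟩
  have hc : Fintype.card (ZMod 2 × (ZMod m × ZMod m)) = 2 * (m * m) := by simp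
  have h3 := upper_of_flat (UP2h.flat_two_sq m) (n := n) (a := 1) one_pos (by rwa [one_mul, hc])
  rw [one_mul, hc, Nat.add_sub_cancel] at h3
  exact h3

end Pool.Agent.Lib.QE
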