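import Pool.Agent.Lib.QE.Blue
import Pool.Agent.Lib.MP_5d53d3_co.Upper

/-! QE row UPP: Paley conference matrices give flat unitary matrices in dimension `q + 1`. -/

open Finset Complex
open scoped BigOperators Matrix ComplexConjugate

namespace Pool.Agent.Lib.QE

open Pool.Agent.Lib.MP_5d53d3_co

namespace UPPh

theorem flat_of_conf {β : Type} [Fintype β] [DecidableEq β] (C : Matrix β β ℂ) (s : ℂ) (q : ℝ)
    (hq : q ≤ Fintype.card β) (hs : s * s = 1) (h1 : Cᴴ = s • C) (h2 : C * Cᴴ = (q : ℂ) • 1)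
    (h3 : ∀ j k, j ≠ k → normSq (C j k) = 1) : Flat β := by
  intro N hN
  rcases isEmpty_or_nonempty β with h | h
  · exact ⟨1, Subsingleton.elim _ _, fun j ↦ isEmptyElim j⟩
  have h0 : (0 : ℝ) < N := lt_of_lt_of_le (by exact_mod_cast Fintype.card_pos) hN
  obtain ⟨κ, hκ⟩ : ∃ κ : ℝ, κ * κ = N - q := ⟨_, Real.mul_self_sqrt (by linarith)⟩
  obtain ⟨c, hc⟩ : ∃ c : ℝ, c * c = 1 / N := ⟨_, Real.mul_self_sqrt (by positivity)⟩
  obtain ⟨ω, hω1, hω2⟩ : ∃ ω : ℂ, ω * conj ω = 1 ∧ ω * s + conj ω = 0 := by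
    rcases mul_self_eq_one_iff.1 hs with h | h
    · exact ⟨I, by simp, by simp [h]⟩
    · exact ⟨1, by simp, by simp [h]⟩
  refine ⟨(c : ℂ) • ((κ * ω) • 1 + C), ?_, fun j k hjk ↦ by
    simp [Matrix.one_apply_ne hjk, h3 j k hjk, hc]⟩
  have e1 : (κ : ℂ) * κ = N - q := by exact_mod_cast hκ
  have e2 : (c : ℂ) * c * N = 1 := by
    have : c * c * N = 1 := by rw [hc]; field_simp
    exact_mod_cast this
  have h4 : ((c : ℂ) • ((κ * ω) • 1 + C)) * ((c : ℂ) • ((κ * ω) • 1 + C))ᴴ =
      ((c : ℂ) * c) • (((κ : ℂ) * κ * (ω * conj ω)) • 1 + (κ * ω) • Cᴴ + (κ * conj ω) • C +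
        C * Cᴴ) := by
    simp only [Matrix.conjTranspose_smul, Matrix.conjTranspose_add, Matrix.conjTranspose_one,
      Matrix.smul_mul, Matrix.mul_smul, Matrix.add_mul, Matrix.mul_add, Matrix.one_mul,
      Matrix.mul_one, star_mul', RCLike.star_def, conj_ofReal]
    match_scalars <;> ring
  rw [h4, h2, h1, hω1]
  match_scalars
  · linear_combination e2 + c * c * e1
  · linear_combination c * c * κ * hω2

theorem flat_opt (F : Type) [Field F] [Fintype F] [DecidableEq F] (hF : ringChar F ≠ 2) :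
    Flat (Option F) := by
  set χ : MulChar F ℂ := (quadraticChar F).ringHomComp (Int.castRingHom ℂ) with hχ
  have hq : χ.IsQuadratic := (quadraticChar_isQuadratic F).comp _
  have hne : χ ≠ 1 := (MulChar.ringHomComp_ne_one_iff Int.cast_injective).2
    (quadraticChar_ne_one hF)
  have hsq : ∀ t : F, t ≠ 0 → χ t * χ t = 1 := fun t ht ↦ by
    have := congrArg (fun z : ℤ ↦ (z : ℂ)) (quadraticChar_sq_one ht)
    simpa [hχ, sq] using this
  have hre : ∀ t : F, conj (χ t) = χ t := fun t ↦ by simp [hχ]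
  have hsum : ∀ x : F, ∑ z, χ (x - z) = 0 := fun x ↦ by
    rw [← MulChar.sum_eq_zero_of_ne_one hne]
    exact Equiv.sum_comp (Equiv.subLeft x) χ
  have hcor : ∀ x y : F, ∑ z, χ (x - z) * χ (y - z) =
      (if x = y then (Fintype.card F : ℂ) else 0) - 1 := by
    intro x y
    split_ifs with h
    · subst h
      have : ∀ z, χ (x - z) * χ (x - z) = 1 - if x = z then 1 else 0 := fun z ↦ by
        split_ifs with h
        · simp [h, MulChar.map_zero]
        · simpa using hsq _ (sub_ne_zero.2 h)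
      simp [this]
    · have h1 := jacobiSum_nontrivial_inv hne
      rw [hq.inv, jacobiSum] at h1
      have hc : x - y ≠ 0 := sub_ne_zero.2 h
      rw [← Equiv.sum_comp ((Equiv.mulLeft₀ (x - y) hc).trans (Equiv.subLeft x))]
      have : ∀ t : F, χ (x - ((Equiv.mulLeft₀ (x - y) hc).trans (Equiv.subLeft x)) t) *
          χ (y - ((Equiv.mulLeft₀ (x - y) hc).trans (Equiv.subLeft x)) t) =
          χ (-1) * (χ t * χ (1 - t)) := fun t ↦ by
        have e1 : x - (x - (x - y) * t) = (x - y) * t := by ring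
        have e2 : y - (x - (x - y) * t) = -1 * ((x - y) * (1 - t)) := by ring
        simp only [Equiv.trans_apply, Equiv.mulLeft₀_apply, Equiv.subLeft_apply, e1, e2, map_mul]
        linear_combination (χ (-1) * (χ t * χ (1 - t))) * hsq _ hc
      simp only [this, ← Finset.mul_sum, h1]
      linear_combination -hsq (-1) (by simp)
  have hs : χ (-1) * χ (-1) = 1 := hsq (-1) (by simp)
  have hn : ∀ t : F, t ≠ 0 → normSq (χ t) = 1 := fun t ht ↦ by
    apply Complex.ofReal_injective
    rw [normSq_eq_conj_mul_self, hre, hsq t ht, ofReal_one]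
  have e2 : ∀ x y : F, χ (y - x) = χ (-1) * χ (x - y) := fun x y ↦ by
    rw [← map_mul]; congr 1; ring
  let C : Matrix (Option F) (Option F) ℂ := fun i j ↦ match i, j with
    | none, none => 0
    | none, some _ => 1
    | some _, none => χ (-1)
    | some x, some y => χ (x - y)
  have c00 : C none none = 0 := rfl
  have c01 : ∀ y, C none (some y) = 1 := fun _ ↦ rfl
  have c10 : ∀ x, C (some x) none = χ (-1) := fun _ ↦ rfl
  have c11 : ∀ x y, C (some x) (some y) = χ (x - y) := fun _ _ ↦ rfl
  refine flat_of_conf C (χ (-1)) (Fintype.card F) (by simp) hs ?_ ?_ ?_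
  · ext i j
    rcases i with _ | x <;> rcases j with _ | y <;>
      simp only [Matrix.conjTranspose_apply, Matrix.smul_apply, smul_eq_mul, c00, c01, c10, c11,
        RCLike.star_def, hre, map_zero, map_one, mul_zero, mul_one, hs]
    exact e2 x y
  · ext i j
    rcases i with _ | x <;> rcases j with _ | y <;>
      simp only [Matrix.mul_apply, Fintype.sum_option, Matrix.conjTranspose_apply,
        Matrix.smul_apply, smul_eq_mul, c00, c01, c10, c11, RCLike.star_def, hre, map_zero,
        map_one, mul_zero, mul_one, zero_mul, one_mul, hs, hsum, hcor, Matrix.one_apply,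
        Option.some.injEq, ofReal_natCast]
    · simp
    · simp
    · simp
    · split_ifs <;> ring
  · intro i j hij
    rcases i with _ | x <;> rcases j with _ | y
    · exact absurd rfl hij
    · simp [c01]
    · exact hn _ (by simp)
    · exact hn _ (sub_ne_zero.2 fun h ↦ hij (congrArg some h))

end UPPh

theorem st_UPP : UPP := by
  classical
  intro n q hb ho h
  obtain ⟨p, k, hp, hk, rfl⟩ := (isPrimePow_nat_iff q).1 hb
  have := Fact.mk hp
  have := Fintype.ofFinite (GaloisField p k)
  have hc : Fintype.card (Option (GaloisField p k)) = p ^ k + 1 := by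
    rw [Fintype.card_option, ← Nat.card_eq_fintype_card, GaloisField.card p k hk.ne']
  have h2 : p ≠ 2 := by
    rintro rfl
    exact Nat.not_even_iff_odd.2 ho (Nat.even_pow.2 ⟨even_two, hk.ne'⟩)
  have h3 := upper_of_flat (UPPh.flat_opt (GaloisField p k)
    (by rwa [ringChar.eq (GaloisField p k) p])) (n := n) (a := 1) one_pos (by rwa [one_mul, hc])
  rw [one_mul, hc, Nat.add_sub_cancel] at h3
  exact h3

end Pool.Agent.Lib.QE
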