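import Pool.Agent.Lib.QE.Defs

/-! Statements of the independent steps. -/

namespace Pool.Agent.Lib.QE

open Finset Matrix Complex Pool.Agent.Lib.MP_5d53d3_co
open scoped BigOperators ComplexConjugate

/-- spectral gap above the second level -/
def SPEC : Prop := ∀ (n : ℕ) (S : Finset (X n)) (g : X n → ℝ), 16 ≤ n → 4 ∣ n → S ⊆ Ev n →
  (es (Ev n) fun x => (tn S x g - es S g + q2 S g x / (n - 1)) ^ 2) ≤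
    16 / (n : ℝ) ^ 4 * es S fun x => g x ^ 2

/-- two-sided Hoffman identity -/
def HOF : Prop := ∀ (n : ℕ) (ι : Type) [Fintype ι] (S : Finset (X n)) (F : X n → ι → ℂ),
  16 ≤ n → 4 ∣ n → S ⊆ Ev n →
  |(ed S fun x y => (ip (F x) (F y)).re) -
      (ns (fun a => ec S fun x => F x a) - w2 S F / (n - 1))| ≤
    4 / (n : ℝ) ^ 2 * es S (fun x => ns (F x)) ∧ w2 S F ≤ 2 * es S fun x => ns (F x)

/-- second level mass of a bounded function with small support -/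
def SM2 : Prop := ∀ (n : ℕ) (ι : Type) [Fintype ι] (S : Finset (X n)) (F : X n → ι → ℂ),
  16 ≤ n → S ⊆ Ev n → (∀ x ∈ S, ns (F x) ≤ 1) → w2 S F ≤ 30 * (mu S * √(mu S))

/-- cross terms -/
def CT : Prop := ∀ (n : ℕ) (κ : Type) [Fintype κ] (S : Finset (X n)) (g : X n → Fin n → ℂ)
  (k h : X n → κ → ℂ) (b : ℝ), 16 ≤ n → 4 ∣ n → S ⊆ Ev n → 0 ≤ b → (∀ x ∈ S, ns (k x) ≤ b) →
  (∀ x ∈ S, ∀ c, ∑ i, g x i * ec S (fun y => (sg y i : ℂ) * h y c) = 0) →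
  |ed S fun x y => ((∑ i, g x i * sg y i) * ip (k x) (h y)).re| ≤
    10 / n * √b * √(es S fun x => ns (h x)) *
      (√(es S fun x => ns (g x)) + √(es S fun x => normSq (∑ i, g x i * sg x i)))

/-- tail of the error of the neighbour covariance -/
def ERR : Prop := ∀ (n : ℕ) (S : Finset (X n)) (σ : ℝ), 16 ≤ n → 4 ∣ n → S ⊆ Ev n → 0 < σ →
  σ ≤ 1 → es ((Ev n).filter fun x => σ ^ 2 ≤ fe S x) (fe S) ≤ 10 ^ 7 / (σ ^ 2 * (n : ℝ) ^ 2)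

/-- Hoffman bound for projector valued representations -/
def A0 : Prop := ∀ (n d : ℕ) (P : X n → Matrix (Fin d) (Fin d) ℂ), 16 ≤ n → 4 ∣ n → d ≤ n →
  PRep P → rk P ≤ 3 ∧ fs (mM P) ≤ 8 / n ∧ W2 P ≤ 6 ∧ rk P ^ 2 - 16 / n ≤ W2 P

/-- lower bound for the triangle sum -/
def A1 : Prop := ∀ (n d : ℕ) (P : X n → Matrix (Fin d) (Fin d) ℂ) (m : ℝ), 16 ≤ n → PV P →
  0 ≤ m → fs (mM P) ≤ m ^ 2 → W2 P ^ 2 ≤ rk P * (T3 P + m * W2 P + 12 * √(m * W2 P * rk P))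

/-- partial transpose -/
def A2 : Prop := ∀ (n d : ℕ) (P : X n → Matrix (Fin d) (Fin d) ℂ), PV P →
  T3 P ^ 2 ≤ W2 P * (T4 P + Cr P)

/-- the crossed term -/
def A2B : Prop := ∀ (n d : ℕ) (P : X n → Matrix (Fin d) (Fin d) ℂ) (m : ℝ), 16 ≤ n → PV P →
  0 ≤ m → fs (mM P) ≤ m ^ 2 → Cr P ≤ 18 * √(m * rk P) * W2 P + 3 * m * W2 P * √(W2 P)

/-- top eigenvector of the block matrix -/
def A3 : Prop := ∀ (n d : ℕ) (P : X n → Matrix (Fin d) (Fin d) ℂ) (m : ℝ), 0 < n → 0 < d →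
  PV P → 0 ≤ m → fs (mM P) ≤ m ^ 2 → ∃ k U, Eig P U k ∧ k ^ 2 ≤ 2 * W2 P ∧
    T4 P ≤ (k - m) * T3 P + 2 * k * m * W2 P

/-- the eigenvector is an approximate linear model -/
def A4 : Prop := ∀ (n d : ℕ) (P : X n → Matrix (Fin d) (Fin d) ℂ) (m k : ℝ)
  (U : Matrix (Fin d) (Fin n) ℂ), 16 ≤ n → PV P → 0 ≤ m → fs (mM P) ≤ m ^ 2 → Eig P U k →
  0 < k → k ^ 2 * fs (Uᴴ * U) ≤ 20 * m ∧ ∃ (S : Finset (X n)) (u : X n → Fin d → ℂ), S ⊆ Ev n ∧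
    (∀ x ∈ S, P x *ᵥ u x = u x ∧ ns (u x) = 1) ∧ k - √(8 * fs (Uᴴ * U)) ≤ mu S ∧
    es S (fun x => ns (eE u U x)) ≤ 3 * √(8 * fs (Uᴴ * U)) + 2 * (rk P - k)

/-- approximate linear structure -/
def SA : Prop := ∀ (θ : ℝ) (n d : ℕ) (P : X n → Matrix (Fin d) (Fin d) ℂ), 0 < θ → θ ≤ 1 / 2 →
  4 ∣ n → 1 ≤ n * θ ^ 110 → d ≤ n → PRep P → θ ≤ rk P →
  ∃ (S : Finset (X n)) (v : X n → Fin d → ℂ) (U : Matrix (Fin d) (Fin n) ℂ), VRep S v ∧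
    (∀ x ∈ S, P x *ᵥ v x = v x) ∧ rk P - θ ≤ mu S ∧ tau S v U ≤ θ * n ∧
    fs (Uᴴ * U) ≤ (θ * n) ^ 2

/-- joint minimiser -/
def JM : Prop := ∀ (n d : ℕ) (S0 : Finset (X n)) (v0 : X n → Fin d → ℂ)
  (π : Matrix (Fin n) (Fin n) ℝ) (U0 : Matrix (Fin d) (Fin n) ℂ) (ε : ℝ), Proj π →
  ∃ (S : Finset (X n)) (v : X n → Fin d → ℂ) (U : Matrix (Fin d) (Fin n) ℂ), S ⊆ S0 ∧
    Ph S v0 v ∧ Fit S v π U ε ∧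
    tau S v U + ε * n * mu (S0 \ S) ≤ tau S0 v0 (U0 * cx π)

/-- size of the linear part -/
def BN : Prop := ∀ (n d : ℕ) (S : Finset (X n)) (v : X n → Fin d → ℂ)
  (π : Matrix (Fin n) (Fin n) ℝ) (U : Matrix (Fin d) (Fin n) ℂ) (ε σ : ℝ), Proj π → VRep S v →
  Fit S v π U ε → NDeg S π σ → σ * del π U + HH S v U ≤ NN S v π U ∧ σ * fs U ≤ n

/-- lower bound for the main term -/
def BLOW : Prop := ∀ (n d : ℕ) (S B : Finset (X n)) (v : X n → Fin d → ℂ)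
  (π : Matrix (Fin n) (Fin n) ℝ) (U : Matrix (Fin d) (Fin n) ℂ) (ε σ : ℝ), 16 ≤ n → Proj π →
  S ⊆ Ev n → B ⊆ Ev n → Fit S v π U ε → Good S B π σ → 0 ≤ σ → 0 ≤ ε → 0 ≤ la π U →
  σ / 2 * (NN S v π U - (10 * √(mu B) * del π U +
    2 * (la π U + √(del π U)) * (ε * n * mu B))) - 2 * JJ S v π U ≤ k1 S v π U

/-- upper bound for the main term -/
def BCR : Prop := ∀ (n d : ℕ) (S : Finset (X n)) (v : X n → Fin d → ℂ)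
  (π : Matrix (Fin n) (Fin n) ℝ) (U : Matrix (Fin d) (Fin n) ℂ) (ε : ℝ), 16 ≤ n → 4 ∣ n →
  Proj π → VRep S v → Fit S v π U ε → 0 ≤ ε →
  k1 S v π U ≤ 20 / n * (√n * √(HH S v U) + √(ε * n) * √(tau S v U)) *
    (√(NN S v π U) + √(n * JJ S v π U)) + aa S π U

/-- the quadratic term -/
def BOM : Prop := ∀ (n d : ℕ) (S : Finset (X n)) (v : X n → Fin d → ℂ)
  (π : Matrix (Fin n) (Fin n) ℝ) (U : Matrix (Fin d) (Fin n) ℂ) (ε : ℝ), 16 ≤ n → 4 ∣ n →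
  Proj π → VRep S v → Fit S v π U ε → 0 ≤ ε →
  g2 S v U ≤ 3 * (k1 S v π U + 2 * HH S v U + aa S π U) + 3 * ε * tau S v U ∧
    aa S π U ≤ la π U ^ 2 * (LL S π + 4 * ZZ S π / (n : ℝ) ^ 2)

/-- trace identities -/
def BALG : Prop := ∀ (n d : ℕ) (S : Finset (X n)) (v : X n → Fin d → ℂ)
  (π : Matrix (Fin n) (Fin n) ℝ) (U : Matrix (Fin d) (Fin n) ℂ), Proj π → U * cx π = U →
  0 < π.trace → (d : ℝ) ≤ π.trace →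
  la π U * tau S v U ≤ HH S v U + √(g2 S v U) * √(del π U) ∧
    la π U ^ 2 * (π.trace - d) ≤ del π U ∧ (del π U = 0 → U * Uᴴ = (la π U : ℂ) • 1)

/-- the radial component -/
def BJ : Prop := ∀ (n d : ℕ) (S : Finset (X n)) (v : X n → Fin d → ℂ)
  (π : Matrix (Fin n) (Fin n) ℝ) (U : Matrix (Fin d) (Fin n) ℂ) (ε : ℝ), 16 ≤ n → Proj π →
  0 < π.trace → VRep S v → Fit S v π U ε → 0 ≤ ε →
  JJ S v π U ≤ 4 * ε * tau S v U + 32 * del π U / n + 4 * la π U ^ 2 * ZZ S π / n ∧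
    mu S * n * (1 - la π U) ≤ tau S v U + √(8 * del π U) ∧ tau S v U ≤ ε * n * mu S ∧
    (tau S v U = 0 → del π U = 0 → ZZ S π = 0 → mu S * n * (1 - la π U) = 0)

/-- the numerical part of the rigidity inequality -/
def BNUM : Prop := ∀ (σ ε n β l δ H N τ J k a g L Z s : ℝ), 0 < σ → σ ≤ s → s ≤ 1 → 0 ≤ ε →
  0 < n → 0 ≤ β → 0 ≤ l → 0 ≤ δ → 0 ≤ H → 0 ≤ τ → 0 ≤ J → 0 ≤ L → 0 ≤ Z → 0 ≤ g →
  ε ≤ σ ^ 3 / 10 ^ 7 → 1 ≤ n * (σ ^ 3 / 10 ^ 7) ^ 2 → β ≤ (σ ^ 3 / 10 ^ 7) ^ 2 →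
  ε * n * β ≤ 1 → L ≤ 1 → Z ≤ n → σ * l ≤ 2 → σ * δ + H ≤ N →
  σ / 2 * (N - (10 * √β * δ + 2 * (l + √δ) * (ε * n * β))) - 2 * J ≤ k →
  k ≤ 20 / n * (√n * √H + √(ε * n) * √τ) * (√N + √(n * J)) + a →
  g ≤ 3 * (k + 2 * H + a) + 3 * ε * τ → a ≤ l ^ 2 * (L + 4 * Z / n ^ 2) →
  l * τ ≤ H + √g * √δ → J ≤ 4 * ε * τ + 32 * δ / n + 4 * l ^ 2 * Z / n →
  s * n * (1 - l) ≤ τ + √(8 * δ) → τ ≤ ε * n * s →
  1 / 2 ≤ l ∧ σ ^ 5 * τ ≤ 205 * L + 3 * 10 ^ 6 * (Z / n + ε * n * β) ∧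
    σ ^ 5 * δ ≤ 4 * σ ^ 3 * l ^ 2 * L + 2 * 10 ^ 5 * (Z / n + ε * n * β)

/-- the rigidity inequality -/
def SB : Prop := ∀ (n d : ℕ) (S B : Finset (X n)) (v : X n → Fin d → ℂ)
  (π : Matrix (Fin n) (Fin n) ℝ) (U : Matrix (Fin d) (Fin n) ℂ) (ε σ : ℝ), 4 ∣ n → Proj π →
  VRep S v → B ⊆ Ev n → Fit S v π U ε → NDeg S π σ → Good S B π σ → 0 < σ → σ ≤ mu S → 0 ≤ ε →
  ε ≤ σ ^ 3 / 10 ^ 7 → 1 ≤ n * (σ ^ 3 / 10 ^ 7) ^ 2 → mu B ≤ (σ ^ 3 / 10 ^ 7) ^ 2 →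
  ε * n * mu B ≤ 1 → LL S π ≤ 1 → ZZ S π ≤ n → (n : ℝ) / 2 ≤ π.trace → (d : ℝ) ≤ π.trace →
  ((d : ℝ) + 1 ≤ π.trace → σ ^ 2 ≤ 8 * LL S π ∨
    σ ^ 5 ≤ 2 * 10 ^ 6 * (ZZ S π / n + ε * n * mu B)) ∧
  σ ^ 5 * tau S v U ≤ 205 * LL S π + 3 * 10 ^ 6 * (ZZ S π / n + ε * n * mu B) ∧
  ((∀ x ∈ S, π *ᵥ sg x = sg x) → B = ∅ →
    (∀ x ∈ S, v x = U *ᵥ sv x) ∧ Uᴴ * U = cx π ∧ U * Uᴴ = 1)

/-- one more almost degenerate direction -/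
def GSTEP : Prop := ∀ (θ : ℝ) (n d : ℕ) (S : Finset (X n)) (v : X n → Fin d → ℂ)
  (U : Matrix (Fin d) (Fin n) ℂ) (π : Matrix (Fin n) (Fin n) ℝ) (σ : ℝ), 0 < θ → θ ≤ 1 / 2 →
  4 ∣ n → 1 ≤ n * θ ^ 200 → VRep S v → θ ≤ mu S → tau S v U ≤ θ ^ 200 * n →
  fs (Uᴴ * U) ≤ (θ ^ 200 * n) ^ 2 → Proj π → (d : ℝ) + 1 ≤ π.trace → (n - π.trace) * θ ≤ 1 →
  θ ^ 10 ≤ σ → σ ≤ θ → 10 * es S (fun x => rs (x0 π x)) ≤ σ → ¬ NDeg S π σ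

/-- `n - d` almost degenerate directions -/
def GAP : Prop := ∀ (θ : ℝ) (n d t : ℕ) (S : Finset (X n)) (v : X n → Fin d → ℂ)
  (U : Matrix (Fin d) (Fin n) ℂ), 0 < θ → θ ≤ 1 / 2 → 4 ∣ n → 1 ≤ n * θ ^ 200 → d + t = n →
  2 ^ t * θ ≤ 1 → VRep S v → θ ≤ mu S → tau S v U ≤ θ ^ 200 * n →
  fs (Uᴴ * U) ≤ (θ ^ 200 * n) ^ 2 →
  ∃ π : Matrix (Fin n) (Fin n) ℝ, Proj π ∧ π.trace = d ∧ es S (fun x => rs (x0 π x)) ≤ θ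

/-- small ball bound for regular linear forms -/
def FEJ : Prop := ∀ (n : ℕ) (w : Fin n → ℝ) (η : ℝ), 0 < η → η ≤ 1 → rs w = 1 →
  (∀ i, |w i| ≤ η ^ 2 / 100) → den (univ.filter fun x : X n => |lf w x| ≤ η ^ 2 / 100) ≤ η

/-- an almost Boolean linear form is almost a dictator -/
def FKN : Prop := ∀ (n : ℕ) (c : Fin n → ℝ) (δ : ℝ), 0 ≤ δ → δ ≤ 1 / 40 →
  399 / 400 ≤ den (univ.filter fun x : X n => |lf c x ^ 2 - 1| ≤ 3 * δ) →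
  ∃ i, 9 / 10 ≤ |c i| ∧
    den (univ.filter fun x : X n => 1 / 4 ≤ |lf c x - c i * sg x i|) ≤ 200 * δ ^ 2

/-- the retraction pushes the uniform measure to the uniform measure of the subcube -/
def MG0 : Prop := ∀ (n t : ℕ) (r : Fin n → Fin n) (e : X n) (F : X n → ℝ), Mg t r e →
  𝔼 x, F (ph r e x) = 2 ^ t * 𝔼 x, ind (Wc r e) x * F x

/-- the projector onto a merged subcube -/
def MG1 : Prop := ∀ (n t : ℕ) (r : Fin n → Fin n) (e : X n), Mg t r e → 2 * t + 2 < n →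
  ∃ π : Matrix (Fin n) (Fin n) ℝ, Proj π ∧ π.trace = n - t ∧
    (∀ x, π *ᵥ sg x = sg x ↔ x ∈ Wc r e) ∧ mu (Wc r e ∩ Ev n) = 1 / 2 ^ t ∧
    NDeg (Wc r e ∩ Ev n) π (1 / 2 ^ t)

/-- almost degenerate and almost extremal sets are almost merged subcubes -/
def CUBE : Prop := ∀ (n : ℕ) (η δ γ : ℝ) (t : ℕ) (p : Matrix (Fin n) (Fin n) ℝ)
  (B : Finset (X n)), 0 < η → 2 ^ (t + 1) * η ≤ 1 → 0 ≤ δ → 0 < γ → γ ≤ 1 / 40 →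
  δ + t * (400 * γ ^ 2) ≤ 1 / 400 → Proj p → p.trace = t →
  (∀ x ∈ B, rs (p *ᵥ sg x) ≤ (η ^ 2 / 100 * γ) ^ 2) → (1 - δ) / 2 ^ t ≤ den B →
  ∃ r e, Mg t r e ∧ (∀ k, p k k = 0 → ∀ j, r j = k ↔ j = k) ∧
    (1 - δ - t * (400 * γ ^ 2)) / 2 ^ t ≤ den (B ∩ Wc r e)

/-- the same on the even half cube -/
def CEV : Prop := ∀ (n t : ℕ) (S : Finset (X n)) (π0 : Matrix (Fin n) (Fin n) ℝ) (b : ℝ),
  b = 1 / 2 ^ (t + 1) → 1 ≤ n * b ^ 60 → S ⊆ Ev n → Proj π0 → π0.trace = n - t →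
  1 / 2 ^ t - b ^ 60 ≤ mu S → es S (fun x => rs (x0 π0 x)) ≤ b ^ 60 →
  ∃ (π : Matrix (Fin n) (Fin n) ℝ) (S1 : Finset (X n)), Proj π ∧ π.trace = n - t ∧ S1 ⊆ S ∧
    (∀ x ∈ S1, π *ᵥ sg x = sg x) ∧ NDeg S1 π b ∧ b ≤ mu S1 ∧
    mu ((Ev n).filter fun x => π *ᵥ sg x = sg x) ≤ 1 / 2 ^ t

/-- exact linear structure -/
def PASS : Prop := ∀ (θ : ℝ) (n d : ℕ) (S : Finset (X n)) (v : X n → Fin d → ℂ)
  (U0 : Matrix (Fin d) (Fin n) ℂ) (π : Matrix (Fin n) (Fin n) ℝ), 0 < θ → θ ≤ 1 / 2 → 4 ∣ n →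
  1 ≤ n * θ ^ 200 → VRep S v → Proj π → π.trace = d → (n : ℝ) / 2 ≤ d →
  (∀ x ∈ S, π *ᵥ sg x = sg x) → NDeg S π θ → θ ≤ mu S → tau S v U0 ≤ θ ^ 200 * n →
  ∃ (A : Finset (X n)) (U : Matrix (Fin d) (Fin n) ℂ), A ⊆ S ∧ Ph A v (fun x => U *ᵥ sv x) ∧
    Uᴴ * U = cx π ∧ U * Uᴴ = 1 ∧ NDeg A π (θ / 4)

/-- pointwise rank bound -/
def C1 : Prop := ∀ (n d : ℕ) (A : Finset (X n)) (U : Matrix (Fin d) (Fin n) ℂ)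
  (π : Matrix (Fin n) (Fin n) ℝ) (σ : ℝ) (x : X n) (Q : Matrix (Fin d) (Fin d) ℂ), 16 ≤ n →
  Proj π → Uᴴ * U = cx π → U * Uᴴ = 1 → NDeg A π σ → 0 < σ → Q.IsHermitian → Q * Q = Q →
  (∀ y ∈ A, π *ᵥ sg y = sg y) → (∀ y ∈ A, dt x y = 0 → Q *ᵥ (U *ᵥ sv y) = 0) →
  Q.trace.re ≤ 1 + fe A x / σ ^ 2 ∧ (fe A x < σ ^ 2 → Q.trace.re ≤ 1 ∧
    (Q ≠ 0 → Q *ᵥ (U *ᵥ sv x) = U *ᵥ sv x))

/-- representations in small dimension have small support -/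
def C2 : Prop := ∀ (n : ℕ) (Y : Finset (X n)) (π : Matrix (Fin n) (Fin n) ℝ) (t : ℝ), 16 ≤ n →
  4 ∣ n → Y ⊆ Ev n → Proj π → 1 ≤ t → n - π.trace ≤ t → (∀ x ∈ Y, x0 π x ≠ 0) →
  (∀ x ∈ Y, ∀ y ∈ Y, dt x y = 0 → ∑ a, x0 π x a * x0 π y a = 0) →
  mu Y ≤ 1200 * t ^ 2 / (n : ℝ) ^ 2

/-- from the exact structure to the mean rank -/
def SC : Prop := ∀ (n d : ℕ) (P : X n → Matrix (Fin d) (Fin d) ℂ) (A : Finset (X n))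
  (U : Matrix (Fin d) (Fin n) ℂ) (π : Matrix (Fin n) (Fin n) ℝ) (σ t : ℝ), 16 ≤ n → 4 ∣ n →
  PRep P → A ⊆ Ev n → Proj π → Uᴴ * U = cx π → U * Uᴴ = 1 → NDeg A π σ → 0 < σ → σ ≤ 1 →
  1 ≤ t → n - π.trace ≤ t → (∀ y ∈ A, π *ᵥ sg y = sg y) →
  (∀ y ∈ A, P y *ᵥ (U *ᵥ sv y) = U *ᵥ sv y) →
  rk P ≤ mu ((Ev n).filter fun x => π *ᵥ sg x = sg x) +
    (1200 * t ^ 2 + 2 * 10 ^ 7 / σ ^ 4) / (n : ℝ) ^ 2

/-- the sharp bound for one colour -/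
def MAIN : Prop := ∃ K : ℕ, ∀ (n d t : ℕ) (P : X n → Matrix (Fin d) (Fin d) ℂ), 4 ∣ n →
  d + t = n → 2 ^ (K * (t + 1)) ≤ n → PRep P → rk P ≤ 1 / 2 ^ t + 1 / (2 * n * 4 ^ t)

/-- the lower bound for the number of colours -/
def FIN : Prop := ∃ K : ℕ, ∀ n d t : ℕ, 4 ∣ n → d + t = n → 2 ^ (K * (t + 1)) ≤ n →
  d * 2 ^ t ≤ chiD (Omega n) d

/-- upper bound in dimension twice a square -/
def UP2 : Prop := ∀ n m : ℕ, 0 < m → 2 * (m * m) ≤ n →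
  chiD (Omega n) (2 * (m * m)) ≤ 2 * (m * m) * 2 ^ (n - 2 * (m * m))

/-- upper bound in dimension one more than an odd prime power -/
def UPP : Prop := ∀ n q : ℕ, IsPrimePow q → Odd q → q + 1 ≤ n →
  chiD (Omega n) (q + 1) ≤ (q + 1) * 2 ^ (n - (q + 1))

end Pool.Agent.Lib.QE
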