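import Pool.Agent.Lib.MP_5d53d3_co.Lower

/-! Definitions for the sharp lower bound on quantum colourings of the orthogonality graph
in dimension close to `n`. -/

namespace Pool.Agent.Lib.QE

open Finset Matrix Complex Pool.Agent.Lib.MP_5d53d3_co
open scoped BigOperators ComplexConjugate

variable {n d : ℕ} {ι κ : Type}

/-- inner product of two sign vectors -/
def dt (x y : X n) : ℝ := ∑ i, sg x i * sg y i

/-- the even half cube -/
noncomputable def Ev (n : ℕ) : Finset (X n) := univ.filter fun x => ch univ x = 1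

/-- the neighbours of `x` -/
noncomputable def Nb (x : X n) : Finset (X n) := univ.filter fun y => dt x y = 0

/-- sum over `S`, normalised by the size of the even half cube -/
noncomputable def es (S : Finset (X n)) (h : X n → ℝ) : ℝ := (∑ x ∈ S, h x) / (Ev n).card

/-- complex version of `es` -/
noncomputable def ec (S : Finset (X n)) (h : X n → ℂ) : ℂ := (∑ x ∈ S, h x) / (Ev n).card

/-- measure of `S` relative to the even half cube -/
noncomputable def mu (S : Finset (X n)) : ℝ := S.card / (Ev n).card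

/-- sum over the neighbours of `x` in `S`, normalised by the degree -/
noncomputable def tn (S : Finset (X n)) (x : X n) (h : X n → ℝ) : ℝ :=
  (∑ y ∈ S.filter fun y => dt x y = 0, h y) / (Nb x).card

/-- normalised sum over the edges inside `S` -/
noncomputable def ed (S : Finset (X n)) (K : X n → X n → ℝ) : ℝ := es S fun x => tn S x (K x)

/-- squared norm of a complex vector -/
def ns [Fintype ι] (v : ι → ℂ) : ℝ := ∑ a, normSq (v a)

/-- squared Frobenius norm -/
def fs [Fintype ι] [Fintype κ] (A : Matrix ι κ ℂ) : ℝ := ∑ a, ∑ b, normSq (A a b)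

/-- Hermitian inner product -/
def ip [Fintype ι] (v w : ι → ℂ) : ℂ := ∑ a, conj (v a) * w a

/-- squared norm of a real vector -/
def rs (w : Fin n → ℝ) : ℝ := ∑ i, w i ^ 2

/-- a sign vector as a complex vector -/
def sv (x : X n) : Fin n → ℂ := fun i => (sg x i : ℂ)

/-- a real linear form on the cube -/
def lf (w : Fin n → ℝ) (x : X n) : ℝ := ∑ i, w i * sg x i

/-- a real matrix as a complex matrix -/
def cx (π : Matrix (Fin n) (Fin n) ℝ) : Matrix (Fin n) (Fin n) ℂ := π.map fun r => (r : ℂ)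

/-- real orthogonal projector -/
def Proj (π : Matrix (Fin n) (Fin n) ℝ) : Prop := πᵀ = π ∧ π * π = π

/-- second level Fourier coefficient of `1_S g` on the even half cube -/
noncomputable def c2 (S : Finset (X n)) (g : X n → ℝ) (i j : Fin n) : ℝ :=
  if i = j then 0 else es S fun z => sg z i * sg z j * g z

/-- second level part of `1_S g` -/
noncomputable def q2 (S : Finset (X n)) (g : X n → ℝ) (x : X n) : ℝ :=
  1 / 2 * ∑ i, ∑ j, c2 S g i j * (sg x i * sg x j)

/-- complex second level coefficient -/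
noncomputable def a2 (S : Finset (X n)) (g : X n → ℂ) (i j : Fin n) : ℂ :=
  if i = j then 0 else ec S fun z => (sg z i : ℂ) * sg z j * g z

/-- second level mass of a vector valued function -/
noncomputable def w2 [Fintype ι] (S : Finset (X n)) (F : X n → ι → ℂ) : ℝ :=
  1 / 2 * ∑ a, ∑ i, ∑ j, normSq (a2 S (fun z => F z a) i j)

/-- error term of the neighbour covariance -/
noncomputable def er (S : Finset (X n)) (x : X n) (a b : Fin n) : ℝ :=
  tn S x (fun y => sg y a * sg y b) - es S (fun y => sg y a * sg y b) +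
    mu S / (n - 1) * (sg x a * sg x b - if a = b then 1 else 0)

/-- its squared Frobenius norm -/
noncomputable def fe (S : Finset (X n)) (x : X n) : ℝ := ∑ a, ∑ b, er S x a b ^ 2

/-- projector valued function -/
def PV (P : X n → Matrix (Fin d) (Fin d) ℂ) : Prop := ∀ x, (P x).IsHermitian ∧ P x * P x = P x

/-- projector valued orthogonal representation -/
def PRep (P : X n → Matrix (Fin d) (Fin d) ℂ) : Prop :=
  PV P ∧ ∀ x y, dt x y = 0 → P x * P y = 0

/-- mean rank -/
noncomputable def rk (P : X n → Matrix (Fin d) (Fin d) ℂ) : ℝ := es (Ev n) fun x => (P x).trace.re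

/-- mean of `P` -/
noncomputable def mM (P : X n → Matrix (Fin d) (Fin d) ℂ) : Matrix (Fin d) (Fin d) ℂ :=
  Matrix.of fun a b => ec (Ev n) fun z => P z a b

/-- second level coefficients of `P` -/
noncomputable def aA (P : X n → Matrix (Fin d) (Fin d) ℂ) (i j : Fin n) :
    Matrix (Fin d) (Fin d) ℂ := Matrix.of fun a b => a2 (Ev n) (fun z => P z a b) i j

noncomputable def W2 (P : X n → Matrix (Fin d) (Fin d) ℂ) : ℝ := 1 / 2 * ∑ i, ∑ j, fs (aA P i j)

noncomputable def T3 (P : X n → Matrix (Fin d) (Fin d) ℂ) : ℝ :=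
  ∑ i, ∑ j, ∑ k, (aA P i j * aA P j k * aA P k i).trace.re

/-- blocks of the square of the block matrix -/
noncomputable def Xb (P : X n → Matrix (Fin d) (Fin d) ℂ) (i k : Fin n) :
    Matrix (Fin d) (Fin d) ℂ := ∑ j, aA P i j * aA P j k

noncomputable def T4 (P : X n → Matrix (Fin d) (Fin d) ℂ) : ℝ := ∑ i, ∑ k, fs (Xb P i k)

noncomputable def Cr (P : X n → Matrix (Fin d) (Fin d) ℂ) : ℝ :=
  ∑ i, ∑ k, (Xb P k i * Xb P k i).trace.re

/-- `U` is an eigenvector of the block matrix -/
def Eig (P : X n → Matrix (Fin d) (Fin d) ℂ) (U : Matrix (Fin d) (Fin n) ℂ) (k : ℝ) : Prop :=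
  fs U = 1 ∧ ∀ a i, ∑ j, ∑ b, aA P i j a b * U b j = k * U a i

/-- vector valued orthogonal representation on `S`, vectors of squared length `n` -/
def VRep (S : Finset (X n)) (v : X n → Fin d → ℂ) : Prop :=
  S ⊆ Ev n ∧ (∀ x ∈ S, ns (v x) = n) ∧ ∀ x ∈ S, ∀ y ∈ S, dt x y = 0 → ip (v x) (v y) = 0

/-- `v` differs from `v0` by phases on `S` -/
def Ph (S : Finset (X n)) (v0 v : X n → Fin d → ℂ) : Prop :=
  ∀ x ∈ S, ∃ φ : ℂ, normSq φ = 1 ∧ v x = φ • v0 x

/-- residual of the linear fit -/
def eE (v : X n → Fin d → ℂ) (U : Matrix (Fin d) (Fin n) ℂ) (x : X n) : Fin d → ℂ :=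
  v x - U *ᵥ sv x

/-- first order conditions of the joint minimiser -/
structure Fit (S : Finset (X n)) (v : X n → Fin d → ℂ) (π : Matrix (Fin n) (Fin n) ℝ)
    (U : Matrix (Fin d) (Fin n) ℂ) (ε : ℝ) : Prop where
  fix : U * cx π = U
  pt : ∀ x ∈ S, ns (eE v U x) ≤ ε * n
  ls : ∀ c i, ∑ x ∈ S, eE v U x c * ((π *ᵥ sg x) i : ℝ) = 0
  ph : ∀ x ∈ S, (ip (v x) (U *ᵥ sv x)).im = 0

/-- non-degeneracy of the covariance of `S` on the range of `π` -/
def NDeg (S : Finset (X n)) (π : Matrix (Fin n) (Fin n) ℝ) (σ : ℝ) : Prop :=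
  ∀ w : Fin n → ℝ, π *ᵥ w = w → σ * rs w ≤ es S fun x => lf w x ^ 2

/-- the neighbour covariance is non-degenerate at the points of `S` outside `B` -/
def Good (S B : Finset (X n)) (π : Matrix (Fin n) (Fin n) ℝ) (σ : ℝ) : Prop :=
  ∀ x ∈ S, x ∉ B → ∀ w : Fin n → ℝ, π *ᵥ w = w →
    σ / 2 * rs w - lf w x ^ 2 / (n - 1) ≤ tn S x fun y => lf w y ^ 2

/-- component of `x` orthogonal to the range of `π` -/
def x0 (π : Matrix (Fin n) (Fin n) ℝ) (x : X n) : Fin n → ℝ := sg x - π *ᵥ sg x

section B
variable (S : Finset (X n)) (v : X n → Fin d → ℂ) (π : Matrix (Fin n) (Fin n) ℝ)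
  (U : Matrix (Fin d) (Fin n) ℂ)

noncomputable def la : ℝ := fs U / π.trace
noncomputable def dD : Matrix (Fin n) (Fin n) ℂ := Uᴴ * U - (la π U : ℂ) • cx π
def eta (x : X n) : Fin n → ℂ := Uᴴ *ᵥ eE v U x
noncomputable def gG (x : X n) : Fin n → ℂ := dD π U *ᵥ sv x + eta v U x
noncomputable def del : ℝ := fs (dD π U)
noncomputable def HH : ℝ := es S fun x => ns (eta v U x)
noncomputable def tau : ℝ := es S fun x => ns (eE v U x)
noncomputable def NN : ℝ := es S fun x => ns (gG v π U x)
noncomputable def JJ : ℝ := (es S fun x => normSq (ip (gG v π U x) (sv x))) / n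
noncomputable def k1 : ℝ := ed S fun x y => normSq (ip (gG v π U x) (sv y))
noncomputable def LL : ℝ := ∑ a, ∑ b, (es S fun x => x0 π x a * x0 π x b) ^ 2
noncomputable def ZZ : ℝ := es S fun x => rs (x0 π x) ^ 2
noncomputable def g2 : ℝ :=
  ∑ a, ∑ b, normSq (ec S fun x => eE v U x a * conj (eE v U x b))
noncomputable def aa : ℝ := ed S fun x y => (la π U * ∑ a, x0 π x a * x0 π y a) ^ 2

end B

/-- a merging pattern: `t` coordinates `j` are tied to `r j` with sign `e j` -/
structure Mg (t : ℕ) (r : Fin n → Fin n) (e : X n) : Prop where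
  card : (univ.filter fun j => r j ≠ j).card = t
  idem : ∀ j, r (r j) = r j
  one : ∀ j, r j = j → e j = 1

/-- the retraction onto the merged subcube -/
def ph (r : Fin n → Fin n) (e x : X n) : X n := fun j => e j * x (r j)

/-- the merged subcube -/
def Wc (r : Fin n → Fin n) (e : X n) : Finset (X n) := univ.filter fun x => ph r e x = x

/-- pull back of a linear form along `ph` -/
def pull (r : Fin n → Fin n) (e : X n) (w : Fin n → ℝ) : Fin n → ℝ :=
  fun i => ∑ j ∈ univ.filter fun j => r j = i, w j * sg e j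

end Pool.Agent.Lib.QE
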