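import Pool.Agent.Lib.QE.B_UP2
import Pool.Agent.Lib.QE.B_UPP

/-! Upper bound without loss when the Fourier factor divides `n`. -/

open Finset Complex
open scoped BigOperators Matrix ComplexConjugate Kronecker

namespace Pool.Agent.Lib.QE

open Pool.Agent.Lib.MP_5d53d3_co

namespace UpA

/-- a unitary matrix whose squared moduli are class sizes gives a colouring -/
theorem core2 {ι τ : Type} [Fintype ι] [DecidableEq ι] [Fintype τ] [DecidableEq τ] {n : ℕ}
    (E : ι ⊕ τ ≃ Fin n) (M : Matrix ι ι ℂ) (hM : M * Mᴴ = 1) (cl : ι → τ → ι)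
    (hf : ∀ j k, normSq (M j k) * n = 1 + (univ.filter fun s => cl k s = j).card) :
    chiD (Omega n) (Fintype.card ι) ≤ Fintype.card ι * 2 ^ Fintype.card τ := by
  have hM' : Mᴴ * M = 1 := mul_eq_one_comm.1 hM
  have hcol : ∀ k, ∑ j, normSq (M j k) = 1 := fun k ↦ by
    have := congrArg Complex.re (congrFun (congrFun hM' k) k)
    simpa [Matrix.mul_apply, Complex.re_sum, normSq_apply] using this
  set lab : ι → X n → τ → ℤˣ := fun k x s ↦ x (E (.inr s)) * x (E (.inl (cl k s))) with hlab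
  set u : X n → ι → ι → ℂ := fun x k j ↦ (sg x (E (.inl j)) : ℂ) * M j k with hu
  have hdot : ∀ x y k, star (u x k) ⬝ᵥ u y k =
      ((∑ j, sg x (E (.inl j)) * sg y (E (.inl j)) * normSq (M j k) : ℝ) : ℂ) := fun x y k ↦ by
    simp only [dotProduct, hu, Pi.star_apply, ofReal_sum, ofReal_mul, normSq_eq_conj_mul_self]
    exact Finset.sum_congr rfl fun j _ ↦ by simp; ring
  refine (chiD_le (C := ι × (τ → ℤˣ)) (Omega n)
    (fun x c ↦ if lab c.1 x = c.2 then Matrix.vecMulVec (u x c.1) (star (u x c.1)) else 0)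
    (fun x c ↦ ?_) (fun x ↦ ?_) fun x y h c ↦ ?_).trans (le_of_eq ?_)
  · split_ifs
    · refine ⟨?_, ?_⟩
      · ext i j
        simp [Matrix.vecMulVec_apply, mul_comm]
      · rw [Matrix.vecMulVec_mul_vecMulVec, hdot]
        simp only [sg_sq, one_mul, hcol, ofReal_one, one_smul]
    · simp
  · rw [Fintype.sum_prod_type]
    simp only [Finset.sum_ite_eq, mem_univ, if_true]
    ext i j
    have h1 := congrFun (congrFun hM i) j
    simp only [Matrix.mul_apply, Matrix.conjTranspose_apply] at h1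
    have h2 : ∑ k, Matrix.vecMulVec (u x k) (star (u x k)) i j =
        (sg x (E (.inl i)) * sg x (E (.inl j)) : ℝ) * ∑ k, M i k * star (M j k) := by
      rw [Finset.mul_sum]
      exact Finset.sum_congr rfl fun k _ ↦ by simp [Matrix.vecMulVec_apply, hu]; ring
    rw [Matrix.sum_apply, h2, h1]
    by_cases hij : i = j
    · simp [hij, sg_sq]
    · simp [Matrix.one_apply_ne hij]
  · obtain ⟨k, σ⟩ := c
    dsimp only
    split_ifs with h1 h2
    · set p : ι → ℝ := fun j ↦ sg x (E (.inl j)) * sg y (E (.inl j)) with hp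
      have h3 : ∀ s, sg x (E (.inr s)) * sg y (E (.inr s)) = p (cl k s) := fun s ↦ by
        have h4 := congrFun (h1.trans h2.symm) s
        have h5 : sg x (E (.inr s)) * sg x (E (.inl (cl k s))) =
            sg y (E (.inr s)) * sg y (E (.inl (cl k s))) := by
          have := congrArg (fun t : ℤˣ ↦ ((t : ℤ) : ℝ)) h4
          simpa [hlab, sg] using this
        simp only [hp]
        linear_combination (sg y (E (.inr s)) * sg x (E (.inl (cl k s)))) * h5 -
          (sg x (E (.inr s)) * sg y (E (.inr s))) * sg_sq x (E (.inl (cl k s))) +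
          (sg x (E (.inl (cl k s))) * sg y (E (.inl (cl k s)))) * sg_sq y (E (.inr s))
      have h4 := sum_sg_of_adj h
      rw [← E.sum_comp, Fintype.sum_sum_type, Finset.sum_congr rfl fun s _ ↦ h3 s,
        ← Finset.sum_fiberwise univ (cl k) fun s ↦ p (cl k s), ← Finset.sum_add_distrib] at h4
      have h6 : ∑ j, p j * normSq (M j k) = 0 := by
        have h7 : (n : ℝ) ≠ 0 := by exact_mod_cast (Fin.pos (E (.inl k))).ne'
        refine mul_right_cancel₀ h7 ?_
        rw [zero_mul, Finset.sum_mul, ← h4]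
        refine Finset.sum_congr rfl fun j _ ↦ ?_
        rw [mul_assoc, hf, Finset.sum_congr rfl fun s hs ↦ by rw [(Finset.mem_filter.1 hs).2],
          Finset.sum_const, nsmul_eq_mul]
        ring
      rw [Matrix.vecMulVec_mul_vecMulVec, hdot, h6]
      simp
    · simp
    · simp
    · simp
  · simp [Fintype.card_units_int]

theorem upper_dvd {β : Type} [Fintype β] [DecidableEq β] (hβ : Flat β) {n a s : ℕ} (ha : 0 < a)
    (h : a * Fintype.card β + a * s = n) :
    chiD (Omega n) (a * Fintype.card β) ≤ a * Fintype.card β * 2 ^ (a * s) := by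
  have : NeZero a := ⟨ha.ne'⟩
  have ha' : (0 : ℝ) < a := by positivity
  have hn : (n : ℝ) = a * (Fintype.card β + s) := by rw [← h]; push_cast; ring
  obtain ⟨M, h1, h2⟩ := hβ (Fintype.card β + s) (by simp)
  have hM' : Mᴴ * M = 1 := mul_eq_one_comm.1 h1
  have hdiag : ∀ k, normSq (M k k) * (Fintype.card β + s) = 1 + s := fun k ↦ by
    have h3 : ∑ j, normSq (M j k) = 1 := by
      have := congrArg Complex.re (congrFun (congrFun hM' k) k)
      simpa [Matrix.mul_apply, Complex.re_sum, normSq_apply] using this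
    have hc : 1 ≤ Fintype.card β := Fintype.card_pos_iff.2 ⟨k⟩
    have hc' : (1 : ℝ) ≤ Fintype.card β := by exact_mod_cast hc
    rw [← Finset.add_sum_erase _ _ (mem_univ k), Finset.sum_congr rfl fun j hj ↦
      h2 j k (Finset.ne_of_mem_erase hj), Finset.sum_const, Finset.card_erase_of_mem (mem_univ k),
      card_univ, nsmul_eq_mul, Nat.cast_sub hc] at h3
    have h4 : (Fintype.card β + s : ℝ) ≠ 0 := by positivity
    field_simp at h3
    push_cast at h3
    linarith
  set F : Matrix (ZMod a) (ZMod a) ℂ := fun x y ↦ ((√a)⁻¹ : ℝ) * ZMod.stdAddChar (y * x) with hF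
  have hs : ((√a)⁻¹ : ℝ) * (√a)⁻¹ = (a : ℝ)⁻¹ := by rw [← mul_inv, Real.mul_self_sqrt ha'.le]
  have h3 : F * Fᴴ = 1 := by
    ext x y
    have : ∀ z, F x z * star (F y z) = ((a : ℝ)⁻¹ : ℝ) * ZMod.stdAddChar (z * (x - y)) := fun z ↦ by
      simp only [hF, star_mul', RCLike.star_def, conj_ofReal, ← AddChar.map_neg_eq_conj, ← hs,
        sub_eq_add_neg, mul_add, mul_neg, AddChar.map_add_eq_mul, ofReal_mul]
      ring
    simp only [Matrix.mul_apply, Matrix.conjTranspose_apply, this, ← Finset.mul_sum,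
      sum_psi (ZMod.isPrimitive_stdAddChar a), sub_eq_zero, Matrix.one_apply, ZMod.card]
    split_ifs <;> simp [ha.ne']
  obtain ⟨E⟩ : Nonempty ((ZMod a × β) ⊕ (ZMod a × Fin s) ≃ Fin n) :=
    ⟨Fintype.equivFinOfCardEq (by simpa using h)⟩
  have := core2 E (F ⊗ₖ M)
    (by rw [Matrix.conjTranspose_kronecker, ← Matrix.mul_kronecker_mul, h1, h3,
      Matrix.one_kronecker_one]) (fun k t ↦ (t.1, k.2)) fun j k ↦ by
      rw [Matrix.kroneckerMap_apply, map_mul, hF]
      simp only [map_mul, normSq_ofReal, hs, normSq_psi, hn]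
      by_cases hjk : j.2 = k.2
      · have e : (univ.filter fun t : ZMod a × Fin s ↦ (t.1, k.2) = j) = {j.1} ×ˢ univ := by
          ext t
          simp [Prod.ext_iff, hjk, eq_comm]
        rw [e, hjk, ← mul_assoc, mul_one, mul_right_comm _ _ (a : ℝ), inv_mul_cancel₀ ha'.ne',
          one_mul, hdiag]
        simp
      · have e : (univ.filter fun t : ZMod a × Fin s ↦ (t.1, k.2) = j) = ∅ := by
          ext t
          simp [Prod.ext_iff, Ne.symm hjk]
        have hc : (0 : ℝ) < Fintype.card β := by exact_mod_cast Fintype.card_pos_iff.2 ⟨k.2⟩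
        rw [e, h2 _ _ hjk]
        simp only [card_empty, Nat.cast_zero, add_zero]
        field_simp
  simpa using this

theorem flat_ex {b : ℕ} (h0 : 0 < b) (hb : IsPrimePow b ∨ (∃ q, IsPrimePow q ∧ Odd q ∧ b = q + 1) ∨
    IsSquare b ∨ IsSquare (2 * b)) :
    ∃ (β : Type) (_ : Fintype β) (_ : DecidableEq β), Flat β ∧ Fintype.card β = b := by
  classical
  rcases hb with hb | ⟨q, hq, ho, rfl⟩ | ⟨D, rfl⟩ | ⟨D, hD⟩
  · obtain ⟨p, k, hp, hk, rfl⟩ := (isPrimePow_nat_iff b).1 hb
    have := Fact.mk hp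
    have := Fintype.ofFinite (GaloisField p k)
    refine ⟨GaloisField p k, this, inferInstance, ?_, by
      rw [← Nat.card_eq_fintype_card, GaloisField.card p k hk.ne']⟩
    by_cases h2 : p = 2
    · subst h2
      exact flat_two _
    · exact flat_odd _ (by rwa [ringChar.eq (GaloisField p k) p])
  · obtain ⟨p, k, hp, hk, rfl⟩ := (isPrimePow_nat_iff q).1 hq
    have := Fact.mk hp
    have := Fintype.ofFinite (GaloisField p k)
    have h2 : p ≠ 2 := by
      rintro rfl
      exact Nat.not_even_iff_odd.2 ho (Nat.even_pow.2 ⟨even_two, hk.ne'⟩)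
    exact ⟨Option (GaloisField p k), inferInstance, inferInstance,
      UPPh.flat_opt _ (by rwa [ringChar.eq (GaloisField p k) p]), by
      rw [Fintype.card_option, ← Nat.card_eq_fintype_card, GaloisField.card p k hk.ne']⟩
  · have : NeZero D := ⟨by rintro rfl; simp at h0⟩
    exact ⟨ZMod D × ZMod D, inferInstance, inferInstance, flat_sq D, by simp⟩
  · obtain ⟨m, rfl⟩ : 2 ∣ D := (Nat.prime_two.dvd_mul.1 ⟨b, hD.symm⟩).elim id id
    have : NeZero m := ⟨by rintro rfl; omega⟩
    exact ⟨ZMod 2 × (ZMod m × ZMod m), inferInstance, inferInstance, UP2h.flat_two_sq m, by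
      simp only [Fintype.card_prod, ZMod.card]
      nlinarith⟩

end UpA

theorem upper_exact {n a b t : ℕ} (h0 : 0 < a * b) (h : a * b + t = n) (ha : a ∣ n)
    (hb : IsPrimePow b ∨ (∃ q, IsPrimePow q ∧ Odd q ∧ b = q + 1) ∨ IsSquare b ∨
      IsSquare (2 * b)) : chiD (Omega n) (a * b) ≤ a * b * 2 ^ t := by
  obtain ⟨β, _, _, h1, rfl⟩ := UpA.flat_ex (Nat.pos_of_mul_pos_left h0) hb
  obtain ⟨s, rfl⟩ : a ∣ t := (Nat.dvd_add_right (dvd_mul_right a _)).1 (h ▸ ha)
  exact UpA.upper_dvd h1 (Nat.pos_of_mul_pos_right h0) h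

end Pool.Agent.Lib.QE
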