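import Pool.Agent.Lib.QE.B_A0
import Pool.Agent.Lib.QE.B_A1
import Pool.Agent.Lib.QE.B_A2
import Pool.Agent.Lib.QE.B_A2B
import Pool.Agent.Lib.QE.B_A3
import Pool.Agent.Lib.QE.B_A4
import Pool.Agent.Lib.QE.B_SA
import Pool.Agent.Lib.QE.B_JM
import Pool.Agent.Lib.QE.B_BN
import Pool.Agent.Lib.QE.B_BCR
import Pool.Agent.Lib.QE.B_BALG
import Pool.Agent.Lib.QE.B_BNUM
import Pool.Agent.Lib.QE.B_SB
import Pool.Agent.Lib.QE.B_GSTEP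
import Pool.Agent.Lib.QE.B_GAP
import Pool.Agent.Lib.QE.B_FEJ
import Pool.Agent.Lib.QE.B_FKN
import Pool.Agent.Lib.QE.B_MG
import Pool.Agent.Lib.QE.B_CUBE
import Pool.Agent.Lib.QE.B_CEV
import Pool.Agent.Lib.QE.B_PASS
import Pool.Agent.Lib.QE.B_C1
import Pool.Agent.Lib.QE.B_C2
import Pool.Agent.Lib.QE.B_MAIN
import Pool.Agent.Lib.QE.UpA

/-! Assembly. -/

namespace Pool.Agent.Lib.QE

open Pool.Agent.Lib.MP_5d53d3_co

theorem sb_all : SB := st_SB st_BN st_BLOW st_BCR st_BOM st_BALG st_BJ st_BNUM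

theorem fin_all : FIN :=
  st_FIN (st_MAIN (st_SA st_A0 st_A1 st_A2 st_A2B st_A3 st_A4) (st_GAP (st_GSTEP st_JM sb_all))
    (st_CEV (st_CUBE st_FEJ st_FKN st_MG0) st_MG0 st_MG1) (st_PASS st_JM sb_all)
    (st_SC st_C1 st_C2))

theorem exact_all : ∃ K : ℕ, ∀ n a b t : ℕ, 4 ∣ n → a * b + t = n → 2 ^ (K * (t + 1)) ≤ n →
    a ∣ n → (IsPrimePow b ∨ (∃ q, IsPrimePow q ∧ Odd q ∧ b = q + 1) ∨ IsSquare b ∨
      IsSquare (2 * b)) → chiD (Omega n) (a * b) = a * b * 2 ^ t := by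
  obtain ⟨K, hK⟩ := fin_all
  refine ⟨K + 1, fun n a b t h4 h hn ha hb => le_antisymm (upper_exact ?_ h ha hb)
    (hK n _ t h4 h (le_trans (Nat.pow_le_pow_right two_pos (by nlinarith)) hn))⟩
  have h1 : t + 1 < 2 ^ (t + 1) := Nat.lt_two_pow_self
  have h2 : 2 ^ (t + 1) ≤ 2 ^ ((K + 1) * (t + 1)) := Nat.pow_le_pow_right two_pos (by nlinarith)
  omega

end Pool.Agent.Lib.QE
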