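import Pool.Agent.Lib.QE.B_CT

/-! Helpers for projector valued functions and phases. -/

namespace Pool.Agent.Lib.QE

open Finset Matrix Complex Pool.Agent.Lib.MP_5d53d3_co
open scoped BigOperators ComplexConjugate

variable {n d : ℕ} {P : X n → Matrix (Fin d) (Fin d) ℂ} {m : ℝ}

theorem PV.herm (h : PV P) (x : X n) : (P x)ᴴ = P x := (h x).1

theorem PV.fs_eq (h : PV P) (x : X n) : fs (P x) = (P x).trace.re := by
  rw [fs_eq_re, h.herm, (h x).2]

theorem PV.trace_nonneg (h : PV P) (x : X n) : 0 ≤ (P x).trace.re := h.fs_eq x ▸ fs_nonneg _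

theorem PV.rk_eq (h : PV P) : rk P = es (Ev n) fun x => fs (P x) :=
  es_congr fun x _ => (h.fs_eq x).symm

theorem PV.rk_nonneg (h : PV P) : 0 ≤ rk P := es_nonneg fun x _ => h.trace_nonneg x

theorem PV.ns_eq (h : PV P) (x : X n) (w : Fin d → ℂ) :
    ns (P x *ᵥ w) = (ip w (P x *ᵥ w)).re := by
  have := ip_self (P x *ᵥ w)
  rw [ip_mulVec, h.herm, Matrix.mulVec_mulVec, (h x).2] at this
  rw [this, ofReal_re]

theorem sum_fs_aA (P : X n → Matrix (Fin d) (Fin d) ℂ) : ∑ i, ∑ j, fs (aA P i j) = 2 * W2 P := by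
  unfold W2; ring

theorem W2_nonneg (P : X n → Matrix (Fin d) (Fin d) ℂ) : 0 ≤ W2 P :=
  mul_nonneg (by norm_num) (sum_nonneg fun _ _ => sum_nonneg fun _ _ => fs_nonneg _)

theorem aA_symm (P : X n → Matrix (Fin d) (Fin d) ℂ) (i j : Fin n) : aA P i j = aA P j i := by
  ext a b
  simp only [aA, a2, Matrix.of_apply, eq_comm (a := i), mul_comm (sg _ i : ℂ)]

theorem aA_diag (P : X n → Matrix (Fin d) (Fin d) ℂ) (i : Fin n) : aA P i i = 0 := by
  ext a b
  simp [aA, a2]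

theorem PV.conj_apply (h : PV P) (x : X n) (a b : Fin d) : conj (P x a b) = P x b a :=
  congrFun (congrFun (h.herm x) b) a

theorem PV.aA_herm (h : PV P) (i j : Fin n) : (aA P i j)ᴴ = aA P i j := by
  ext a b
  simp only [aA, a2, Matrix.conjTranspose_apply, Matrix.of_apply, RCLike.star_def]
  split_ifs
  · simp
  · rw [ec_conj]
    exact ec_congr fun x _ => by rw [map_mul, map_mul, conj_ofReal, conj_ofReal, h.conj_apply]

theorem PV.mM_herm (h : PV P) : (mM P)ᴴ = mM P := by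
  ext a b
  simp only [mM, Matrix.conjTranspose_apply, Matrix.of_apply, RCLike.star_def]
  rw [ec_conj]
  exact ec_congr fun x _ => h.conj_apply x b a

theorem PV.Xb_herm (h : PV P) (i k : Fin n) : (Xb P i k)ᴴ = Xb P k i := by
  simp only [Xb, Matrix.conjTranspose_sum, Matrix.conjTranspose_mul, h.aA_herm]
  exact sum_congr rfl fun j _ => by rw [aA_symm P j k, aA_symm P i j]

theorem aA_eq (P : X n → Matrix (Fin d) (Fin d) ℂ) (i j : Fin n) (a b : Fin d) :
    aA P i j a b = (ec (Ev n) fun z => (sg z i : ℂ) * sg z j * P z a b) -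
      if i = j then mM P a b else 0 := by
  simp only [aA, a2, mM, Matrix.of_apply]
  split_ifs with h
  · subst h
    rw [eq_comm, sub_eq_zero]
    exact ec_congr fun z _ => by rw [← ofReal_mul, sg_sq, ofReal_one, one_mul]
  · rw [sub_zero]

/-- the mean of a weighted matrix valued function commutes with a trace pairing -/
theorem ec_trace (S : Finset (X n)) (c : X n → ℂ) (P : X n → Matrix (Fin d) (Fin d) ℂ)
    (A : Matrix (Fin d) (Fin d) ℂ) : (ec S fun z => c z * (A * P z).trace) =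
      (A * Matrix.of fun a b => ec S fun z => c z * P z a b).trace := by
  simp only [Matrix.trace, Matrix.diag, Matrix.mul_apply, Matrix.of_apply, Finset.mul_sum, ec_sum,
    ← ec_mul]
  exact sum_congr rfl fun a _ => sum_congr rfl fun b _ => ec_congr fun z _ => by ring

theorem ec_trace_mM (P : X n → Matrix (Fin d) (Fin d) ℂ) (A : Matrix (Fin d) (Fin d) ℂ) :
    (ec (Ev n) fun z => (A * P z).trace) = (A * mM P).trace := by
  have := ec_trace (Ev n) (fun _ => 1) P A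
  simpa only [one_mul, mM] using this

theorem ec_trace_aA (P : X n → Matrix (Fin d) (Fin d) ℂ) (A : Matrix (Fin d) (Fin d) ℂ)
    (i j : Fin n) : (ec (Ev n) fun z => (sg z i : ℂ) * sg z j * (A * P z).trace) =
      (A * aA P i j).trace + if i = j then (A * mM P).trace else 0 := by
  rw [ec_trace]
  have : (Matrix.of fun a b => ec (Ev n) fun z => (sg z i : ℂ) * sg z j * P z a b) =
      aA P i j + if i = j then mM P else 0 := by
    ext a b
    rw [Matrix.add_apply, aA_eq, Matrix.of_apply]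
    split_ifs <;> simp
  rw [this, Matrix.mul_add, Matrix.trace_add]
  split_ifs <;> simp

theorem ec_ip (S : Finset (X n)) (c : X n → ℂ) (P : X n → Matrix (Fin d) (Fin d) ℂ)
    (u w : Fin d → ℂ) : (ec S fun z => c z * ip u (P z *ᵥ w)) =
      ip u ((Matrix.of fun a b => ec S fun z => c z * P z a b) *ᵥ w) := by
  simp only [ip, Matrix.mulVec, dotProduct, Matrix.of_apply, Finset.mul_sum, ec_sum, ← ec_mul,
    ← ec_mul']
  exact sum_congr rfl fun a _ => sum_congr rfl fun b _ => ec_congr fun z _ => by ring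

theorem ec_ip_mM (P : X n → Matrix (Fin d) (Fin d) ℂ) (u w : Fin d → ℂ) :
    (ec (Ev n) fun z => ip u (P z *ᵥ w)) = ip u (mM P *ᵥ w) := by
  have := ec_ip (Ev n) (fun _ => 1) P u w
  simpa only [one_mul, mM] using this

theorem ec_ip_aA (P : X n → Matrix (Fin d) (Fin d) ℂ) (u w : Fin d → ℂ) (i j : Fin n) :
    (ec (Ev n) fun z => (sg z i : ℂ) * sg z j * ip u (P z *ᵥ w)) =
      ip u (aA P i j *ᵥ w) + if i = j then ip u (mM P *ᵥ w) else 0 := by
  rw [ec_ip]
  have : (Matrix.of fun a b => ec (Ev n) fun z => (sg z i : ℂ) * sg z j * P z a b) =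
      aA P i j + if i = j then mM P else 0 := by
    ext a b
    rw [Matrix.add_apply, aA_eq, Matrix.of_apply]
    split_ifs <;> simp
  rw [this, Matrix.add_mulVec, ip_add_right]
  split_ifs <;> simp [ip_zero_right]

theorem ns_mulVec_le_sq {ι κ : Type} [Fintype ι] [Fintype κ] {M : Matrix ι κ ℂ}
    (hM : fs M ≤ m ^ 2) (w : κ → ℂ) : ns (M *ᵥ w) ≤ m ^ 2 * ns w :=
  (ns_mulVec_le M w).trans (mul_le_mul_of_nonneg_right hM (ns_nonneg w))

theorem form_le {ι : Type} [Fintype ι] {M : Matrix ι ι ℂ} (hm : 0 ≤ m) (hM : fs M ≤ m ^ 2)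
    (w : ι → ℂ) : |(ip w (M *ᵥ w)).re| ≤ m * ns w := by
  refine abs_le_of_sq_le_sq' ?_ (mul_nonneg hm (ns_nonneg w)) |> abs_le.2
  have h1 := re_ip_sq_le w (M *ᵥ w)
  have h2 := mul_le_mul_of_nonneg_left (ns_mulVec_le_sq hM w) (ns_nonneg w)
  nlinarith

theorem PV.es_ns (h : PV P) (w : Fin d → ℂ) :
    (es (Ev n) fun z => ns (P z *ᵥ w)) = (ip w (mM P *ᵥ w)).re := by
  rw [← ec_ip_mM, ec_re]
  exact es_congr fun z _ => h.ns_eq z w

theorem PV.form_nonneg (h : PV P) (w : Fin d → ℂ) : 0 ≤ (ip w (mM P *ᵥ w)).re :=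
  h.es_ns w ▸ es_nonneg fun _ _ => ns_nonneg _

theorem PV.es_ns_le (h : PV P) (hm : 0 ≤ m) (hM : fs (mM P) ≤ m ^ 2) (w : Fin d → ℂ) :
    (es (Ev n) fun z => ns (P z *ᵥ w)) ≤ m * ns w :=
  (h.es_ns w).trans_le ((le_abs_self _).trans (form_le hm hM w))

theorem fs_mul_cols {ι κ μ : Type} [Fintype ι] [Fintype κ] [Fintype μ] (A : Matrix ι κ ℂ)
    (B : Matrix κ μ ℂ) : fs (A * B) = ∑ c, ns (A *ᵥ fun b => B b c) := fs_eq_cols _

theorem PV.es_fs_le {κ : Type} [Fintype κ] (h : PV P) (hm : 0 ≤ m) (hM : fs (mM P) ≤ m ^ 2)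
    (B : Matrix (Fin d) κ ℂ) : (es (Ev n) fun z => fs (P z * B)) ≤ m * fs B := by
  simp only [fs_mul_cols]
  rw [es_sum, fs_eq_cols, Finset.mul_sum]
  exact sum_le_sum fun c _ => h.es_ns_le hm hM _

theorem PV.bes_vec (h : PV P) (hn : 8 < n) (hm : 0 ≤ m) (hM : fs (mM P) ≤ m ^ 2)
    (w : Fin d → ℂ) : ∑ i, ∑ j, ns (aA P i j *ᵥ w) ≤ 4 * m * ns w := by
  have h1 : ∀ i j a, (aA P i j *ᵥ w) a = a2 (Ev n) (fun z => (P z *ᵥ w) a) i j := by
    intro i j a
    simp only [aA, a2, Matrix.mulVec, dotProduct, Matrix.of_apply]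
    split_ifs
    · simp
    · simp only [Finset.mul_sum, ec_sum, ← ec_mul']
      exact sum_congr rfl fun b _ => ec_congr fun z _ => by ring
  have h2 : ∑ i, ∑ j, ns (aA P i j *ᵥ w) =
      ∑ a, ∑ i, ∑ j, normSq (a2 (Ev n) (fun z => (P z *ᵥ w) a) i j) := by
    simp only [ns, h1]
    rw [Finset.sum_comm]
    refine (sum_congr rfl fun j _ => Finset.sum_comm).trans ?_
    rw [Finset.sum_comm]
    exact sum_congr rfl fun a _ => Finset.sum_comm
  have h3 := h.es_ns_le hm hM w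
  rw [h2]
  refine (sum_le_sum fun a _ => sum_a2_le hn subset_rfl _).trans ?_
  rw [← Finset.mul_sum, ← es_sum]
  unfold ns at h3 ⊢
  linarith

theorem PV.bes_mat {κ : Type} [Fintype κ] (h : PV P) (hn : 8 < n) (hm : 0 ≤ m)
    (hM : fs (mM P) ≤ m ^ 2) (B : Matrix (Fin d) κ ℂ) :
    ∑ i, ∑ j, fs (aA P i j * B) ≤ 4 * m * fs B := by
  simp only [fs_mul_cols]
  rw [fs_eq_cols, Finset.mul_sum]
  refine le_trans (le_of_eq ?_) (sum_le_sum fun c _ => h.bes_vec hn hm hM fun b => B b c)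
  refine (sum_congr rfl fun i _ => Finset.sum_comm).trans Finset.sum_comm

theorem PV.W2_le (h : PV P) (hn : 8 < n) : W2 P ≤ 2 * rk P := by
  have : ∑ i, ∑ j, fs (aA P i j) =
      ∑ a, ∑ b, ∑ i, ∑ j, normSq (a2 (Ev n) (fun z => P z a b) i j) := by
    simp only [fs, aA, Matrix.of_apply]
    have e : ∀ f : Fin n → Fin n → Fin d → Fin d → ℝ,
        ∑ i, ∑ j, ∑ a, ∑ b, f i j a b = ∑ a, ∑ b, ∑ i, ∑ j, f i j a b := fun f => by
      rw [← Fintype.sum_prod_type' (fun i j => ∑ a, ∑ b, f i j a b), Finset.sum_comm]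
      refine sum_congr rfl fun a _ => ?_
      rw [Finset.sum_comm]
      exact sum_congr rfl fun b _ => Fintype.sum_prod_type' fun i j => f i j a b
    exact e _
  rw [sum_fs_aA] at this
  have h2 : ∑ a, ∑ b, ∑ i, ∑ j, normSq (a2 (Ev n) (fun z => P z a b) i j) ≤
      ∑ a, ∑ b, 4 * es (Ev n) fun z => normSq (P z a b) :=
    sum_le_sum fun a _ => sum_le_sum fun b _ => sum_a2_le hn subset_rfl _
  simp only [← Finset.mul_sum, ← es_sum] at h2
  rw [h.rk_eq]
  unfold fs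
  linarith

section Phase
variable {S T : Finset (X n)} {u v w : X n → Fin d → ℂ}

theorem Ph.refl (S : Finset (X n)) (v : X n → Fin d → ℂ) : Ph S v v :=
  fun x _ => ⟨1, by simp, by simp⟩

theorem Ph.mono (h : Ph S v w) (hT : T ⊆ S) : Ph T v w := fun x hx => h x (hT hx)

theorem Ph.trans (h1 : Ph S u v) (h2 : Ph S v w) : Ph S u w := fun x hx => by
  obtain ⟨a, ha, e1⟩ := h1 x hx
  obtain ⟨b, hb, e2⟩ := h2 x hx
  exact ⟨b * a, by rw [map_mul, ha, hb, one_mul], by rw [e2, e1, smul_smul]⟩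

theorem VRep.ph (h : VRep S v) (hT : T ⊆ S) (hp : Ph T v w) : VRep T w := by
  refine ⟨hT.trans h.1, fun x hx => ?_, fun x hx y hy hxy => ?_⟩
  · obtain ⟨a, ha, e⟩ := hp x hx
    rw [e, ns_smul, ha, one_mul, h.2.1 x (hT hx)]
  · obtain ⟨a, -, e1⟩ := hp x hx
    obtain ⟨b, -, e2⟩ := hp y hy
    rw [e1, e2, ip_smul_left, ip_smul_right, h.2.2 x (hT hx) y (hT hy) hxy, mul_zero, mul_zero]

theorem VRep.mono (h : VRep S v) (hT : T ⊆ S) : VRep T v := h.ph hT (Ph.refl T v)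

theorem tau_nonneg (S : Finset (X n)) (v : X n → Fin d → ℂ) (U : Matrix (Fin d) (Fin n) ℂ) :
    0 ≤ tau S v U := es_nonneg fun _ _ => ns_nonneg _

theorem tau_mono (hT : T ⊆ S) (v : X n → Fin d → ℂ) (U : Matrix (Fin d) (Fin n) ℂ) :
    tau T v U ≤ tau S v U := es_subset hT fun _ _ => ns_nonneg _

end Phase

end Pool.Agent.Lib.QE
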